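import Pool.Agent.Lib.MP_d01072_ag.Bp.Spec

/-! MP_d01072_ag, package Bp: algebraic independence of the coordinates of a general power sum. -/

set_option autoImplicit false

namespace Pool.Agent.Lib.MP_d01072_ag.Bp

theorem t_AHn (h1 : S_Rk) (h2 : S_Am) (h3 : S_Cor) : S_AHn := by
  intro n hn
  obtain ⟨E, hE⟩ := h3 n hn
  refine ⟨E, fun d h hd => ?_⟩
  obtain ⟨Z, hZ⟩ := (h2 n d h).1
  obtain ⟨m, J, hJ, hm⟩ := h1 n d h Z
  rw [hZ] at hm
  refine ⟨m, J, hJ, by omega, ?_⟩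
  rcases hE d h hd with hc | hc
  · left
    omega
  · right
    omega

end Pool.Agent.Lib.MP_d01072_ag.Bp
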