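import Pool.Agent.Lib.MP_d01072_ag.Bp.Spec

/-! MP_d01072_ag, package Bp: all symmetric tensors. -/

set_option autoImplicit false

namespace Pool.Agent.Lib.MP_d01072_ag.Bp

open MvPolynomial

/-- the content of an arrangement -/
private def ctt {n d : ℕ} (i : Fin d → Fin (n + 1)) : Sym (Fin (n + 1)) d :=
  ⟨(Finset.univ : Finset (Fin d)).val.map i, by
    rw [Multiset.card_map, Finset.card_val, Finset.card_univ, Fintype.card_fin]⟩

private theorem ctt_perm {n d : ℕ} (i i' : Fin d → Fin (n + 1)) (h : ctt i = ctt i') :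
    ∃ σ : Equiv.Perm (Fin d), ∀ t, i' (σ t) = i t := by
  have hm : (Finset.univ : Finset (Fin d)).val.map i = (Finset.univ : Finset (Fin d)).val.map i' :=
    congrArg Subtype.val h
  have hc : ∀ x, Fintype.card {t // i t = x} = Fintype.card {t // i' t = x} := by
    intro x
    have h2 := congrArg (Multiset.count x) hm
    rw [Multiset.count_map, Multiset.count_map] at h2
    rw [Fintype.card_subtype, Fintype.card_subtype]
    have e : ∀ f : Fin d → Fin (n + 1), (Finset.univ.filter fun t => f t = x).card =
        ((Finset.univ : Finset (Fin d)).val.filter fun t => x = f t).card := by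
      intro f
      rw [Finset.card_def, Finset.filter_val]
      congr 1
      exact Multiset.filter_congr fun t _ => eq_comm
    rw [e, e]
    exact h2
  have he : ∀ x, Nonempty ({t // i t = x} ≃ {t // i' t = x}) := fun x =>
    ⟨Fintype.equivOfCardEq (hc x)⟩
  exact ⟨Equiv.ofFiberEquiv fun x => (he x).some, fun t => Equiv.ofFiberEquiv_map _ t⟩

private theorem par_perm {n d : ℕ} (h : ℕ) (i i' : Fin d → Fin (n + 1)) (σ : Equiv.Perm (Fin d))
    (hσ : ∀ t, i' (σ t) = i t) : par n d h i = par n d h i' := by
  unfold par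
  refine Finset.sum_congr rfl fun j _ => ?_
  rw [← Equiv.prod_comp σ fun t => (X (j, i' t) : MvPolynomial (Fin h × Fin (n + 1)) ℂ)]
  exact Finset.prod_congr rfl fun t _ => by rw [hσ]

theorem t_All : S_All := by
  classical
  intro n d h m J hJ hm P hP T hT
  have hinj : Function.Injective fun j => ctt (J j) := by
    intro j j' hjj
    obtain ⟨σ, hσ⟩ := ctt_perm _ _ hjj
    exact hJ.injective (par_perm h _ _ σ hσ)
  have hcard : Fintype.card (Fin m) = Fintype.card (Sym (Fin (n + 1)) d) := by
    rw [Fintype.card_fin, Sym.card_sym_eq_choose, Fintype.card_fin, hm,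
      show n + 1 + d - 1 = d + n by omega]
    exact Nat.choose_symm_add.symm
  have hbij : Function.Bijective fun j => ctt (J j) :=
    (Fintype.bijective_iff_injective_and_card _).2 ⟨hinj, hcard⟩
  have hex : ∀ i : Fin d → Fin (n + 1), ∃ j, ctt (J j) = ctt i := fun i => hbij.2 (ctt i)
  choose g hg using hex
  have e1 : aeval (fun j => par n d h (J j)) (rename g P) = 0 := by
    rw [aeval_rename]
    have : (fun j => par n d h (J j)) ∘ g = par n d h := by
      funext i
      obtain ⟨σ, hσ⟩ := ctt_perm _ _ (hg i)
      exact par_perm h _ _ σ hσ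
    rw [this]
    exact hP
  have e2 : rename g P = 0 := algebraicIndependent_iff.1 hJ _ e1
  have e3 : T = (fun j => T (J j)) ∘ g := by
    funext i
    obtain ⟨σ, hσ⟩ := ctt_perm _ _ (hg i).symm
    have h5 := hT σ (J (g i))
    rw [show (fun t => J (g i) (σ t)) = i from funext hσ] at h5
    exact h5
  rw [e3, ← eval_rename, e2, map_zero]

end Pool.Agent.Lib.MP_d01072_ag.Bp
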