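import Pool.Agent.Lib.MP_d01072_ag.Bp.Spec

/-!
MP_d01072_ag, package Bp, module Am: the function `am`.
-/

set_option autoImplicit false

namespace Pool.Agent.Lib.MP_d01072_ag.Bp

open MvPolynomial

/-- the monomials of degree `d` -/
private abbrev Amm (n d : ℕ) : Type :=
  {s : Fin (n + 1) →₀ ℕ // s ∈ Finset.finsuppAntidiag Finset.univ d}

private theorem am_card (n d : ℕ) : Fintype.card (Amm n d) = (d + n).choose n := by
  rw [Fintype.card_coe, Finset.card_finsuppAntidiag_nat_eq_choose, Finset.card_univ,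
    Fintype.card_fin]
  have h : n + 1 + d - 1 = d + n := by omega
  rw [h]
  exact Nat.choose_symm_add

private theorem am_mem {n d : ℕ} (s : Fin (n + 1) →₀ ℕ) :
    s ∈ Finset.finsuppAntidiag Finset.univ d ↔ ∑ i, s i = d := by
  rw [Finset.mem_finsuppAntidiag]
  simp

/-- the matrix of the conditions -/
private noncomputable def AmM (n d h : ℕ) :
    Matrix (Fin h × Fin (n + 1)) (Amm n d) (MvPolynomial (Fin h × Fin (n + 1)) ℂ) :=
  fun q s => rename (fun x => (q.1, x)) (pderiv q.2 (monomial s.1 (1 : ℂ)))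

/-- the form with given coefficients -/
private noncomputable def amF (n d : ℕ) : (Amm n d → ℂ) →ₗ[ℂ] MvPolynomial (Fin (n + 1)) ℂ :=
  Fintype.linearCombination ℂ (fun s : Amm n d => monomial s.1 (1 : ℂ))

private theorem amF_apply (n d : ℕ) (c : Amm n d → ℂ) :
    amF n d c = ∑ s, c s • monomial s.1 (1 : ℂ) := rfl

private theorem amF_coeff (n d : ℕ) (c : Amm n d → ℂ) (s : Amm n d) :
    coeff s.1 (amF n d c) = c s := by
  classical
  rw [amF_apply, coeff_sum, Finset.sum_eq_single s]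
  · rw [coeff_smul, coeff_monomial, if_pos rfl, smul_eq_mul, mul_one]
  · intro t _ ht
    rw [coeff_smul, coeff_monomial, if_neg (fun h => ht (Subtype.ext h)), smul_zero]
  · intro hs
    exact absurd (Finset.mem_univ s) hs

private theorem amF_inj (n d : ℕ) : Function.Injective (amF n d) := by
  intro c c' h
  funext s
  rw [← amF_coeff n d c s, h, amF_coeff]

private theorem am_hom {n d : ℕ} {f : MvPolynomial (Fin (n + 1)) ℂ} (hf : f.IsHomogeneous d)
    (s : Fin (n + 1) →₀ ℕ) (hs : coeff s f ≠ 0) : ∑ i, s i = d := by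
  have h := hf hs
  rw [Finsupp.weight_apply, Finsupp.sum_fintype _ _ fun i => by simp] at h
  simpa using h

private theorem amF_hom (n d : ℕ) (c : Amm n d → ℂ) : (amF n d c).IsHomogeneous d := by
  rw [amF_apply]
  refine IsHomogeneous.sum _ _ _ fun s _ => ?_
  rw [smul_monomial]
  refine isHomogeneous_monomial _ ?_
  rw [Finsupp.degree_eq_sum]
  exact (am_mem s.1).1 s.2

private theorem amF_surj {n d : ℕ} {f : MvPolynomial (Fin (n + 1)) ℂ} (hf : f.IsHomogeneous d) :
    amF n d (fun s => coeff s.1 f) = f := by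
  classical
  ext s
  by_cases hs : ∑ i, s i = d
  · exact amF_coeff n d (fun s => coeff s.1 f) ⟨s, (am_mem s).2 hs⟩
  · have h1 : coeff s f = 0 := by
      by_contra h
      exact hs (am_hom hf s h)
    have h2 : coeff s (amF n d (fun s => coeff s.1 f)) = 0 := by
      by_contra h
      exact hs (am_hom (amF_hom n d _) s h)
    rw [h1, h2]

private theorem am_eval (n d h : ℕ) (Z : Fin h × Fin (n + 1) → ℂ) (c : Amm n d → ℂ)
    (q : Fin h × Fin (n + 1)) : ((AmM n d h).map (eval Z)).mulVecLin c q =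
      eval (fun x => Z (q.1, x)) (pderiv q.2 (amF n d c)) := by
  rw [Matrix.mulVecLin_apply, Matrix.mulVec, dotProduct, amF_apply, map_sum, map_sum]
  refine Finset.sum_congr rfl fun s _ => ?_
  rw [Derivation.map_smul, smul_eval, mul_comm]
  congr 1
  rw [Matrix.map_apply, AmM, eval_rename]
  rfl

private theorem am_map (n d h : ℕ) (Z : Fin h × Fin (n + 1) → ℂ) :
    (LinearMap.ker ((AmM n d h).map (eval Z)).mulVecLin).map (amF n d) = Dbl n d Z := by
  ext f
  constructor
  · rintro ⟨c, hc, rfl⟩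
    refine ⟨amF_hom n d c, fun j i => ?_⟩
    rw [← am_eval n d h Z c (j, i), LinearMap.mem_ker.1 hc]
    rfl
  · rintro ⟨hf, hf'⟩
    refine ⟨fun s => coeff s.1 f, ?_, amF_surj hf⟩
    rw [SetLike.mem_coe, LinearMap.mem_ker]
    funext q
    rw [am_eval, amF_surj hf, hf' q.1 q.2]
    rfl

private theorem am_rank (n d h : ℕ) (Z : Fin h × Fin (n + 1) → ℂ) :
    ((AmM n d h).map (eval Z)).rank + Module.finrank ℂ (Dbl n d Z) = (d + n).choose n := by
  have h1 := LinearMap.finrank_range_add_finrank_ker ((AmM n d h).map (eval Z)).mulVecLin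
  rw [Module.finrank_fintype_fun_eq_card, am_card] at h1
  rw [← h1, Matrix.rank, ← am_map,
    (Submodule.equivMapOfInjective (amF n d) (amF_inj n d) _).finrank_eq]

private theorem am_fin (n d h : ℕ) (Z : Fin h × Fin (n + 1) → ℂ) :
    FiniteDimensional ℂ (Dbl n d Z) := by
  rw [← am_map]
  infer_instance

private theorem am_le (n d h : ℕ) (Z : Fin h × Fin (n + 1) → ℂ) :
    am n d h ≤ Module.finrank ℂ (Dbl n d Z) := Nat.sInf_le ⟨Z, rfl⟩

private theorem am_min (n d h : ℕ) : ∃ Z : Fin h × Fin (n + 1) → ℂ,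
    Module.finrank ℂ (Dbl n d Z) = am n d h :=
  Nat.sInf_mem (s := Set.range fun Z : Fin h × Fin (n + 1) → ℂ =>
    Module.finrank ℂ (Dbl n d Z)) ⟨_, fun _ => 0, rfl⟩

/-- one more point -/
private def amx {n h : ℕ} (Z : Fin h × Fin (n + 1) → ℂ) (z : Fin (n + 1) → ℂ) :
    Fin (h + 1) × Fin (n + 1) → ℂ :=
  fun q => (Fin.snoc (fun j i => Z (j, i)) z : Fin (h + 1) → Fin (n + 1) → ℂ) q.1 q.2

private theorem amx_mem {n d h : ℕ} (Z : Fin h × Fin (n + 1) → ℂ) (z : Fin (n + 1) → ℂ)
    (f : MvPolynomial (Fin (n + 1)) ℂ) : f ∈ Dbl n d (amx Z z) ↔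
      f ∈ Dbl n d Z ∧ ∀ i, eval z (pderiv i f) = 0 := by
  constructor
  · rintro ⟨hf, hf'⟩
    refine ⟨⟨hf, fun j i => ?_⟩, fun i => ?_⟩
    · have h1 := hf' j.castSucc i
      simpa only [amx, Fin.snoc_castSucc] using h1
    · have h1 := hf' (Fin.last h) i
      simpa only [amx, Fin.snoc_last] using h1
  · rintro ⟨⟨hf, hf'⟩, hz⟩
    refine ⟨hf, fun j i => ?_⟩
    refine Fin.lastCases ?_ (fun k => ?_) j
    · simpa only [amx, Fin.snoc_last] using hz i
    · simpa only [amx, Fin.snoc_castSucc] using hf' k i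

theorem t_Am (h1 : S_Sem) : S_Am := by
  intro n d h
  refine ⟨am_min n d h, am_le n d h, ?_, ?_, ?_, ?_⟩
  · obtain ⟨Z, hZ⟩ := am_min n d h
    have h2 := am_rank n d h Z
    have h3 := Matrix.rank_le_card_height ((AmM n d h).map (eval Z))
    rw [Fintype.card_prod, Fintype.card_fin, Fintype.card_fin, mul_comm] at h3
    omega
  · obtain ⟨Z, hZ⟩ := am_min n d 0
    have h2 := am_rank n d 0 Z
    have h3 := Matrix.rank_le_card_height ((AmM n d 0).map (eval Z))
    rw [Fintype.card_prod, Fintype.card_fin, zero_mul] at h3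
    omega
  · intro hd
    obtain ⟨Z, hZ⟩ := am_min n d h
    have hfin := am_fin n d h Z
    by_cases h0 : am n d h = 0
    · have h2 : Dbl n d (amx Z 0) ≤ Dbl n d Z := fun f hf => ((amx_mem Z 0 f).1 hf).1
      have h3 := Submodule.finrank_mono h2
      have h4 := am_le n d (h + 1) (amx Z 0)
      omega
    · have h2 : Dbl n d Z ≠ ⊥ := by
        intro hb
        rw [hb, finrank_bot] at hZ
        exact h0 hZ.symm
      obtain ⟨f, hf, hf0⟩ := Submodule.exists_mem_ne_zero_of_ne_bot h2
      have h3 : ∃ z, eval z f ≠ 0 := by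
        by_contra hcon
        push Not at hcon
        exact hf0 (MvPolynomial.funext fun z => by rw [hcon z, map_zero])
      obtain ⟨z, hz⟩ := h3
      have h4 : Dbl n d (amx Z z) < Dbl n d Z := by
        refine lt_of_le_of_ne (fun g hg => ((amx_mem Z z g).1 hg).1) fun heq => ?_
        rw [← heq] at hf
        have h5 := ((amx_mem Z z f).1 hf).2
        have h6 := congrArg (eval z) (IsHomogeneous.sum_X_mul_pderiv hf.1)
        rw [map_sum, map_nsmul, nsmul_eq_mul] at h6
        rw [Finset.sum_eq_zero fun i _ => by rw [map_mul, h5 i, mul_zero]] at h6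
        have h7 : (d : ℂ) ≠ 0 := Nat.cast_ne_zero.2 (by omega)
        exact mul_ne_zero h7 hz h6.symm
      have h5 := Submodule.finrank_lt_finrank_of_lt h4
      have h6 := am_le n d (h + 1) (amx Z z)
      omega
  · obtain ⟨Z0, hZ0⟩ := am_min n d h
    obtain ⟨P, hP, hP'⟩ := h1 _ _ _ (AmM n d h) Z0
    refine ⟨P, fun h0 => hP (by rw [h0, map_zero]), fun Z hZ => ?_⟩
    have h2 := hP' Z hZ
    have h3 := am_rank n d h Z
    have h4 := am_rank n d h Z0
    have h5 := am_le n d h Z
    omega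

end Pool.Agent.Lib.MP_d01072_ag.Bp
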