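import Pool.Agent.Lib.MP_d01072_ag.Bp.Spec

/-!
MP_d01072_ag, package Bp, module Avd (helper62): a vector without zeros.
-/

set_option autoImplicit false

namespace Pool.Agent.Lib.MP_d01072_ag.Bp

theorem t_Avd : S_Avd := by
  intro K _ _ ι _ W hW
  classical
  have := Fintype.ofFinite ι
  have h : ∀ s : Finset ι, ∃ w ∈ W, ∀ i ∈ s, w i ≠ 0 := by
    intro s
    induction s using Finset.induction_on with
    | empty => exact ⟨0, W.zero_mem, fun i hi => absurd hi (Finset.notMem_empty i)⟩
    | insert a s ha ih =>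
      obtain ⟨w, hw, hws⟩ := ih
      obtain ⟨w', hw', hwa⟩ := hW a
      obtain ⟨t, ht⟩ := Infinite.exists_notMem_finset ((insert a s).image fun i => -w i / w' i)
      refine ⟨w + t • w', W.add_mem hw (W.smul_mem t hw'), fun i hi => ?_⟩
      rw [Pi.add_apply, Pi.smul_apply, smul_eq_mul]
      intro h0
      by_cases h1 : w' i = 0
      · rcases Finset.mem_insert.1 hi with h2 | h2
        · exact hwa (h2 ▸ h1)
        · rw [h1, mul_zero, add_zero] at h0
          exact hws i h2 h0
      · refine ht (Finset.mem_image.2 ⟨i, hi, ?_⟩)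
        rw [div_eq_iff h1]
        linear_combination -h0
  obtain ⟨w, hw, hws⟩ := h Finset.univ
  exact ⟨w, hw, fun i => hws i (Finset.mem_univ i)⟩

end Pool.Agent.Lib.MP_d01072_ag.Bp
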