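import Pool.Agent.Lib.MP_d01072_ag.Bp.Spec

/-!
MP_d01072_ag, package Bp, module BadM: the main lemma (counting parameters of the bad points)
(helper34).
-/

set_option autoImplicit false

namespace Pool.Agent.Lib.MP_d01072_ag.Bp

open MvPolynomial

private lemma badM_res_mem {K : Type} [Field K] {l n : ℕ} {δ : Fin l → ℕ} {f : Rm K l n}
    (hf : f ∈ Mh K n δ) : res K l n f ∈ Fm K n (∑ k, δ k) := by
  intro d hd k
  obtain ⟨u, hu, hu'⟩ := coeff_rename_ne_zero (fun q : Fin l × Fin (n + 1) => ((0 : Fin 1), q.2))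
    f d hd
  have h1 : ∀ k, ∑ i, u (k, i) = δ k := hf u hu'
  have hk : k = 0 := Subsingleton.elim _ _
  subst hk
  have h2 : ∀ i : Fin (n + 1), d (0, i) = ∑ k, u (k, i) := by
    intro i
    rw [← hu, Finsupp.mapDomain, Finsupp.sum_fintype _ _ (by simp), Finsupp.finsetSum_apply,
      Fintype.sum_prod_type]
    refine Finset.sum_congr rfl fun k _ => ?_
    rw [Finset.sum_eq_single i]
    · simp
    · intro j _ hj
      rw [Finsupp.single_apply, if_neg]
      intro h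
      exact hj (Prod.ext_iff.1 h).2
    · intro h; exact absurd (Finset.mem_univ _) h
  calc ∑ i, d (0, i) = ∑ i, ∑ k, u (k, i) := Finset.sum_congr rfl fun i _ => h2 i
    _ = ∑ k, ∑ i, u (k, i) := Finset.sum_comm
    _ = ∑ k, δ k := Finset.sum_congr rfl fun k _ => h1 k

private lemma badM_Nf_one (n m : ℕ) : Nf n (fun _ : Fin 1 => m) = (m + n).choose n := by
  simp [Nf]

private lemma badM_div8 {n x : ℕ} (hn : 1 ≤ n) : x / (8 * n) ≤ x / 8 :=
  Nat.div_le_div_left (by omega) (by norm_num)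

private lemma badM_ar1 {x t : ℕ} (h : t ≤ x / 8) (hx : 64 ≤ x) : t ≤ x - 1 := by omega

private lemma badM_ar2 {x t : ℕ} (h : t ≤ x / 8) (hx : 64 ≤ x) : x - 1 - (x - 1 - t) = t := by
  omega

private lemma badM_ar3 {x t s : ℕ} (h : t ≤ x / 8) (h' : s ≤ x / 8) (hx : 64 ≤ x) :
    s ≤ x - 1 - t := by omega

private lemma badM_ar4 {x b : ℕ} (h : b ≤ x) : b + (x - b) = x := by omega

theorem t_BadM (h1 : S_Cnt) (h2 : S_Gr) (h3 : S_Hil) (h4 : S_Bas) (h5 : S_Rel) (h6 : S_Orth)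
    (h7 : S_Sep) (h8 : S_Rho) (h9 : S_Par) (h10 : S_Fnl) (h11 : S_NumM) : S_BadM := by
  intro k K _ _ _ _ a l n m e δ B L τ hn hl hla hm hCm hK1 hB0 hB1 hNrm hHf hRep hBad
  have hinf : Infinite K := inferInstance
  have ha : 1 ≤ a := hl.trans hla
  have hCc : 1 ≤ Cc n a := Nat.one_le_pow _ _ (by omega)
  have hK0 : 8 ≤ K0 n a := by
    unfold K0
    have : 1 ≤ n ^ 2 * a ^ 2 * Cc n a :=
      Nat.one_le_iff_ne_zero.2 (by positivity)
    calc 8 = 8 * 1 := rfl
      _ ≤ 8 * (n ^ 2 * a ^ 2 * Cc n a) := Nat.mul_le_mul_left 8 this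
      _ = 8 * n ^ 2 * a ^ 2 * Cc n a := by ring
  have hm64 : 64 ≤ m := by
    refine le_trans ?_ hCm
    unfold Cm
    have : 1 ≤ n ^ 2 * a ^ 2 * Cc n a :=
      Nat.one_le_iff_ne_zero.2 (by positivity)
    calc 64 = 64 * 1 := rfl
      _ ≤ 64 * (n ^ 2 * a ^ 2 * Cc n a) := Nat.mul_le_mul_left 64 this
      _ = 64 * n ^ 2 * a ^ 2 * Cc n a := by ring
  have hδ : ∀ j, 64 ≤ δ j := fun j => hm64.trans (hm j)
  have hδ1 : ∀ j, 1 ≤ δ j := fun j => le_trans (by norm_num) (hδ j)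
  have hdK : ∀ j, δ j / K0 n a ≤ δ j / 8 := fun j => Nat.div_le_div_left hK0 (by norm_num)
  have hd8 : ∀ j, δ j / (8 * n) ≤ δ j / 8 := fun j => badM_div8 hn
  obtain ⟨lam, hlam0, hlam⟩ := h5 K l n δ e B L τ hl hδ1 hNrm hRep hBad
  refine ⟨?_, ?_⟩
  · intro hne
    have := h7 K l n B (fun j => δ j - 1) (m - 1) lam hNrm hlam0 hlam
      (fun j => Nat.sub_le_sub_right (hm j) 1) hne
    omega
  -- Hilbert functions
  have hil : ∀ (B' : Finset (Pt K l n)) (b : Fin l → ℕ), (∀ j, b j ≤ δ j) →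
      Hf B' δ * Nf n b ≤ Hf B' b * Nf n δ := by
    intro B' b hb
    have h := (h3 K l n B' b (fun j => δ j - b j)).2.2
    have e1 : (b + fun j => δ j - b j) = δ := by
      funext j
      exact badM_ar4 (hb j)
    rwa [e1] at h
  have o0 : Hf B (fun j => δ j / K0 n a) + Hf B (fun j => δ j - 1 - δ j / K0 n a) ≤ B.card :=
    h6 K l n B (fun j => δ j - 1) (fun j => δ j / K0 n a) lam hlam0 hlam
      (fun j => badM_ar1 (hdK j) (hδ j))
  have o1 : Hf B (fun j => δ j - 1 - δ j / (8 * n)) + Hf B (fun j => δ j / (8 * n)) ≤ B.card := by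
    have h := h6 K l n B (fun j => δ j - 1) (fun j => δ j - 1 - δ j / (8 * n)) lam hlam0 hlam
      (fun j => Nat.sub_le _ _)
    have e1 : (fun j => δ j - 1 - (δ j - 1 - δ j / (8 * n))) = fun j => δ j / (8 * n) := by
      funext j
      exact badM_ar2 (hd8 j) (hδ j)
    rwa [e1] at h
  have hoS : offd B ⊆ B := by
    classical
    exact Finset.filter_subset _ _
  have hoB : (offd B).card ≤ B.card := Finset.card_le_card hoS
  have hHo : Hf (offd B) δ = (offd B).card := (h4 K l n B δ).2.1 hHf (offd B) hoS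
  have n0 := hil B (fun j => δ j - 1 - δ j / K0 n a) (fun j =>
    (Nat.sub_le _ _).trans (Nat.sub_le _ _))
  have n1 := hil B (fun j => δ j / (8 * n)) (fun j => Nat.div_le_self _ _)
  have n2 := hil (offd B) (fun j => δ j - 1) (fun j => Nat.sub_le _ _)
  rw [hHf] at n0 n1
  rw [hHo] at n2
  -- the restriction to the diagonal
  set W : Submodule K (Rm K 1 n) := (Vn B δ).map (res K l n).toLinearMap with hWdef
  have hW : W ≤ Fm K n (∑ k, δ k) := by
    rintro _ ⟨f, hf, rfl⟩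
    exact badM_res_mem hf.1
  have hfin : Module.Finite K (Fm K n (∑ k, δ k)) := (h1 K 1 n (fun _ => ∑ k, δ k)).1
  have hWr : Module.finrank K W ≤ (∑ k, δ k + n).choose n := by
    have := Submodule.finrank_mono hW
    rwa [(h1 K 1 n (fun _ => ∑ k, δ k)).2, badM_Nf_one] at this
  have hrho := h8 K l n δ B hδ1 hNrm
  rw [← hWdef] at hrho
  set ρ : ℕ := (∑ k, δ k + n).choose n - Module.finrank K W with hρ
  have hρ' : ρ + Hf (offd B) (fun j => δ j - 1) ≤ B.card := by omega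
  set Q : ℕ := (∑ k, δ k + e + n).choose n -
    Module.finrank K (W * Fm K n e : Submodule K (Rm K 1 n)) with hQ
  have hQ' : Q * (∑ k, δ k + n).choose n ≤ ρ * (∑ k, δ k + e + n).choose n := by
    have h := h2 K 1 n (fun _ => ∑ k, δ k) (fun _ => e) W hW
    have e1 : ((fun _ : Fin 1 => ∑ k, δ k) + fun _ : Fin 1 => e) = fun _ => ∑ k, δ k + e := by
      funext j; rfl
    rw [e1, badM_Nf_one, badM_Nf_one] at h
    rw [hQ, hρ, Nat.sub_mul, Nat.sub_mul, mul_comm ((∑ k, δ k + n).choose n)]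
    exact tsub_le_tsub_left h _
  -- parameters
  obtain ⟨G0, hG0, hG0c⟩ := h9 k K l n B (fun j => δ j / K0 n a)
    (fun j => δ j - 1 - δ j / (8 * n)) (m / K0 n a) hl hNrm
    (fun j => badM_ar3 (hd8 j) (hdK j) (hδ j))
    (fun j => Nat.div_le_div_right (hm j)) hB0 hB1
  obtain ⟨G, hGG, hGc, hG⟩ := h10 k K l n δ e Q B L G0 hG0
    (fun f hf g hg => by
      rw [hRep f hf.1 g hg]
      exact Finset.sum_eq_zero fun x hx => by rw [hf.2 x hx, zero_mul])
    (by rw [← hWdef]; omega)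
  refine ⟨G, ?_, hG⟩
  have hfinal := h11 n a l m e B.card (offd B).card (Hf B (fun j => δ j / K0 n a))
    (Hf B (fun j => δ j - 1 - δ j / K0 n a)) (Hf B (fun j => δ j - 1 - δ j / (8 * n)))
    (Hf B (fun j => δ j / (8 * n))) (Hf (offd B) (fun j => δ j - 1)) ρ Q G0.card δ hn hl hla hm
    hCm hK1 hoB o0 n0 o1 n1 n2 hρ' hQ' hG0c
  calc 2 * Cc n a * G.card + B.card ≤ 2 * Cc n a * (G0.card + Q) + B.card := by gcongr
    _ ≤ 2 * Cc n a * (n + 1) * B.card := hfinal

end Pool.Agent.Lib.MP_d01072_ag.Bp
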