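import Pool.Agent.Lib.MP_d01072_ag.Bp.Spec

/-!
MP_d01072_ag, package Bp, module Bas: independent sets of points for the forms of multidegree `b`.
-/

set_option autoImplicit false

namespace Pool.Agent.Lib.MP_d01072_ag.Bp

open MvPolynomial

/-- the evaluations at the points of `B` are linearly independent on `Mh b` -/
private def Idp {K : Type} [Field K] {l n : ℕ} (B : Finset (Pt K l n)) (b : Fin l → ℕ) : Prop :=
  ∀ c : Pt K l n → K, (∀ F ∈ Mh K n b, ∑ x ∈ B, c x * eval x F = 0) → ∀ x ∈ B, c x = 0

private theorem ev_apply {K : Type} [Field K] {l n : ℕ} (B : Finset (Pt K l n)) (F : Rm K l n)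
    (y : {x // x ∈ B}) : ev B F y = eval (y : Pt K l n) F := by
  simp [ev, aeval_eq_eval]

private theorem idp_of_card {K : Type} [Field K] {l n : ℕ} (B : Finset (Pt K l n))
    (b : Fin l → ℕ) (h : Hf B b = B.card) : Idp B b := by
  classical
  intro c hc x hx
  have htop : (Mh K n b).map (ev B) = ⊤ := by
    apply Submodule.eq_top_of_finrank_eq
    rw [Module.finrank_fintype_fun_eq_card, Fintype.card_coe]
    exact h
  have hm : (Pi.single (⟨x, hx⟩ : {x // x ∈ B}) (1 : K) : {x // x ∈ B} → K) ∈
      (Mh K n b).map (ev B) := by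
    rw [htop]
    exact Submodule.mem_top
  obtain ⟨F, hF, hFe⟩ := Submodule.mem_map.mp hm
  have hs := hc F hF
  have he : ∀ y ∈ B, eval y F = if y = x then 1 else 0 := by
    intro y hy
    have h1 := congrFun hFe ⟨y, hy⟩
    rw [ev_apply, Pi.single_apply] at h1
    rw [h1]
    simp only [Subtype.mk.injEq]
  rw [Finset.sum_congr rfl fun y hy => by rw [he y hy]] at hs
  simpa [hx] using hs

private theorem card_of_idp {K : Type} [Field K] {l n : ℕ} (B : Finset (Pt K l n))
    (b : Fin l → ℕ) (h : Idp B b) : Hf B b = B.card := by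
  classical
  have htop : (Mh K n b).map (ev B) = ⊤ := by
    by_contra hne
    obtain ⟨f, hf0, hf⟩ := Submodule.exists_le_ker_of_lt_top _ (lt_top_iff_ne_top.mpr hne)
    have hsum : ∀ v : {x // x ∈ B} → K,
        f v = ∑ y : {x // x ∈ B}, v y * f (Pi.single y 1) := by
      intro v
      conv_lhs => rw [← Finset.univ_sum_single v]
      rw [map_sum]
      refine Finset.sum_congr rfl fun y _ => ?_
      have : (Pi.single y (v y) : {x // x ∈ B} → K) = v y • Pi.single y (1 : K) := by
        rw [← Pi.single_smul, smul_eq_mul, mul_one]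
      rw [this, map_smul, smul_eq_mul]
    have hz := h (fun x => if hx : x ∈ B then f (Pi.single ⟨x, hx⟩ 1) else 0) (by
      intro F hF
      have h1 : f (ev B F) = 0 := hf (Submodule.mem_map_of_mem hF)
      rw [hsum] at h1
      rw [← h1, ← Finset.sum_coe_sort]
      refine Finset.sum_congr rfl fun y _ => ?_
      rw [dif_pos y.2, ev_apply, mul_comm])
    apply hf0
    refine LinearMap.ext fun v => ?_
    rw [hsum]
    simp only [LinearMap.zero_apply]
    refine Finset.sum_eq_zero fun y _ => ?_
    have h2 := hz y y.2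
    simp only [y.2, dif_pos] at h2
    rw [h2, mul_zero]
  rw [Hf, htop, finrank_top, Module.finrank_fintype_fun_eq_card, Fintype.card_coe]

private theorem idp_mono {K : Type} [Field K] {l n : ℕ} (B B' : Finset (Pt K l n))
    (b : Fin l → ℕ) (hB : B' ⊆ B) (h : Idp B b) : Idp B' b := by
  classical
  intro c hc x hx
  have h1 := h (fun y => if y ∈ B' then c y else 0) (by
    intro F hF
    have h2 : ∑ y ∈ B', (if y ∈ B' then c y else 0) * eval y F =
        ∑ y ∈ B, (if y ∈ B' then c y else 0) * eval y F :=
      Finset.sum_subset hB fun y _ hy => by rw [if_neg hy, zero_mul]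
    rw [← h2, ← hc F hF]
    refine Finset.sum_congr rfl fun y hy => ?_
    rw [if_pos hy]) x (hB hx)
  simpa [hx] using h1

theorem t_Bas (h1 : S_Prd) (h2 : S_Hil) (h3 : S_Frm) : S_Bas := by
  classical
  intro K _ l n B b
  refine ⟨?_, ?_, ?_⟩
  · intro B₀ hB₀ hc
    have hi : Idp B₀ b := idp_of_card B₀ b hc
    obtain ⟨B₁, hm, hmax⟩ := Finset.exists_max_image
      (B.powerset.filter fun S => B₀ ⊆ S ∧ Idp S b) Finset.card
      ⟨B₀, Finset.mem_filter.mpr ⟨Finset.mem_powerset.mpr hB₀, Finset.Subset.refl _, hi⟩⟩
    rw [Finset.mem_filter, Finset.mem_powerset] at hm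
    obtain ⟨hB₁, h01, hid⟩ := hm
    have hV : Vn B₁ b = Vn B b := by
      apply le_antisymm
      · intro F hF
        refine ⟨hF.1, fun y hy => ?_⟩
        by_cases hy1 : y ∈ B₁
        · exact hF.2 y hy1
        have hni : ¬ Idp (insert y B₁) b := by
          intro hni
          have := hmax (insert y B₁) (Finset.mem_filter.mpr ⟨Finset.mem_powerset.mpr
            (Finset.insert_subset hy hB₁), h01.trans (Finset.subset_insert _ _), hni⟩)
          rw [Finset.card_insert_of_notMem hy1] at this
          omega
        unfold Idp at hni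
        push Not at hni
        obtain ⟨c, hc1, x, hx, hcx⟩ := hni
        have hcy : c y ≠ 0 := by
          intro hcy
          have h4 := hid c (by
            intro G hG
            have := hc1 G hG
            rwa [Finset.sum_insert hy1, hcy, zero_mul, zero_add] at this)
          rcases Finset.mem_insert.mp hx with rfl | hx
          · exact hcx hcy
          · exact hcx (h4 x hx)
        have h5 := hc1 F hF.1
        rw [Finset.sum_insert hy1, Finset.sum_eq_zero, add_zero] at h5
        · exact (mul_eq_zero.mp h5).resolve_left hcy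
        · intro z hz
          rw [hF.2 z hz, mul_zero]
      · intro F hF
        exact ⟨hF.1, fun y hy => hF.2 y (hB₁ hy)⟩
    have hc1 : Hf B₁ b = B₁.card := card_of_idp B₁ b hid
    refine ⟨B₁, h01, hB₁, hV, hc1, ?_⟩
    have e1 := (h2 K l n B₁ b b).1
    have e2 := (h2 K l n B b b).1
    rw [hV] at e1
    omega
  · intro hc B' hB'
    exact card_of_idp B' b (idp_mono B B' b hB' (idp_of_card B b hc))
  · intro hK hN hc b' hb
    obtain ⟨P, hP, hPx⟩ := (h3 K l n B hN).1 (b' - b)
    have hi := idp_of_card B b hc
    apply card_of_idp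
    intro c hc' x hx
    have h4 := hi (fun x => c x * eval x P) (by
      intro F hF
      have h5 : P * F ∈ Mh K n b' := by
        have h6 : P * F ∈ Mh K n (b' - b) * Mh K n b := Submodule.mul_mem_mul hP hF
        rw [(h1 K l n (b' - b) b).1] at h6
        have h7 : b' - b + b = b' := by
          funext k
          simp only [Pi.add_apply, Pi.sub_apply]
          have := hb k
          omega
        rwa [h7] at h6
      have h8 := hc' (P * F) h5
      rw [← h8]
      refine Finset.sum_congr rfl fun y _ => ?_
      rw [map_mul, mul_assoc]) x hx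
    exact (mul_eq_zero.mp h4).resolve_right (hPx x hx)

end Pool.Agent.Lib.MP_d01072_ag.Bp
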