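import Pool.Agent.Lib.MP_d01072_ag.Bp.Spec

/-! # Binary forms which are singular at given points -/

set_option autoImplicit false

namespace Pool.Agent.Lib.MP_d01072_ag.Bp

open MvPolynomial

namespace BnAux

/-- dehomogenisation `X_0 ↦ 1`, `X_1 ↦ X` -/
private noncomputable def ph : MvPolynomial (Fin 2) ℂ →ₐ[ℂ] Polynomial ℂ :=
  aeval ![1, Polynomial.X]

private theorem ph_eq (f : MvPolynomial (Fin 2) ℂ) :
    ph f = ∑ s ∈ f.support, Polynomial.C (coeff s f) * Polynomial.X ^ (s 1) := by
  unfold ph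
  rw [aeval_def, eval₂_eq']
  refine Finset.sum_congr rfl fun s _ => ?_
  rw [Fin.prod_univ_two]
  simp

private theorem deg_eq {d : ℕ} {f : MvPolynomial (Fin 2) ℂ} (hf : f.IsHomogeneous d)
    {s : Fin 2 →₀ ℕ} (hs : s ∈ f.support) : s 0 + s 1 = d := by
  have h := hf (mem_support_iff.mp hs)
  rw [Finsupp.weight_apply, Finsupp.sum_fintype _ _ (by simp)] at h
  simpa [Fin.sum_univ_two] using h

private theorem ph_coeff {d : ℕ} {f : MvPolynomial (Fin 2) ℂ} (hf : f.IsHomogeneous d)
    {s : Fin 2 →₀ ℕ} (hs : s ∈ f.support) : (ph f).coeff (s 1) = coeff s f := by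
  rw [ph_eq, Polynomial.finsetSum_coeff, Finset.sum_eq_single s]
  · simp
  · intro t ht hts
    rw [Polynomial.coeff_C_mul, Polynomial.coeff_X_pow, if_neg, mul_zero]
    intro h
    apply hts
    have h1 := deg_eq hf hs
    have h2 := deg_eq hf ht
    ext i
    fin_cases i
    · show t 0 = s 0
      omega
    · exact h.symm
  · intro h
    exact absurd hs h

private theorem ph_inj {d : ℕ} {f : MvPolynomial (Fin 2) ℂ} (hf : f.IsHomogeneous d)
    (h : ph f = 0) : f = 0 := by
  by_contra h0
  obtain ⟨s, hs⟩ := support_nonempty.mpr h0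
  have h1 := ph_coeff hf hs
  rw [h, Polynomial.coeff_zero] at h1
  exact (mem_support_iff.mp hs) h1.symm

private theorem ph_deg {d : ℕ} {f : MvPolynomial (Fin 2) ℂ} (hf : f.IsHomogeneous d) :
    (ph f).degree < ((d + 1 : ℕ) : WithBot ℕ) := by
  rw [← Polynomial.mem_degreeLT, ph_eq]
  refine Submodule.sum_mem _ fun s hs => ?_
  rw [Polynomial.mem_degreeLT]
  refine lt_of_le_of_lt (Polynomial.degree_C_mul_X_pow_le _ _) ?_
  have h := deg_eq hf hs
  exact_mod_cast (by omega : s 1 < d + 1)

private theorem ph_eval (a : ℂ) (f : MvPolynomial (Fin 2) ℂ) :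
    (ph f).eval a = eval ![1, a] f := by
  induction f using MvPolynomial.induction_on with
  | C c => simp [ph]
  | add p q hp hq => rw [map_add, Polynomial.eval_add, hp, hq, map_add]
  | mul_X p i hp =>
    rw [map_mul, Polynomial.eval_mul, hp, map_mul, eval_X]
    congr 1
    unfold ph
    rw [aeval_X]
    fin_cases i
    · simp
    · simp

private theorem ph_deriv (f : MvPolynomial (Fin 2) ℂ) :
    Polynomial.derivative (ph f) = ph (pderiv 1 f) := by
  induction f using MvPolynomial.induction_on with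
  | C c => simp [ph]
  | add p q hp hq => rw [map_add, map_add, hp, hq, map_add, map_add]
  | mul_X p i hp =>
    rw [map_mul, Polynomial.derivative_mul, hp, Derivation.leibniz, map_add, smul_eq_mul,
      smul_eq_mul, map_mul, map_mul]
    have h : Polynomial.derivative (ph (X i)) = ph (pderiv 1 (X i)) := by
      unfold ph
      rw [aeval_X]
      fin_cases i
      · simp [pderiv_X]
      · simp [pderiv_X]
    rw [h]
    ring

end BnAux

open BnAux in
theorem t_Bn (h1 : S_Am) : S_Bn := by
  intro d h hd hh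
  obtain ⟨-, h2, -⟩ := h1 1 d h
  let Z : Fin h × Fin 2 → ℂ := fun q => ![1, ((q.1 : ℕ) : ℂ)] q.2
  have hZ : ∀ j : Fin h, (fun x => Z (j, x)) = ![1, ((j : ℕ) : ℂ)] := by
    intro j
    funext x
    rfl
  have key := h2 Z
  -- the product of the squares
  let P : Polynomial ℂ := ∏ j : Fin h, (Polynomial.X - Polynomial.C ((j : ℕ) : ℂ)) ^ 2
  have hPm : P.Monic := by
    apply Polynomial.monic_prod_of_monic
    intro j _
    exact (Polynomial.monic_X_sub_C _).pow 2
  have hPd : P.natDegree = 2 * h := by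
    rw [Polynomial.natDegree_prod_of_monic _ _ fun j _ => (Polynomial.monic_X_sub_C _).pow 2]
    have h3 : ∀ j : Fin h,
        ((Polynomial.X - Polynomial.C ((j : ℕ) : ℂ)) ^ 2 : Polynomial ℂ).natDegree = 2 := by
      intro j
      rw [Polynomial.natDegree_pow, Polynomial.natDegree_X_sub_C]
    rw [Finset.sum_congr rfl fun j _ => h3 j, Finset.sum_const, Finset.card_univ,
      Fintype.card_fin, smul_eq_mul, mul_comm]
  -- divisibility
  have hdvd : ∀ f ∈ Dbl 1 d Z, P ∣ ph f := by
    intro f hf
    obtain ⟨hf1, hf2⟩ := hf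
    by_cases h0 : ph f = 0
    · rw [h0]
      exact dvd_zero _
    apply Finset.prod_dvd_of_coprime
    · intro i _ j _ hij
      have := Polynomial.pairwise_coprime_X_sub_C (K := ℂ) (I := Fin h)
        (s := fun i => ((i : ℕ) : ℂ)) (fun a b hab => Fin.ext (Nat.cast_injective hab)) hij
      exact this.pow
    · intro j _
      rw [← Polynomial.le_rootMultiplicity_iff h0]
      have hr : (ph f).IsRoot ((j : ℕ) : ℂ) := by
        have he := hf1.sum_X_mul_pderiv
        have he2 := congrArg (eval ![1, ((j : ℕ) : ℂ)]) he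
        rw [map_sum] at he2
        have h3 : ∀ i : Fin 2, eval ![1, ((j : ℕ) : ℂ)] (X i * pderiv i f) = 0 := by
          intro i
          have h4 := hf2 j i
          rw [hZ j] at h4
          rw [map_mul, h4, mul_zero]
        rw [Finset.sum_eq_zero fun i _ => h3 i, nsmul_eq_mul, map_mul, map_natCast] at he2
        have h5 : (d : ℂ) ≠ 0 := Nat.cast_ne_zero.mpr (by omega)
        rw [Polynomial.IsRoot.def, ph_eval]
        rcases mul_eq_zero.mp he2.symm with h6 | h6
        · exact absurd h6 h5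
        · exact h6
      have hr2 : (Polynomial.derivative (ph f)).IsRoot ((j : ℕ) : ℂ) := by
        rw [Polynomial.IsRoot.def, ph_deriv, ph_eval]
        have h4 := hf2 j 1
        rw [hZ j] at h4
        exact h4
      exact (Polynomial.one_lt_rootMultiplicity_iff_isRoot h0).mpr ⟨hr, hr2⟩
  -- the linear map
  let ψ : Dbl 1 d Z →ₗ[ℂ] Polynomial ℂ := ph.toLinearMap.comp (Dbl 1 d Z).subtype
  have hψ : Function.Injective ψ := by
    rw [injective_iff_map_eq_zero]
    intro f hf
    exact Subtype.ext (ph_inj f.2.1 hf)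
  have hrange : LinearMap.range ψ ≤
      (Polynomial.degreeLT ℂ (d + 1 - 2 * h)).map (LinearMap.mulLeft ℂ P) := by
    rintro _ ⟨f, rfl⟩
    obtain ⟨q, hq⟩ := hdvd f.1 f.2
    refine ⟨q, ?_, ?_⟩
    · rw [SetLike.mem_coe, Polynomial.mem_degreeLT]
      have h3 := ph_deg f.2.1
      rw [hq] at h3
      by_cases hq0 : q = 0
      · rw [hq0, Polynomial.degree_zero]
        exact WithBot.bot_lt_coe _
      · rw [Polynomial.degree_mul, Polynomial.degree_eq_natDegree hPm.ne_zero, hPd,
          Polynomial.degree_eq_natDegree hq0] at h3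
        rw [Polynomial.degree_eq_natDegree hq0]
        have h4 : 2 * h + q.natDegree < d + 1 := by exact_mod_cast h3
        exact_mod_cast (by omega : q.natDegree < d + 1 - 2 * h)
    · exact hq.symm
  have : Module.Finite ℂ (Polynomial.degreeLT ℂ (d + 1 - 2 * h)) :=
    Module.Finite.equiv (Polynomial.degreeLTEquiv ℂ (d + 1 - 2 * h)).symm
  have hfr : Module.finrank ℂ (Polynomial.degreeLT ℂ (d + 1 - 2 * h)) = d + 1 - 2 * h := by
    rw [(Polynomial.degreeLTEquiv ℂ (d + 1 - 2 * h)).finrank_eq, Module.finrank_fin_fun]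
  have h6 : Module.finrank ℂ (Dbl 1 d Z) ≤ d + 1 - 2 * h := by
    rw [← LinearMap.finrank_range_of_inj hψ]
    calc Module.finrank ℂ (LinearMap.range ψ) ≤ Module.finrank ℂ
          ((Polynomial.degreeLT ℂ (d + 1 - 2 * h)).map (LinearMap.mulLeft ℂ P)) :=
          Submodule.finrank_mono hrange
      _ ≤ Module.finrank ℂ (Polynomial.degreeLT ℂ (d + 1 - 2 * h)) :=
          Submodule.finrank_map_le _ _
      _ = d + 1 - 2 * h := hfr
  omega

end Pool.Agent.Lib.MP_d01072_ag.Bp
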