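import Pool.Agent.Lib.MP_d01072_ag.Bp.Spec

namespace Pool.Agent.Lib.MP_d01072_ag.Bp

/-- `d + 1 ≤ C(d + n, n)` for `n ≥ 1` -/
private lemma le_choose (n d : ℕ) (hn : 1 ≤ n) : d + 1 ≤ (d + n).choose n := by
  have h1 : (d + 1).choose d ≤ (d + n).choose d := Nat.choose_le_choose d (by omega)
  rw [Nat.choose_succ_self_right] at h1
  rwa [Nat.choose_symm_add] at h1

/-- growth of the binomial coefficients -/
theorem t_ClN : S_ClN := by
  intro n s hn
  set K : ℕ := (n + 1) * ((n + 2) * (s + 2 * n + 1) + n + 1) with hK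
  refine ⟨(n + 1) * (s + n) + s + K + 3, by omega, ?_⟩
  intro d hd
  refine ⟨?_, ?_⟩
  · have := le_choose n d hn
    omega
  · obtain ⟨e, rfl⟩ : ∃ e, d = e + 1 := ⟨d - 1, by omega⟩
    have hA : e + 1 ≤ (e + n).choose n := le_choose n e hn
    have hid : (e + 1 + n).choose n * (e + 1) = (e + n).choose n * (e + 1 + n) := by
      have h2 := Nat.add_one_mul_choose_eq (e + n) e
      have h3 : (e + n).choose e = (e + n).choose n := Nat.choose_symm_add
      have h4 : (e + 1 + n).choose (e + 1) = (e + 1 + n).choose n := Nat.choose_symm_add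
      have h5 : e + n + 1 = e + 1 + n := by omega
      rw [h5, h3, h4] at h2
      linarith
    have h7 : e + 1 - 1 + n = e + n := by omega
    rw [h7]
    set A : ℕ := (e + n).choose n with hAdef
    set B : ℕ := (e + 1 + n).choose n with hBdef
    have hKe : K ≤ e := by omega
    -- multiply by e + 1
    have hmul : (B + K) * (e + 1) ≤ (n + 1) * A * (e + 1) := by
      obtain ⟨m, rfl⟩ : ∃ m, n = m + 1 := ⟨n - 1, by omega⟩
      have e1 : (B + K) * (e + 1) = A * (e + 1 + (m + 1)) + K * (e + 1) := by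
        rw [add_mul, hid]
      have e2 : (m + 1 + 1) * A * (e + 1) = A * (e + 1 + (m + 1)) + (m + 1) * e * A := by ring
      rw [e1, e2]
      have e3 : K * (e + 1) ≤ e * A := Nat.mul_le_mul hKe hA
      have e4 : e * A ≤ (m + 1) * e * A := by
        apply Nat.mul_le_mul_right
        nlinarith
      omega
    exact Nat.le_of_mul_le_mul_right hmul (by omega)

end Pool.Agent.Lib.MP_d01072_ag.Bp
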