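import Pool.Agent.Lib.MP_d01072_ag.Bp.Spec

/-!
MP_d01072_ag, package Bp, module Cmb: the dichotomy for a decomposition of type `c`.
-/

set_option autoImplicit false

namespace Pool.Agent.Lib.MP_d01072_ag.Bp

open MvPolynomial

/-- filling up a sum of products with zero vectors -/
private theorem fill {K ι : Type} [Field K] {n d : ℕ} (hd : 1 ≤ d) (φ : ι → Fin (n + 1) → K) :
    ∀ (r : ℕ) (S : Finset ι), S.card ≤ r → ∃ u : Fin r → Fin (n + 1) → K,
      ∀ i : Fin d → Fin (n + 1), ∑ a ∈ S, ∏ t, φ a (i t) = ∑ j, ∏ t, u j (i t) := by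
  classical
  intro r
  induction r with
  | zero =>
    intro S hS
    have h0 : S = ∅ := Finset.card_eq_zero.1 (Nat.le_zero.1 hS)
    subst h0
    exact ⟨Fin.elim0, fun i => by simp⟩
  | succ r ih =>
    intro S hS
    by_cases h1 : S.card ≤ r
    · obtain ⟨u, hu⟩ := ih S h1
      refine ⟨Fin.snoc (α := fun _ => Fin (n + 1) → K) u 0, fun i => ?_⟩
      rw [Fin.sum_univ_castSucc, hu i]
      simp only [Fin.snoc_castSucc, Fin.snoc_last, Pi.zero_apply]
      rw [Finset.prod_const, Finset.card_univ, Fintype.card_fin, zero_pow (by omega), add_zero]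
    · have h2 : S.Nonempty := by
        rw [← Finset.card_pos]
        omega
      obtain ⟨a, ha⟩ := h2
      have h3 : (S.erase a).card ≤ r := by
        rw [Finset.card_erase_of_mem ha]
        omega
      obtain ⟨u, hu⟩ := ih (S.erase a) h3
      refine ⟨Fin.snoc (α := fun _ => Fin (n + 1) → K) u (φ a), fun i => ?_⟩
      rw [Fin.sum_univ_castSucc]
      simp only [Fin.snoc_castSucc, Fin.snoc_last]
      rw [← hu i, Finset.sum_erase_add _ _ ha]

/-- the content of an arrangement has degree `d` -/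
private theorem content_deg {n d : ℕ} (i : Fin d → Fin (n + 1)) :
    ∑ j, (∑ t, Finsupp.single ((0 : Fin 1), i t) 1 : Fin 1 × Fin (n + 1) →₀ ℕ) (0, j) = d := by
  classical
  simp only [Finsupp.finset_sum_apply]
  rw [Finset.sum_comm]
  have h : ∀ t : Fin d, ∑ j, (Finsupp.single ((0 : Fin 1), i t) 1 : Fin 1 × Fin (n + 1) →₀ ℕ) (0, j)
      = 1 := by
    intro t
    rw [Finset.sum_eq_single (i t)]
    · simp
    · intro b _ hb
      rw [Finsupp.single_apply, if_neg]
      intro h2
      exact hb (congrArg Prod.snd h2).symm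
    · intro h2
      exact absurd (Finset.mem_univ _) h2
  rw [Finset.sum_congr rfl fun t _ => h t]
  simp

private theorem aeval_content {K : Type} [Field K] {n d : ℕ} (a : Fin (n + 1) → K)
    (i : Fin d → Fin (n + 1)) :
    (aeval (dg 1 a) : Rm K 1 n →ₐ[K] K) (monomial (∑ t, Finsupp.single (0, i t) 1) 1) =
      ∏ t, a (i t) := by
  rw [monomial_sum_one, map_prod]
  refine Finset.prod_congr rfl fun t _ => ?_
  change (aeval (dg 1 a) : Rm K 1 n →ₐ[K] K) (X ((0 : Fin 1), i t)) = _
  rw [aeval_X]
  rfl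

theorem t_Cmb (h1 : Tf.S_Acl) (h2 : S_Prd) (h3 : S_BadM) (h4 : S_Red) (h5 : S_Dec) : S_Cmb := by
  classical
  intro K _ _ _ n a d p l m c κ r v hn hl hla hκ hm hCm hK1 hr1 hr2 hsym
  have ha1 : 1 ≤ a := hl.trans hla
  have hCc : 0 < Cc n a := by
    unfold Cc
    positivity
  have hCm1 : 1 ≤ Cm n a := by
    unfold Cm
    have h : 0 < 64 * n ^ 2 * a ^ 2 * Cc n a := by positivity
    exact h
  have hm1 : 1 ≤ m := hCm1.trans hCm
  have hsz : ∀ j, 1 ≤ size c (κ j) := fun j => hm1.trans (hm j)
  have hsum : ∑ j, size c (κ j) ≤ d := by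
    have h6 : ∑ j, size c (κ j) = ∑ k ∈ Finset.univ.image κ, size c k := by
      rw [Finset.sum_image fun x _ y _ h => hκ h]
    have h7 : ∑ k ∈ Finset.univ.image κ, size c k ≤ ∑ k, size c k :=
      Finset.sum_le_sum_of_subset (Finset.subset_univ _)
    have h8 : ∑ k, size c k = d := by
      have h9 := Fintype.card_sigma (α := fun k => {t : Fin d // c t = k})
      have h10 : Fintype.card (Σ k, {t : Fin d // c t = k}) = Fintype.card (Fin d) :=
        Fintype.card_congr (Equiv.sigmaFiberEquiv c)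
      rw [Fintype.card_fin] at h10
      exact h9.symm.trans h10
    omega
  have hd1 : 1 ≤ d := by
    have h6 : size c (κ ⟨0, hl⟩) ≤ ∑ j, size c (κ j) :=
      Finset.single_le_sum (f := fun j => size c (κ j)) (fun _ _ => Nat.zero_le _)
        (Finset.mem_univ _)
    have h7 := hsz ⟨0, hl⟩
    omega
  obtain ⟨L, A, τ, hAr, hAN, hRep, hL⟩ := h5 K n d p l c κ r v hκ hsz hsym
  obtain ⟨B, Cg, w, τ', hBC, hBN, hCg, hHf, hRep', hBad⟩ :=
    h4 K l n (fun j => size c (κ j)) (d - ∑ j, size c (κ j)) A L τ hl hAN hRep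
  set L' : Rm K 1 n →ₗ[K] K :=
    L - ∑ a ∈ Cg, w a • (aeval (dg 1 a) : Rm K 1 n →ₐ[K] K).toLinearMap with hL'
  have hLL' : ∀ i : Fin d → Fin (n + 1),
      L (monomial (∑ t, Finsupp.single (0, i t) 1) 1) =
        L' (monomial (∑ t, Finsupp.single (0, i t) 1) 1) + ∑ a ∈ Cg, w a * ∏ t, a (i t) := by
    intro i
    rw [hL', LinearMap.sub_apply, LinearMap.sum_apply]
    have h6 : ∀ a ∈ Cg, (w a • (aeval (dg 1 a) : Rm K 1 n →ₐ[K] K).toLinearMap)
        (monomial (∑ t, Finsupp.single (0, i t) 1) 1) = w a * ∏ t, a (i t) := by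
      intro a _
      rw [LinearMap.smul_apply, smul_eq_mul, AlgHom.toLinearMap_apply, aeval_content]
    rw [Finset.sum_congr rfl h6]
    ring
  by_cases hB : B = ∅
  · left
    have hzero : ∀ f ∈ Fm K n d, L' f = 0 := by
      intro f hf
      have h6 := (h2 K 1 n (fun _ => ∑ j, size c (κ j)) (fun _ => d - ∑ j, size c (κ j))).1
      have h7 : ((fun _ => ∑ j, size c (κ j)) + (fun _ => d - ∑ j, size c (κ j)) : Fin 1 → ℕ) =
          fun _ => d := by
        funext k
        rw [Pi.add_apply]
        omega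
      rw [h7] at h6
      have h8 := (h2 K l n (fun j => size c (κ j)) (fun j => size c (κ j))).2
      have hf' : f ∈ Mh K n (fun _ : Fin 1 => d) := hf
      rw [← h6] at hf'
      refine Submodule.mul_induction_on hf' (fun x hx y hy => ?_) (fun x y hx hy => ?_)
      · have hx' : x ∈ (Mh K n (fun j => size c (κ j))).map (res K l n).toLinearMap := by
          rw [h8]
          exact hx
        obtain ⟨F, hF, hFx⟩ := hx'
        have h9 := hRep' F hF y hy
        rw [hB, Finset.sum_empty] at h9
        rw [← hFx]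
        exact h9
      · rw [map_add, hx, hy, add_zero]
    have hroot : ∀ a : Fin (n + 1) → K, ∃ z : K, z ^ d = w a := fun a =>
      IsAlgClosed.exists_pow_nat_eq (w a) (by omega)
    choose z hz using hroot
    obtain ⟨u, hu⟩ := fill hd1 (fun a : Fin (n + 1) → K => fun i => z a * a i) r Cg
      (by omega)
    refine ⟨u, fun i => ?_⟩
    rw [← hu i, ← hL i, hLL' i]
    have h10 : (monomial (∑ t, Finsupp.single (0, i t) 1) 1 : Rm K 1 n) ∈ Fm K n d := by
      intro s hs k
      rw [coeff_monomial] at hs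
      have h11 : (∑ t, Finsupp.single (0, i t) 1 : Fin 1 × Fin (n + 1) →₀ ℕ) = s := by
        by_contra h12
        exact hs (if_neg h12)
      rw [← h11]
      have hk : k = 0 := Subsingleton.elim _ _
      subst hk
      exact content_deg i
    rw [hzero _ h10, zero_add]
    refine Finset.sum_congr rfl fun a _ => ?_
    rw [Finset.prod_mul_distrib, Finset.prod_const, Finset.card_univ, Fintype.card_fin, hz]
  · right
    have hBne : B.Nonempty := Finset.nonempty_iff_ne_empty.2 hB
    obtain ⟨hB1, G, hG1, hG2⟩ := h3 ℂ K a l n m (d - ∑ j, size c (κ j))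
      (fun j => size c (κ j)) B L' τ' hn hl hla hm hCm hK1 (by omega) (by omega) hBN hHf hRep' hBad
    have hB2 := hB1 hBne
    choose! ix hix using hCg
    set G' : Finset K := G ∪ (Cg.image w ∪
      Cg.biUnion fun a => (Finset.univ.erase (ix a)).image a) with hG'
    have hcard : G'.card ≤ G.card + (n + 1) * Cg.card := by
      have h6 : (Cg.biUnion fun a => (Finset.univ.erase (ix a)).image a).card ≤ Cg.card * n := by
        refine Finset.card_biUnion_le_card_mul _ _ _ fun a _ => ?_
        refine Finset.card_image_le.trans ?_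
        rw [Finset.card_erase_of_mem (Finset.mem_univ _), Finset.card_univ, Fintype.card_fin]
        omega
      have h7 : (Cg.image w).card ≤ Cg.card := Finset.card_image_le
      have h8 : G'.card ≤ G.card + (Cg.image w ∪
          Cg.biUnion fun a => (Finset.univ.erase (ix a)).image a).card := Finset.card_union_le _ _
      have h9 : (Cg.image w ∪
          Cg.biUnion fun a => (Finset.univ.erase (ix a)).image a).card ≤
          (Cg.image w).card + (Cg.biUnion fun a => (Finset.univ.erase (ix a)).image a).card :=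
        Finset.card_union_le _ _
      have h10 : (n + 1) * Cg.card = Cg.card * n + Cg.card := by ring
      omega
    obtain ⟨hs1, _, _, _⟩ := h1 ℂ K (G' : Set K) (G' : Set K)
    have hmono : Tf.Cl ℂ (G : Set K) ≤ Tf.Cl ℂ (G' : Set K) := by
      refine (h1 ℂ K (G : Set K) (G' : Set K)).2.1 ?_
      refine Set.Subset.trans ?_ hs1
      rw [hG']
      exact_mod_cast Finset.subset_union_left
    have hwm : ∀ a ∈ Cg, w a ∈ Tf.Cl ℂ (G' : Set K) := by
      intro a ha
      refine hs1 ?_
      rw [hG', Finset.mem_coe, Finset.mem_union, Finset.mem_union]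
      exact Or.inr (Or.inl (Finset.mem_image_of_mem w ha))
    have ham : ∀ a ∈ Cg, ∀ i, a i ∈ Tf.Cl ℂ (G' : Set K) := by
      intro a ha i
      by_cases hi : i = ix a
      · rw [hi, hix a ha]
        exact (Tf.Cl ℂ (G' : Set K)).one_mem
      · refine hs1 ?_
        rw [hG', Finset.mem_coe, Finset.mem_union, Finset.mem_union]
        refine Or.inr (Or.inr (Finset.mem_biUnion.2 ⟨a, ha, Finset.mem_image.2 ⟨i, ?_, rfl⟩⟩))
        exact Finset.mem_erase.2 ⟨hi, Finset.mem_univ _⟩
    refine ⟨G', ?_, fun i => ?_⟩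
    · have h6 : 2 * Cc n a * G'.card ≤ 2 * Cc n a * (G.card + (n + 1) * Cg.card) :=
        Nat.mul_le_mul_left _ hcard
      have h7 : 2 * Cc n a * (n + 1) * (B.card + Cg.card) ≤ 2 * Cc n a * (n + 1) * r :=
        Nat.mul_le_mul_left _ (hBC.trans hAr)
      have h8 : 2 * Cc n a * (G.card + (n + 1) * Cg.card) =
          2 * Cc n a * G.card + 2 * Cc n a * (n + 1) * Cg.card := by ring
      have h9 : 2 * Cc n a * (n + 1) * (B.card + Cg.card) =
          2 * Cc n a * (n + 1) * B.card + 2 * Cc n a * (n + 1) * Cg.card := by ring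
      omega
    · rw [← hL i, hLL' i]
      refine (Tf.Cl ℂ (G' : Set K)).add_mem (hmono (hG2 _ ?_)) ?_
      · rw [content_deg]
        omega
      · refine (Tf.Cl ℂ (G' : Set K)).sum_mem fun a ha => ?_
        refine (Tf.Cl ℂ (G' : Set K)).mul_mem (hwm a ha) ?_
        exact (Tf.Cl ℂ (G' : Set K)).prod_mem fun t _ => ham a ha (i t)

end Pool.Agent.Lib.MP_d01072_ag.Bp
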