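import Pool.Agent.Lib.MP_d01072_ag.Bp.Spec

/-!
MP_d01072_ag, package Bp, module Cnt: the monomials of multidegree `b` are a basis of `Mh K n b`.
-/

set_option autoImplicit false

namespace Pool.Agent.Lib.MP_d01072_ag.Bp

open MvPolynomial

private def MonS {l : ℕ} (n : ℕ) (b : Fin l → ℕ) : Set (Fin l × Fin (n + 1) →₀ ℕ) :=
  {s | ∀ k, ∑ i, s (k, i) = b k}

private lemma Mh_eq (K : Type) [Field K] {l : ℕ} (n : ℕ) (b : Fin l → ℕ) :
    Mh K n b = restrictSupport K (MonS n b) := by
  ext f
  rw [mem_restrictSupport_iff]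
  constructor
  · intro h s hs
    exact h s (mem_support_iff.1 hs)
  · intro h s hs
    exact h (mem_support_iff.2 hs)

/-- the exponents of one group -/
private abbrev Ag (n m : ℕ) : Type := {t : Fin (n + 1) →₀ ℕ // t ∈ Finset.univ.finsuppAntidiag m}

private lemma card_Ag (n m : ℕ) : Fintype.card (Ag n m) = (m + n).choose n := by
  rw [Fintype.card_coe, Finset.card_finsuppAntidiag_nat_eq_choose, Finset.card_univ, Fintype.card_fin]
  rw [show n + 1 + m - 1 = m + n by omega, Nat.choose_symm_add]

private noncomputable def eqv {l : ℕ} (n : ℕ) (b : Fin l → ℕ) : MonS n b ≃ (∀ k, Ag n (b k)) where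
  toFun s := fun k => ⟨Finsupp.equivFunOnFinite.symm (fun i => s.1 (k, i)), by
    rw [Finset.mem_finsuppAntidiag]
    refine ⟨?_, Finset.subset_univ _⟩
    simpa using s.2 k⟩
  invFun g := ⟨Finsupp.equivFunOnFinite.symm (fun q => (g q.1).1 q.2), fun k => by
    have h := (Finset.mem_finsuppAntidiag.1 (g k).2).1
    simpa using h⟩
  left_inv s := by
    apply Subtype.ext
    ext q
    simp
  right_inv g := by
    funext k
    apply Subtype.ext
    ext i
    simp

theorem t_Cnt : S_Cnt := by
  intro K _ l n b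
  rw [Mh_eq]
  haveI : Fintype (MonS n b) := Fintype.ofEquiv _ (eqv n b).symm
  refine ⟨Module.Finite.of_basis (basisRestrictSupport K (MonS n b)), ?_⟩
  rw [Module.finrank_eq_card_basis (basisRestrictSupport K (MonS n b)), Fintype.card_congr (eqv n b),
    Fintype.card_pi]
  exact Finset.prod_congr rfl fun k _ => card_Ag n (b k)

end Pool.Agent.Lib.MP_d01072_ag.Bp
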