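import Pool.Agent.Lib.MP_d01072_ag.Bp.Spec

set_option autoImplicit false

namespace Pool.Agent.Lib.MP_d01072_ag.Bp

private theorem Cor_step (h1 : S_Am) (n d : ℕ) (hd : 1 ≤ d) (h0 j : ℕ) :
    am n d (h0 + j) ≤ am n d h0 - j := by
  induction j with
  | zero => simp
  | succ j ih =>
    have h := (h1 n d (h0 + j)).2.2.2.2.1 hd
    have e : h0 + (j + 1) = h0 + j + 1 := by ring
    rw [e]
    omega

private theorem Cor_main (h1 : S_Am) (n d s : ℕ) (hd : 1 ≤ d) (h0 j N : ℕ)
    (hA : am n d h0 + (n + 1) * h0 ≤ N) (hs : am n d h0 ≤ s + n) :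
    (n + 1) * (h0 + j) + am n d (h0 + j) ≤ N + n * (s + n) ∨ am n d (h0 + j) = 0 := by
  have hst := Cor_step h1 n d hd h0 j
  by_cases hz : am n d (h0 + j) = 0
  · exact Or.inr hz
  · left
    have hj : j ≤ s + n := by omega
    have hB : j + am n d (h0 + j) ≤ am n d h0 := by omega
    have hnj : n * j ≤ n * (s + n) := Nat.mul_le_mul_left n hj
    have e : (n + 1) * (h0 + j) = (n + 1) * h0 + n * j + j := by ring
    rw [e]
    omega

private theorem Cor_clm (h2 : S_Bn) (h3 : S_Ind) : ∀ n : ℕ, 1 ≤ n → ∃ s : ℕ, Clm n s := by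
  intro n hn
  induction n, hn using Nat.le_induction with
  | base =>
    refine ⟨0, ?_⟩
    intro d h hd hh
    have e : (d + 1).choose 1 = d + 1 := Nat.choose_one_right _
    rw [e] at hh ⊢
    have := h2 d h hd (by omega)
    omega
  | succ n hn ih =>
    obtain ⟨s, hs⟩ := ih
    exact h3 n s hn hs

theorem t_Cor (h1 : S_Am) (h2 : S_Bn) (h3 : S_Ind) : S_Cor := by
  intro n hn
  obtain ⟨s, hs⟩ := Cor_clm h2 h3 n hn
  refine ⟨n * (s + n), ?_⟩
  intro d h hd
  by_cases hc : (n + 1) * h + s ≤ (d + n).choose n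
  · left
    have := hs d h hd hc
    omega
  · by_cases hsN : s ≤ (d + n).choose n
    · have hdiv : (n + 1) * (((d + n).choose n - s) / (n + 1)) ≤ (d + n).choose n - s :=
        Nat.mul_div_le _ _
      have hlt : (d + n).choose n - s < (n + 1) * (((d + n).choose n - s) / (n + 1) + 1) := by
        have := Nat.lt_mul_div_succ ((d + n).choose n - s) (Nat.succ_pos n)
        simpa using this
      obtain ⟨h0, hh0⟩ : ∃ h0, h0 = ((d + n).choose n - s) / (n + 1) := ⟨_, rfl⟩
      rw [← hh0] at hdiv hlt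
      have hA := hs d h0 hd (by omega)
      have hlt2 : (d + n).choose n < (n + 1) * h0 + (n + 1) + s := by
        have e : (n + 1) * (h0 + 1) = (n + 1) * h0 + (n + 1) := by ring
        rw [e] at hlt
        omega
      have hle : h0 ≤ h := by
        by_contra hcon
        apply hc
        have : (n + 1) * h ≤ (n + 1) * h0 := Nat.mul_le_mul_left _ (by omega)
        omega
      obtain ⟨j, rfl⟩ := Nat.exists_eq_add_of_le hle
      exact Cor_main h1 n d s hd h0 j _ hA (by omega)
    · have h0 := (h1 n d 0).2.2.2.1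
      have := Cor_main h1 n d s hd 0 h ((d + n).choose n) (by omega) (by omega)
      rw [Nat.zero_add] at this
      exact this

end Pool.Agent.Lib.MP_d01072_ag.Bp
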