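import Pool.Agent.Lib.MP_d01072_ag.Bp.Spec

/-!
MP_d01072_ag, package Bp, module Dec: from a decomposition of the symmetric tensor to the functional on
the forms of degree `d`, given by the normalised points of the large groups.
-/

set_option autoImplicit false

namespace Pool.Agent.Lib.MP_d01072_ag.Bp

open MvPolynomial

/-- the content of an arrangement -/
private noncomputable def cnt {ι α : Type} [Fintype ι] (i : ι → α) : α →₀ ℕ :=
  ∑ t, Finsupp.single (i t) 1

private theorem cnt_apply {ι α : Type} [Fintype ι] [DecidableEq α] (i : ι → α) (x : α) :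
    cnt i x = Fintype.card {t : ι // i t = x} := by
  classical
  unfold cnt
  rw [Finsupp.finsetSum_apply, Fintype.card_subtype, Finset.card_filter]
  refine Finset.sum_congr rfl fun t _ => ?_
  rw [Finsupp.single_apply]

private theorem exists_perm {α : Type} [DecidableEq α] {d : ℕ} (i i' : Fin d → α)
    (h : cnt i = cnt i') : ∃ σ : Equiv.Perm (Fin d), ∀ t, i (σ t) = i' t := by
  have h1 : ∀ x, Nonempty ({t : Fin d // i' t = x} ≃ {t : Fin d // i t = x}) := by
    intro x
    refine ⟨Fintype.equivOfCardEq ?_⟩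
    rw [← cnt_apply, ← cnt_apply, h]
  let e : ∀ x, {t : Fin d // i' t = x} ≃ {t : Fin d // i t = x} := fun x => (h1 x).some
  refine ⟨(Equiv.sigmaFiberEquiv i').symm.trans
    ((Equiv.sigmaCongrRight e).trans (Equiv.sigmaFiberEquiv i)), fun t => ?_⟩
  exact (e (i' t) ⟨t, rfl⟩).2

private theorem exists_cnt {ι α : Type} [Fintype ι] (s : α →₀ ℕ)
    (hs : s.degree = Fintype.card ι) : ∃ i : ι → α, cnt i = s := by
  classical
  have hc : (Finsupp.toMultiset s).toList.length = Fintype.card ι := by
    rw [Multiset.length_toList, Finsupp.card_toMultiset]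
    exact hs
  let e : ι ≃ Fin (Finsupp.toMultiset s).toList.length :=
    (Fintype.equivFinOfCardEq hc.symm)
  refine ⟨fun t => (Finsupp.toMultiset s).toList.get (e t), ?_⟩
  unfold cnt
  have h1 : ∑ t, Finsupp.single ((Finsupp.toMultiset s).toList.get (e t)) 1 =
      ∑ t : Fin (Finsupp.toMultiset s).toList.length,
        Finsupp.single ((Finsupp.toMultiset s).toList.get t) 1 :=
    Equiv.sum_comp e fun t => Finsupp.single ((Finsupp.toMultiset s).toList.get t) 1
  rw [h1]
  apply (Finsupp.orderIsoMultiset (ι := α)).injective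
  show Finsupp.toMultiset _ = Finsupp.toMultiset _
  rw [map_sum]
  simp only [Finsupp.toMultiset_single, one_smul]
  have h2 : ∀ L : List α, ∑ t : Fin L.length, ({L.get t} : Multiset α) = (L : Multiset α) := by
    intro L
    rw [Finset.sum_eq_multiset_sum]
    induction L with
    | nil => rfl
    | cons a L ih =>
      rw [← Finset.sum_eq_multiset_sum] at ih ⊢
      have : ∑ t : Fin (a :: L).length, ({(a :: L).get t} : Multiset α) =
        {a} + ∑ t : Fin L.length, ({L.get t} : Multiset α) :=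
        Fin.sum_univ_succ (n := L.length) fun t => ({(a :: L).get t} : Multiset α)
      rw [this, ih]
      rfl
  rw [h2]
  exact Multiset.coe_toList _

/-- the slots of the groups `κ k` and the others -/
private theorem prod_split {M : Type} [CommMonoid M] {d p l : ℕ} (c : Fin d → Fin p)
    (κ : Fin l → Fin p) (hκ : Function.Injective κ) (f : Fin d → M) :
    ∏ t, f t = (∏ k, ∏ t : {t : Fin d // c t = κ k}, f t) *
      ∏ t : {t : Fin d // ∀ k, c t ≠ κ k}, f t := by
  classical
  rw [← Fintype.prod_subtype_mul_prod_subtype (fun t => ∀ k, c t ≠ κ k) f, mul_comm]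
  congr 1
  let e : (Σ k, {t : Fin d // c t = κ k}) → {t : Fin d // ¬ ∀ k, c t ≠ κ k} :=
    fun x => ⟨x.2.1, fun h => h x.1 x.2.2⟩
  have he : Function.Bijective e := by
    constructor
    · rintro ⟨k, t, ht⟩ ⟨k', t', ht'⟩ h
      have h1 : t = t' := congrArg Subtype.val h
      subst h1
      have h2 : k = k' := hκ (ht.symm.trans ht')
      subst h2
      rfl
    · rintro ⟨t, ht⟩
      push Not at ht
      obtain ⟨k, hk⟩ := ht
      exact ⟨⟨k, t, hk⟩, rfl⟩
  rw [← (Equiv.ofBijective e he).prod_comp, Fintype.prod_sigma]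
  rfl

private theorem card_rest {d p l : ℕ} (c : Fin d → Fin p) (κ : Fin l → Fin p)
    (hκ : Function.Injective κ) :
    Fintype.card {t : Fin d // ∀ k, c t ≠ κ k} = d - ∑ k, size c (κ k) := by
  have h := prod_split (M := Multiplicative ℕ) c κ hκ (fun _ => Multiplicative.ofAdd 1)
  have h1 : d = (∑ k, size c (κ k)) + Fintype.card {t : Fin d // ∀ k, c t ≠ κ k} := by
    have := congrArg Multiplicative.toAdd h
    simpa [size, toAdd_prod] using this
  omega

/-- every monomial of multidegree `card S` is a product of variables -/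
private theorem exists_prod {K : Type} [Field K] {l n : ℕ} {S : Fin l → Type} [∀ k, Fintype (S k)]
    (a : Fin l × Fin (n + 1) →₀ ℕ) (ha : ∀ k, ∑ i, a (k, i) = Fintype.card (S k)) :
    ∃ ia : ∀ k, S k → Fin (n + 1),
      (monomial a 1 : Rm K l n) = ∏ k, ∏ t : S k, X (k, ia k t) := by
  classical
  have h1 : ∀ k, ∃ i : S k → Fin (n + 1),
      cnt i = Finsupp.equivFunOnFinite.symm (fun i => a (k, i)) := by
    intro k
    refine exists_cnt _ ?_
    rw [← ha k, Finsupp.degree_eq_sum]
    simp
  choose ia hia using h1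
  refine ⟨ia, ?_⟩
  have h2 : a = ∑ k, ∑ t : S k, Finsupp.single (k, ia k t) 1 := by
    ext ⟨k, i⟩
    rw [Finsupp.finsetSum_apply, Finset.sum_eq_single k]
    · have h3 := DFunLike.congr_fun (hia k) i
      rw [Finsupp.equivFunOnFinite_symm_apply_apply] at h3
      rw [← h3]
      unfold cnt
      rw [Finsupp.finsetSum_apply, Finsupp.finsetSum_apply]
      refine Finset.sum_congr rfl fun t _ => ?_
      rw [Finsupp.single_apply, Finsupp.single_apply]
      simp
    · intro k' _ hk'
      rw [Finsupp.finsetSum_apply]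
      refine Finset.sum_eq_zero fun t _ => ?_
      rw [Finsupp.single_apply, if_neg]
      intro h
      exact hk' (congrArg Prod.fst h)
    · intro h
      exact absurd (Finset.mem_univ k) h
  conv_lhs => rw [h2]
  rw [monomial_sum_one]
  refine Finset.prod_congr rfl fun k _ => ?_
  rw [monomial_sum_one]
  rfl

/-- two linear maps which agree on the monomials of multidegree `b` agree on `Mh b` -/
private theorem lin_ext {K M : Type} [Field K] [AddCommGroup M] [Module K M] {l n : ℕ}
    (b : Fin l → ℕ) (φ ψ : Rm K l n →ₗ[K] M)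
    (h : ∀ a : Fin l × Fin (n + 1) →₀ ℕ, (∀ k, ∑ i, a (k, i) = b k) →
      φ (monomial a 1) = ψ (monomial a 1)) (F : Rm K l n) (hF : F ∈ Mh K n b) : φ F = ψ F := by
  classical
  rw [F.as_sum, map_sum, map_sum]
  refine Finset.sum_congr rfl fun a ha => ?_
  have h1 : (monomial a (coeff a F) : Rm K l n) = coeff a F • monomial a 1 := by
    rw [smul_monomial, smul_eq_mul, mul_one]
  rw [h1, map_smul, map_smul, h a (hF a (mem_support_iff.1 ha))]

private theorem eval_scale {K : Type} [Field K] {l n : ℕ} (b : Fin l → ℕ) (s : Fin l → K)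
    (x : Pt K l n) (F : Rm K l n) (hF : F ∈ Mh K n b) :
    eval (fun q => s q.1 * x q) F = (∏ k, s k ^ b k) * eval x F := by
  have h := lin_ext b
    ((aeval (fun q => s q.1 * x q) : Rm K l n →ₐ[K] K).toLinearMap)
    ((∏ k, s k ^ b k) • (aeval x : Rm K l n →ₐ[K] K).toLinearMap) (by
      intro a ha
      rw [LinearMap.smul_apply, AlgHom.toLinearMap_apply, AlgHom.toLinearMap_apply,
        aeval_monomial, aeval_monomial, map_one, one_mul, one_mul, smul_eq_mul,
        Finsupp.prod_fintype _ _ (fun _ => pow_zero _),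
        Finsupp.prod_fintype _ _ (fun _ => pow_zero _)]
      simp only [mul_pow, Finset.prod_mul_distrib]
      congr 1
      rw [Fintype.prod_prod_type]
      refine Finset.prod_congr rfl fun k _ => ?_
      rw [← ha k, ← Finset.prod_pow_eq_pow_sum]) F hF
  rw [LinearMap.smul_apply, AlgHom.toLinearMap_apply, AlgHom.toLinearMap_apply, smul_eq_mul,
    aeval_eq_eval, aeval_eq_eval] at h
  exact h

/-- the first nonzero coordinate -/
private theorem exists_first {K : Type} [Field K] {n : ℕ} (u : Fin (n + 1) → K) (hu : u ≠ 0) :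
    ∃ i, u i ≠ 0 ∧ ∀ j, j < i → u j = 0 := by
  obtain ⟨i0, hi0⟩ := Function.ne_iff.1 hu
  obtain ⟨i, hi, hmin⟩ := (wellFounded_lt (α := Fin (n + 1))).has_min {i | u i ≠ 0} ⟨i0, hi0⟩
  refine ⟨i, hi, fun j hj => ?_⟩
  by_contra h
  exact hmin j h hj

theorem t_Dec : S_Dec := by
  classical
  intro K _ n d p l c κ r v hκ hδ hsym
  set δ : Fin l → ℕ := fun j => size c (κ j) with hδd
  set T : (Fin d → Fin (n + 1)) → K := fun i => ∑ j, ∏ t, v j (c t) (i t) with hT
  let L : Rm K 1 n →ₗ[K] K := (basisMonomials (Fin 1 × Fin (n + 1)) K).constr K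
    fun s => if h : ∃ i : Fin d → Fin (n + 1), cnt (fun t => ((0 : Fin 1), i t)) = s
      then T h.choose else 0
  have hL : ∀ i : Fin d → Fin (n + 1), L (monomial (cnt fun t => ((0 : Fin 1), i t)) 1) = T i := by
    intro i
    have h3 := (basisMonomials (Fin 1 × Fin (n + 1)) K).constr_basis K
        (fun s => if h : ∃ i : Fin d → Fin (n + 1), cnt (fun t => ((0 : Fin 1), i t)) = s
          then T h.choose else 0) (cnt fun t => ((0 : Fin 1), i t))
    rw [coe_basisMonomials] at h3
    have h4 : ∃ i' : Fin d → Fin (n + 1),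
        cnt (fun t => ((0 : Fin 1), i' t)) = cnt fun t => ((0 : Fin 1), i t) := ⟨i, rfl⟩
    rw [dif_pos h4] at h3
    refine Eq.trans h3 ?_
    obtain ⟨σ, hσ⟩ := exists_perm _ _ h4.choose_spec
    show ∑ j, ∏ t, v j (c t) (h4.choose t) = ∑ j, ∏ t, v j (c t) (i t)
    rw [← hsym σ h4.choose]
    have hσ' : ∀ t, h4.choose (σ t) = i t := fun t => congrArg Prod.snd (hσ t)
    simp only [hσ']
  have hLX : ∀ i : Fin d → Fin (n + 1), L (∏ t, X (0, i t)) = T i := by
    intro i
    rw [← hL i]
    congr 1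
    unfold cnt
    rw [monomial_sum_one]
    rfl
  -- the functionals outside the groups
  let τ' : Fin r → (Rm K 1 n →ₗ[K] K) := fun j =>
    (basisMonomials (Fin 1 × Fin (n + 1)) K).constr K
    fun s => if h : ∃ ib : {t : Fin d // ∀ k, c t ≠ κ k} → Fin (n + 1),
      (monomial s 1 : Rm K 1 n) = ∏ t, X (0, ib t) then
        ∏ t : {t : Fin d // ∀ k, c t ≠ κ k}, v j (c t) (h.choose t) else 0
  have hτ' : ∀ b : Fin 1 × Fin (n + 1) →₀ ℕ, (∀ k, ∑ i, b (k, i) = d - ∑ k, size c (κ k)) →
      ∃ ib : {t : Fin d // ∀ k, c t ≠ κ k} → Fin (n + 1),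
        (monomial b 1 : Rm K 1 n) = ∏ t, X (0, ib t) ∧
        ∀ j, τ' j (monomial b 1) =
          ∏ t : {t : Fin d // ∀ k, c t ≠ κ k}, v j (c t) (ib t) := by
    intro b hb
    have h4 : ∃ ib : {t : Fin d // ∀ k, c t ≠ κ k} → Fin (n + 1),
        (monomial b 1 : Rm K 1 n) = ∏ t, X (0, ib t) := by
      obtain ⟨ib, hib⟩ := exists_prod (K := K) (n := n)
        (S := fun _ : Fin 1 => {t : Fin d // ∀ k, c t ≠ κ k}) b (by
          intro k
          rw [hb k, card_rest c κ hκ])
      refine ⟨ib 0, ?_⟩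
      rw [hib, Fin.prod_univ_one]
    refine ⟨h4.choose, h4.choose_spec, fun j => ?_⟩
    have h3 := (basisMonomials (Fin 1 × Fin (n + 1)) K).constr_basis K
      (fun s => if h : ∃ ib : {t : Fin d // ∀ k, c t ≠ κ k} → Fin (n + 1),
      (monomial s 1 : Rm K 1 n) = ∏ t, X (0, ib t) then
        ∏ t : {t : Fin d // ∀ k, c t ≠ κ k}, v j (c t) (h.choose t) else 0) b
    rw [coe_basisMonomials, dif_pos h4] at h3
    exact h3
  -- the points
  let w : Fin r → Pt K l n := fun j q => v j (κ q.1) q.2
  have hmono : ∀ a : Fin l × Fin (n + 1) →₀ ℕ, (∀ k, ∑ i, a (k, i) = δ k) →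
      ∀ b : Fin 1 × Fin (n + 1) →₀ ℕ, (∀ k, ∑ i, b (k, i) = d - ∑ k, size c (κ k)) →
      L (res K l n (monomial a 1) * monomial b 1) =
        ∑ j, eval (w j) (monomial a 1) * τ' j (monomial b 1) := by
    intro a ha b hb
    obtain ⟨ib, hib, hτb⟩ := hτ' b hb
    obtain ⟨ia, hia⟩ := exists_prod (K := K) (n := n)
        (S := fun k : Fin l => {t : Fin d // c t = κ k}) a ha
    let i : Fin d → Fin (n + 1) := fun t =>
      if h : ∀ k, c t ≠ κ k then ib ⟨t, h⟩
      else if h' : ∃ k, c t = κ k then ia h'.choose ⟨t, h'.choose_spec⟩ else 0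
    have hi1 : ∀ k, ∀ t : {t : Fin d // c t = κ k}, i t = ia k t := by
      rintro k ⟨t, ht⟩
      have h1 : ¬ ∀ k, c t ≠ κ k := fun h => h k ht
      have h2 : ∃ k, c t = κ k := ⟨k, ht⟩
      show (if h : ∀ k, c t ≠ κ k then ib ⟨t, h⟩
        else if h' : ∃ k, c t = κ k then ia h'.choose ⟨t, h'.choose_spec⟩ else 0) = _
      rw [dif_neg h1, dif_pos h2]
      have h3 : h2.choose = k := hκ (h2.choose_spec.symm.trans ht)
      have h4 : ∀ k' (h5 : c t = κ k'), k' = k → ia k' ⟨t, h5⟩ = ia k ⟨t, ht⟩ := by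
        intro k' h5 h6
        subst h6
        rfl
      exact h4 _ h2.choose_spec h3
    have hi2 : ∀ t : {t : Fin d // ∀ k, c t ≠ κ k}, i t = ib t := fun t => dif_pos t.2
    have h5 : res K l n (monomial a 1) * monomial b 1 = ∏ t, X (0, i t) := by
      rw [prod_split c κ hκ, hib, hia]
      unfold res
      simp only [map_prod, rename_X, hi1, hi2]
    rw [h5, hLX]
    show ∑ j, ∏ t, v j (c t) (i t) = _
    refine Finset.sum_congr rfl fun j _ => ?_
    rw [prod_split c κ hκ, hτb j, hia]
    simp only [map_prod, eval_X, hi1, hi2]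
    congr 1
    refine Finset.prod_congr rfl fun k _ => Finset.prod_congr rfl fun t _ => ?_
    rw [t.2]
  have hrep : ∀ F ∈ Mh K n δ, ∀ G ∈ Fm K n (d - ∑ k, size c (κ k)),
      L (res K l n F * G) = ∑ j, eval (w j) F * τ' j G := by
    intro F hF G hG
    have h1 : ∀ a : Fin l × Fin (n + 1) →₀ ℕ, (∀ k, ∑ i, a (k, i) = δ k) →
        L (res K l n (monomial a 1) * G) = ∑ j, eval (w j) (monomial a 1) * τ' j G := by
      intro a ha
      have := lin_ext (fun _ : Fin 1 => d - ∑ k, size c (κ k))
        (L ∘ₗ LinearMap.mulLeft K (res K l n (monomial a 1)))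
        (∑ j, eval (w j) (monomial a 1) • τ' j) (by
          intro b hb
          rw [LinearMap.comp_apply, LinearMap.mulLeft_apply, hmono a ha b hb,
            LinearMap.sum_apply]
          rfl) G hG
      rw [LinearMap.comp_apply, LinearMap.mulLeft_apply, LinearMap.sum_apply] at this
      exact this
    have := lin_ext δ (L ∘ₗ LinearMap.mulRight K G ∘ₗ (res K l n).toLinearMap)
      (∑ j, τ' j G • (aeval (w j) : Rm K l n →ₐ[K] K).toLinearMap) (by
        intro a ha
        rw [LinearMap.comp_apply, LinearMap.comp_apply, LinearMap.mulRight_apply,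
          AlgHom.toLinearMap_apply, h1 a ha, LinearMap.sum_apply]
        refine Finset.sum_congr rfl fun j _ => ?_
        rw [LinearMap.smul_apply, AlgHom.toLinearMap_apply, smul_eq_mul, aeval_eq_eval, mul_comm])
        F hF
    rw [LinearMap.comp_apply, LinearMap.comp_apply, LinearMap.mulRight_apply,
          AlgHom.toLinearMap_apply, LinearMap.sum_apply] at this
    rw [this]
    refine Finset.sum_congr rfl fun j _ => ?_
    rw [LinearMap.smul_apply, AlgHom.toLinearMap_apply, smul_eq_mul, aeval_eq_eval, mul_comm]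
  -- the normalised points
  have hx : ∀ j, ∃ (x : Pt K l n) (z : K), ((∀ k, v j (κ k) ≠ 0) → Nrm x) ∧
      ((¬ ∀ k, v j (κ k) ≠ 0) → z = 0) ∧ ∀ F ∈ Mh K n δ, eval (w j) F = z * eval x F := by
    intro j
    by_cases hj : ∀ k, v j (κ k) ≠ 0
    · have h1 : ∀ k, ∃ i, v j (κ k) i ≠ 0 ∧ ∀ i', i' < i → v j (κ k) i' = 0 :=
        fun k => exists_first _ (hj k)
      choose i hi1 hi2 using h1
      refine ⟨fun q => (v j (κ q.1) (i q.1))⁻¹ * v j (κ q.1) q.2,
        ∏ k, v j (κ k) (i k) ^ δ k, fun _ k => ⟨i k, ?_, fun i' hi' => ?_⟩,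
        fun h => absurd hj h, fun F hF => ?_⟩
      · exact inv_mul_cancel₀ (hi1 k)
      · show (v j (κ k) (i k))⁻¹ * v j (κ k) i' = 0
        rw [hi2 k i' hi', mul_zero]
      · rw [← eval_scale δ (fun k => v j (κ k) (i k)) _ F hF]
        congr 2
        ext q
        show v j (κ q.1) q.2 = v j (κ q.1) (i q.1) * ((v j (κ q.1) (i q.1))⁻¹ * v j (κ q.1) q.2)
        rw [mul_inv_cancel_left₀ (hi1 q.1)]
    · refine ⟨w j, 0, fun h => absurd h hj, fun _ => rfl, fun F hF => ?_⟩
      push Not at hj
      obtain ⟨k, hk⟩ := hj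
      have h2 := eval_scale δ (fun k' => if k' = k then (0 : K) else 1) (w j) F hF
      have h3 : (fun q : Fin l × Fin (n + 1) =>
          (if q.1 = k then (0 : K) else 1) * w j q) = w j := by
        ext q
        by_cases hq : q.1 = k
        · rw [if_pos hq, zero_mul]
          show 0 = v j (κ q.1) q.2
          rw [hq, hk]
          rfl
        · rw [if_neg hq, one_mul]
      have h4 : ∏ k', (if k' = k then (0 : K) else 1) ^ δ k' = 0 := by
        refine Finset.prod_eq_zero (Finset.mem_univ k) ?_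
        rw [if_pos rfl]
        exact zero_pow (by have := hδ k; show size c (κ k) ≠ 0; omega)
      rw [h3, h4, zero_mul] at h2
      rw [h2, mul_zero]
  choose x z hx1 hx2 hx3 using hx
  refine ⟨L, (Finset.univ.filter fun j => ∀ k, v j (κ k) ≠ 0).image x,
    fun y => ∑ j ∈ (Finset.univ.filter fun j => ∀ k, v j (κ k) ≠ 0) with x j = y, z j • τ' j,
    ?_, ?_, ?_, ?_⟩
  · refine Finset.card_image_le.trans ((Finset.card_filter_le _ _).trans ?_)
    simp
  · intro y hy
    obtain ⟨j, hj, rfl⟩ := Finset.mem_image.1 hy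
    exact hx1 j (Finset.mem_filter.1 hj).2
  · intro F hF G hG
    rw [hrep F hF G hG]
    have h1 : ∀ y, eval y F *
        (∑ j ∈ (Finset.univ.filter fun j => ∀ k, v j (κ k) ≠ 0) with x j = y, z j • τ' j :
          Rm K 1 n →ₗ[K] K) G =
        ∑ j ∈ (Finset.univ.filter fun j => ∀ k, v j (κ k) ≠ 0) with x j = y,
          eval (w j) F * τ' j G := by
      intro y
      rw [LinearMap.sum_apply, Finset.mul_sum]
      refine Finset.sum_congr rfl fun j hj => ?_
      rw [LinearMap.smul_apply, smul_eq_mul, hx3 j F hF, (Finset.mem_filter.1 hj).2]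
      ring
    simp only [h1]
    rw [Finset.sum_fiberwise_of_maps_to (fun j hj => Finset.mem_image_of_mem x hj),
      Finset.sum_filter]
    refine Finset.sum_congr rfl fun j _ => ?_
    by_cases hj : ∀ k, v j (κ k) ≠ 0
    · rw [if_pos hj]
    · rw [if_neg hj, hx3 j F hF, hx2 j hj, zero_mul, zero_mul]
  · intro i
    exact hL i

end Pool.Agent.Lib.MP_d01072_ag.Bp
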