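import Pool.Agent.Lib.MP_d01072_ag.Bp.Spec

/-! MP_d01072_ag, package Bp: the number of parameters of a point in the base locus. -/

set_option autoImplicit false

namespace Pool.Agent.Lib.MP_d01072_ag.Bp

open MvPolynomial

namespace DmAux

/-- `y` is the value at `x` of a form of multidegree `b` with coefficients in `E` -/
private def Val {K : Type} [Field K] (E : Subfield K) {l n : ℕ} (x : Pt K l n) (b : Fin l → ℕ)
    (y : K) : Prop :=
  ∃ F ∈ Mh K n b, (∀ s, coeff s F ∈ E) ∧ eval x F = y

private theorem vMul {K : Type} [Field K] {E : Subfield K} {l n : ℕ} {x : Pt K l n}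
    {b c : Fin l → ℕ} {y z : K} (h1 : Val E x b y) (h2 : Val E x c z) :
    Val E x (b + c) (y * z) := by
  classical
  obtain ⟨F, hF, hFE, rfl⟩ := h1
  obtain ⟨G, hG, hGE, rfl⟩ := h2
  refine ⟨F * G, ?_, ?_, map_mul _ _ _⟩
  · intro s hs k
    rw [coeff_mul] at hs
    obtain ⟨p, hp, hne⟩ := Finset.exists_ne_zero_of_sum_ne_zero hs
    have hp' : p.1 + p.2 = s := Finset.HasAntidiagonal.mem_antidiagonal.1 hp
    have e1 := hF p.1 (left_ne_zero_of_mul hne) k
    have e2 := hG p.2 (right_ne_zero_of_mul hne) k
    rw [← hp', Pi.add_apply, ← e1, ← e2, ← Finset.sum_add_distrib]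
    exact Finset.sum_congr rfl fun i _ => Finsupp.add_apply _ _ _
  · intro s
    rw [coeff_mul]
    exact E.sum_mem fun p _ => E.mul_mem (hFE _) (hGE _)

private theorem vOne {K : Type} [Field K] {E : Subfield K} {l n : ℕ} {x : Pt K l n} :
    Val E x (0 : Fin l → ℕ) 1 := by
  classical
  refine ⟨1, ?_, ?_, map_one _⟩
  · intro s hs k
    rw [coeff_one] at hs
    have h0 : (0 : Fin l × Fin (n + 1) →₀ ℕ) = s := by
      by_contra h
      exact hs (if_neg h)
    rw [← h0]
    simp
  · intro s
    rw [coeff_one]
    split_ifs
    · exact E.one_mem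
    · exact E.zero_mem

private theorem vX {K : Type} [Field K] {E : Subfield K} {l n : ℕ} {x : Pt K l n}
    (k : Fin l) (i : Fin (n + 1)) : Val E x (Pi.single k 1) (x (k, i)) := by
  classical
  refine ⟨X (k, i), ?_, ?_, eval_X _⟩
  · intro s hs k'
    rw [coeff_X] at hs
    have h0 : Finsupp.single (k, i) 1 = s := by
      by_contra h
      exact hs (if_neg h)
    rw [← h0]
    by_cases hk : k' = k
    · subst hk
      rw [Pi.single_eq_same, Finset.sum_eq_single i]
      · simp
      · intro j _ hj
        rw [Finsupp.single_apply, if_neg]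
        intro h
        exact hj (Prod.ext_iff.1 h).2.symm
      · intro h
        exact absurd (Finset.mem_univ _) h
    · rw [Pi.single_eq_of_ne hk]
      refine Finset.sum_eq_zero fun j _ => ?_
      rw [Finsupp.single_apply, if_neg]
      intro h
      exact hk (Prod.ext_iff.1 h).1.symm
  · intro s
    rw [coeff_X]
    split_ifs
    · exact E.one_mem
    · exact E.zero_mem

/-- `1` is a value in every multidegree -/
private theorem vFill {K : Type} [Field K] {E : Subfield K} {l n : ℕ} {x : Pt K l n}
    (hx : Nrm x) : ∀ (N : ℕ) (b : Fin l → ℕ), ∑ j, b j = N → Val E x b 1 := by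
  classical
  intro N
  induction N with
  | zero =>
    intro b hb
    have hb0 : b = 0 := by
      funext j
      exact (Finset.sum_eq_zero_iff.1 hb) j (Finset.mem_univ _)
    rw [hb0]
    exact vOne
  | succ N ih =>
    intro b hb
    have : ∃ j, 1 ≤ b j := by
      by_contra hcon
      push Not at hcon
      have h0 : ∑ j, b j = 0 := Finset.sum_eq_zero fun j _ => by
        have := hcon j
        omega
      omega
    obtain ⟨j, hj⟩ := this
    obtain ⟨i, hi, -⟩ := hx j
    have hsplit : b = (fun t => b t - (Pi.single j 1 : Fin l → ℕ) t) + Pi.single j 1 := by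
      funext t
      rw [Pi.add_apply]
      by_cases ht : t = j
      · subst ht
        rw [Pi.single_eq_same]
        omega
      · rw [Pi.single_eq_of_ne ht]
        omega
    have hs : ∑ t, (b t - (Pi.single j 1 : Fin l → ℕ) t) = N := by
      have h1 : ∑ t, b t = ∑ t, (b t - (Pi.single j 1 : Fin l → ℕ) t)
          + ∑ t, (Pi.single j 1 : Fin l → ℕ) t := by
        rw [← Finset.sum_add_distrib]
        exact Finset.sum_congr rfl fun t _ => congrFun hsplit t
      rw [Finset.sum_pi_single'] at h1
      simp only [Finset.mem_univ, if_true] at h1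
      omega
    have h2 := vMul (ih _ hs) (vX (E := E) (x := x) j i)
    rw [hi, mul_one] at h2
    rw [hsplit]
    exact h2

/-- one factor is split off -/
private theorem vCons {K : Type} [Field K] {E : Subfield K} {l n : ℕ} {x : Pt K l n}
    {b : Fin l → ℕ} {j : Fin l} (hj : 1 ≤ b j) (i : Fin (n + 1)) {y : K}
    (h : Val E x (fun t => b t - (Pi.single j 1 : Fin l → ℕ) t) y) :
    Val E x b (x (j, i) * y) := by
  classical
  have hsplit : b = Pi.single j 1 + (fun t => b t - (Pi.single j 1 : Fin l → ℕ) t) := by
    funext t
    rw [Pi.add_apply]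
    by_cases ht : t = j
    · subst ht
      rw [Pi.single_eq_same]
      omega
    · rw [Pi.single_eq_of_ne ht]
      omega
  rw [hsplit]
  exact vMul (vX (E := E) (x := x) j i) h

/-- products of at most `m` coordinates, `m ≤ b j` for all `j` -/
private theorem vProd {K : Type} [Field K] {E : Subfield K} {l n : ℕ} {x : Pt K l n}
    (hx : Nrm x) (M : Multiset K) (hM : ∀ y ∈ M, y = 1 ∨ ∃ q, x q = y) :
    ∀ b : Fin l → ℕ, (∀ j, Multiset.card M ≤ b j) → Val E x b M.prod := by
  classical
  induction M using Multiset.induction with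
  | empty =>
    intro b _
    rw [Multiset.prod_zero]
    exact vFill hx _ b rfl
  | cons y M ih =>
    intro b hb
    rw [Multiset.card_cons] at hb
    have ih' := ih fun z hz => hM z (Multiset.mem_cons_of_mem hz)
    rw [Multiset.prod_cons]
    rcases hM y (Multiset.mem_cons_self _ _) with rfl | ⟨⟨j, i⟩, rfl⟩
    · rw [one_mul]
      exact ih' b fun j => (Nat.le_succ _).trans (hb j)
    · refine vCons ((Nat.succ_le_succ (Nat.zero_le _)).trans (hb j)) i (ih' _ fun t => ?_)
      have h1 := hb t
      by_cases ht : t = j
      · subst ht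
        rw [Pi.single_eq_same]
        omega
      · rw [Pi.single_eq_of_ne ht]
        omega

/-- the same for a diagonal point, `m ≤ ∑ b j` -/
private theorem vProdD {K : Type} [Field K] {E : Subfield K} {l n : ℕ} {x : Pt K l n}
    (hx : Nrm x) (hd : Dgl x) (M : Multiset K) (hM : ∀ y ∈ M, y = 1 ∨ ∃ q, x q = y) :
    ∀ b : Fin l → ℕ, Multiset.card M ≤ ∑ j, b j → Val E x b M.prod := by
  classical
  induction M using Multiset.induction with
  | empty =>
    intro b _
    rw [Multiset.prod_zero]
    exact vFill hx _ b rfl
  | cons y M ih =>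
    intro b hb
    rw [Multiset.card_cons] at hb
    have ih' := ih fun z hz => hM z (Multiset.mem_cons_of_mem hz)
    rw [Multiset.prod_cons]
    rcases hM y (Multiset.mem_cons_self _ _) with rfl | ⟨⟨j, i⟩, rfl⟩
    · rw [one_mul]
      exact ih' b ((Nat.le_succ _).trans hb)
    · have : ∃ j, 1 ≤ b j := by
        by_contra hcon
        push Not at hcon
        have h0 : ∑ j, b j = 0 := Finset.sum_eq_zero fun j _ => by
          have := hcon j
          omega
        omega
      obtain ⟨j', hj'⟩ := this
      rw [hd j j' i]
      refine vCons hj' i (ih' _ ?_)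
      have h1 : ∑ t, b t = ∑ t, (b t - (Pi.single j' 1 : Fin l → ℕ) t)
          + ∑ t, (Pi.single j' 1 : Fin l → ℕ) t := by
        rw [← Finset.sum_add_distrib]
        refine Finset.sum_congr rfl fun t _ => ?_
        by_cases ht : t = j'
        · subst ht
          rw [Pi.single_eq_same]
          omega
        · rw [Pi.single_eq_of_ne ht]
          omega
      rw [Finset.sum_pi_single'] at h1
      simp only [Finset.mem_univ, if_true] at h1
      omega

/-- the value of a letter -/
private def lt {K : Type} [Field K] (G : Finset K) (o : Option {y // y ∈ G}) : K :=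
  o.elim 1 fun g => (g : K)

/-- the values of the words of length `m` are linearly independent -/
private theorem lin {K : Type} [Field K] (E : Subfield K) (G : Finset K)
    (hG : AlgebraicIndependent E fun g : {y // y ∈ G} => (g : K)) (m : ℕ) :
    LinearIndependent E fun M : Sym (Option {y // y ∈ G}) m =>
      ((M : Multiset (Option {y // y ∈ G})).map (lt G)).prod := by
  classical
  let u : Sym (Option {y // y ∈ G}) m → ({y // y ∈ G} →₀ ℕ) := fun M =>
    Finsupp.equivFunOnFinite.symm fun g => (M : Multiset (Option {y // y ∈ G})).count (some g)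
  have hu : Function.Injective u := by
    intro M M' h
    have h1 : ∀ g, (M : Multiset (Option {y // y ∈ G})).count (some g)
        = (M' : Multiset (Option {y // y ∈ G})).count (some g) := fun g => by
      have := congrFun (congrArg (fun s : {y // y ∈ G} →₀ ℕ => (s : {y // y ∈ G} → ℕ)) h) g
      exact this
    have hc : ∀ M : Sym (Option {y // y ∈ G}) m,
        (M : Multiset (Option {y // y ∈ G})).count none
          + ∑ g, (M : Multiset (Option {y // y ∈ G})).count (some g) = m := by
      intro M
      rw [← Fintype.sum_option (fun o => (M : Multiset (Option {y // y ∈ G})).count o)]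
      have h2 : ∑ o, (M : Multiset (Option {y // y ∈ G})).count o
          = Multiset.card (M : Multiset (Option {y // y ∈ G})) :=
        Multiset.sum_count_eq_card fun _ _ => Finset.mem_univ _
      rw [h2]
      exact M.2
    have h3 : (M : Multiset (Option {y // y ∈ G})).count none
        = (M' : Multiset (Option {y // y ∈ G})).count none := by
      have e1 := hc M
      have e2 := hc M'
      have e3 : ∑ g, (M : Multiset (Option {y // y ∈ G})).count (some g)
          = ∑ g, (M' : Multiset (Option {y // y ∈ G})).count (some g) :=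
        Finset.sum_congr rfl fun g _ => h1 g
      omega
    apply Sym.coe_injective
    ext o
    cases o with
    | none => exact h3
    | some g => exact h1 g
  have hval : ∀ M : Sym (Option {y // y ∈ G}) m,
      ((M : Multiset (Option {y // y ∈ G})).map (lt G)).prod
        = aeval (fun g : {y // y ∈ G} => (g : K)) (monomial (u M) (1 : E)) := by
    intro M
    rw [aeval_monomial, map_one, one_mul, Finsupp.prod_fintype _ _ fun _ => pow_zero _]
    rw [Finset.prod_multiset_map_count]
    rw [Finset.prod_subset (Finset.subset_univ _)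
      (fun o _ ho => by
        rw [Multiset.mem_toFinset, ← Multiset.count_eq_zero] at ho
        rw [ho, pow_zero])]
    rw [Fintype.prod_option]
    have h1 : lt G none = 1 := rfl
    rw [h1, one_pow, one_mul]
    rfl
  have h1 := (basisMonomials {y // y ∈ G} E).linearIndependent
  have h2 := h1.map' (aeval (fun g : {y // y ∈ G} => (g : K)) :
      MvPolynomial {y // y ∈ G} E →ₐ[E] K).toLinearMap (by
    rw [LinearMap.ker_eq_bot]
    exact hG)
  have h3 := h2.comp u hu
  have h4 : (fun M : Sym (Option {y // y ∈ G}) m =>
      ((M : Multiset (Option {y // y ∈ G})).map (lt G)).prod)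
      = ((aeval (fun g : {y // y ∈ G} => (g : K)) :
          MvPolynomial {y // y ∈ G} E →ₐ[E] K).toLinearMap ∘
          (basisMonomials {y // y ∈ G} E)) ∘ u := by
    funext M
    rw [hval M]
    simp only [Function.comp_apply, coe_basisMonomials, AlgHom.toLinearMap_apply]
  rw [h4]
  exact h3

end DmAux

open DmAux in
theorem t_Dm (h1 : Tf.S_Acl) (h2 : S_DmE) : S_Dm := by
  classical
  intro k K _ _ _ S l n b Z x hZ hx hf
  set E : Subfield K := Tf.Cl k S with hE
  obtain ⟨G0, hG0⟩ := (AlgebraicIndependent.matroid E K).exists_isBasis (Set.range x)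
  rw [AlgebraicIndependent.matroid_isBasis_iff] at hG0
  obtain ⟨hind, hsub, halg⟩ := hG0
  have hfin : G0.Finite := (Set.finite_range x).subset hsub
  set G : Finset K := hfin.toFinset with hGdef
  have hGc : (G : Set K) = G0 := hfin.coe_toFinset
  have hmemG : ∀ y, y ∈ G ↔ y ∈ G0 := fun y => hfin.mem_toFinset
  have hGind : AlgebraicIndependent E fun g : {y // y ∈ G} => (g : K) := by
    have := hind.comp (fun g : {y // y ∈ G} => (⟨g.1, (hmemG _).1 g.2⟩ : G0))
      (fun a b h => Subtype.ext (congrArg (fun t : G0 => (t : K)) h))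
    exact this
  have key : ∀ m : ℕ, (∀ M : Multiset K, (∀ y ∈ M, y = 1 ∨ ∃ q, x q = y) →
      Multiset.card M = m → Val E x b M.prod) → (m + G.card).choose G.card ≤ Hf Z b := by
    intro m hm
    have hv : ∀ M : Sym (Option {y // y ∈ G}) m,
        Val E x b ((M : Multiset (Option {y // y ∈ G})).map (lt G)).prod := by
      intro M
      refine hm _ ?_ ?_
      · intro y hy
        obtain ⟨o, -, rfl⟩ := Multiset.mem_map.1 hy
        cases o with
        | none => exact Or.inl rfl
        | some g => exact Or.inr (hsub ((hmemG _).1 g.2))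
      · rw [Multiset.card_map]
        exact M.2
    choose F hF hFE hFv using hv
    have h3 := h2 K E l n b Z x (Sym (Option {y // y ∈ G}) m) F hZ
      (fun M => ⟨hF M, hFE M⟩) hf (by
        have h4 := lin E G hGind m
        have h5 : (fun M : Sym (Option {y // y ∈ G}) m => eval x (F M))
            = fun M : Sym (Option {y // y ∈ G}) m =>
              ((M : Multiset (Option {y // y ∈ G})).map (lt G)).prod :=
          funext hFv
        rw [h5]
        exact h4)
    rw [Sym.card_sym_eq_choose, Fintype.card_option, Fintype.card_coe] at h3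
    have e1 : G.card + 1 + m - 1 = m + G.card := by omega
    rw [e1, Nat.choose_symm_add] at h3
    exact h3
  refine ⟨G, fun q => ?_, fun m hm => ?_, fun hd => ?_⟩
  · obtain ⟨p, hp, hpx⟩ := halg (x q) (Set.mem_range_self q)
    have hsub1 : E ≤ Tf.Cl k (S ∪ (G : Set K)) :=
      (h1 k K S (S ∪ (G : Set K))).2.1
        (Set.subset_union_left.trans (h1 k K (S ∪ (G : Set K)) (S ∪ (G : Set K))).1)
    have hsub2 : ∀ z ∈ Algebra.adjoin E G0, z ∈ Tf.Cl k (S ∪ (G : Set K)) := by
      intro z hz
      refine Algebra.adjoin_induction (p := fun z _ => z ∈ Tf.Cl k (S ∪ (G : Set K)))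
        ?_ ?_ ?_ ?_ hz
      · intro y hy
        refine (h1 k K (S ∪ (G : Set K)) (S ∪ (G : Set K))).1 (Or.inr ?_)
        rw [hGc]
        exact hy
      · intro r
        exact hsub1 r.2
      · intro a c _ _ ha hc
        exact add_mem ha hc
      · intro a c _ _ ha hc
        exact mul_mem ha hc
    refine (h1 k K (S ∪ (G : Set K)) (S ∪ (G : Set K))).2.2.2 (p.map (algebraMap _ K)) (x q)
      ?_ ?_ ?_
    · intro h0
      apply hp
      apply Polynomial.map_injective (algebraMap (Algebra.adjoin E G0) K)
        Subtype.val_injective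
      rw [h0, Polynomial.map_zero]
    · intro i
      rw [Polynomial.coeff_map]
      exact hsub2 _ (p.coeff i).2
    · rw [Polynomial.eval_map_algebraMap]
      exact hpx
  · exact key m fun M hM hc => vProd hx M hM b fun j => hc.le.trans (hm j)
  · exact key _ fun M hM hc => vProdD hx hd M hM b hc.le

end Pool.Agent.Lib.MP_d01072_ag.Bp
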