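import Pool.Agent.Lib.MP_d01072_ag.Bp.Spec

/-!
MP_d01072_ag, package Bp, module DmE: the dimension of the values of forms over a subfield.
-/

set_option autoImplicit false

namespace Pool.Agent.Lib.MP_d01072_ag.Bp

open MvPolynomial

private theorem dme_mem {K : Type} [Field K] (E : Subfield K) {l n : ℕ} (f : Rm K l n)
    (z : Pt K l n) (hf : ∀ s, coeff s f ∈ E) (hz : ∀ q, z q ∈ E) : eval z f ∈ E := by
  rw [eval_eq']
  exact E.sum_mem fun s _ => E.mul_mem (hf s) (E.prod_mem fun q _ => E.pow_mem (hz q) _)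

theorem t_DmE : S_DmE := by
  intro K _ E l n b Z x ι _ F hZ hF hV hli
  classical
  obtain ⟨v, hv⟩ : ∃ v : ι → ({z // z ∈ Z} → E), ∀ i z, (v i z : K) = eval (z : Pt K l n) (F i) :=
    ⟨fun i z => ⟨eval (z : Pt K l n) (F i), dme_mem E (F i) z (hF i).2 (hZ z z.2)⟩,
      fun i z => rfl⟩
  have hvi : LinearIndependent E v := by
    rw [Fintype.linearIndependent_iff]
    intro g hg
    have hf : (∑ i, (g i : K) • F i) ∈ Vn Z b := by
      refine ⟨Submodule.sum_mem _ fun i _ => Submodule.smul_mem _ _ (hF i).1, fun z hz => ?_⟩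
      rw [map_sum]
      have h1 := congrFun hg ⟨z, hz⟩
      have h2 := congrArg (fun y : E => (y : K)) h1
      simp only [Finset.sum_apply, Pi.smul_apply, smul_eq_mul, Pi.zero_apply] at h2
      rw [← ZeroMemClass.coe_zero E, ← h2]
      rw [AddSubmonoidClass.coe_finsetSum]
      refine Finset.sum_congr rfl fun i _ => ?_
      rw [smul_eval, MulMemClass.coe_mul, hv]
    have h3 := hV _ hf
    rw [map_sum] at h3
    rw [Fintype.linearIndependent_iff] at hli
    refine hli g ?_
    rw [← h3]
    refine Finset.sum_congr rfl fun i _ => ?_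
    rw [smul_eval, Subfield.smul_def, smul_eq_mul]
  have hK : LinearIndependent K (fun i => ev Z (F i)) := by
    have h4 := (linearIndependent_algebraMap_comp_iff (R := E) (S := K) (v := v)).2 hvi
    have h5 : (fun i => algebraMap E K ∘ v i) = fun i => ev Z (F i) := by
      funext i z
      show ((v i z : E) : K) = _
      rw [hv]
      show _ = aeval (z : Pt K l n) (F i)
      rw [aeval_eq_eval]
    rwa [h5] at h4
  have hW : LinearIndependent K (fun i => (⟨ev Z (F i), Submodule.mem_map_of_mem (hF i).1⟩ :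
      ((Mh K n b).map (ev Z) : Submodule K ({z // z ∈ Z} → K)))) :=
    LinearIndependent.of_comp (Submodule.subtype _) hK
  exact hW.fintype_card_le_finrank

end Pool.Agent.Lib.MP_d01072_ag.Bp
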