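import Pool.Agent.Lib.MP_d01072_ag.Bp.Spec

/-!
MP_d01072_ag, package Bp, module Ech: the number of leading monomials of a finite dimensional space of
polynomials is its dimension.
-/

set_option autoImplicit false

namespace Pool.Agent.Lib.MP_d01072_ag.Bp

open MvPolynomial

section
variable {K σ : Type} [Field K] (m : MonomialOrder.{0, 0} σ)

private lemma ech_li (P : Set (σ →₀ ℕ)) (f : P → MvPolynomial σ K) (h0 : ∀ s, f s ≠ 0)
    (hd : ∀ s, m.degree (f s) = s) : LinearIndependent K f := by
  classical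
  rw [linearIndependent_iff']
  intro t g hg
  by_contra hne
  push Not at hne
  obtain ⟨i0, hi0, hgi0⟩ := hne
  obtain ⟨i, hi, hmax⟩ := Finset.exists_max_image (t.filter fun i => g i ≠ 0)
    (fun i => m.toSyn (i : σ →₀ ℕ)) ⟨i0, by simp [hi0, hgi0]⟩
  rw [Finset.mem_filter] at hi
  have h1 := congrArg (coeff (i : σ →₀ ℕ)) hg
  rw [coeff_sum, coeff_zero, Finset.sum_eq_single i] at h1
  · rw [coeff_smul, smul_eq_mul] at h1
    rcases mul_eq_zero.1 h1 with h2 | h2
    · exact hi.2 h2
    · have h3 := m.coeff_degree_ne_zero_iff.2 (h0 i)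
      rw [hd i] at h3
      exact h3 h2
  · intro j hj hji
    rw [coeff_smul, smul_eq_mul]
    by_cases hgj : g j = 0
    · rw [hgj, zero_mul]
    · have h2 := hmax j (by rw [Finset.mem_filter]; exact ⟨hj, hgj⟩)
      have h3 : m.toSyn (j : σ →₀ ℕ) ≠ m.toSyn (i : σ →₀ ℕ) := by
        intro h
        exact hji (Subtype.ext (m.toSyn.injective h))
      rw [m.coeff_eq_zero_of_lt (by rw [hd j]; exact lt_of_le_of_ne h2 h3), mul_zero]
  · intro h
    exact absurd hi.1 h

private lemma ech_sp (W : Submodule K (MvPolynomial σ K))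
    (f : {s | ∃ f ∈ W, f ≠ 0 ∧ m.degree f = s} → MvPolynomial σ K) (hW : ∀ s, f s ∈ W)
    (h0 : ∀ s, f s ≠ 0) (hd : ∀ s, m.degree (f s) = s) :
    ∀ (x : m.syn) (g : MvPolynomial σ K), m.toSyn (m.degree g) = x → g ∈ W →
      g ∈ Submodule.span K (Set.range f) := by
  intro x
  induction x using WellFoundedLT.induction with
  | ind x ih =>
    intro g hgx hgW
    by_cases hg0 : g = 0
    · rw [hg0]; exact Submodule.zero_mem _
    set s : {s | ∃ f ∈ W, f ≠ 0 ∧ m.degree f = s} := ⟨m.degree g, g, hgW, hg0, rfl⟩ with hs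
    have hlc : coeff (m.degree g) (f s) ≠ 0 := by
      have := m.coeff_degree_ne_zero_iff.2 (h0 s)
      rwa [hd s] at this
    set c : K := coeff (m.degree g) g / coeff (m.degree g) (f s) with hc
    have hsub : g - c • f s ∈ Submodule.span K (Set.range f) := by
      by_cases h1 : g - c • f s = 0
      · rw [h1]; exact Submodule.zero_mem _
      refine ih (m.toSyn (m.degree (g - c • f s))) ?_ _ rfl
        (W.sub_mem hgW (W.smul_mem _ (hW s)))
      rw [← hgx]
      have hle : m.toSyn (m.degree (g - c • f s)) ≤ m.toSyn (m.degree g) := by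
        rw [m.degree_le_iff]
        intro u hu
        by_contra hlt
        rw [not_le] at hlt
        rw [mem_support_iff, coeff_sub, coeff_smul, m.coeff_eq_zero_of_lt hlt,
          m.coeff_eq_zero_of_lt (f := f s) (by rw [hd s]; exact hlt)] at hu
        simp at hu
      refine lt_of_le_of_ne hle ?_
      intro h
      have h2 := m.toSyn.injective h
      have h3 := m.coeff_degree_ne_zero_iff.2 h1
      rw [h2, coeff_sub, coeff_smul, smul_eq_mul, hc, div_mul_cancel₀ _ hlc, sub_self] at h3
      exact h3 rfl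
    have h4 : g = (g - c • f s) + c • f s := by rw [sub_add_cancel]
    rw [h4]
    exact Submodule.add_mem _ hsub
      (Submodule.smul_mem _ _ (Submodule.subset_span ⟨s, rfl⟩))

end

theorem t_Ech : S_Ech := by
  intro K σ _ _ m W hfin
  classical
  have hex : ∀ s : {s | ∃ f ∈ W, f ≠ 0 ∧ m.degree f = s}, ∃ f ∈ W, f ≠ 0 ∧ m.degree f = (s : σ →₀ ℕ) :=
    fun s => s.2
  choose f hW h0 hd using hex
  have hli := ech_li m _ f h0 hd
  have hsp : Submodule.span K (Set.range f) = W := by
    apply le_antisymm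
    · rw [Submodule.span_le]
      rintro _ ⟨s, rfl⟩
      exact hW s
    · intro g hg
      exact ech_sp m W f hW h0 hd _ g rfl hg
  have hspf : (Submodule.span K (Set.range f)).FG := by
    rw [hsp]
    exact Module.Finite.iff_fg.1 hfin
  have : Module.Finite K (Submodule.span K (Set.range f)) := Module.Finite.iff_fg.2 hspf
  have hb : Module.Basis {s | ∃ f ∈ W, f ≠ 0 ∧ m.degree f = s} K (Submodule.span K (Set.range f)) :=
    Module.Basis.span hli
  have hF : Finite {s | ∃ f ∈ W, f ≠ 0 ∧ m.degree f = s} := Module.Finite.finite_basis hb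
  refine ⟨hF, ?_⟩
  rw [← hsp, Module.finrank_eq_nat_card_basis hb, hsp]
  rfl

end Pool.Agent.Lib.MP_d01072_ag.Bp
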