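import Pool.Agent.Lib.MP_d01072_ag.Bp.Spec

/-!
MP_d01072_ag, package Bp, module Fnl: the values of a functional.
-/

set_option autoImplicit false

namespace Pool.Agent.Lib.MP_d01072_ag.Bp

open MvPolynomial Pointwise

private theorem mem_Mh {K : Type} [Field K] {l n : ℕ} {b : Fin l → ℕ} {f : Rm K l n} :
    f ∈ Mh K n b ↔ ∀ s, coeff s f ≠ 0 → ∀ k, ∑ i, s (k, i) = b k := Iff.rfl

private theorem mono_mem (K : Type) [Field K] {n e : ℕ} (b : Fin 1 × Fin (n + 1) →₀ ℕ)
    (hb : ∑ i, b (0, i) = e) : (monomial b 1 : Rm K 1 n) ∈ Fm K n e := by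
  classical
  intro s hs k
  rw [coeff_monomial] at hs
  have h1 : b = s := by
    by_contra h
    rw [if_neg h] at hs
    exact hs rfl
  rw [← h1, Subsingleton.elim k 0]
  exact hb

private theorem Fm_le (K : Type) [Field K] (n e : ℕ) :
    Fm K n e ≤ Submodule.span K {g : Rm K 1 n | ∃ b : Fin 1 × Fin (n + 1) →₀ ℕ,
      ∑ i, b (0, i) = e ∧ g = monomial b 1} := by
  intro f hf
  rw [← support_sum_monomial_coeff f]
  refine Submodule.sum_mem _ fun b hb => ?_
  have h1 : monomial b (coeff b f) = coeff b f • (monomial b 1 : Rm K 1 n) := by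
    rw [smul_monomial, smul_eq_mul, mul_one]
  rw [h1]
  exact Submodule.smul_mem _ _ (Submodule.subset_span ⟨b, hf b (mem_support_iff.1 hb) 0, rfl⟩)

private theorem res_mem (K : Type) [Field K] {l n : ℕ} {δ : Fin l → ℕ} {f : Rm K l n}
    (hf : f ∈ Mh K n δ) : res K l n f ∈ Fm K n (∑ k, δ k) := by
  intro s hs k
  rw [Subsingleton.elim k 0]
  obtain ⟨u, hu, hc⟩ := coeff_rename_ne_zero _ _ _ hs
  have h1 : ∑ i, s (0, i) = s.sum fun _ m => m := by
    rw [Finsupp.sum_fintype _ _ (fun _ => rfl), Fintype.sum_prod_type, Fin.sum_univ_one]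
  have h2 : (u.sum fun _ m => m) = ∑ k, δ k := by
    rw [Finsupp.sum_fintype _ _ (fun _ => rfl), Fintype.sum_prod_type]
    exact Finset.sum_congr rfl fun k _ => hf u hc k
  rw [h1, ← hu, Finsupp.sum_mapDomain_index (fun _ => rfl) (fun _ _ _ => rfl)]
  exact h2

private theorem res_coeff (K : Type) [Field K] (E : Subfield K) {l n : ℕ} {f : Rm K l n}
    (hf : ∀ s, coeff s f ∈ E) (s : Fin 1 × Fin (n + 1) →₀ ℕ) : coeff s (res K l n f) ∈ E := by
  have h5 : map E.subtype (∑ s ∈ f.support, monomial s (⟨coeff s f, hf s⟩ : E)) = f := by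
    rw [map_sum]
    conv_rhs => rw [f.as_sum]
    refine Finset.sum_congr rfl fun s _ => ?_
    rw [map_monomial]
    rfl
  have h6 : res K l n f = map E.subtype (rename (fun q : Fin l × Fin (n + 1) =>
      ((0 : Fin 1), q.2)) (∑ s ∈ f.support, monomial s (⟨coeff s f, hf s⟩ : E))) := by
    rw [map_rename, h5]
    rfl
  rw [h6, coeff_map]
  exact Subtype.property _

theorem t_Fnl (h1 : Tf.S_Acl) (h2 : S_KerP) (h3 : S_BcP) : S_Fnl := by
  classical
  intro k K _ _ _ l n δ e Q B L G0 hG0 hL hrk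
  set E : Subfield K := Tf.Cl k (G0 : Set K) with hE
  set S1 : Set (Rm K l n) := {g : Rm K l n | g ∈ Vn B δ ∧ ∀ s, coeff s g ∈ E} with hS1
  set S2 : Set (Rm K 1 n) := {g : Rm K 1 n | ∃ b : Fin 1 × Fin (n + 1) →₀ ℕ,
      ∑ i, b (0, i) = e ∧ g = monomial b 1} with hS2
  set P : Set (Rm K 1 n) := ((res K l n).toLinearMap '' S1) * S2 with hP
  have hspan : Submodule.span K P = (Vn B δ).map (res K l n).toLinearMap * Fm K n e := by
    rw [hP, ← Submodule.span_mul_span]
    apply le_antisymm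
    · refine mul_le_mul' ?_ ?_
      · rw [← Submodule.map_span]
        exact Submodule.map_mono (Submodule.span_le.2 fun g hg => hg.1)
      · refine Submodule.span_le.2 ?_
        rintro g ⟨b, hb, rfl⟩
        exact mono_mem K b hb
    · refine mul_le_mul' ?_ (Fm_le K n e)
      rw [← Submodule.map_span]
      exact Submodule.map_mono fun f hf => h2 K E l n B δ hG0 f hf
  have hPL : ∀ f ∈ P, L f = 0 := by
    rintro f ⟨g, ⟨g0, hg0, rfl⟩, u, ⟨b, hb, rfl⟩, rfl⟩
    exact hL g0 hg0.1 _ (mono_mem K b hb)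
  have hPh : ∀ f ∈ P, f ∈ Fm K n (∑ k, δ k + e) ∧ ∀ s, coeff s f ∈ E := by
    rintro f ⟨g, ⟨g0, hg0, rfl⟩, u, ⟨b, hb, rfl⟩, rfl⟩
    have h4 : res K l n g0 ∈ Fm K n (∑ k, δ k) := res_mem K hg0.1.1
    refine ⟨fun s hs k => ?_, fun s => ?_⟩
    · have h5 : coeff s (res K l n g0 * monomial b (1 : K)) ≠ 0 := hs
      rw [coeff_mul_monomial'] at h5
      have h6 : b ≤ s := by
        by_contra h
        rw [if_neg h] at h5
        exact h5 rfl
      rw [if_pos h6, mul_one] at h5
      have h7 : ∑ i, (s - b) (0, i) = ∑ k, δ k := h4 _ h5 0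
      rw [Subsingleton.elim k 0]
      show ∑ i, s (0, i) = ∑ k, δ k + e
      rw [← h7, ← hb, ← Finset.sum_add_distrib]
      refine Finset.sum_congr rfl fun i _ => ?_
      rw [Finsupp.tsub_apply]
      exact (Nat.sub_add_cancel (h6 (0, i))).symm
    · show coeff s (res K l n g0 * monomial b (1 : K)) ∈ E
      rw [coeff_mul_monomial']
      split_ifs with h
      · rw [mul_one]
        exact res_coeff K E hg0.2 _
      · exact zero_mem _
  have hrk' : (∑ k, δ k + e + n).choose n ≤ Module.finrank K (Submodule.span K P) + Q := by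
    rw [hspan]
    exact hrk
  obtain ⟨M, hM, hM2⟩ := h3 K E n (∑ k, δ k + e) Q P hPh hrk'
  set G : Finset K := G0 ∪ M.image (fun s => L (monomial s 1)) with hG
  have hGs : (G : Set K) ⊆ (Tf.Cl k (G : Set K) : Set K) := (h1 k K (G : Set K) ∅).1
  refine ⟨G, Finset.subset_union_left, ?_,
    fun s hs => hM2 L (Tf.Cl k (G : Set K)) ?_ ?_ ?_ s hs⟩
  · refine (Finset.card_union_le _ _).trans ?_
    have := Finset.card_image_le (s := M) (f := fun s => L (monomial s 1))
    omega
  · refine (h1 k K (G0 : Set K) (G : Set K)).2.1 (Set.Subset.trans ?_ hGs)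
    rw [hG]
    exact_mod_cast Finset.subset_union_left
  · intro f hf
    rw [hPL f hf]
    exact zero_mem _
  · intro s hs
    refine hGs ?_
    rw [hG]
    exact Finset.mem_coe.2 (Finset.mem_union_right _ (Finset.mem_image_of_mem _ hs))

end Pool.Agent.Lib.MP_d01072_ag.Bp
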