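import Pool.Agent.Lib.MP_d01072_ag.Bp.Spec

/-!
MP_d01072_ag, package Bp, module Frm (seat helper25): forms which do not vanish at given points.
-/

set_option autoImplicit false

namespace Pool.Agent.Lib.MP_d01072_ag.Bp

open MvPolynomial

private lemma ev_apply {K : Type} [Field K] {l n : ℕ} (B : Finset (Pt K l n)) (P : Rm K l n)
    (x : {x // x ∈ B}) : ev B P x = eval (x : Pt K l n) P := by
  unfold ev
  rw [LinearMap.pi_apply, AlgHom.toLinearMap_apply, aeval_def]
  rfl

/-- a monomial with the right degrees -/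
private lemma mono_mem {K : Type} [Field K] {l n : ℕ} (b : Fin l → ℕ)
    (s : Fin l × Fin (n + 1) →₀ ℕ) (h : ∀ k, ∑ i, s (k, i) = b k) :
    (monomial s (1 : K)) ∈ Mh K n b := by
  intro t ht k
  rw [coeff_monomial] at ht
  have h1 : s = t := by
    by_contra hne
    rw [if_neg hne] at ht
    exact ht rfl
  rw [← h1]
  exact h k

/-- the degrees of a product with one variable from each group -/
private lemma deg_sum {l n : ℕ} (f : Fin l → Fin (n + 1)) (c : Fin l → ℕ) (k : Fin l) :
    ∑ i, (∑ κ, Finsupp.single (κ, f κ) (c κ) : Fin l × Fin (n + 1) →₀ ℕ) (k, i) = c k := by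
  classical
  simp only [Finsupp.coe_finsetSum, Finset.sum_apply]
  rw [Finset.sum_comm, Finset.sum_eq_single k]
  · rw [Finset.sum_eq_single (f k)]
    · rw [Finsupp.single_eq_same]
    · intro i _ hi
      rw [Finsupp.single_eq_of_ne]
      intro h
      exact hi (Prod.ext_iff.1 h).2
    · intro h
      exact absurd (Finset.mem_univ _) h
  · intro κ _ hκ
    refine Finset.sum_eq_zero fun i _ => ?_
    rw [Finsupp.single_eq_of_ne]
    intro h
    exact hκ (Prod.ext_iff.1 h).1.symm
  · intro h
    exact absurd (Finset.mem_univ _) h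

private lemma prod_mem (K : Type) [Field K] {l n : ℕ} (f : Fin l → Fin (n + 1)) (c : Fin l → ℕ) :
    (∏ κ, (X (κ, f κ) : Rm K l n) ^ (c κ)) ∈ Mh K n c := by
  have h1 : (∏ κ, (X (κ, f κ) : Rm K l n) ^ (c κ)) =
      monomial (∑ κ, Finsupp.single (κ, f κ) (c κ)) 1 := by
    rw [monomial_sum_one]
    refine Finset.prod_congr rfl fun κ _ => ?_
    rw [X_pow_eq_monomial]
  rw [h1]
  exact mono_mem c _ fun k => deg_sum f c k

private lemma X_mem (K : Type) [Field K] {l n : ℕ} (k : Fin l) (i : Fin (n + 1)) :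
    (X (k, i) : Rm K l n) ∈ Mh K n (Pi.single k 1) := by
  classical
  refine mono_mem _ _ fun k' => ?_
  by_cases h : k' = k
  · subst h
    rw [Pi.single_eq_same, Finset.sum_eq_single i]
    · rw [Finsupp.single_eq_same]
    · intro j _ hj
      rw [Finsupp.single_eq_of_ne]
      intro h'
      exact hj (Prod.ext_iff.1 h').2
    · intro h'
      exact absurd (Finset.mem_univ _) h'
  · rw [Pi.single_eq_of_ne h]
    refine Finset.sum_eq_zero fun j _ => ?_
    rw [Finsupp.single_eq_of_ne]
    intro h'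
    exact h (Prod.ext_iff.1 h').1

/-- two different normalised vectors are not proportional -/
private lemma not_prop {K : Type} [Field K] {n : ℕ} (u v : Fin (n + 1) → K)
    (hu : ∃ i, u i = 1 ∧ ∀ j, j < i → u j = 0) (hv : ∃ i, v i = 1 ∧ ∀ j, j < i → v j = 0)
    (huv : u ≠ v) : ∃ i j, u i * v j ≠ u j * v i := by
  by_contra hcon
  have hall : ∀ i j, u i * v j = u j * v i := by
    intro i j
    by_contra h
    exact hcon ⟨i, j, h⟩
  obtain ⟨i0, hu1, hu2⟩ := hu
  obtain ⟨j0, hv1, hv2⟩ := hv
  have h1 : ∀ i, u i = u j0 * v i := by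
    intro i
    rw [← hall i j0, hv1, mul_one]
  have h2 : u j0 * v i0 = 1 := by rw [← h1 i0, hu1]
  have h3 : u j0 ≠ 0 := fun h => by rw [h, zero_mul] at h2; exact zero_ne_one h2
  have h4 : v i0 ≠ 0 := fun h => by rw [h, mul_zero] at h2; exact zero_ne_one h2
  have h5 : ¬ j0 < i0 := fun h => h3 (hu2 j0 h)
  have h6 : ¬ i0 < j0 := fun h => h4 (hv2 i0 h)
  have h7 : i0 = j0 := le_antisymm (not_lt.1 h5) (not_lt.1 h6)
  have h8 : u j0 = 1 := by rw [← h7, hu1]
  refine huv (funext fun i => ?_)
  rw [h1 i, h8, one_mul]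

/-- Forms and points. -/
theorem t_Frm (h1 : S_Avd) : S_Frm := by
  classical
  intro K _ _ l n B hB
  refine ⟨?_, ?_, ?_⟩
  · -- forms without zeros on `B`
    intro c
    obtain ⟨w, hw, hw0⟩ := h1 K {x // x ∈ B} ((Mh K n c).map (ev B)) (by
      rintro ⟨x, hx⟩
      choose f hf _ using hB x hx
      refine ⟨ev B (∏ κ, (X (κ, f κ) : Rm K l n) ^ (c κ)),
        Submodule.mem_map_of_mem (prod_mem K f c), ?_⟩
      rw [ev_apply, map_prod]
      simp only [map_pow, eval_X, hf, one_pow, Finset.prod_const_one]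
      exact one_ne_zero)
    obtain ⟨P, hP, rfl⟩ := Submodule.mem_map.1 hw
    refine ⟨P, hP, fun x hx => ?_⟩
    have h2 := hw0 ⟨x, hx⟩
    rw [ev_apply] at h2
    exact h2
  · -- separation of two points
    intro x hx y hy hxy
    obtain ⟨k, hk⟩ : ∃ k, (fun i => x (k, i)) ≠ fun i => y (k, i) := by
      by_contra hcon
      refine hxy (funext fun q => ?_)
      have h2 : (fun i => x (q.1, i)) = fun i => y (q.1, i) := by
        by_contra h
        exact hcon ⟨q.1, h⟩
      exact congrFun h2 q.2
    obtain ⟨i, j, hij⟩ := not_prop (fun i => x (k, i)) (fun i => y (k, i)) (hB x hx k) (hB y hy k) hk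
    refine ⟨k, C (y (k, j)) * X (k, i) - C (y (k, i)) * X (k, j), ?_, ?_, ?_⟩
    · refine Submodule.sub_mem _ ?_ ?_
      · rw [← smul_eq_C_mul]
        exact Submodule.smul_mem _ _ (X_mem K k i)
      · rw [← smul_eq_C_mul]
        exact Submodule.smul_mem _ _ (X_mem K k j)
    · rw [map_sub, map_mul, map_mul, eval_C, eval_C, eval_X, eval_X]
      intro h
      apply hij
      have := sub_eq_zero.1 h
      calc x (k, i) * y (k, j) = y (k, j) * x (k, i) := mul_comm _ _
        _ = y (k, i) * x (k, j) := this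
        _ = x (k, j) * y (k, i) := mul_comm _ _
    · rw [map_sub, map_mul, map_mul, eval_C, eval_C, eval_X, eval_X]
      ring
  · -- forms which vanish on the diagonal
    intro hD
    obtain ⟨w, hw, hw0⟩ := h1 K {x // x ∈ B} (((Mh K n fun _ : Fin l => 1) ⊓
        LinearMap.ker (res K l n).toLinearMap).map (ev B)) (by
      rintro ⟨x, hx⟩
      choose g hg _ using hB x hx
      have hx' := hD x hx
      unfold Dgl at hx'
      push Not at hx'
      obtain ⟨k, k', i0, hne⟩ := hx'
      have hkk : k ≠ k' := fun h => hne (by rw [h])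
      obtain ⟨i, j, hij⟩ := not_prop (fun i => x (k, i)) (fun i => x (k', i)) (hB x hx k)
        (hB x hx k') (fun h => hne (congrFun h i0))
      obtain ⟨f, hf⟩ : ∃ f : Fin l → Fin (n + 1),
          f = Function.update (Function.update g k i) k' j := ⟨_, rfl⟩
      have hfk : f k = i := by
        rw [hf, Function.update_of_ne hkk, Function.update_self]
      have hfk' : f k' = j := by
        rw [hf, Function.update_self]
      have hfo : ∀ κ, κ ≠ k → κ ≠ k' → f κ = g κ := by
        intro κ a b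
        rw [hf, Function.update_of_ne b, Function.update_of_ne a]
      obtain ⟨f', hf'⟩ : ∃ f' : Fin l → Fin (n + 1), f' = f ∘ Equiv.swap k k' := ⟨_, rfl⟩
      have e1 : ∀ f : Fin l → Fin (n + 1), (∏ κ, (X (κ, f κ) : Rm K l n)) ∈
          Mh K n fun _ : Fin l => 1 := by
        intro f
        have := prod_mem K f fun _ => 1
        simpa only [pow_one] using this
      have e2 : ∀ f : Fin l → Fin (n + 1), res K l n (∏ κ, (X (κ, f κ) : Rm K l n)) =
          ∏ κ, (X ((0 : Fin 1), f κ) : Rm K 1 n) := by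
        intro f
        rw [map_prod]
        refine Finset.prod_congr rfl fun κ _ => ?_
        unfold res
        rw [rename_X]
      have e3 : ∏ κ, (X ((0 : Fin 1), f' κ) : Rm K 1 n) = ∏ κ, (X ((0 : Fin 1), f κ) : Rm K 1 n) := by
        rw [hf']
        exact Equiv.prod_comp (Equiv.swap k k') fun κ => (X ((0 : Fin 1), f κ) : Rm K 1 n)
      have e4 : ∏ κ, x (κ, f κ) = x (k, i) * x (k', j) := by
        rw [Fintype.prod_eq_mul k k' hkk, hfk, hfk']
        rintro κ ⟨a, b⟩
        rw [hfo κ a b, hg]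
      have e5 : ∏ κ, x (κ, f' κ) = x (k, j) * x (k', i) := by
        rw [Fintype.prod_eq_mul k k' hkk]
        · rw [hf']
          simp only [Function.comp_apply, Equiv.swap_apply_left, Equiv.swap_apply_right]
          rw [hfk, hfk']
        · rintro κ ⟨a, b⟩
          rw [hf']
          simp only [Function.comp_apply]
          rw [Equiv.swap_apply_of_ne_of_ne a b, hfo κ a b, hg]
      refine ⟨ev B (∏ κ, (X (κ, f κ) : Rm K l n) - ∏ κ, (X (κ, f' κ) : Rm K l n)),
        Submodule.mem_map_of_mem ⟨Submodule.sub_mem _ (e1 f) (e1 f'), ?_⟩, ?_⟩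
      · rw [SetLike.mem_coe, LinearMap.mem_ker, AlgHom.toLinearMap_apply, map_sub, e2, e2, e3,
          sub_self]
      · rw [ev_apply, map_sub, map_prod, map_prod]
        simp only [eval_X]
        rw [e4, e5]
        intro h
        exact hij (sub_eq_zero.1 h))
    obtain ⟨P, ⟨hP1, hP2⟩, rfl⟩ := Submodule.mem_map.1 hw
    refine ⟨P, hP1, ?_, fun x hx => ?_⟩
    · rw [SetLike.mem_coe, LinearMap.mem_ker, AlgHom.toLinearMap_apply] at hP2
      exact hP2
    · have h2 := hw0 ⟨x, hx⟩
      rw [ev_apply] at h2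
      exact h2

end Pool.Agent.Lib.MP_d01072_ag.Bp
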