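import Pool.Agent.Lib.MP_d01072_ag.Bp.Spec

/-!
# Gap: from large and small parts to a bounded number of parts
-/

namespace Pool.Agent.Lib.MP_d01072_ag.Bp

private theorem exists_gap (p d : ℕ) (s : Fin p → ℕ) (a : ℕ → ℕ) (ha : Monotone a) :
    ∃ i, i ≤ p ∧ ∀ k, a i * s k < d → a (i + 1) * s k < d := by
  by_contra hcon
  push Not at hcon
  have hcon' : ∀ i : Fin (p + 1), ∃ k : Fin p, a i.val * s k < d ∧ d ≤ a (i.val + 1) * s k := by
    intro i
    obtain ⟨k, hk1, hk2⟩ := hcon i.val (Nat.lt_succ_iff.mp i.isLt)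
    exact ⟨k, hk1, hk2⟩
  choose f hf1 hf2 using hcon'
  have hlt : ∀ i j : Fin (p + 1), i < j → f i ≠ f j := by
    intro i j hij heq
    have h1 := hf2 i
    have h2 := hf1 j
    rw [← heq] at h2
    have h3 : a (i.val + 1) ≤ a j.val := ha (Nat.succ_le_of_lt hij)
    have h4 := Nat.mul_le_mul_right (s (f i)) h3
    omega
  have hinj : Function.Injective f := by
    intro i j hij
    rcases lt_trichotomy i j with h | h | h
    · exact absurd hij (hlt i j h)
    · exact h
    · exact absurd hij.symm (hlt j i h)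
  have := Fintype.card_le_of_injective f hinj
  simp at this

theorem t_Gap (h1 : S_FinL) : S_Gap := by
  intro n p hn
  have hAD : ∀ a : ℕ, ∃ A D : ℕ, 1 ≤ a → ∀ (d p : ℕ) (c : Fin d → Fin p) (h : ℕ), D ≤ d →
      1 ≤ h → A * (∑ k ∈ Finset.univ.filter (fun k => a * size c k < d), size c k) ≤ d →
      Concl (n := n) c h := by
    intro a
    by_cases ha : 1 ≤ a
    · obtain ⟨A, D, hA⟩ := h1 n a hn ha
      exact ⟨A, D, fun _ => hA⟩
    · exact ⟨0, 0, fun h => absurd h ha⟩
  choose A D hAD using hAD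
  obtain ⟨a, ha0, has⟩ : ∃ a : ℕ → ℕ, a 0 = p + 1 ∧
      ∀ i, a (i + 1) = (p + 1) * (a i + A (a i) + 1) :=
    ⟨fun i => Nat.rec (p + 1) (fun _ x => (p + 1) * (x + A x + 1)) i, rfl, fun _ => rfl⟩
  have hmono : Monotone a := by
    refine monotone_nat_of_le_succ fun i => ?_
    rw [has i]
    calc a i ≤ a i + A (a i) + 1 := by omega
      _ = 1 * (a i + A (a i) + 1) := by ring
      _ ≤ (p + 1) * (a i + A (a i) + 1) := Nat.mul_le_mul_right _ (by omega)
  have hpos : ∀ i, 1 ≤ a i := by
    intro i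
    have := hmono (Nat.zero_le i)
    omega
  refine ⟨1 + ∑ i ∈ Finset.range (p + 1), D (a i), fun d c h hd hh => ?_⟩
  obtain ⟨i, hip, hi⟩ := exists_gap p d (fun k => size c k) a hmono
  have hDi : D (a i) ≤ d := by
    have h2 : D (a i) ≤ ∑ i ∈ Finset.range (p + 1), D (a i) :=
      Finset.single_le_sum (f := fun i => D (a i)) (fun _ _ => Nat.zero_le _)
        (Finset.mem_range.mpr (Nat.lt_succ_of_le hip))
    omega
  refine hAD (a i) (hpos i) d p c h hDi hh ?_
  -- the bound for the sum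
  have h3 : ∀ k ∈ Finset.univ.filter (fun k => a i * size c k < d),
      (p + 1) * A (a i) * size c k ≤ d := by
    intro k hk
    have hk1 := (Finset.mem_filter.mp hk).2
    have hk2 := hi k hk1
    rw [has i] at hk2
    have h4 : (p + 1) * A (a i) ≤ (p + 1) * (a i + A (a i) + 1) :=
      Nat.mul_le_mul_left _ (by omega)
    have h5 := Nat.mul_le_mul_right (size c k) h4
    omega
  have h6 : (p + 1) * (A (a i) * ∑ k ∈ Finset.univ.filter (fun k => a i * size c k < d),
      size c k) ≤ (p + 1) * d := by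
    rw [← mul_assoc, Finset.mul_sum]
    refine le_trans (Finset.sum_le_sum h3) ?_
    rw [Finset.sum_const, smul_eq_mul]
    refine Nat.mul_le_mul_right _ ?_
    refine le_trans (Finset.card_filter_le _ _) ?_
    simp
  exact Nat.le_of_mul_le_mul_left h6 (Nat.succ_pos p)

end Pool.Agent.Lib.MP_d01072_ag.Bp
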