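import Pool.Agent.Lib.MP_d01072_ag.Bp.Spec

/-!
MP_d01072_ag, package Bp, module Gr (helper62): growth of a space of forms.
-/

set_option autoImplicit false

namespace Pool.Agent.Lib.MP_d01072_ag.Bp

open MvPolynomial

private lemma one_mem (K : Type) [Field K] (l n : ℕ) : (1 : Rm K l n) ∈ Mh K n (0 : Fin l → ℕ) := by
  classical
  intro s hs k
  rw [coeff_one] at hs
  have h1 : 0 = s := by
    by_contra h
    exact hs (if_neg h)
  rw [← h1]
  simp

private lemma Nf_step {l n : ℕ} (B : Fin l → ℕ) (k : Fin l) :
    (B k + 1) * Nf n (B + Pi.single k 1) = (B k + 1 + n) * Nf n B := by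
  classical
  unfold Nf
  rw [← Finset.mul_prod_erase Finset.univ _ (Finset.mem_univ k),
    ← Finset.mul_prod_erase Finset.univ (fun j => (B j + n).choose n) (Finset.mem_univ k)]
  have h1 : ∏ j ∈ Finset.univ.erase k, ((B + Pi.single k 1 : Fin l → ℕ) j + n).choose n =
      ∏ j ∈ Finset.univ.erase k, (B j + n).choose n := by
    refine Finset.prod_congr rfl fun j hj => ?_
    rw [Pi.add_apply, Pi.single_eq_of_ne (Finset.ne_of_mem_erase hj), add_zero]
  have h2 : (B k + 1) * ((B + Pi.single k 1 : Fin l → ℕ) k + n).choose n =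
      (B k + 1 + n) * (B k + n).choose n := by
    rw [Pi.add_apply, Pi.single_eq_same]
    have h4 := Nat.choose_symm_of_eq_add (show B k + n + 1 = B k + 1 + n by ring)
    have h5 := Nat.add_one_mul_choose_eq (B k + n) (B k)
    have h6 : (B k + n).choose (B k) = (B k + n).choose n :=
      Nat.choose_symm_of_eq_add rfl
    have e1 : (B k + 1 + n).choose n = (B k + n + 1).choose (B k + 1) := by
      rw [show B k + 1 + n = B k + n + 1 by ring, h4]
    rw [e1, mul_comm, ← h5, h6]
    ring
  rw [h1, ← mul_assoc, h2, mul_assoc]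

theorem t_Gr (h1 : S_Cnt) (h2 : S_Prd) (h3 : S_Gr1) : S_Gr := by
  intro K _ l n b c W hW
  classical
  obtain ⟨m, hm⟩ : ∃ m, m = ∑ k, c k := ⟨_, rfl⟩
  induction m generalizing c with
  | zero =>
    have hc : c = 0 := by
      funext k
      have := (Finset.sum_eq_zero_iff.1 hm.symm) k (Finset.mem_univ k)
      simpa using this
    rw [hc, add_zero]
    refine Nat.mul_le_mul_right _ ?_
    have hfb := (h1 K l n b).1
    have hle : W ≤ W * Mh K n (0 : Fin l → ℕ) := by
      intro f hf
      have := Submodule.mul_mem_mul hf (one_mem K l n)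
      rwa [mul_one] at this
    have hle2 : W * Mh K n (0 : Fin l → ℕ) ≤ Mh K n b := by
      have := (h2 K l n b 0).1
      rw [add_zero] at this
      rw [← this]
      exact mul_le_mul' hW le_rfl
    have : Module.Finite K (W * Mh K n (0 : Fin l → ℕ) : Submodule K (Rm K l n)) :=
      Submodule.finiteDimensional_of_le hle2
    exact Submodule.finrank_mono hle
  | succ m ih =>
    have hex : ∃ k, c k ≠ 0 := by
      by_contra h
      push Not at h
      rw [Finset.sum_eq_zero fun k _ => h k] at hm
      omega
    obtain ⟨k, hk⟩ := hex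
    set c' : Fin l → ℕ := Function.update c k (c k - 1) with hc'
    have hcc : c = c' + Pi.single k 1 := by
      funext j
      rw [Pi.add_apply, hc']
      by_cases hj : j = k
      · rw [hj, Function.update_self, Pi.single_eq_same]
        omega
      · rw [Function.update_of_ne hj, Pi.single_eq_of_ne hj, add_zero]
    have hsum : m = ∑ j, c' j := by
      have h4 : ∑ j, c j = ∑ j, c' j + 1 := by
        have h5 : ∑ j, (Pi.single k 1 : Fin l → ℕ) j = 1 := by
          rw [Finset.sum_eq_single k]
          · exact Pi.single_eq_same k 1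
          · intro j _ hj
            exact Pi.single_eq_of_ne hj 1
          · exact fun h => absurd (Finset.mem_univ k) h
        have h6 : ∑ j, c j = ∑ j, (c' j + (Pi.single k 1 : Fin l → ℕ) j) :=
          Finset.sum_congr rfl fun j _ => congrFun hcc j
        rw [h6, Finset.sum_add_distrib, h5]
      omega
    have h4 := ih c' hsum
    have hW' : W * Mh K n c' ≤ Mh K n (b + c') := by
      rw [← (h2 K l n b c').1]
      exact mul_le_mul' hW le_rfl
    have h5 := h3 K l n (b + c') k (W * Mh K n c') hW'
    have h6 : W * Mh K n c' * Mh K n (Pi.single k 1) = W * Mh K n c := by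
      rw [mul_assoc, (h2 K l n c' (Pi.single k 1)).1, ← hcc]
    rw [h6] at h5
    have h7 := Nf_step (n := n) (b + c') k
    have h8 : b + c' + Pi.single k 1 = b + c := by
      rw [add_assoc, ← hcc]
    rw [h8] at h7
    set x := (b + c') k
    refine Nat.le_of_mul_le_mul_left (c := x + 1) ?_ (Nat.succ_pos x)
    calc (x + 1) * (Module.finrank K W * Nf n (b + c)) =
        Module.finrank K W * ((x + 1) * Nf n (b + c)) := by ring
      _ = (x + 1 + n) * (Module.finrank K W * Nf n (b + c')) := by rw [h7]; ring
      _ ≤ (x + 1 + n) * (Module.finrank K (W * Mh K n c' : Submodule K (Rm K l n)) * Nf n b) :=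
        Nat.mul_le_mul_left _ h4
      _ = ((x + 1 + n) * Module.finrank K (W * Mh K n c' : Submodule K (Rm K l n))) * Nf n b := by ring
      _ ≤ ((x + 1) * Module.finrank K (W * Mh K n c : Submodule K (Rm K l n))) * Nf n b :=
        Nat.mul_le_mul_right _ h5
      _ = (x + 1) * (Module.finrank K (W * Mh K n c : Submodule K (Rm K l n)) * Nf n b) := by ring

end Pool.Agent.Lib.MP_d01072_ag.Bp
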