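import Pool.Agent.Lib.MP_d01072_ag.Bp.Spec

/-!
MP_d01072_ag, package Bp, module Gr1 (helper62): growth of a space of forms, one variable.
-/

set_option autoImplicit false

namespace Pool.Agent.Lib.MP_d01072_ag.Bp

open MvPolynomial

private lemma exists_mo (σ : Type) [Finite σ] : Nonempty (MonomialOrder.{0, 0} σ) := by
  have := Fintype.ofFinite σ
  let _ : LinearOrder σ := LinearOrder.lift' (Fintype.equivFin σ) (Equiv.injective _)
  exact ⟨MonomialOrder.lex⟩

private lemma mul_mem {K : Type} [Field K] {l n : ℕ} {b c : Fin l → ℕ} {f g : Rm K l n}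
    (hf : f ∈ Mh K n b) (hg : g ∈ Mh K n c) : f * g ∈ Mh K n (b + c) := by
  classical
  intro s hs k
  rw [coeff_mul] at hs
  obtain ⟨x, hx, hx0⟩ := Finset.exists_ne_zero_of_sum_ne_zero hs
  have h1 := hf x.1 (left_ne_zero_of_mul hx0) k
  have h2 := hg x.2 (right_ne_zero_of_mul hx0) k
  rw [← Finset.HasAntidiagonal.mem_antidiagonal.1 hx, Pi.add_apply, ← h1, ← h2, ← Finset.sum_add_distrib]
  rfl

private lemma X_mem {K : Type} [Field K] {l n : ℕ} (k : Fin l) (i : Fin (n + 1)) :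
    (X (k, i) : Rm K l n) ∈ Mh K n (Pi.single k 1) := by
  classical
  intro s hs k'
  rw [coeff_X] at hs
  have h1 : Finsupp.single (k, i) 1 = s := by
    by_contra h
    exact hs (if_neg h)
  rw [← h1]
  by_cases h : k' = k
  · rw [h, Pi.single_eq_same, Finset.sum_eq_single i]
    · rw [Finsupp.single_eq_same]
    · intro j _ hj
      rw [Finsupp.single_eq_of_ne]
      intro h2
      exact hj (Prod.ext_iff.1 h2).2
    · exact fun h2 => absurd (Finset.mem_univ i) h2
  · rw [Pi.single_eq_of_ne h]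
    refine Finset.sum_eq_zero fun j _ => ?_
    rw [Finsupp.single_eq_of_ne]
    intro h2
    exact h (Prod.ext_iff.1 h2).1

theorem t_Gr1 (h1 : S_Cnt) (h2 : S_Ech) : S_Gr1 := by
  intro K _ l n b k W hW
  classical
  obtain ⟨m⟩ := exists_mo (Fin l × Fin (n + 1))
  have hfb := (h1 K l n b).1
  have hfe := (h1 K l n (Pi.single k 1)).1
  have hfW : Module.Finite K W := Submodule.finiteDimensional_of_le hW
  set W' := W * Mh K n (Pi.single k 1) with hW'
  have hfW' : Module.Finite K W' :=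
    Module.Finite.iff_fg.2 (Submodule.FG.mul (Module.Finite.iff_fg.1 hfW) (Module.Finite.iff_fg.1 hfe))
  obtain ⟨hP, hPc⟩ := h2 K _ m W hfW
  obtain ⟨hP', hPc'⟩ := h2 K _ m W' hfW'
  have hWb : W' ≤ Mh K n (b + Pi.single k 1) :=
    Submodule.mul_le.2 fun f hf g hg => mul_mem (hW hf) hg
  rw [← hPc, ← hPc', Set.ncard_eq_toFinset_card _ hP, Set.ncard_eq_toFinset_card _ hP']
  set P := hP.toFinset with hPdef
  set P' := hP'.toFinset with hPdef'
  have hdeg : ∀ {B : Fin l → ℕ} {f : Rm K l n}, f ∈ Mh K n B → f ≠ 0 → ∀ j, ∑ i, m.degree f (j, i) = B j :=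
    fun {B f} hf hf0 j => hf _ (m.coeff_degree_ne_zero_iff.2 hf0) j
  have hs1 : ∀ s ∈ P, ∑ i : Fin (n + 1), (s (k, i) + 1) = b k + 1 + n := by
    intro s hs
    obtain ⟨f, hf, hf0, hfs⟩ := (Set.Finite.mem_toFinset hP).1 hs
    rw [Finset.sum_add_distrib, ← hfs, hdeg (hW hf) hf0 k]
    simp
    ring
  have hs2 : ∀ u ∈ P', ∑ i : Fin (n + 1), u (k, i) = b k + 1 := by
    intro s hs
    obtain ⟨f, hf, hf0, hfs⟩ := (Set.Finite.mem_toFinset hP').1 hs
    rw [← hfs, hdeg (hWb hf) hf0 k, Pi.add_apply, Pi.single_eq_same]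
  have hmap : ∀ s ∈ P, ∀ i : Fin (n + 1), s + Finsupp.single (k, i) 1 ∈ P' := by
    intro s hs i
    obtain ⟨f, hf, hf0, hfs⟩ := (Set.Finite.mem_toFinset hP).1 hs
    refine (Set.Finite.mem_toFinset hP').2 ⟨f * X (k, i), ?_, mul_ne_zero hf0 (X_ne_zero _), ?_⟩
    · exact Submodule.mul_mem_mul hf (X_mem k i)
    · rw [MonomialOrder.degree_mul hf0 (X_ne_zero _), hfs, MonomialOrder.degree_X]
  have hL : (b k + 1 + n) * P.card = ∑ i : Fin (n + 1), ∑ s ∈ P, (s (k, i) + 1) := by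
    rw [Finset.sum_comm, Finset.sum_congr rfl hs1, Finset.sum_const, smul_eq_mul, mul_comm]
  have hR : (b k + 1) * P'.card = ∑ i : Fin (n + 1), ∑ u ∈ P', u (k, i) := by
    rw [Finset.sum_comm, Finset.sum_congr rfl hs2, Finset.sum_const, smul_eq_mul, mul_comm]
  rw [hL, hR]
  refine Finset.sum_le_sum fun i _ => ?_
  have h3 : ∑ s ∈ P, (s (k, i) + 1) = ∑ u ∈ P.image (fun s => s + Finsupp.single (k, i) 1), u (k, i) := by
    rw [Finset.sum_image (fun s _ t _ h => add_right_cancel h)]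
    refine Finset.sum_congr rfl fun s _ => ?_
    rw [Finsupp.add_apply, Finsupp.single_eq_same]
  rw [h3]
  refine Finset.sum_le_sum_of_subset fun u hu => ?_
  obtain ⟨s, hs, rfl⟩ := Finset.mem_image.1 hu
  exact hmap s hs i

end Pool.Agent.Lib.MP_d01072_ag.Bp
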