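import Pool.Agent.Lib.MP_d01072_ag.Bp.Spec

/-! MP_d01072_ag, package Bp: the Hilbert function. -/

set_option autoImplicit false

namespace Pool.Agent.Lib.MP_d01072_ag.Bp

open MvPolynomial

private theorem hil_one (h1 : S_Cnt) (K : Type) [Field K] (l n : ℕ) (B : Finset (Pt K l n))
    (b : Fin l → ℕ) : Hf B b + Module.finrank K (Vn B b) = Nf n b := by
  have hfin : Module.Finite K (Mh K n b) := (h1 K l n b).1
  have h := LinearMap.finrank_range_add_finrank_ker ((ev B).domRestrict (Mh K n b))
  rw [LinearMap.range_domRestrict, (h1 K l n b).2] at h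
  have hk : (LinearMap.ker ((ev B).domRestrict (Mh K n b))).map (Mh K n b).subtype = Vn B b := by
    ext f
    constructor
    · rintro ⟨g, hg, rfl⟩
      refine ⟨g.2, fun x hx => ?_⟩
      have h2 : (ev B) (g : Rm K l n) = 0 := hg
      exact congrFun h2 ⟨x, hx⟩
    · rintro ⟨hf, hv⟩
      refine ⟨⟨f, hf⟩, ?_, rfl⟩
      change (ev B) f = 0
      funext x
      exact hv x.1 x.2
  rw [← hk, Submodule.finrank_map_subtype_eq]
  exact h

theorem t_Hil (h1 : S_Cnt) (h2 : S_Prd) (h3 : S_Gr) : S_Hil := by
  intro K _ l n B b c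
  refine ⟨hil_one h1 K l n B b, ?_, ?_⟩
  · have h := Submodule.finrank_le ((Mh K n b).map (ev B))
    rw [Module.finrank_fintype_fun_eq_card, Fintype.card_coe] at h
    exact h
  · have e1 := hil_one h1 K l n B b
    have e2 := hil_one h1 K l n B (b + c)
    have hW : Vn B b ≤ Mh K n b := fun f hf => hf.1
    have h4 := h3 K l n b c (Vn B b) hW
    have hle : Vn B b * Mh K n c ≤ Vn B (b + c) := by
      rw [Submodule.mul_le]
      intro f hf g hg
      refine ⟨?_, fun x hx => ?_⟩
      · rw [← (h2 K l n b c).1]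
        exact Submodule.mul_mem_mul hf.1 hg
      · rw [map_mul, hf.2 x hx, zero_mul]
    have hfin : Module.Finite K (Mh K n (b + c)) := (h1 K l n (b + c)).1
    have hV : Vn B (b + c) ≤ Mh K n (b + c) := fun f hf => hf.1
    have hfin2 : Module.Finite K (Vn B (b + c)) := Submodule.finiteDimensional_of_le hV
    have h5 := Submodule.finrank_mono hle
    have h6 := h4.trans (Nat.mul_le_mul_right (Nf n b) h5)
    nlinarith [h6, e1, e2]

end Pool.Agent.Lib.MP_d01072_ag.Bp
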