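import Pool.Agent.Lib.MP_d01072_ag.Bp.Spec

/-!
MP_d01072_ag, package Bp: the module Hor (restriction to a hyperplane).
-/

set_option autoImplicit false

namespace Pool.Agent.Lib.MP_d01072_ag.Bp

open MvPolynomial

private noncomputable def rst (n : ℕ) :
    MvPolynomial (Fin (n + 2)) ℂ →ₐ[ℂ] MvPolynomial (Fin (n + 1)) ℂ :=
  aeval (Fin.cons 0 X)

private lemma rst_X0 (n : ℕ) : rst n (X 0) = 0 := by
  rw [rst, aeval_X, Fin.cons_zero]

private lemma rst_Xs (n : ℕ) (i : Fin (n + 1)) : rst n (X i.succ) = X i := by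
  rw [rst, aeval_X, Fin.cons_succ]

private lemma eval_rst {n : ℕ} (y : Fin (n + 1) → ℂ) (f : MvPolynomial (Fin (n + 2)) ℂ) :
    eval y (rst n f) = eval (hy y) f := by
  induction f using MvPolynomial.induction_on with
  | C a => rw [algHom_C, algebraMap_eq, eval_C, eval_C]
  | add p q hp hq => rw [map_add, map_add, map_add, hp, hq]
  | mul_X p i hp =>
    rw [map_mul, map_mul, map_mul, hp]
    refine Fin.cases ?_ (fun j => ?_) i
    · rw [rst_X0, map_zero, eval_X]
      rfl
    · rw [rst_Xs, eval_X, eval_X]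
      rfl

private lemma pderiv_rst {n : ℕ} (i : Fin (n + 1)) (f : MvPolynomial (Fin (n + 2)) ℂ) :
    pderiv i (rst n f) = rst n (pderiv i.succ f) := by
  induction f using MvPolynomial.induction_on with
  | C a => rw [algHom_C, pderiv_C, map_zero, algebraMap_eq, pderiv_C]
  | add p q hp hq => rw [map_add, map_add, map_add, map_add, hp, hq]
  | mul_X p j hp =>
    rw [map_mul, pderiv_mul, pderiv_mul, map_add, map_mul, map_mul, hp]
    congr 1
    congr 1
    refine Fin.cases ?_ (fun k => ?_) j
    · rw [rst_X0, map_zero, pderiv_X_of_ne (Fin.succ_ne_zero i).symm, map_zero]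
    · rw [rst_Xs]
      by_cases h : k = i
      · subst h
        rw [pderiv_X_self, pderiv_X_self, map_one]
      · rw [pderiv_X_of_ne h, pderiv_X_of_ne (fun h' => h (Fin.succ_injective _ h')), map_zero]

private lemma rst_hom {n m : ℕ} {f : MvPolynomial (Fin (n + 2)) ℂ} (h : f.IsHomogeneous m) :
    (rst n f).IsHomogeneous m := by
  have h1 := h.aeval (n := 1) (Fin.cons 0 X : Fin (n + 2) → MvPolynomial (Fin (n + 1)) ℂ)
    (fun i => by
      refine Fin.cases ?_ (fun k => ?_) i
      · rw [Fin.cons_zero]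
        exact isHomogeneous_zero _ _ _
      · rw [Fin.cons_succ]
        exact isHomogeneous_X _ _)
  rwa [one_mul] at h1

private lemma dvd_sub {n : ℕ} (f : MvPolynomial (Fin (n + 2)) ℂ) :
    (X 0 : MvPolynomial (Fin (n + 2)) ℂ) ∣ f - rename Fin.succ (rst n f) := by
  induction f using MvPolynomial.induction_on with
  | C a =>
    rw [algHom_C, algebraMap_eq, rename_C, sub_self]
    exact dvd_zero _
  | add p q hp hq =>
    rw [map_add, map_add, add_sub_add_comm]
    exact dvd_add hp hq
  | mul_X p j hp =>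
    rw [map_mul, map_mul]
    refine Fin.cases ?_ (fun k => ?_) j
    · rw [rst_X0, map_zero, mul_zero, sub_zero]
      exact dvd_mul_left _ _
    · rw [rst_Xs, rename_X, ← sub_mul]
      exact Dvd.dvd.mul_right hp _

private lemma fin_hom {σ : Type} [Finite σ] {d : ℕ} {V : Submodule ℂ (MvPolynomial σ ℂ)}
    (h : V ≤ homogeneousSubmodule σ ℂ d) : Module.Finite ℂ V := by
  have h1 : Module.Finite ℂ (homogeneousSubmodule σ ℂ d) :=
    Module.Finite.iff_fg.2 (homogeneousSubmodule_fg σ ℂ d)
  exact Submodule.finiteDimensional_of_le h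

private lemma quot_hom {σ : Type} {d : ℕ} (s : σ) {f : MvPolynomial σ ℂ}
    (h : (X s * f).IsHomogeneous (d + 1)) : f.IsHomogeneous d := by
  intro m hm
  have h1 : coeff (Finsupp.single s 1 + m) (X s * f) ≠ 0 := by
    rwa [coeff_X_mul]
  have h2 := h h1
  rw [map_add] at h2
  have h3 : Finsupp.weight (1 : σ → ℕ) (Finsupp.single s 1) = 1 := by
    rw [Finsupp.weight_single]
    simp
  rw [h3] at h2
  omega

theorem t_Hor : S_Hor := by
  intro n d h' u Z' U hZ
  set V := Dbl (n + 1) (d + 1) (jn Z' U) with hV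
  have hfV : Module.Finite ℂ V := fin_hom (σ := Fin (n + 2)) (d := d + 1) (fun f hf => hf.1)
  have hfD : Module.Finite ℂ (Dbl n (d + 1) U) :=
    fin_hom (σ := Fin (n + 1)) (d := d + 1) (fun f hf => hf.1)
  have hfE : Module.Finite ℂ (Dvn n d Z' U) :=
    fin_hom (σ := Fin (n + 2)) (d := d) (fun f hf => hf.1.1)
  have hj1 : ∀ j, (fun x => jn Z' U (Fin.castAdd u j, x)) = fun x => Z' (j, x) := by
    intro j
    funext x
    exact congrFun (Fin.append_left (fun (j : Fin h') i => Z' (j, i))
      (fun (j : Fin u) => hy fun i => U (j, i)) j) x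
  have hj2 : ∀ j, (fun x => jn Z' U (Fin.natAdd h' j, x)) = hy fun x => U (j, x) := by
    intro j
    funext x
    exact congrFun (Fin.append_right (fun (j : Fin h') i => Z' (j, i))
      (fun (j : Fin u) => hy fun i => U (j, i)) j) x
  set ρ := (rst n).toLinearMap.domRestrict V with hρ
  have h1 := LinearMap.finrank_range_add_finrank_ker ρ
  have h2 : Module.finrank ℂ (LinearMap.range ρ) ≤ Module.finrank ℂ (Dbl n (d + 1) U) := by
    refine Submodule.finrank_mono ?_
    rintro _ ⟨⟨f, hf⟩, rfl⟩
    change rst n f ∈ _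
    refine ⟨rst_hom hf.1, fun j i => ?_⟩
    rw [pderiv_rst, eval_rst, ← hj2]
    exact hf.2 _ _
  have h3 : (LinearMap.ker ρ).map V.subtype ≤
      (Dvn n d Z' U).map (LinearMap.mulLeft ℂ (X 0 : MvPolynomial (Fin (n + 2)) ℂ)) := by
    rintro _ ⟨⟨f, hf⟩, hfk, rfl⟩
    have hf0 : rst n f = 0 := hfk
    change f ∈ _
    have h4 := dvd_sub f
    rw [hf0, map_zero, sub_zero] at h4
    obtain ⟨g, rfl⟩ := h4
    have hg : g.IsHomogeneous d := quot_hom 0 hf.1
    refine ⟨g, ⟨⟨hg, ?_⟩, ?_⟩, rfl⟩
    · intro j i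
      have hz : ∀ i, eval (fun x => Z' (j, x)) (pderiv i (X 0 * g)) = 0 := by
        intro i
        rw [← hj1]
        exact hf.2 _ _
      have he := hf.1.sum_X_mul_pderiv
      have he2 := congrArg (eval (fun x => Z' (j, x))) he
      rw [map_sum] at he2
      simp only [map_mul, hz, mul_zero, Finset.sum_const_zero] at he2
      rw [nsmul_eq_mul, map_mul, map_mul, eval_X] at he2
      have hd : eval (fun x => Z' (j, x)) (((d + 1 : ℕ) : MvPolynomial (Fin (n + 2)) ℂ)) ≠ 0 := by
        rw [map_natCast]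
        exact_mod_cast Nat.succ_ne_zero d
      have hg0 : eval (fun x => Z' (j, x)) g = 0 := by
        rcases mul_eq_zero.1 he2.symm with h | h
        · exact absurd h hd
        · rcases mul_eq_zero.1 h with h | h
          · exact absurd h (hZ j)
          · exact h
      have h5 := hz i
      rw [pderiv_mul, map_add, map_mul, map_mul, hg0, mul_zero, zero_add, eval_X] at h5
      rcases mul_eq_zero.1 h5 with h | h
      · exact absurd h (hZ j)
      · exact h
    · intro j
      have h5 : eval (hy fun i => U (j, i)) (pderiv 0 (X 0 * g)) = 0 := by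
        rw [← hj2]
        exact hf.2 _ _
      rw [pderiv_mul, pderiv_X_self, one_mul, map_add, map_mul, eval_X] at h5
      have h6 : hy (fun i => U (j, i)) 0 = 0 := rfl
      rw [h6, zero_mul, add_zero] at h5
      exact h5
  have h4 : Module.finrank ℂ (LinearMap.ker ρ) ≤ Module.finrank ℂ (Dvn n d Z' U) := by
    calc Module.finrank ℂ (LinearMap.ker ρ)
        = Module.finrank ℂ ((LinearMap.ker ρ).map V.subtype) :=
          (Submodule.finrank_map_subtype_eq V (LinearMap.ker ρ)).symm
      _ ≤ Module.finrank ℂ ((Dvn n d Z' U).map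
            (LinearMap.mulLeft ℂ (X 0 : MvPolynomial (Fin (n + 2)) ℂ))) :=
          Submodule.finrank_mono h3
      _ ≤ _ := Submodule.finrank_map_le _ _
  exact h1.symm.le.trans (add_le_add h2 h4)

end Pool.Agent.Lib.MP_d01072_ag.Bp
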