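import Pool.Agent.Lib.MP_d01072_ag.Bp.Spec

/-!
MP_d01072_ag, package Bp, module Hs: the Horace inequality for the minimal dimensions.
-/

set_option autoImplicit false

namespace Pool.Agent.Lib.MP_d01072_ag.Bp

open MvPolynomial

private theorem hs_ne {σ : Type} {P : MvPolynomial σ ℂ} (hP : P ≠ 0) : ∃ z : σ → ℂ, eval z P ≠ 0 := by
  by_contra h
  push Not at h
  exact hP (MvPolynomial.funext fun z => by rw [h z, map_zero])

theorem t_Hs (h1 : S_Am) (h2 : S_Hor) (h3 : S_Tr1) : S_Hs := by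
  intro n d h' u hle
  obtain ⟨-, -, -, -, -, P1, hP1, hP1'⟩ := h1 (n + 1) d h'
  obtain ⟨-, -, -, -, -, P2, hP2, hP2'⟩ := h1 (n + 1) (d + 1) h'
  obtain ⟨-, -, -, -, -, P3, hP3, hP3'⟩ := h1 n (d + 2) u
  obtain ⟨-, hmin, -⟩ := h1 (n + 1) (d + 2) (h' + u)
  have hX : (∏ j : Fin h', (X (j, 0) : MvPolynomial (Fin h' × Fin (n + 1 + 1)) ℂ)) ≠ 0 :=
    Finset.prod_ne_zero_iff.2 fun j _ => X_ne_zero _
  obtain ⟨Z', hZ'⟩ := hs_ne (mul_ne_zero (mul_ne_zero hP1 hP2) hX)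
  rw [map_mul, map_mul, map_prod] at hZ'
  have hZ12 := left_ne_zero_of_mul hZ'
  have e1 := hP1' Z' (left_ne_zero_of_mul hZ12)
  have e2 := hP2' Z' (right_ne_zero_of_mul hZ12)
  have e0 : ∀ j, Z' (j, 0) ≠ 0 := by
    intro j
    have h := Finset.prod_ne_zero_iff.1 (right_ne_zero_of_mul hZ') j (Finset.mem_univ j)
    rwa [eval_X] at h
  obtain ⟨P4, hP4, hP4'⟩ := h3 n d h' u Z' e0 (by rw [e1, e2]; exact hle)
  obtain ⟨U, hU⟩ := hs_ne (mul_ne_zero hP3 hP4)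
  rw [map_mul] at hU
  have e3 := hP3' U (left_ne_zero_of_mul hU)
  have e4 := hP4' U (right_ne_zero_of_mul hU)
  have e5 := h2 n (d + 1) h' u Z' U e0
  have e6 := hmin (jn Z' U)
  rw [e2] at e4
  have e7 : d + 1 + 1 = d + 2 := rfl
  rw [e7] at e5
  rw [e3] at e5
  omega

end Pool.Agent.Lib.MP_d01072_ag.Bp
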