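import Pool.Agent.Lib.MP_d01072_ag.Bp.Spec

/-!
MP_d01072_ag, package Bp, module **Ind**: the induction on the dimension for double points with a
constant defect.
-/

set_option autoImplicit false

namespace Pool.Agent.Lib.MP_d01072_ag.Bp

/-- every further point lowers the dimension (truncated) -/
private lemma am_drop (h1 : S_Am) (n d h j : ℕ) (hd : 1 ≤ d) :
    am n d (h + j) ≤ am n d h - j := by
  induction j with
  | zero => simp
  | succ j ih =>
    have h2 := (h1 n d (h + j)).2.2.2.2.1 hd
    have e : h + (j + 1) = h + j + 1 := rfl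
    rw [e]
    omega

theorem t_Ind (h1 : S_Am) (h2 : S_Hs) (h3 : S_ClN) : S_Ind := by
  intro n s hn hcl
  obtain ⟨d1, hd1, hgr⟩ := h3 n s hn
  obtain ⟨σ, hσ⟩ : ∃ σ, σ = max ((d1 + (n + 1)).choose (n + 1)) (s + n) := ⟨_, rfl⟩
  have hσ1 : (d1 + (n + 1)).choose (n + 1) ≤ σ := hσ ▸ le_max_left _ _
  have hσ2 : s + n ≤ σ := hσ ▸ le_max_right _ _
  refine ⟨σ, ?_⟩
  have pas : ∀ d, (d + 1 + (n + 1)).choose (n + 1) =
      (d + 1 + n).choose n + (d + (n + 1)).choose (n + 1) := by
    intro d
    have e1 : d + 1 + (n + 1) = (d + 1 + n) + 1 := by ring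
    have e2 : d + (n + 1) = d + 1 + n := by ring
    rw [e1, Nat.choose_succ_succ, e2]
  have key : ∀ d : ℕ, 1 ≤ d → ∀ h : ℕ, (n + 1 + 1) * h + σ ≤ (d + (n + 1)).choose (n + 1) →
      am (n + 1) d h + (n + 1 + 1) * h ≤ (d + (n + 1)).choose (n + 1) := by
    intro d
    induction d using Nat.strong_induction_on with
    | _ d ih =>
    intro hd h hh
    rcases le_or_gt d d1 with hdd | hdd
    · have hm : (d + (n + 1)).choose (n + 1) ≤ (d1 + (n + 1)).choose (n + 1) :=
        Nat.choose_le_choose _ (by omega)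
      have h0 : (n + 1 + 1) * h = 0 := by omega
      have h00 : h = 0 := by
        rcases Nat.mul_eq_zero.mp h0 with h' | h'
        · omega
        · exact h'
      subst h00
      rw [(h1 (n + 1) d 0).2.2.2.1]
      simp
    · obtain ⟨e, rfl⟩ : ∃ e, d = e + 2 := ⟨d - 2, by omega⟩
      obtain ⟨ha, hb⟩ := hgr (e + 2) (by omega)
      have hb' : (e + 2 + n).choose n + (n + 1) * ((n + 2) * (s + 2 * n + 1) + n + 1) ≤
        (n + 1) * (e + 1 + n).choose n := hb
      have ih1 := ih (e + 1) (by omega) (by omega)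
      have ih2 := ih e (by omega) (by omega)
      have pas1 := pas (e + 1)
      have pas2 := pas e
      have c1 := hcl (e + 2)
      have hs := h2 n e
      have e2 : e + 1 + 1 = e + 2 := rfl
      rw [e2] at pas1
      have he : 1 ≤ e := by omega
      -- abbreviations
      obtain ⟨N2, hN2⟩ : ∃ N2, N2 = (e + 2 + (n + 1)).choose (n + 1) := ⟨_, rfl⟩
      obtain ⟨N1, hN1⟩ : ∃ N1, N1 = (e + 1 + (n + 1)).choose (n + 1) := ⟨_, rfl⟩
      obtain ⟨N0, hN0⟩ : ∃ N0, N0 = (e + (n + 1)).choose (n + 1) := ⟨_, rfl⟩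
      obtain ⟨M2, hM2⟩ : ∃ M2, M2 = (e + 2 + n).choose n := ⟨_, rfl⟩
      obtain ⟨M1, hM1⟩ : ∃ M1, M1 = (e + 1 + n).choose n := ⟨_, rfl⟩
      rw [← hN2] at hh pas1 ⊢
      rw [← hN1] at ih1 pas1 pas2
      rw [← hN0] at ih2 pas2
      rw [← hM2] at ha hb' pas1 c1
      rw [← hM1] at hb' pas2
      have low1 : ∀ x, N1 ≤ am (n + 1) (e + 1) x + (n + 1 + 1) * x := fun x => by
        rw [hN1]
        exact (h1 (n + 1) (e + 1) x).2.2.1
      have z1 : am (n + 1) (e + 1) 0 = N1 := by rw [hN1]; exact (h1 (n + 1) (e + 1) 0).2.2.2.1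
      have z0 : am (n + 1) e 0 = N0 := by rw [hN0]; exact (h1 (n + 1) e 0).2.2.2.1
      -- the number of the points on the hyperplane
      obtain ⟨u0, hu0⟩ : ∃ u0, u0 = (M2 - s) / (n + 1) := ⟨_, rfl⟩
      have hu1 : (n + 1) * u0 + s ≤ M2 := by
        have := Nat.mul_div_le (M2 - s) (n + 1)
        rw [← hu0] at this
        have h4 : s ≤ M2 := by
          have : 0 ≤ (n + 1) * (s + n) := Nat.zero_le _
          omega
        omega
      have hu2 : M2 ≤ (n + 1) * u0 + s + n := by
        have h5 := Nat.div_add_mod (M2 - s) (n + 1)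
        have h6 := Nat.mod_lt (M2 - s) (Nat.succ_pos n)
        rw [← hu0] at h5
        have h7 : (M2 - s) % n.succ = (M2 - s) % (n + 1) := rfl
        omega
      have hu3 : s + n ≤ u0 := by
        rw [hu0, Nat.le_div_iff_mul_le (by omega : 0 < n + 1)]
        have : (s + n) * (n + 1) = (n + 1) * (s + n) := Nat.mul_comm _ _
        omega
      have hu4 : u0 + ((n + 2) * (s + 2 * n + 1) + n + 1) ≤ M1 := by
        have h8 : (n + 1) * (u0 + ((n + 2) * (s + 2 * n + 1) + n + 1)) ≤ (n + 1) * M1 := by
          rw [Nat.mul_add]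
          omega
        exact Nat.le_of_mul_le_mul_left h8 (Nat.succ_pos n)
      -- the conclusion from the two conditions
      have fin : ∀ u h' : ℕ, u ≤ u0 → u + h' = h →
          am (n + 1) (e + 1) h' + (n + 1 + 1) * h' ≤ N1 →
          u + am (n + 1) e h' ≤ am (n + 1) (e + 1) h' →
          am (n + 1) (e + 2) h + (n + 1 + 1) * h ≤ N2 := by
        intro u h' hu huh hi hii
        have h9 := hs h' u hii
        have h10 : (n + 1) * u ≤ (n + 1) * u0 := Nat.mul_le_mul_left _ hu
        have h11 := c1 u (by omega) (by omega)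
        have h12 : h' + u = h := by omega
        rw [h12] at h9
        have h13 : (n + 1 + 1) * h = (n + 1) * u + u + (n + 1 + 1) * h' := by
          rw [← huh]; ring
        omega
      rcases le_or_gt h u0 with hle | hgt
      · refine fin h 0 hle (by omega) ?_ ?_
        · rw [z1]; simp
        · rw [z1, z0]
          omega
      · obtain ⟨h', hh'⟩ : ∃ h', h = u0 + h' := ⟨h - u0, by omega⟩
        have hst : (n + 1 + 1) * h' + u0 + σ ≤ s + n + N1 := by
          have h14 : (n + 1 + 1) * h = (n + 1) * u0 + u0 + (n + 1 + 1) * h' := by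
            rw [hh']; ring
          omega
        have hi := ih1 h' (by omega)
        have hlo := low1 h'
        refine fin u0 h' le_rfl (by omega) hi ?_
        rcases le_or_gt ((n + 1 + 1) * h' + σ) N0 with hA | hB
        · have h15 := ih2 h' hA
          omega
        · obtain ⟨h'', hh''⟩ : ∃ h'', h'' = (N0 - σ) / (n + 1 + 1) := ⟨_, rfl⟩
          have h16 : (n + 1 + 1) * h'' ≤ N0 - σ := by
            rw [hh'']; exact Nat.mul_div_le _ _
          have h17 : h'' ≤ h' := by
            have : (n + 1 + 1) * h'' ≤ (n + 1 + 1) * h' := by omega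
            exact Nat.le_of_mul_le_mul_left this (by omega)
          have h18 : am (n + 1) e h'' ≤ σ + (n + 1) ∧
              am (n + 1) e h'' + (n + 1 + 1) * h'' ≤ N0 := by
            rcases le_or_gt σ N0 with hC | hD
            · have h19 := ih2 h'' (by omega)
              have h20 := Nat.div_add_mod (N0 - σ) (n + 1 + 1)
              have h21 := Nat.mod_lt (N0 - σ) (Nat.succ_pos (n + 1))
              rw [← hh''] at h20
              have h22 : (N0 - σ) % (n + 1).succ = (N0 - σ) % (n + 1 + 1) := rfl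
              constructor <;> omega
            · have h23 : N0 - σ = 0 := by omega
              have h24 : h'' = 0 := by rw [hh'', h23]; simp
              rw [h24, z0]
              constructor
              · omega
              · simp
          obtain ⟨j, hj⟩ : ∃ j, h' = h'' + j := ⟨h' - h'', by omega⟩
          have h25 := am_drop h1 (n + 1) e h'' j he
          rw [← hj] at h25
          rcases le_or_gt (s + 2 * n + 1) j with hE | hF
          · omega
          · have h26 : (n + 1 + 1) * h' = (n + 1 + 1) * h'' + (n + 2) * j := by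
              rw [hj]; ring
            have h27 : (n + 2) * j ≤ (n + 2) * (s + 2 * n + 1) :=
              Nat.mul_le_mul_left _ hF.le
            omega
  intro d h hd hh
  exact key d hd h hh

end Pool.Agent.Lib.MP_d01072_ag.Bp
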