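import Pool.Agent.Lib.MP_d01072_ag.Bp.Spec

/-!
MP_d01072_ag, package Bp, module Jac: the Jacobian criterion for algebraic independence.
-/

set_option autoImplicit false

namespace Pool.Agent.Lib.MP_d01072_ag.Bp

open MvPolynomial

/-- a right inverse of a matrix with independent rows -/
private theorem right_inv {σ : Type} [Fintype σ] {m : ℕ} (N : Matrix (Fin m) σ ℂ)
    (h : LinearIndependent ℂ (fun j => fun x : σ => N j x)) :
    ∃ R : Matrix σ (Fin m) ℂ, N * R = 1 := by
  classical
  let lc : (Fin m → ℂ) →ₗ[ℂ] (σ → ℂ) := Fintype.linearCombination ℂ (fun j => fun x : σ => N j x)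
  have hinj : LinearMap.ker lc = ⊥ := by
    rw [LinearMap.ker_eq_bot']
    intro g hg
    have h1 := Fintype.linearIndependent_iff.1 h g
      (by simpa [lc, Fintype.linearCombination_apply] using hg)
    exact funext h1
  obtain ⟨g, hg⟩ := LinearMap.exists_leftInverse_of_injective lc hinj
  refine ⟨Matrix.of fun x k => g (Pi.single x 1) k, ?_⟩
  ext j k
  rw [Matrix.mul_apply]
  simp only [Matrix.of_apply]
  have h1 : lc (Pi.single j 1) = fun x : σ => N j x := by
    simp [lc, Fintype.linearCombination_apply, Pi.single_apply, ite_smul]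
  have h2 : (fun x : σ => N j x) = ∑ x, N j x • (Pi.single x (1 : ℂ) : σ → ℂ) := by
    ext y
    simp [Finset.sum_apply, Pi.single_apply]
  have h3 : g (fun x : σ => N j x) k = ∑ x, N j x * g (Pi.single x 1) k := by
    conv_lhs => rw [h2]
    simp [map_sum, Finset.sum_apply]
  rw [← h3, ← h1]
  have h4 := congrFun (LinearMap.congr_fun hg (Pi.single j 1)) k
  simp only [LinearMap.comp_apply, LinearMap.id_apply] at h4
  rw [h4, Matrix.one_apply, Pi.single_apply]
  simp only [eq_comm]

/-- the chain rule -/
private theorem chain {σ : Type} {m : ℕ} (f : Fin m → MvPolynomial σ ℂ) (i : σ)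
    (P : MvPolynomial (Fin m) ℂ) :
    pderiv i (aeval f P) = ∑ j, aeval f (pderiv j P) * pderiv i (f j) := by
  induction P using MvPolynomial.induction_on with
  | C a => simp
  | add p q hp hq =>
    simp only [map_add, hp, hq, add_mul, Finset.sum_add_distrib]
  | mul_X p k hp =>
    rw [map_mul, pderiv_mul, hp, aeval_X]
    simp only [pderiv_mul, map_add, map_mul, aeval_X, add_mul, Finset.sum_add_distrib]
    congr 1
    · rw [Finset.sum_mul]
      exact Finset.sum_congr rfl fun j _ => by ring
    · rw [Finset.sum_eq_single k]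
      · simp
      · intro j _ hj
        rw [pderiv_X_of_ne (Ne.symm hj), map_zero, mul_zero, zero_mul]
      · intro h
        exact absurd (Finset.mem_univ _) h

/-- a polynomial with all derivatives zero is constant -/
private theorem const {m : ℕ} (P : MvPolynomial (Fin m) ℂ) (h : ∀ j, pderiv j P = 0) :
    P = C (coeff 0 P) := by
  classical
  ext s
  rw [coeff_C]
  split_ifs with hs
  · rw [hs]
  · by_contra hc
    obtain ⟨j, hj⟩ : ∃ j, s j ≠ 0 := by
      by_contra h0
      push Not at h0
      exact hs (Finsupp.ext fun j => (h0 j).symm)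
    have h1 := coeff_pderiv (i := j) P (s - Finsupp.single j 1)
    have h2 : s - Finsupp.single j 1 + Finsupp.single j 1 = s := by
      refine tsub_add_cancel_of_le ?_
      rw [Finsupp.single_le_iff]
      omega
    rw [h j, h2, coeff_zero] at h1
    rcases mul_eq_zero.1 h1.symm with h3 | h3
    · exact hc h3
    · exact Nat.cast_add_one_ne_zero _ h3

theorem t_Jac : S_Jac := by
  classical
  intro σ _ m f z hz
  obtain ⟨R, hR⟩ := right_inv (Matrix.of fun j x => eval z (pderiv x (f j))) hz
  let M : Matrix (Fin m) σ (MvPolynomial σ ℂ) := Matrix.of fun j x => pderiv x (f j)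
  have hdet : (M * R.map (C : ℂ → MvPolynomial σ ℂ)).det ≠ 0 := by
    intro h0
    have h1 := congrArg (eval z) h0
    rw [RingHom.map_det, map_zero] at h1
    have h2 : (eval z).mapMatrix (M * R.map (C : ℂ → MvPolynomial σ ℂ)) = 1 := by
      rw [← hR]
      ext j k
      simp [M, Matrix.mul_apply, RingHom.mapMatrix_apply]
    rw [h2, Matrix.det_one] at h1
    exact one_ne_zero h1
  rw [algebraicIndependent_iff]
  have key : ∀ (n : ℕ) (P : MvPolynomial (Fin m) ℂ), P.totalDegree ≤ n → aeval f P = 0 →
      P = 0 := by
    intro n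
    induction n with
    | zero =>
      intro P hP h0
      have h1 := totalDegree_eq_zero_iff_eq_C.1 (Nat.le_zero.1 hP)
      rw [h1, aeval_C] at h0
      rw [h1, (map_eq_zero_iff _ (C_injective σ ℂ)).1 h0, C_0]
    | succ n ih =>
      intro P hP h0
      have hv : (fun j => aeval f (pderiv j P)) = 0 := by
        refine Matrix.eq_zero_of_vecMul_eq_zero hdet ?_
        rw [← Matrix.vecMul_vecMul]
        have h1 : Matrix.vecMul (fun j => aeval f (pderiv j P)) M = 0 := by
          ext1 i
          rw [Matrix.vecMul, dotProduct]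
          have h2 := chain f i P
          rw [h0, map_zero] at h2
          exact h2.symm
        rw [h1, Matrix.zero_vecMul]
      have hd : ∀ j, pderiv j P = 0 := by
        intro j
        refine ih _ ?_ (congrFun hv j)
        refine Finset.sup_le fun s hs => ?_
        rw [mem_support_iff, coeff_pderiv] at hs
        have h3 : s + Finsupp.single j 1 ∈ P.support := by
          rw [mem_support_iff]
          intro h4
          exact hs (by rw [h4, zero_mul])
        have h5 := (le_totalDegree h3).trans hP
        rw [Finsupp.sum_add_index' (fun _ => rfl) (fun _ _ _ => rfl),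
          Finsupp.sum_single_index rfl] at h5
        omega
      have h1 := const P hd
      rw [h1, aeval_C] at h0
      rw [h1, (map_eq_zero_iff _ (C_injective σ ℂ)).1 h0, C_0]
  exact fun P h0 => key _ P le_rfl h0

end Pool.Agent.Lib.MP_d01072_ag.Bp
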