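import Pool.Agent.Lib.MP_d01072_ag.Bp.Spec

/-!
MP_d01072_ag, package Bp, module KerP: solutions over a subfield.
-/

set_option autoImplicit false

namespace Pool.Agent.Lib.MP_d01072_ag.Bp

open MvPolynomial

/-- apply a linear map to the coefficients -/
private noncomputable def twk {K : Type} [Field K] {E : Subfield K} {σ : Type} (φ : K →ₗ[E] K)
    (f : MvPolynomial σ K) : MvPolynomial σ K := ∑ s ∈ f.support, monomial s (φ (coeff s f))

private theorem coeff_twk {K : Type} [Field K] {E : Subfield K} {σ : Type} (φ : K →ₗ[E] K)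
    (f : MvPolynomial σ K) (s : σ →₀ ℕ) : coeff s (twk φ f) = φ (coeff s f) := by
  classical
  rw [twk, coeff_sum]
  simp only [coeff_monomial]
  rw [Finset.sum_ite_eq']
  by_cases h : s ∈ f.support
  · rw [if_pos h]
  · rw [if_neg h, notMem_support_iff.1 h, map_zero]

private theorem eval_twk {K : Type} [Field K] {E : Subfield K} {σ : Type} [Fintype σ]
    (φ : K →ₗ[E] K) (f : MvPolynomial σ K) (a : σ → K) (ha : ∀ i, a i ∈ E) :
    eval a (twk φ f) = φ (eval a f) := by
  rw [twk, map_sum, eval_eq', map_sum]
  refine Finset.sum_congr rfl fun s _ => ?_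
  have hc : ∏ i, a i ^ s i ∈ E := E.prod_mem fun i _ => E.pow_mem (ha i) _
  rw [eval_monomial, Finsupp.prod_fintype _ _ fun i => pow_zero _]
  have h1 : coeff s f * ∏ i, a i ^ s i = (⟨∏ i, a i ^ s i, hc⟩ : E) • coeff s f := by
    rw [Subfield.smul_def, smul_eq_mul, mul_comm]
  rw [h1, map_smul, Subfield.smul_def, smul_eq_mul, mul_comm]

theorem t_KerP : S_KerP := by
  intro K _ E l n A m hA f hf
  classical
  set b := Module.Basis.ofVectorSpace E K with hb
  set F : Finset _ := f.support.biUnion fun s => (b.repr (coeff s f)).support with hF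
  set φ : Module.Basis.ofVectorSpaceIndex E K → K →ₗ[E] K := fun i =>
    (Algebra.linearMap E K).comp (b.coord i) with hφ
  have hsum : f = ∑ i ∈ F, b i • twk (φ i) f := by
    ext s
    rw [coeff_sum]
    have h1 : ∀ i ∈ F, coeff s (b i • twk (φ i) f) = b.repr (coeff s f) i • b i := by
      intro i _
      rw [coeff_smul, coeff_twk, smul_eq_mul, Subfield.smul_def, smul_eq_mul, mul_comm]
      rfl
    rw [Finset.sum_congr rfl h1]
    by_cases hs : s ∈ f.support
    · have h2 : (b.repr (coeff s f)).support ⊆ F := fun i hi => by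
        rw [hF, Finset.mem_biUnion]
        exact ⟨s, hs, hi⟩
      have h3 := b.linearCombination_repr (coeff s f)
      rw [Finsupp.linearCombination_apply,
        Finsupp.sum_of_support_subset (b.repr (coeff s f)) h2 (fun i a => a • b i)
          fun i _ => zero_smul _ _] at h3
      exact h3.symm
    · rw [notMem_support_iff.1 hs, map_zero]
      simp
  rw [hsum]
  refine Submodule.sum_mem _ fun i _ => Submodule.smul_mem _ _ (Submodule.subset_span ?_)
  refine ⟨⟨?_, fun a ha => ?_⟩, fun s => ?_⟩
  · intro s hs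
    rw [coeff_twk] at hs
    exact hf.1 s fun h0 => hs (by rw [h0, map_zero])
  · rw [eval_twk _ _ _ (hA a ha), hf.2 a ha, map_zero]
  · rw [coeff_twk]
    exact (b.coord i (coeff s f)).2

end Pool.Agent.Lib.MP_d01072_ag.Bp
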