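import Pool.Agent.Lib.MP_d01072_ag.Bp.Spec

/-!
MP_d01072_ag, package Bp, module Key: the key lemma.
-/

set_option autoImplicit false

namespace Pool.Agent.Lib.MP_d01072_ag.Bp

open MvPolynomial

theorem t_Key (h1 : Tf.S_Stz) (h2 : S_Cmb) (h3 : S_Gp) : S_Key := by
  intro n a d p l m E r h mJ c κ J P hn hl hla hκ hsz hCm hK1 hr1 hr2 hE hJE hJ hPr hPh
  by_contra hcon
  push Not at hcon
  obtain ⟨K, _, _, _, v, hv⟩ := h3 n d p c r h fun Q hQ => by
    obtain ⟨T, hT1, hT2, hT3⟩ := hcon Q hQ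
    exact ⟨T, hT2, hT1, hT3⟩
  have hsym : ∀ (σ : Equiv.Perm (Fin d)) (i : Fin d → Fin (n + 1)),
      ∑ j, ∏ t, v j (c t) (i (σ t)) = ∑ j, ∏ t, v j (c t) (i t) := by
    intro σ i
    have h4 := (hv (X (fun t => i (σ t)) - X i)).2 (by
      rw [map_sub, aeval_X, aeval_X, sub_eq_zero]
      unfold par
      refine Finset.sum_congr rfl fun j _ => ?_
      exact Equiv.prod_comp σ (fun t => (X (j, i t) : MvPolynomial (Fin h × Fin (n + 1)) ℂ)))
    rw [map_sub, aeval_X, aeval_X, sub_eq_zero] at h4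
    exact h4
  rcases h2 K n a d p l m c κ r v hn hl hla hκ hsz hCm hK1 hr1 hr2 hsym with
    ⟨u, hu⟩ | ⟨G, hG1, hG2⟩
  · apply hPh
    rw [← hv P]
    have h5 : (fun i : Fin d → Fin (n + 1) => ∑ j, ∏ t, v j (c t) (i t)) =
        fun i => aeval (fun q : Fin r × Fin (n + 1) => u q.1 q.2) (par n d r i) := by
      funext i
      rw [hu i]
      simp only [par, map_sum, map_prod, aeval_X]
    rw [h5]
    have h6 : aeval (fun i : Fin d → Fin (n + 1) =>
        aeval (fun q : Fin r × Fin (n + 1) => u q.1 q.2) (par n d r i)) P =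
        aeval (fun q : Fin r × Fin (n + 1) => u q.1 q.2) (aeval (par n d r) P) := by
      rw [← AlgHom.comp_apply, comp_aeval]
    rw [h6, hPr, map_zero]
  · have h5 : AlgebraicIndependent ℂ
        (fun j => (fun i : Fin d → Fin (n + 1) => ∑ j, ∏ t, v j (c t) (i t)) (J j)) := by
      rw [algebraicIndependent_iff] at hJ ⊢
      intro Q hQ
      apply hJ
      have h6 := (hv (rename J Q)).1 (by
        rw [aeval_rename]
        exact hQ)
      rw [aeval_rename] at h6
      exact h6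
    have h6 : mJ ≤ G.card := h1 ℂ K mJ _ G h5 fun j => hG2 (J j)
    have h7 : 2 * Cc n a * ((n + 1) * r) ≤ 2 * Cc n a * (mJ + E) := Nat.mul_le_mul_left _ hJE
    have h8 : 2 * Cc n a * mJ ≤ 2 * Cc n a * G.card := Nat.mul_le_mul_left _ h6
    rw [mul_add] at h7
    rw [← mul_assoc] at h7
    omega

end Pool.Agent.Lib.MP_d01072_ag.Bp
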