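import Pool.Agent.Lib.MP_d01072_ag.Bp.Spec

/-!
MP_d01072_ag, package Bp, module NumP: estimates for products of binomial coefficients.
-/

set_option autoImplicit false

namespace Pool.Agent.Lib.MP_d01072_ag.Bp

open Finset

private theorem asc (n x : ℕ) : (x + n).choose n * n.factorial = ∏ i ∈ range n, (x + 1 + i) := by
  rw [← Nat.ascFactorial_eq_prod_range, Nat.ascFactorial_eq_factorial_mul_choose, mul_comm]

private theorem ascR (n x : ℕ) :
    ((x + n).choose n : ℝ) * (n.factorial : ℝ) = ∏ i ∈ range n, ((x : ℝ) + 1 + i) := by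
  exact_mod_cast asc n x

private theorem facpos (n : ℕ) : (0 : ℝ) < (n.factorial : ℝ) := by
  exact_mod_cast n.factorial_pos

/-- one group, lower bound -/
private theorem one (n δ b : ℕ) (ε : ℝ) (h0 : 0 ≤ ε) (h1 : ε ≤ 1) (h : (1 - ε) * δ ≤ b) :
    (1 - ε) ^ n * ((δ + n).choose n : ℝ) ≤ ((b + n).choose n : ℝ) := by
  have h2 : (1 - ε) ^ n * ((δ + n).choose n : ℝ) * (n.factorial : ℝ) ≤
      ((b + n).choose n : ℝ) * (n.factorial : ℝ) := by
    rw [mul_assoc, ascR, ascR]
    have h3 : (1 - ε) ^ n = ∏ _i ∈ range n, (1 - ε) := by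
      rw [prod_const, card_range]
    rw [h3, ← prod_mul_distrib]
    refine prod_le_prod (fun i _ => mul_nonneg (by linarith) (by positivity)) fun i _ => ?_
    have h4 : (0 : ℝ) ≤ ε * (1 + i) := by positivity
    nlinarith
  exact le_of_mul_le_mul_right h2 (facpos n)

/-- several groups, lower bound -/
private theorem many (n l : ℕ) (δ b : Fin l → ℕ) (ε : ℝ) (h0 : 0 ≤ ε) (h1 : ε ≤ 1)
    (h : ∀ k, (1 - ε) * δ k ≤ b k) :
    (1 - (n : ℝ) * l * ε) * (Nf n δ : ℝ) ≤ (Nf n b : ℝ) := by
  have h2 : ((1 - ε) ^ n) ^ l * (Nf n δ : ℝ) ≤ (Nf n b : ℝ) := by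
    unfold Nf
    rw [Nat.cast_prod, Nat.cast_prod]
    have h3 : ((1 - ε) ^ n) ^ l = ∏ _k : Fin l, (1 - ε) ^ n := by
      rw [prod_const, card_univ, Fintype.card_fin]
    rw [h3, ← prod_mul_distrib]
    refine prod_le_prod (fun k _ => mul_nonneg (pow_nonneg (by linarith) _) (Nat.cast_nonneg _))
      fun k _ => one n (δ k) (b k) ε h0 h1 (h k)
  have h4 : 1 - (n : ℝ) * l * ε ≤ ((1 - ε) ^ n) ^ l := by
    have h5 := one_add_mul_le_pow (show (-2 : ℝ) ≤ -ε by linarith) (n * l)
    rw [← pow_mul]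
    push_cast at h5
    have h6 : (1 : ℝ) + -ε = 1 - ε := by ring
    rw [h6] at h5
    linarith
  exact (mul_le_mul_of_nonneg_right h4 (Nat.cast_nonneg _)).trans h2

private theorem pw (y : ℝ) (hy : 0 ≤ y) (n : ℕ) (h : 2 * n * y ≤ 1) :
    ∀ j : ℕ, j ≤ n → (1 + y) ^ j ≤ 1 + 2 * j * y := by
  intro j
  induction j with
  | zero => intro _; simp
  | succ j ih =>
    intro hj
    have h1 := ih (by omega)
    have h2 : (j : ℝ) ≤ n := by exact_mod_cast (by omega : j ≤ n)
    have h3 : 2 * j * y ≤ 1 := by nlinarith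
    rw [pow_succ]
    push_cast
    have h4 : (1 + y) ^ j * (1 + y) ≤ (1 + 2 * j * y) * (1 + y) :=
      mul_le_mul_of_nonneg_right h1 (by linarith)
    have h5 : 2 * j * y * y ≤ 1 * y := mul_le_mul_of_nonneg_right h3 hy
    nlinarith

theorem t_NumP : S_NumP := by
  intro n l m δ hn hm hδ
  have hmR : (1 : ℝ) ≤ m := by exact_mod_cast hm
  have hδR : ∀ k, (m : ℝ) ≤ δ k := fun k => by exact_mod_cast hδ k
  refine ⟨?_, ?_, ?_, ?_⟩
  · intro K hK
    have hKR : (1 : ℝ) ≤ K := by exact_mod_cast hK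
    have hε0 : (0 : ℝ) ≤ 1 / K + 1 / m := by positivity
    rcases Nat.eq_zero_or_pos l with hl | hl
    · subst hl
      simp [Nf]
    · by_cases hε : (1 : ℝ) / K + 1 / m ≤ 1
      · refine many n l δ _ _ hε0 hε fun k => ?_
        have hK2 : 2 ≤ K := by
          by_contra h
          have hK1 : K = 1 := by omega
          subst hK1
          have : (0 : ℝ) < 1 / m := by positivity
          norm_num at hε
          linarith
        have h1 : 1 ≤ δ k := le_trans hm (hδ k)
        have h2 : δ k / K ≤ δ k - 1 := by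
          have h3 : δ k / K ≤ δ k / 2 := Nat.div_le_div_left hK2 (by norm_num)
          omega
        have h3 : ((δ k - 1 - δ k / K : ℕ) : ℝ) = δ k - 1 - ((δ k / K : ℕ) : ℝ) := by
          rw [Nat.cast_sub h2, Nat.cast_sub h1, Nat.cast_one]
        rw [h3]
        have h4 : ((δ k / K : ℕ) : ℝ) ≤ δ k / K := Nat.cast_div_le
        have h5 : (1 : ℝ) ≤ δ k * (1 / m) := by
          rw [mul_one_div, le_div_iff₀ (by linarith), one_mul]
          exact hδR k
        have h6 : (δ k : ℝ) / K = δ k * (1 / K) := by ring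
        rw [h6] at h4
        nlinarith
      · have h1 : (1 : ℝ) ≤ n * l := by
          have : 1 ≤ n * l := Nat.mul_pos hn hl
          exact_mod_cast this
        have h2 : 1 - (n : ℝ) * l * (1 / K + 1 / m) ≤ 0 := by
          push Not at hε
          nlinarith
        exact (mul_nonpos_of_nonpos_of_nonneg h2 (Nat.cast_nonneg _)).trans (Nat.cast_nonneg _)
  · unfold Nf
    have h1 : (8 * n) ^ (n * l) = ∏ _k : Fin l, (8 * n) ^ n := by
      rw [prod_const, card_univ, Fintype.card_fin, ← pow_mul]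
    rw [h1, ← prod_mul_distrib]
    refine prod_le_prod (fun _ _ => Nat.zero_le _) fun k _ => ?_
    refine Nat.le_of_mul_le_mul_right ?_ n.factorial_pos
    rw [mul_assoc, asc, asc]
    have h2 : (8 * n) ^ n = ∏ _i ∈ range n, (8 * n) := by
      rw [prod_const, card_range]
    rw [h2, ← prod_mul_distrib]
    refine prod_le_prod (fun _ _ => Nat.zero_le _) fun i _ => ?_
    have h3 : δ k < 8 * n * (δ k / (8 * n) + 1) := Nat.lt_mul_div_succ _ (by omega)
    have h4 : i ≤ 8 * n * i := Nat.le_mul_of_pos_left _ (by omega)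
    calc δ k + 1 + i ≤ 8 * n * (δ k / (8 * n) + 1) + 8 * n * i := by omega
      _ = 8 * n * (δ k / (8 * n) + 1 + i) := by ring
  · have h1 : 1 / (m : ℝ) ≤ 1 := by
      rw [div_le_iff₀ (by linarith)]
      linarith
    have h2 := many n l δ (fun k => δ k - 1) (1 / m) (by positivity) h1 fun k => by
      have h3 : 1 ≤ δ k := le_trans hm (hδ k)
      have h5 : (1 : ℝ) ≤ δ k * (1 / m) := by
        rw [mul_one_div, le_div_iff₀ (by linarith), one_mul]
        exact hδR k
      rw [Nat.cast_sub h3, Nat.cast_one]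
      nlinarith
    have h3 : (n : ℝ) * l / m = n * l * (1 / m) := by ring
    rw [h3]
    exact h2
  · intro K e hK hKe
    have hK0 : (0 : ℝ) < K := by
      have : 0 < K := by omega
      exact_mod_cast this
    obtain ⟨s, hs⟩ : ∃ s, s = ∑ k, δ k := ⟨_, rfl⟩
    rw [← hs] at hKe ⊢
    have hKe' : (K : ℝ) * e ≤ s := by exact_mod_cast hKe
    have h1 : ((s + e + n).choose n : ℝ) * (n.factorial : ℝ) ≤
        (1 + 2 * n / K) * ((s + n).choose n : ℝ) * (n.factorial : ℝ) := by
      rw [mul_assoc, ascR, ascR]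
      have h2 : ∏ i ∈ range n, (((s + e : ℕ) : ℝ) + 1 + i) ≤
          (1 + 1 / K) ^ n * ∏ i ∈ range n, ((s : ℝ) + 1 + i) := by
        have h3 : (1 + 1 / (K : ℝ)) ^ n = ∏ _i ∈ range n, (1 + 1 / (K : ℝ)) := by
          rw [prod_const, card_range]
        rw [h3, ← prod_mul_distrib]
        refine prod_le_prod (fun i _ => by positivity) fun i _ => ?_
        have h4 : (e : ℝ) ≤ s * (1 / K) := by
          rw [mul_one_div, le_div_iff₀ hK0]
          linarith
        have h5 : (0 : ℝ) ≤ 1 / K * (1 + i) := by positivity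
        push_cast
        nlinarith
      have h6 : (1 + 1 / (K : ℝ)) ^ n ≤ 1 + 2 * n / K := by
        have h7 := pw (1 / (K : ℝ)) (by positivity) n (by
          have : (2 * n : ℝ) ≤ K := by exact_mod_cast hK
          rw [mul_one_div, div_le_iff₀ hK0]
          linarith) n le_rfl
        have h8 : (2 * n : ℝ) * (1 / K) = 2 * n / K := by ring
        rw [h8] at h7
        exact h7
      exact h2.trans (mul_le_mul_of_nonneg_right h6 (prod_nonneg fun i _ => by positivity))
    exact le_of_mul_le_mul_right h1 (facpos n)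

end Pool.Agent.Lib.MP_d01072_ag.Bp
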