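import Pool.Agent.Lib.MP_d01072_ag.Bp.Spec

/-!
MP_d01072_ag, package Bp: the module NumR (limits for `d → ∞`).
-/

set_option autoImplicit false

namespace Pool.Agent.Lib.MP_d01072_ag.Bp

private lemma nr_Cc_pos (n a : ℕ) (hn : 1 ≤ n) : 1 ≤ Cc n a :=
  Nat.one_le_pow _ _ (by omega)

private lemma nr_K0_pos (n a : ℕ) (hn : 1 ≤ n) (ha : 1 ≤ a) : 1 ≤ K0 n a := by
  have h1 : 0 < n ^ 2 := by positivity
  have h2 : 0 < a ^ 2 := by positivity
  have h3 := nr_Cc_pos n a hn
  have : 0 < K0 n a := by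
    unfold K0
    positivity
  exact this

private lemma nr_K1 (n a : ℕ) (hn : 1 ≤ n) : 16 * n ≤ K1 n a := by
  have h3 := nr_Cc_pos n a hn
  unfold K1
  exact Nat.le_mul_of_pos_right _ h3

/-- comparison of the quotient of binomial coefficients with a power -/
private lemma nr_ratio (S d : ℕ) (h : S ≤ d) (n : ℕ) :
    S ^ n * (d + n).choose n ≤ d ^ n * (S + n).choose n := by
  induction n with
  | zero => simp
  | succ n ih =>
    have e1 : (d + (n + 1)).choose (n + 1) * (n + 1) = (d + n + 1) * (d + n).choose n := by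
      exact (Nat.add_one_mul_choose_eq (d + n) n).symm
    have e2 : (S + (n + 1)).choose (n + 1) * (n + 1) = (S + n + 1) * (S + n).choose n := by
      exact (Nat.add_one_mul_choose_eq (S + n) n).symm
    have h1 : S * (d + n + 1) ≤ d * (S + n + 1) := by nlinarith
    refine Nat.le_of_mul_le_mul_right (c := n + 1) ?_ (Nat.succ_pos n)
    calc S ^ (n + 1) * (d + (n + 1)).choose (n + 1) * (n + 1)
        = S ^ (n + 1) * ((d + (n + 1)).choose (n + 1) * (n + 1)) := by ring
      _ = (S ^ n * (d + n).choose n) * (S * (d + n + 1)) := by rw [e1]; ring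
      _ ≤ (d ^ n * (S + n).choose n) * (d * (S + n + 1)) := Nat.mul_le_mul ih h1
      _ = d ^ (n + 1) * ((S + (n + 1)).choose (n + 1) * (n + 1)) := by rw [e2]; ring
      _ = d ^ (n + 1) * (S + (n + 1)).choose (n + 1) * (n + 1) := by ring

private lemma nr_quarter (S d n : ℕ) (hn : 1 ≤ n) (hd : 1 ≤ d) (h : S ≤ d)
    (h4 : 4 * n * d ≤ 4 * n * S + d) : 3 * (d + n).choose n ≤ 4 * (S + n).choose n := by
  have hr := nr_ratio S d h n
  have hdR : (0 : ℝ) < d := by exact_mod_cast hd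
  have hnR : (1 : ℝ) ≤ n := by exact_mod_cast hn
  have hrR : (S : ℝ) ^ n * ((d + n).choose n : ℝ) ≤ (d : ℝ) ^ n * ((S + n).choose n : ℝ) := by
    exact_mod_cast hr
  have h4R : 4 * (n : ℝ) * d ≤ 4 * n * S + d := by exact_mod_cast h4
  have hS0 : (0 : ℝ) ≤ S := Nat.cast_nonneg _
  have hlam : (3 / 4 : ℝ) ≤ ((S : ℝ) / d) ^ n := by
    have hb := one_add_mul_le_pow (a := (S : ℝ) / d - 1)
      (by have : (0 : ℝ) ≤ (S : ℝ) / d := by positivity
          linarith) n
    have hq : (-(1 / 4) : ℝ) ≤ n * ((S : ℝ) / d - 1) := by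
      have : (n : ℝ) * ((S : ℝ) / d - 1) = (n * S - n * d) / d := by
        field_simp
      rw [this, le_div_iff₀ hdR]
      linarith
    have e : 1 + ((S : ℝ) / d - 1) = (S : ℝ) / d := by ring
    rw [e] at hb
    linarith
  have hC : (0 : ℝ) ≤ ((d + n).choose n : ℝ) := Nat.cast_nonneg _
  have h5 : ((S : ℝ) / d) ^ n * ((d + n).choose n : ℝ) ≤ ((S + n).choose n : ℝ) := by
    rw [div_pow, div_mul_eq_mul_div, div_le_iff₀ (by positivity)]
    linarith
  have h6 : (3 / 4 : ℝ) * ((d + n).choose n : ℝ) ≤ ((S + n).choose n : ℝ) :=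
    le_trans (mul_le_mul_of_nonneg_right hlam hC) h5
  have h7 : (3 : ℝ) * ((d + n).choose n : ℝ) ≤ 4 * ((S + n).choose n : ℝ) := by linarith
  exact_mod_cast h7

private lemma nr_four (n E d q r M : ℕ) (hr : (n + 1) * r ≤ (d + n).choose n + E)
    (hM : d + n ≤ M * (q + 1)) (hq : (n + 1).factorial * (M ^ n + E) ≤ q) :
    r < (q + n + 1).choose (n + 1) := by
  by_contra hcon
  rw [not_lt] at hcon
  have h1 : (q + 1) ^ (n + 1) ≤ (n + 1).factorial * (q + n + 1).choose (n + 1) := by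
    have h := Nat.pow_sub_le_descFactorial (q + n + 1) (n + 1)
    rw [Nat.descFactorial_eq_factorial_mul_choose] at h
    have e : q + n + 1 + 1 - (n + 1) = q + 1 := by omega
    rw [e] at h
    exact h
  have h2 : (d + n).choose n ≤ M ^ n * (q + 1) ^ n := by
    calc (d + n).choose n ≤ (d + n) ^ n := Nat.choose_le_pow _ _
      _ ≤ (M * (q + 1)) ^ n := Nat.pow_le_pow_left hM n
      _ = M ^ n * (q + 1) ^ n := mul_pow _ _ _
  have h3 : 1 ≤ (q + 1) ^ n := Nat.one_le_pow _ _ (Nat.succ_pos q)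
  have h4 : r ≤ (M ^ n + E) * (q + 1) ^ n := by
    have : r ≤ (n + 1) * r := Nat.le_mul_of_pos_left _ (Nat.succ_pos n)
    nlinarith
  have h5 : (q + 1) ^ n * (q + 1) ≤ (q + 1) ^ n * ((n + 1).factorial * (M ^ n + E)) := by
    calc (q + 1) ^ n * (q + 1) = (q + 1) ^ (n + 1) := (pow_succ _ _).symm
      _ ≤ (n + 1).factorial * (q + n + 1).choose (n + 1) := h1
      _ ≤ (n + 1).factorial * r := Nat.mul_le_mul_left _ hcon
      _ ≤ (n + 1).factorial * ((M ^ n + E) * (q + 1) ^ n) := Nat.mul_le_mul_left _ h4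
      _ = (q + 1) ^ n * ((n + 1).factorial * (M ^ n + E)) := by ring
  have h6 := Nat.le_of_mul_le_mul_left h5 h3
  omega

private lemma nr_sum {l : ℕ} (n : ℕ) (δ : Fin l → ℕ) :
    8 * n * ∑ k, δ k ≤ 8 * n * (∑ k, (δ k - 1 - δ k / (8 * n))) + 8 * n * l + ∑ k, δ k := by
  have h : ∀ k, 8 * n * δ k ≤ 8 * n * (δ k - 1 - δ k / (8 * n)) + 8 * n + δ k := by
    intro k
    have h1 : 8 * n * (δ k / (8 * n)) ≤ δ k := Nat.mul_div_le _ _
    have h2 : δ k ≤ (δ k - 1 - δ k / (8 * n)) + 1 + δ k / (8 * n) := by omega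
    calc 8 * n * δ k ≤ 8 * n * ((δ k - 1 - δ k / (8 * n)) + 1 + δ k / (8 * n)) :=
          Nat.mul_le_mul_left _ h2
      _ = 8 * n * (δ k - 1 - δ k / (8 * n)) + 8 * n + 8 * n * (δ k / (8 * n)) := by ring
      _ ≤ _ := Nat.add_le_add_left h1 _
  calc 8 * n * ∑ k, δ k = ∑ k, 8 * n * δ k := Finset.mul_sum _ _ _
    _ ≤ ∑ k, (8 * n * (δ k - 1 - δ k / (8 * n)) + 8 * n + δ k) :=
        Finset.sum_le_sum fun k _ => h k
    _ = _ := by
        rw [Finset.sum_add_distrib, Finset.sum_add_distrib, ← Finset.mul_sum]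
        simp [mul_comm]

theorem t_NumR : S_NumR := by
  intro n a E hn ha
  have hCc := nr_Cc_pos n a hn
  have hK0 := nr_K0_pos n a hn ha
  have hK1 := nr_K1 n a hn
  set M : ℕ := a * K0 n a + n with hM
  set F : ℕ := (n + 1).factorial * (M ^ n + E) with hF
  refine ⟨a * Cm n a + a * (2 * Cc n a * E + 1) + a * K0 n a * F + 16 * n * a + 2 * E + 1,
    by omega, ?_⟩
  intro d l r δ hD hl hla hδ hs hK hr
  have hD1 : a * Cm n a ≤ d := by omega
  have hD2 : a * (2 * Cc n a * E + 1) ≤ d := by omega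
  have hD3 : a * K0 n a * F ≤ d := by omega
  have hD4 : 16 * n * a ≤ d := by omega
  have hD5 : 2 * E ≤ d := by omega
  have hD6 : 1 ≤ d := by omega
  clear hD
  set s : ℕ := ∑ k, δ k with hsdef
  obtain ⟨t, ht⟩ : ∃ t, d = s + t := ⟨d - s, by omega⟩
  have hts : d - s = t := by omega
  rw [hts] at hK ⊢
  refine ⟨fun k => Nat.div_le_of_le_mul (hδ k), (Nat.le_div_iff_mul_le ha).2 (by
    rw [Nat.mul_comm]; exact hD1), ?_, ?_, ?_, ?_⟩
  · have : K1 n a * t + t ≤ s + t := by
      rw [← ht]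
      calc K1 n a * t + t = (K1 n a + 1) * t := by ring
        _ ≤ d := hK
    omega
  · have haK : 0 < a * K0 n a := Nat.mul_pos ha hK0
    refine nr_four n E d _ r M hr ?_ ?_
    · rw [Nat.div_div_eq_div_mul]
      have h1 : d < a * K0 n a * (d / (a * K0 n a) + 1) := by
        have := Nat.lt_mul_div_succ d haK
        exact this
      rw [hM]
      nlinarith [Nat.zero_le (d / (a * K0 n a))]
    · rw [Nat.div_div_eq_div_mul, Nat.le_div_iff_mul_le haK]
      calc (n + 1).factorial * (M ^ n + E) * (a * K0 n a) = a * K0 n a * F := by rw [hF]; ring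
        _ ≤ d := hD3
  · set S : ℕ := ∑ k, (δ k - 1 - δ k / (8 * n)) with hS
    have hSs : S ≤ s := Finset.sum_le_sum fun k _ => (Nat.sub_le _ _).trans (Nat.sub_le _ _)
    have hsum := nr_sum n δ
    rw [← hsdef, ← hS] at hsum
    have h16 : 16 * n * t ≤ d := by
      calc 16 * n * t ≤ (K1 n a + 1) * t := Nat.mul_le_mul_right _ (by omega)
        _ ≤ d := hK
    have hl8 : 16 * n * l ≤ d := le_trans (Nat.mul_le_mul_left _ hla) hD4
    have h4 : 4 * n * d ≤ 4 * n * S + d := by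
      have e1 : 8 * n * d = 8 * n * s + 8 * n * t := by rw [ht]; ring
      have e2 : 16 * n * t = 2 * (8 * n * t) := by ring
      have e3 : 16 * n * l = 2 * (8 * n * l) := by ring
      have e4 : 8 * n * d = 2 * (4 * n * d) := by ring
      have e5 : 8 * n * S = 2 * (4 * n * S) := by ring
      omega
    have hq := nr_quarter S d n hn hD6 (by omega) h4
    have hC : d + 1 ≤ (d + n).choose n := by
      rw [← Nat.choose_symm_add]
      calc d + 1 = (d + 1).choose d := by simp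
        _ ≤ (d + n).choose d := Nat.choose_le_choose d (by omega)
    have hr2 : 2 * r ≤ (d + n).choose n + E := le_trans (Nat.mul_le_mul_right _ (by omega)) hr
    omega
  · have : 2 * Cc n a * E + 1 ≤ d / a := (Nat.le_div_iff_mul_le ha).2 (by
      rw [Nat.mul_comm]; exact hD2)
    omega

end Pool.Agent.Lib.MP_d01072_ag.Bp
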