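import Pool.Agent.Lib.MP_d01072_ag.Bp.Spec

/-!
MP_d01072_ag, package Bp: module Orth.
-/

set_option autoImplicit false

namespace Pool.Agent.Lib.MP_d01072_ag.Bp

open MvPolynomial

/-- two subspaces of `K^ι` which are orthogonal for a nondegenerate diagonal form -/
private theorem orth_aux {K : Type} [Field K] {ι : Type} [Fintype ι]
    (lam : ι → K) (hlam : ∀ i, lam i ≠ 0) (V W : Submodule K (ι → K))
    (h : ∀ v ∈ V, ∀ w ∈ W, ∑ i, lam i * (v i * w i) = 0) :
    Module.finrank K V + Module.finrank K W ≤ Fintype.card ι := by
  classical
  let φ : (ι → K) →ₗ[K] Module.Dual K (ι → K) :=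
    { toFun := fun v =>
        { toFun := fun w => ∑ i, lam i * (v i * w i)
          map_add' := fun w w' => by
            rw [← Finset.sum_add_distrib]
            refine Finset.sum_congr rfl fun i _ => ?_
            rw [Pi.add_apply]
            ring
          map_smul' := fun c w => by
            rw [RingHom.id_apply, smul_eq_mul, Finset.mul_sum]
            refine Finset.sum_congr rfl fun i _ => ?_
            rw [Pi.smul_apply, smul_eq_mul]
            ring }
      map_add' := fun v v' => by
        refine LinearMap.ext fun w => ?_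
        change ∑ i, lam i * ((v + v') i * w i) =
          ∑ i, lam i * (v i * w i) + ∑ i, lam i * (v' i * w i)
        rw [← Finset.sum_add_distrib]
        refine Finset.sum_congr rfl fun i _ => ?_
        rw [Pi.add_apply]
        ring
      map_smul' := fun c v => by
        refine LinearMap.ext fun w => ?_
        change ∑ i, lam i * ((c • v) i * w i) = c * ∑ i, lam i * (v i * w i)
        rw [Finset.mul_sum]
        refine Finset.sum_congr rfl fun i _ => ?_
        rw [Pi.smul_apply, smul_eq_mul]
        ring }
  have hφ : ∀ v w, φ v w = ∑ i, lam i * (v i * w i) := fun v w => rfl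
  have hinj : Function.Injective φ := by
    rw [injective_iff_map_eq_zero]
    intro v hv
    funext i
    have h1 : φ v (Pi.single i 1) = 0 := by rw [hv]; rfl
    rw [hφ, Finset.sum_eq_single i] at h1
    · rw [Pi.single_eq_same, mul_one] at h1
      exact (mul_eq_zero.1 h1).resolve_left (hlam i)
    · intro j _ hj
      rw [Pi.single_eq_of_ne hj, mul_zero, mul_zero]
    · intro hi
      exact absurd (Finset.mem_univ i) hi
  have hle : V.map φ ≤ W.dualAnnihilator := by
    rintro _ ⟨v, hv, rfl⟩
    rw [Submodule.mem_dualAnnihilator]
    intro w hw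
    rw [hφ]
    exact h v hv w hw
  have h1 : Module.finrank K (V.map φ) = Module.finrank K V :=
    (Submodule.equivMapOfInjective φ hinj V).finrank_eq.symm
  have h2 := Submodule.finrank_mono hle
  have h3 := Subspace.finrank_add_finrank_dualAnnihilator_eq W
  rw [Module.finrank_fintype_fun_eq_card] at h3
  omega

theorem t_Orth (h1 : S_Prd) : S_Orth := by
  intro K _ l n B q b lam hlam hq hb
  have hcard : Fintype.card {x // x ∈ B} = B.card := Fintype.card_coe B
  rw [← hcard]
  unfold Hf
  refine orth_aux (fun x : {x // x ∈ B} => lam x) (fun x => hlam x x.2) _ _ ?_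
  rintro _ ⟨F, hF, rfl⟩ _ ⟨G, hG, rfl⟩
  have h2 : F * G ∈ Mh K n q := by
    have h3 := (h1 K l n b (fun k => q k - b k)).1
    have h4 : b + (fun k => q k - b k) = q := by
      funext k
      simp only [Pi.add_apply]
      have := hb k
      omega
    rw [h4] at h3
    rw [← h3]
    exact Submodule.mul_mem_mul hF hG
  have h5 := hq _ h2
  rw [← Finset.sum_coe_sort B (fun x => lam x * eval x (F * G))] at h5
  rw [← h5]
  refine Finset.sum_congr rfl fun x _ => ?_
  rw [map_mul]
  rfl

end Pool.Agent.Lib.MP_d01072_ag.Bp
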