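import Pool.Agent.Lib.MP_d01072_ag.Bp.Spec

/-! MP_d01072_ag, package Bp: the number of parameters of a set of points. -/

set_option autoImplicit false

namespace Pool.Agent.Lib.MP_d01072_ag.Bp

open MvPolynomial

private lemma par_lt (m w v : ℕ) (h : (m + w).choose w < (m + v).choose v) : w < v := by
  by_contra hvw
  rw [not_lt] at hvw
  rw [← Nat.choose_symm_add, ← Nat.choose_symm_add] at h
  exact absurd (Nat.choose_le_choose m (Nat.add_le_add_left hvw m)) (not_le.2 h)

private lemma par_empty {K : Type} [Field K] {l n : ℕ} (b : Fin l → ℕ) :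
    Hf (∅ : Finset (Pt K l n)) b = 0 := by
  have : IsEmpty {x : Pt K l n // x ∈ (∅ : Finset (Pt K l n))} :=
    ⟨fun x => absurd x.2 (Finset.notMem_empty _)⟩
  have h : Subsingleton ((Mh K n b).map (ev (∅ : Finset (Pt K l n)))) :=
    ⟨fun x y => Subtype.ext (Subsingleton.elim _ _)⟩
  unfold Hf
  exact Module.finrank_zero_of_subsingleton

/-- the coordinates of a point -/
private lemma par_crd (h1 : Tf.S_Acl) (k K : Type) [Field k] [Field K] [Algebra k K] (l n : ℕ)
    (hl : 1 ≤ l) (x : Pt K l n) (hx : Nrm x) :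
    ∃ G : Finset K, (∀ q, x q ∈ Tf.Cl k (G : Set K)) ∧ G.card ≤ n * l ∧ (Dgl x → G.card ≤ n) := by
  classical
  choose i hi using hx
  have hs : ∀ S : Set K, S ⊆ (Tf.Cl k S : Set K) := fun S => (h1 k K S S).1
  by_cases hd : Dgl x
  · have hc : ((Finset.univ.erase (i ⟨0, hl⟩)).image fun j => x (⟨0, hl⟩, j)).card ≤ n := by
      refine Finset.card_image_le.trans ?_
      rw [Finset.card_erase_of_mem (Finset.mem_univ _), Finset.card_univ, Fintype.card_fin]
      exact le_refl _
    refine ⟨(Finset.univ.erase (i ⟨0, hl⟩)).image fun j => x (⟨0, hl⟩, j), ?_,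
      hc.trans (Nat.le_mul_of_pos_right n hl), fun _ => hc⟩
    rintro ⟨k', j⟩
    rw [hd k' ⟨0, hl⟩ j]
    by_cases hj : j = i ⟨0, hl⟩
    · rw [hj, (hi ⟨0, hl⟩).1]
      exact one_mem _
    · apply hs
      exact Finset.mem_coe.2
        (Finset.mem_image.2 ⟨j, Finset.mem_erase.2 ⟨hj, Finset.mem_univ _⟩, rfl⟩)
  · refine ⟨Finset.univ.biUnion fun k' => (Finset.univ.erase (i k')).image fun j => x (k', j),
      ?_, ?_, fun h => absurd h hd⟩
    · rintro ⟨k', j⟩
      by_cases hj : j = i k'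
      · rw [hj, (hi k').1]
        exact one_mem _
      · apply hs
        rw [Finset.mem_coe, Finset.mem_biUnion]
        exact ⟨k', Finset.mem_univ _,
          Finset.mem_image.2 ⟨j, Finset.mem_erase.2 ⟨hj, Finset.mem_univ _⟩, rfl⟩⟩
    · refine Finset.card_biUnion_le.trans ?_
      calc ∑ k' : Fin l, ((Finset.univ.erase (i k')).image fun j => x (k', j)).card
          ≤ ∑ _k' : Fin l, n := by
            refine Finset.sum_le_sum fun k' _ => Finset.card_image_le.trans ?_
            rw [Finset.card_erase_of_mem (Finset.mem_univ _), Finset.card_univ, Fintype.card_fin]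
            exact le_refl _
        _ = n * l := by
            rw [Finset.sum_const, Finset.card_univ, Fintype.card_fin, smul_eq_mul, mul_comm]

theorem t_Par (h1 : Tf.S_Acl) (h2 : S_Bas) (h3 : S_Dm) : S_Par := by
  classical
  intro k K _ _ _ _ l n B b0 b1 m hl hN h01 hm hc hc2
  have hinf : Infinite K := IsAlgClosed.instInfinite
  have hself : ∀ S : Set K, S ⊆ (Tf.Cl k S : Set K) := fun S => (h1 k K S S).1
  have hmono : ∀ S T : Set K, S ⊆ T → Tf.Cl k S ≤ Tf.Cl k T := fun S T h =>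
    (h1 k K S T).2.1 (h.trans (hself T))
  obtain ⟨B₀, -, hB₀, hV₀, hH₀, hc₀⟩ := (h2 K l n B b0).1 ∅ (Finset.empty_subset _)
    (by rw [par_empty, Finset.card_empty])
  have hH₀' : Hf B₀ b1 = B₀.card :=
    (h2 K l n B₀ b0).2.2 hinf (fun x hx => hN x (hB₀ hx)) hH₀ b1 h01
  obtain ⟨B₁, hB₀₁, hB₁, hV₁, hH₁, hc₁⟩ := (h2 K l n B b1).1 B₀ hB₀ hH₀'
  -- the first sets
  have hg1 : ∀ x : Pt K l n, ∃ G : Finset K, x ∈ B → (∀ q, x q ∈ Tf.Cl k (G : Set K)) ∧
      G.card ≤ n * l ∧ (Dgl x → G.card ≤ n) := by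
    intro x
    by_cases hx : x ∈ B
    · obtain ⟨G, hG⟩ := par_crd h1 k K l n hl x (hN x hx)
      exact ⟨G, fun _ => hG⟩
    · exact ⟨∅, fun h => absurd h hx⟩
  choose g1 hg1 using hg1
  set G₁ : Finset K := B₀.biUnion g1 with hG₁
  have hm₁ : ∀ x ∈ B₀, ∀ q, x q ∈ Tf.Cl k (G₁ : Set K) := by
    intro x hx q
    refine hmono _ _ ?_ ((hg1 x (hB₀ hx)).1 q)
    intro z hz
    exact Finset.mem_coe.2 (Finset.mem_biUnion.2 ⟨x, hx, Finset.mem_coe.1 hz⟩)
  -- the points outside the diagonal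
  have hg2 : ∀ x : Pt K l n, ∃ G : Finset K, x ∈ B →
      (∀ q, x q ∈ Tf.Cl k ((G₁ : Set K) ∪ (G : Set K))) ∧ G.card ≤ n := by
    intro x
    by_cases hx : x ∈ B
    · obtain ⟨G, hG, hG', -⟩ := h3 k K (G₁ : Set K) l n b0 B₀ x hm₁ (hN x hx) (fun f hf => by
        rw [hV₀] at hf
        exact hf.2 x hx)
      refine ⟨G, fun _ => ⟨hG, ?_⟩⟩
      have h4 := hG' m hm
      rw [hH₀] at h4
      exact Nat.le_of_lt_succ (par_lt m G.card (n + 1)
        ((h4.trans (Finset.card_le_card hB₀)).trans_lt hc))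
    · exact ⟨∅, fun h => absurd h hx⟩
  choose g2 hg2 using hg2
  set P : Finset (Pt K l n) := (B₁ \ B₀).filter Dgl with hP
  set Q : Finset (Pt K l n) := (B \ B₀).filter (fun x => ¬ Dgl x) with hQ
  set R : Finset (Pt K l n) := (B \ B₁).filter Dgl with hR
  set G₂ : Finset K := G₁ ∪ P.biUnion g1 ∪ Q.biUnion g2 with hG₂
  have hG₁₂ : (G₁ : Set K) ⊆ (G₂ : Set K) := by
    intro z hz
    rw [hG₂, Finset.mem_coe, Finset.mem_union, Finset.mem_union]
    exact Or.inl (Or.inl (Finset.mem_coe.1 hz))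
  have hm₂ : ∀ x ∈ B, (x ∈ B₁ ∨ ¬ Dgl x) → ∀ q, x q ∈ Tf.Cl k (G₂ : Set K) := by
    intro x hx hx' q
    by_cases hx0 : x ∈ B₀
    · exact hmono _ _ hG₁₂ (hm₁ x hx0 q)
    · by_cases hd : Dgl x
      · have hx1 : x ∈ B₁ := hx'.resolve_right (not_not.2 hd)
        refine hmono _ _ ?_ ((hg1 x hx).1 q)
        intro z hz
        rw [hG₂, Finset.mem_coe, Finset.mem_union, Finset.mem_union]
        refine Or.inl (Or.inr (Finset.mem_biUnion.2 ⟨x, ?_, Finset.mem_coe.1 hz⟩))
        rw [hP, Finset.mem_filter, Finset.mem_sdiff]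
        exact ⟨⟨hx1, hx0⟩, hd⟩
      · refine hmono _ _ ?_ ((hg2 x hx).1 q)
        rintro z (hz | hz)
        · exact hG₁₂ hz
        · rw [hG₂, Finset.mem_coe, Finset.mem_union]
          refine Or.inr (Finset.mem_biUnion.2 ⟨x, ?_, Finset.mem_coe.1 hz⟩)
          rw [hQ, Finset.mem_filter, Finset.mem_sdiff]
          exact ⟨⟨hx, hx0⟩, hd⟩
  -- the other diagonal points
  have hg3 : ∀ x : Pt K l n, ∃ G : Finset K, x ∈ B → Dgl x →
      (∀ q, x q ∈ Tf.Cl k ((G₂ : Set K) ∪ (G : Set K))) ∧ G.card + 1 ≤ n := by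
    intro x
    by_cases hx : x ∈ B
    · obtain ⟨G, hG, -, hG'⟩ := h3 k K (G₂ : Set K) l n b1 B₁ x
        (fun z hz => hm₂ z (hB₁ hz) (Or.inl hz)) (hN x hx) (fun f hf => by
          rw [hV₁] at hf
          exact hf.2 x hx)
      refine ⟨G, fun _ hd => ⟨hG, ?_⟩⟩
      have h4 := hG' hd
      rw [hH₁] at h4
      exact par_lt (∑ j, b1 j) G.card n ((h4.trans (Finset.card_le_card hB₁)).trans_lt hc2)
    · exact ⟨∅, fun h => absurd h hx⟩
  choose g3 hg3 using hg3
  refine ⟨G₂ ∪ R.biUnion g3, fun x hx q => ?_, ?_⟩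
  · by_cases hx' : x ∈ B₁ ∨ ¬ Dgl x
    · refine hmono _ _ ?_ (hm₂ x hx hx' q)
      intro z hz
      rw [Finset.mem_coe, Finset.mem_union]
      exact Or.inl (Finset.mem_coe.1 hz)
    · rw [not_or, not_not] at hx'
      refine hmono _ _ ?_ ((hg3 x hx hx'.2).1 q)
      rintro z (hz | hz)
      · rw [Finset.mem_coe, Finset.mem_union]
        exact Or.inl (Finset.mem_coe.1 hz)
      · rw [Finset.mem_coe, Finset.mem_union]
        refine Or.inr (Finset.mem_biUnion.2 ⟨x, ?_, Finset.mem_coe.1 hz⟩)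
        rw [hR, Finset.mem_filter, Finset.mem_sdiff]
        exact ⟨⟨hx, hx'.1⟩, hx'.2⟩
  · have c0 : G₁.card ≤ B₀.card * (n * l) := by
      refine Finset.card_biUnion_le.trans ?_
      rw [← smul_eq_mul, ← Finset.sum_const]
      exact Finset.sum_le_sum fun x hx => (hg1 x (hB₀ hx)).2.1
    have cP : (P.biUnion g1).card ≤ P.card * n := by
      refine Finset.card_biUnion_le.trans ?_
      rw [← smul_eq_mul, ← Finset.sum_const]
      refine Finset.sum_le_sum fun x hx => ?_
      rw [hP, Finset.mem_filter, Finset.mem_sdiff] at hx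
      exact (hg1 x (hB₁ hx.1.1)).2.2 hx.2
    have cQ : (Q.biUnion g2).card ≤ Q.card * n := by
      refine Finset.card_biUnion_le.trans ?_
      rw [← smul_eq_mul, ← Finset.sum_const]
      refine Finset.sum_le_sum fun x hx => ?_
      rw [hQ, Finset.mem_filter, Finset.mem_sdiff] at hx
      exact (hg2 x hx.1.1).2
    have cR : (R.biUnion g3).card + R.card ≤ R.card * n := by
      have e1 : (R.biUnion g3).card ≤ ∑ x ∈ R, (g3 x).card := Finset.card_biUnion_le
      have e2 : ∑ x ∈ R, ((g3 x).card + 1) ≤ R.card * n := by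
        rw [← smul_eq_mul, ← Finset.sum_const]
        refine Finset.sum_le_sum fun x hx => ?_
        rw [hR, Finset.mem_filter, Finset.mem_sdiff] at hx
        exact (hg3 x hx.1.1 hx.2).2
      rw [Finset.sum_add_distrib, Finset.sum_const, smul_eq_mul, mul_one] at e2
      omega
    have cU : (G₂ ∪ R.biUnion g3).card ≤
        G₁.card + (P.biUnion g1).card + (Q.biUnion g2).card + (R.biUnion g3).card := by
      refine (Finset.card_union_le _ _).trans (Nat.add_le_add_right ?_ _)
      refine (Finset.card_union_le _ _).trans (Nat.add_le_add_right ?_ _)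
      exact Finset.card_union_le _ _
    -- the numbers of points
    have d1 : (B \ B₀).card + B₀.card = B.card := Finset.card_sdiff_add_card_eq_card hB₀
    have d2 : ((B \ B₀).filter Dgl).card + Q.card = (B \ B₀).card :=
      Finset.card_filter_add_card_filter_not _
    have d3 : P.card + R.card ≤ ((B \ B₀).filter Dgl).card := by
      rw [← Finset.card_union_of_disjoint]
      · refine Finset.card_le_card ?_
        intro x hx
        rw [Finset.mem_union, hP, hR, Finset.mem_filter, Finset.mem_filter, Finset.mem_sdiff,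
          Finset.mem_sdiff] at hx
        rw [Finset.mem_filter, Finset.mem_sdiff]
        rcases hx with hx | hx
        · exact ⟨⟨hB₁ hx.1.1, hx.1.2⟩, hx.2⟩
        · exact ⟨⟨hx.1.1, fun h => hx.1.2 (hB₀₁ h)⟩, hx.2⟩
      · rw [Finset.disjoint_left]
        intro x hx hx'
        rw [hP, Finset.mem_filter, Finset.mem_sdiff] at hx
        rw [hR, Finset.mem_filter, Finset.mem_sdiff] at hx'
        exact hx'.1.2 hx.1.1
    have d4 : (B \ B₁).card + B₁.card = B.card := Finset.card_sdiff_add_card_eq_card hB₁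
    have d5 : R.card + ((B \ B₁).filter (fun x => ¬ Dgl x)).card = (B \ B₁).card :=
      Finset.card_filter_add_card_filter_not _
    have d6 : ((B \ B₁).filter (fun x => ¬ Dgl x)).card ≤ (offd B).card := by
      refine Finset.card_le_card ?_
      intro x hx
      rw [Finset.mem_filter, Finset.mem_sdiff] at hx
      simp only [offd, Finset.mem_filter]
      exact ⟨hx.1.1, hx.2⟩
    rw [← hc₁, ← hc₀]
    have e1 : P.card * n + Q.card * n + R.card * n ≤ n * B.card := by
      rw [← add_mul, ← add_mul, mul_comm n]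
      exact Nat.mul_le_mul_right n (by omega)
    have e2 : B₀.card * (n * l) = n * l * B₀.card := mul_comm _ _
    omega

end Pool.Agent.Lib.MP_d01072_ag.Bp
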