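import Pool.Agent.Lib.MP_d01072_ag.Bp.Spec

/-!
MP_d01072_ag, package Bp, module Prd: products of spaces of forms, and their restriction.
-/

set_option autoImplicit false

namespace Pool.Agent.Lib.MP_d01072_ag.Bp

open MvPolynomial

private def MonT {l : ℕ} (n : ℕ) (b : Fin l → ℕ) : Set (Fin l × Fin (n + 1) →₀ ℕ) :=
  {s | ∀ k, ∑ i, s (k, i) = b k}

private lemma Mh_eqT (K : Type) [Field K] {l : ℕ} (n : ℕ) (b : Fin l → ℕ) :
    Mh K n b = restrictSupport K (MonT n b) := by
  ext f
  rw [mem_restrictSupport_iff]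
  constructor
  · intro h s hs
    exact h s (mem_support_iff.1 hs)
  · intro h s hs
    exact h (mem_support_iff.2 hs)

/-- a part of size `p` of a multiset of size `p + q` -/
private lemma part {ι : Type} [DecidableEq ι] (S : Finset ι) (f : ι → ℕ) (p q : ℕ)
    (h : ∑ i ∈ S, f i = p + q) : ∃ g : ι → ℕ, (∀ i, g i ≤ f i) ∧ ∑ i ∈ S, g i = p := by
  induction p generalizing q with
  | zero => exact ⟨fun _ => 0, fun _ => Nat.zero_le _, by simp⟩
  | succ p ih =>
    obtain ⟨g, hg, hs⟩ := ih (q + 1) (by omega)
    have h1 : ∃ i ∈ S, g i < f i := by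
      by_contra hc
      push Not at hc
      have : ∑ i ∈ S, f i ≤ ∑ i ∈ S, g i := Finset.sum_le_sum hc
      omega
    obtain ⟨i, hi, hlt⟩ := h1
    refine ⟨fun j => if j = i then g j + 1 else g j, fun j => ?_, ?_⟩
    · by_cases hj : j = i
      · subst hj
        simpa using hlt
      · simpa [hj] using hg j
    · rw [← Finset.add_sum_erase _ _ hi]
      simp only [if_true]
      have h2 : ∑ x ∈ S.erase i, (if x = i then g x + 1 else g x) = ∑ x ∈ S.erase i, g x :=
        Finset.sum_congr rfl fun x hx => by simp [Finset.ne_of_mem_erase hx]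
      rw [h2]
      have h3 := Finset.add_sum_erase S g hi
      omega

open scoped Pointwise in
private lemma MonT_add {l : ℕ} (n : ℕ) (b c : Fin l → ℕ) :
    MonT n b + MonT n c = MonT n (b + c) := by
  ext s
  rw [Set.mem_add]
  constructor
  · rintro ⟨u, hu, v, hv, rfl⟩ k
    simp only [Finsupp.add_apply, Finset.sum_add_distrib, Pi.add_apply]
    rw [hu k, hv k]
  · intro hs
    have h : ∀ k, ∃ g : Fin (n + 1) → ℕ, (∀ i, g i ≤ s (k, i)) ∧ ∑ i, g i = b k := fun k =>
      part Finset.univ (fun i => s (k, i)) (b k) (c k) (hs k)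
    choose g hg hb using h
    refine ⟨Finsupp.equivFunOnFinite.symm (fun q => g q.1 q.2), fun k => by simpa using hb k,
      Finsupp.equivFunOnFinite.symm (fun q => s q - g q.1 q.2), fun k => ?_, ?_⟩
    · have h1 : ∑ i, (s (k, i) - g k i) + ∑ i, g k i = ∑ i, s (k, i) := by
        rw [← Finset.sum_add_distrib]
        exact Finset.sum_congr rfl fun i _ => Nat.sub_add_cancel (hg k i)
      have h2 := hs k
      rw [Pi.add_apply] at h2
      have h3 := hb k
      simp only [Finsupp.equivFunOnFinite_symm_apply_apply]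
      omega
    · ext q
      simp only [Finsupp.add_apply, Finsupp.equivFunOnFinite_symm_apply_apply]
      have := hg q.1 q.2
      have h5 : s (q.1, q.2) = s q := rfl
      omega

private lemma dist {l : ℕ} (n : ℕ) (b : Fin l → ℕ) (t : Fin 1 × Fin (n + 1) →₀ ℕ)
    (ht : ∑ i, t (0, i) = ∑ k, b k) :
    ∃ s ∈ MonT n b, Finsupp.mapDomain (fun q : Fin l × Fin (n + 1) => ((0 : Fin 1), q.2)) s = t := by
  induction l generalizing t with
  | zero =>
    refine ⟨0, fun k => k.elim0, ?_⟩
    rw [Finsupp.mapDomain_zero]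
    have h0 : ∑ i, t (0, i) = 0 := by simpa using ht
    ext q
    obtain ⟨q1, q2⟩ := q
    have h1 := (Finset.sum_eq_zero_iff.1 h0) q2 (Finset.mem_univ _)
    rw [Subsingleton.elim q1 0, h1]
    rfl
  | succ l ih =>
    rw [Fin.sum_univ_succ (fun k => b k)] at ht
    obtain ⟨g, hg, hs⟩ := part Finset.univ (fun i => t (0, i)) (b 0) (∑ k : Fin l, b k.succ) ht
    have h1 : ∑ i, (t (0, i) - g i) + ∑ i, g i = ∑ i, t (0, i) := by
      rw [← Finset.sum_add_distrib]
      exact Finset.sum_congr rfl fun i _ => Nat.sub_add_cancel (hg i)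
    obtain ⟨s, hs1, hs2⟩ := ih (fun k => b k.succ)
      (Finsupp.equivFunOnFinite.symm (fun q => t q - g q.2)) (by
        simp only [Finsupp.equivFunOnFinite_symm_apply_apply]
        omega)
    refine ⟨Finsupp.equivFunOnFinite.symm (fun q => Fin.cases (g q.2) (fun k => s (k, q.2)) q.1),
      fun k => ?_, ?_⟩
    · refine Fin.cases ?_ (fun k => ?_) k
      · simpa using hs
      · simpa using hs1 k
    · ext q
      obtain ⟨q1, q2⟩ := q
      rw [Subsingleton.elim q1 0]
      have key : ∀ (m : ℕ) (u : Fin m × Fin (n + 1) →₀ ℕ), Finsupp.mapDomain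
          (fun q : Fin m × Fin (n + 1) => ((0 : Fin 1), q.2)) u (0, q2) = ∑ k, u (k, q2) := by
        intro m u
        rw [Finsupp.mapDomain, Finsupp.sum_fintype _ _ (fun _ => by simp), Finsupp.finset_sum_apply,
          Fintype.sum_prod_type]
        refine Finset.sum_congr rfl fun k _ => ?_
        rw [Finset.sum_eq_single q2]
        · simp
        · intro j _ hj
          simp [hj]
        · intro h
          exact absurd (Finset.mem_univ _) h
      rw [key, Fin.sum_univ_succ]
      have h2 := key l s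
      rw [hs2] at h2
      simp only [Finsupp.equivFunOnFinite_symm_apply_apply, Fin.cases_zero, Fin.cases_succ] at h2 ⊢
      rw [← h2]
      have := hg q2
      omega

theorem t_Prd : S_Prd := by
  intro K _ l n b c
  constructor
  · rw [Mh_eqT, Mh_eqT, Mh_eqT, ← restrictSupport_add, MonT_add]
  · apply le_antisymm
    · rw [Mh_eqT, restrictSupport_eq_span, Submodule.map_span, Submodule.span_le]
      rintro _ ⟨_, ⟨s, hs, rfl⟩, rfl⟩
      rw [SetLike.mem_coe]
      show res K l n (monomial s 1) ∈ Fm K n (∑ k, b k)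
      rw [res, rename_monomial]
      show _ ∈ Mh K n (fun _ : Fin 1 => ∑ k, b k)
      rw [Mh_eqT, monomial_mem_restrictSupport]
      left
      intro k
      rw [Subsingleton.elim k 0]
      have key : ∀ q2 : Fin (n + 1), Finsupp.mapDomain
          (fun q : Fin l × Fin (n + 1) => ((0 : Fin 1), q.2)) s (0, q2) = ∑ k, s (k, q2) := by
        intro q2
        rw [Finsupp.mapDomain, Finsupp.sum_fintype _ _ (fun _ => by simp), Finsupp.finset_sum_apply,
          Fintype.sum_prod_type]
        refine Finset.sum_congr rfl fun k _ => ?_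
        rw [Finset.sum_eq_single q2]
        · simp
        · intro j _ hj
          simp [hj]
        · intro h
          exact absurd (Finset.mem_univ _) h
      rw [Finset.sum_congr rfl fun i _ => key i, Finset.sum_comm]
      exact Finset.sum_congr rfl fun k _ => hs k
    · show Mh K n (fun _ : Fin 1 => ∑ k, b k) ≤ _
      rw [Mh_eqT K n (fun _ : Fin 1 => ∑ k, b k), restrictSupport_eq_span, Submodule.span_le]
      rintro _ ⟨t, ht, rfl⟩
      obtain ⟨s, hs, hst⟩ := dist n b t (ht 0)
      refine ⟨monomial s 1, ?_, ?_⟩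
      · rw [SetLike.mem_coe, Mh_eqT, monomial_mem_restrictSupport]
        exact Or.inl hs
      · show res K l n (monomial s 1) = monomial t 1
        rw [res, rename_monomial, hst]

end Pool.Agent.Lib.MP_d01072_ag.Bp
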