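import Pool.Agent.Lib.MP_d01072_ag.Bp.Spec

/-!
MP_d01072_ag, package Bp, module Red: reduction of a representation to the bad points.
-/

set_option autoImplicit false

namespace Pool.Agent.Lib.MP_d01072_ag.Bp

open MvPolynomial

private theorem red_Hf_empty (K : Type) [Field K] (l n : ℕ) (b : Fin l → ℕ) :
    Hf (∅ : Finset (Pt K l n)) b = 0 := by
  unfold Hf
  have hs : Subsingleton ({x // x ∈ (∅ : Finset (Pt K l n))} → K) := by
    constructor
    intro f g
    funext x
    exact absurd x.2 (Finset.notMem_empty _)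
  exact Module.finrank_zero_of_subsingleton

/-- the evaluation at a point is a combination of the evaluations at `B₁` -/
private theorem red_comb (K : Type) [Field K] (l n : ℕ) (A B₁ : Finset (Pt K l n))
    (δ : Fin l → ℕ) (h : Vn B₁ δ = Vn A δ) (x : Pt K l n) (hx : x ∈ A) :
    ∃ c : Pt K l n → K, ∀ F ∈ Mh K n δ, eval x F = ∑ y ∈ B₁, c y * eval y F := by
  classical
  let φ : {y // y ∈ B₁} → (Mh K n δ →ₗ[K] K) := fun y =>
    (aeval (y : Pt K l n) : Rm K l n →ₐ[K] K).toLinearMap.comp (Mh K n δ).subtype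
  let ψ : Mh K n δ →ₗ[K] K :=
    (aeval x : Rm K l n →ₐ[K] K).toLinearMap.comp (Mh K n δ).subtype
  have hφ : ∀ y F, φ y F = eval (y : Pt K l n) (F : Rm K l n) := fun y F => by
    simp only [φ, LinearMap.comp_apply, AlgHom.toLinearMap_apply, coe_aeval_eq_eval,
      Submodule.subtype_apply]
    rfl
  have hψ : ∀ F, ψ F = eval x (F : Rm K l n) := fun F => by
    simp only [ψ, LinearMap.comp_apply, AlgHom.toLinearMap_apply, coe_aeval_eq_eval,
      Submodule.subtype_apply]
    rfl
  have hker : ⨅ y, LinearMap.ker (φ y) ≤ LinearMap.ker ψ := by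
    intro F hF
    rw [Submodule.mem_iInf] at hF
    have h1 : (F : Rm K l n) ∈ Vn B₁ δ := by
      refine ⟨F.2, fun y hy => ?_⟩
      have h2 := hF ⟨y, hy⟩
      rw [LinearMap.mem_ker, hφ] at h2
      exact h2
    rw [h] at h1
    rw [LinearMap.mem_ker, hψ]
    exact h1.2 x hx
  have hmem := mem_span_of_iInf_ker_le_ker hker
  rw [Submodule.mem_span_range_iff_exists_fun] at hmem
  obtain ⟨c, hc⟩ := hmem
  refine ⟨fun y => if hy : y ∈ B₁ then c ⟨y, hy⟩ else 0, fun F hF => ?_⟩
  have h1 := congrArg (fun f : Mh K n δ →ₗ[K] K => f ⟨F, hF⟩) hc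
  simp only [LinearMap.sum_apply, LinearMap.smul_apply, smul_eq_mul, hφ, hψ] at h1
  rw [← h1, ← Finset.sum_coe_sort B₁ (fun y => (if hy : y ∈ B₁ then c ⟨y, hy⟩ else 0) * eval y F)]
  refine Finset.sum_congr rfl fun y _ => ?_
  rw [dif_pos y.2]

private theorem red_eval {K : Type} [Field K] {l n : ℕ} (a : Fin (n + 1) → K) (F : Rm K l n) :
    eval (dg 1 a) (res K l n F) = eval (dg l a) F := by
  unfold res
  rw [eval_rename]
  rfl

theorem t_Red (h1 : S_Bas) : S_Red := by
  classical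
  intro K _ l n δ e A L τ hl hA hRep
  obtain ⟨hB1, hB2, -⟩ := h1 K l n A δ
  obtain ⟨B₁, -, hB₁A, hVn, hHf, -⟩ := hB1 ∅ (Finset.empty_subset _)
    (by rw [red_Hf_empty]; rfl)
  have hsub := (h1 K l n B₁ δ).2.1 hHf
  choose! c hc using red_comb K l n A B₁ δ hVn
  -- the new functionals
  let τ' : Pt K l n → (Rm K 1 n →ₗ[K] K) := fun y => ∑ x ∈ A, c x y • τ x
  have hτ' : ∀ y G, τ' y G = ∑ x ∈ A, c x y * τ x G := fun y G => by
    simp only [τ', LinearMap.sum_apply, LinearMap.smul_apply, smul_eq_mul]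
  have hRep1 : ∀ F ∈ Mh K n δ, ∀ G ∈ Fm K n e,
      L (res K l n F * G) = ∑ y ∈ B₁, eval y F * τ' y G := by
    intro F hF G hG
    rw [hRep F hF G hG]
    have h2 : ∀ x ∈ A, eval x F * τ x G = ∑ y ∈ B₁, eval y F * (c x y * τ x G) := by
      intro x hx
      rw [hc x hx F hF, Finset.sum_mul]
      exact Finset.sum_congr rfl fun y _ => by ring
    rw [Finset.sum_congr rfl h2, Finset.sum_comm]
    refine Finset.sum_congr rfl fun y _ => ?_
    rw [hτ', Finset.mul_sum]
  let P : Pt K l n → Prop := fun x => ∃ a : Fin (n + 1) → K, x = dg l a ∧ ∃ w : K,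
    ∀ G ∈ Fm K n e, τ' x G = w * eval (dg 1 a) G
  let B := B₁.filter fun x => Bad e x (τ' x)
  let D := (B₁.filter fun x => ¬ Bad e x (τ' x)).filter P
  let k0 : Fin l := ⟨0, hl⟩
  let pr : Pt K l n → (Fin (n + 1) → K) := fun x i => x (k0, i)
  have hprdg : ∀ a : Fin (n + 1) → K, pr (dg l a) = a := fun a => rfl
  have hDdg : ∀ x ∈ D, dg l (pr x) = x := by
    intro x hx
    obtain ⟨a, ha, -⟩ := (Finset.mem_filter.mp hx).2
    rw [ha, hprdg]
  have hinj : Set.InjOn pr (D : Set (Pt K l n)) := by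
    intro x hx y hy hxy
    rw [← hDdg x hx, ← hDdg y hy, hxy]
  let w : (Fin (n + 1) → K) → K := fun a =>
    if h : ∃ w : K, ∀ G ∈ Fm K n e, τ' (dg l a) G = w * eval (dg 1 a) G then h.choose else 0
  have hw : ∀ x ∈ D, ∀ G ∈ Fm K n e, τ' x G = w (pr x) * eval (dg 1 (pr x)) G := by
    intro x hx G hG
    obtain ⟨a, ha, h2⟩ := (Finset.mem_filter.mp hx).2
    have h3 : ∃ w : K, ∀ G ∈ Fm K n e, τ' (dg l a) G = w * eval (dg 1 a) G := by
      rw [← ha]
      exact h2
    have h4 : w a = h3.choose := dif_pos h3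
    rw [ha, hprdg, h4]
    exact h3.choose_spec G hG
  have hBB : B ⊆ B₁ := Finset.filter_subset _ _
  have hDB : D ⊆ B₁ := (Finset.filter_subset _ _).trans (Finset.filter_subset _ _)
  refine ⟨B, D.image pr, w, τ', ?_, fun x hx => hA x (hB₁A (hBB hx)), ?_, hsub B hBB, ?_,
    fun x hx => (Finset.mem_filter.mp hx).2⟩
  · have h2 : Disjoint B D := by
      rw [Finset.disjoint_left]
      intro x hx hx'
      exact (Finset.mem_filter.mp (Finset.mem_filter.mp hx').1).2 (Finset.mem_filter.mp hx).2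
    calc B.card + (D.image pr).card ≤ B.card + D.card :=
          Nat.add_le_add_left Finset.card_image_le _
      _ = (B ∪ D).card := (Finset.card_union_of_disjoint h2).symm
      _ ≤ A.card := Finset.card_le_card ((Finset.union_subset hBB hDB).trans hB₁A)
  · intro a ha
    obtain ⟨x, hx, rfl⟩ := Finset.mem_image.mp ha
    obtain ⟨i, hi, -⟩ := hA x (hB₁A (hDB hx)) k0
    exact ⟨i, hi⟩
  · intro F hF G hG
    have h2 : (∑ a ∈ D.image pr, w a • (aeval (dg 1 a) : Rm K 1 n →ₐ[K] K).toLinearMap)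
        (res K l n F * G) = ∑ x ∈ D, eval x F * τ' x G := by
      rw [LinearMap.sum_apply, Finset.sum_image hinj]
      refine Finset.sum_congr rfl fun x hx => ?_
      have h0 : (aeval (dg 1 (pr x)) : Rm K 1 n →ₐ[K] K) (res K l n F * G) =
          eval (dg 1 (pr x)) (res K l n F * G) :=
        DFunLike.congr_fun (coe_aeval_eq_eval (dg 1 (pr x))) (res K l n F * G)
      rw [LinearMap.smul_apply, AlgHom.toLinearMap_apply, h0, smul_eq_mul]
      have h3 : (eval (dg 1 (pr x))) (res K l n F * G) =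
          eval x F * eval (dg 1 (pr x)) G := by
        rw [map_mul, red_eval, hDdg x hx]
      have h4 := hw x hx G hG
      rw [h3, h4]
      ring
    rw [LinearMap.sub_apply, h2, hRep1 F hF G hG,
      ← Finset.sum_filter_add_sum_filter_not B₁ (fun x => Bad e x (τ' x)),
      ← Finset.sum_filter_add_sum_filter_not (B₁.filter fun x => ¬ Bad e x (τ' x)) P]
    have h5 : ∑ x ∈ (B₁.filter fun x => ¬ Bad e x (τ' x)).filter (fun x => ¬ P x),
        eval x F * τ' x G = 0 := by
      refine Finset.sum_eq_zero fun x hx => ?_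
      obtain ⟨hx1, hx2⟩ := Finset.mem_filter.mp hx
      have hx3 := (Finset.mem_filter.mp hx1).2
      have h6 : τ' x G = 0 := by
        by_contra h7
        apply hx3
        refine ⟨⟨G, hG, h7⟩, ?_⟩
        intro a ha w0
        by_contra h8
        refine hx2 ⟨a, ha, w0, fun G' hG' => ?_⟩
        by_contra h9
        exact h8 ⟨G', hG', h9⟩
      rw [h6, mul_zero]
    rw [h5]
    ring

end Pool.Agent.Lib.MP_d01072_ag.Bp
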