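import Pool.Agent.Lib.MP_d01072_ag.Bp.Spec

/-!
MP_d01072_ag, package Bp, module Rel: a linear relation without zero coefficients between the values of
the forms of multidegree `δ - 1` at the points of `B`.
-/

set_option autoImplicit false

namespace Pool.Agent.Lib.MP_d01072_ag.Bp

open MvPolynomial

/-- a monomial with the right degrees -/
private theorem Rel_mono {K : Type} [Field K] {l n : ℕ} (b : Fin l → ℕ)
    (s : Fin l × Fin (n + 1) →₀ ℕ) (h : ∀ k, ∑ i, s (k, i) = b k) :
    (monomial s (1 : K)) ∈ Mh K n b := by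
  intro t ht k
  rw [coeff_monomial] at ht
  have h1 : s = t := by
    by_contra hne
    rw [if_neg hne] at ht
    exact ht rfl
  rw [← h1]
  exact h k

private theorem Rel_X (K : Type) [Field K] {l n : ℕ} (k : Fin l) (i : Fin (n + 1)) :
    (X (k, i) : Rm K l n) ∈ Mh K n (Pi.single k 1) := by
  classical
  refine Rel_mono _ _ fun k' => ?_
  by_cases h : k' = k
  · rw [h, Pi.single_eq_same, Finset.sum_eq_single i]
    · rw [Finsupp.single_eq_same]
    · intro j _ hj
      rw [Finsupp.single_eq_of_ne]
      intro h2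
      exact hj (Prod.ext_iff.1 h2).2
    · intro h2
      exact absurd (Finset.mem_univ _) h2
  · rw [Pi.single_eq_of_ne h]
    refine Finset.sum_eq_zero fun j _ => ?_
    rw [Finsupp.single_eq_of_ne]
    intro h2
    exact h (Prod.ext_iff.1 h2).1

private theorem Rel_mul (h1 : S_Prd) {K : Type} [Field K] {l n : ℕ} {b c : Fin l → ℕ}
    {F G : Rm K l n} (hF : F ∈ Mh K n b) (hG : G ∈ Mh K n c) : F * G ∈ Mh K n (b + c) := by
  rw [← (h1 K l n b c).1]
  exact Submodule.mul_mem_mul hF hG

/-- the degree of `X_j * X^s` -/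
private theorem Rel_deg {n : ℕ} (s : Fin 1 × Fin (n + 1) →₀ ℕ) (j : Fin (n + 1)) :
    ∑ i, (Finsupp.single ((0 : Fin 1), j) 1 + s : Fin 1 × Fin (n + 1) →₀ ℕ) (0, i) = ∑ i, s (0, i) + 1 := by
  classical
  simp only [Finsupp.add_apply, Finset.sum_add_distrib]
  rw [add_comm]
  congr 1
  rw [Finset.sum_eq_single j]
  · rw [Finsupp.single_eq_same]
  · intro i _ hi
    rw [Finsupp.single_eq_of_ne]
    intro h2
    exact hi (Prod.ext_iff.1 h2).2
  · intro h2
    exact absurd (Finset.mem_univ _) h2

private theorem Rel_Xmon {K : Type} [Field K] {n : ℕ} (s : Fin 1 × Fin (n + 1) →₀ ℕ) (j : Fin (n + 1)) :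
    (X (0, j) : Rm K 1 n) * monomial s 1 = monomial (Finsupp.single ((0 : Fin 1), j) 1 + s) 1 := by
  rw [X, monomial_mul, one_mul]

/-- the product of the powers of the coordinates -/
private theorem Rel_pw {K : Type} [Field K] {n : ℕ} (a : Fin (n + 1) → K)
    (s : Fin 1 × Fin (n + 1) →₀ ℕ) (j : Fin (n + 1)) :
    ∏ q : Fin 1 × Fin (n + 1), a q.2 ^ (Finsupp.single ((0 : Fin 1), j) 1 + s : Fin 1 × Fin (n + 1) →₀ ℕ) q =
      a j * ∏ q : Fin 1 × Fin (n + 1), a q.2 ^ s q := by
  classical
  simp only [Finsupp.add_apply, pow_add, Finset.prod_mul_distrib]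
  congr 1
  rw [Finset.prod_eq_single ((0 : Fin 1), j)]
  · rw [Finsupp.single_eq_same, pow_one]
  · intro q _ hq
    rw [Finsupp.single_eq_of_ne hq, pow_zero]
  · intro h2
    exact absurd (Finset.mem_univ _) h2

/-- if the variables may be replaced one by one then `t` is the term of a power of a linear form -/
private theorem Rel_all {K : Type} [Field K] {n e : ℕ} (a : Fin (n + 1) → K) (i : Fin (n + 1))
    (hi : a i = 1) (t : Rm K 1 n →ₗ[K] K)
    (h : ∀ (j : Fin (n + 1)) (s : Fin 1 × Fin (n + 1) →₀ ℕ), ∑ i, s (0, i) + 1 = e →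
      t (X (0, j) * monomial s 1) = a j * t (X (0, i) * monomial s 1)) :
    ∀ G ∈ Fm K n e, t G = t (X (0, i) ^ e) * eval (dg 1 a) G := by
  classical
  have hm : ∀ (m : ℕ) (s : Fin 1 × Fin (n + 1) →₀ ℕ), ∑ k, s (0, k) = e →
      ∑ k ∈ Finset.univ.erase i, s (0, k) = m →
      t (monomial s 1) = t (X (0, i) ^ e) * ∏ q : Fin 1 × Fin (n + 1), a q.2 ^ s q := by
    intro m
    induction m with
    | zero =>
      intro s hs h0
      have h1 : ∀ k, k ≠ i → s (0, k) = 0 := by
        intro k hk
        exact Finset.sum_eq_zero_iff.1 h0 k (Finset.mem_erase.2 ⟨hk, Finset.mem_univ _⟩)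
      have h2 : s = Finsupp.single (0, i) e := by
        ext q
        obtain ⟨q1, q2⟩ := q
        have hq1 : q1 = 0 := Subsingleton.elim _ _
        subst hq1
        by_cases hq : q2 = i
        · subst hq
          rw [Finsupp.single_eq_same]
          rw [← Finset.add_sum_erase Finset.univ (fun k => s (0, k)) (Finset.mem_univ q2), h0] at hs
          exact hs
        · rw [h1 q2 hq, Finsupp.single_eq_of_ne]
          intro h3
          exact hq (Prod.ext_iff.1 h3).2
      have h3 : ∏ q : Fin 1 × Fin (n + 1), a q.2 ^ s q = 1 := by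
        apply Finset.prod_eq_one
        intro q _
        obtain ⟨q1, q2⟩ := q
        have hq1 : q1 = 0 := Subsingleton.elim _ _
        subst hq1
        by_cases hq : q2 = i
        · subst hq
          show a q2 ^ s (0, q2) = 1
          rw [hi, one_pow]
        · show a q2 ^ s (0, q2) = 1
          rw [h1 q2 hq, pow_zero]
      rw [h3, mul_one, h2, X_pow_eq_monomial]
    | succ m ih =>
      intro s hs h0
      obtain ⟨j, hj, hj0⟩ : ∃ j ∈ Finset.univ.erase i, s (0, j) ≠ 0 := by
        by_contra hcon
        push Not at hcon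
        rw [Finset.sum_eq_zero hcon] at h0
        omega
      have hji : j ≠ i := (Finset.mem_erase.1 hj).1
      obtain ⟨s', hs'⟩ : ∃ s', s = Finsupp.single ((0 : Fin 1), j) 1 + s' := by
        refine ⟨s - Finsupp.single ((0 : Fin 1), j) 1, ?_⟩
        have e1 : (Finsupp.single ((0 : Fin 1), j) 1 : Fin 1 × Fin (n + 1) →₀ ℕ) ≤ s := by
          rw [Finsupp.single_le_iff]
          omega
        exact (add_tsub_cancel_of_le e1).symm
      have hd : ∑ k, s' (0, k) + 1 = e := by
        rw [← Rel_deg s' j, ← hs']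
        exact hs
      have g1 : t (monomial s 1) = a j * t (monomial (Finsupp.single ((0 : Fin 1), i) 1 + s') 1) := by
        rw [hs', ← Rel_Xmon, ← Rel_Xmon]
        exact h j s' hd
      have g2 : ∑ k ∈ Finset.univ.erase i, (Finsupp.single ((0 : Fin 1), i) 1 + s' : Fin 1 × Fin (n + 1) →₀ ℕ) (0, k) = m := by
        have e1 : ∑ k ∈ Finset.univ.erase i, (Finsupp.single ((0 : Fin 1), i) 1 + s' : Fin 1 × Fin (n + 1) →₀ ℕ) (0, k) =
            ∑ k ∈ Finset.univ.erase i, s' (0, k) := by
          apply Finset.sum_congr rfl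
          intro k hk
          rw [Finsupp.add_apply, Finsupp.single_eq_of_ne, zero_add]
          intro h3
          exact (Finset.mem_erase.1 hk).1 (Prod.ext_iff.1 h3).2
        have e2 : ∑ k ∈ Finset.univ.erase i, s (0, k) =
            1 + ∑ k ∈ Finset.univ.erase i, s' (0, k) := by
          rw [hs']
          simp only [Finsupp.add_apply, Finset.sum_add_distrib]
          congr 1
          rw [Finset.sum_eq_single_of_mem j hj]
          · rw [Finsupp.single_eq_same]
          · intro k _ hk
            rw [Finsupp.single_eq_of_ne]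
            intro h3
            exact hk (Prod.ext_iff.1 h3).2
        rw [e1]
        omega
      rw [g1, ih _ (by rw [Rel_deg]; exact hd) g2, Rel_pw, hi, hs', Rel_pw]
      ring
  intro G hG
  rw [eval_eq']
  conv_lhs => rw [as_sum G]
  rw [map_sum, Finset.mul_sum]
  apply Finset.sum_congr rfl
  intro s hs
  have h1 : ∑ k, s (0, k) = e := hG s (mem_support_iff.1 hs) 0
  have h2 : (monomial s (coeff s G) : Rm K 1 n) = coeff s G • monomial s 1 := by
    rw [smul_monomial, smul_eq_mul, mul_one]
  rw [h2, map_smul, smul_eq_mul, hm _ s h1 rfl]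
  have h3 : ∏ q : Fin 1 × Fin (n + 1), dg 1 a q ^ s q = ∏ q : Fin 1 × Fin (n + 1), a q.2 ^ s q := rfl
  rw [h3]
  ring

theorem t_Rel (h1 : S_Prd) (h2 : S_Avd) (h3 : S_Frm) : S_Rel := by
  classical
  intro K _ _ l n δ e B L τ hl hδ hN hR hBad
  have hNx : ∀ x ∈ B, ∀ y ∈ ({x} : Finset (Pt K l n)), Nrm y := by
    intro x hx y hy
    rw [Finset.mem_singleton.1 hy]
    exact hN x hx
  set W : Submodule K ({x // x ∈ B} → K) :=
    { carrier := {w | ∀ F ∈ Mh K n (fun k => δ k - 1), ∑ x : {x // x ∈ B}, w x * eval x.1 F = 0}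
      add_mem' := by
        intro u v hu hv F hF
        simp only [Pi.add_apply, add_mul, Finset.sum_add_distrib]
        rw [hu F hF, hv F hF, add_zero]
      zero_mem' := by
        intro F _
        simp
      smul_mem' := by
        intro c u hu F hF
        simp only [Pi.smul_apply, smul_eq_mul, mul_assoc]
        rw [← Finset.mul_sum, hu F hF, mul_zero] } with hW
  have hWmem : ∀ g : Pt K l n → K,
      (∀ F ∈ Mh K n (fun k => δ k - 1), ∑ x ∈ B, g x * eval x F = 0) →
      (fun x : {x // x ∈ B} => g x.1) ∈ W := by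
    intro g hg F hF
    rw [← hg F hF]
    exact Finset.sum_coe_sort B (fun x => g x * eval x F)
  obtain ⟨w, hw, hw0⟩ := h2 K {x // x ∈ B} W (by
    rintro ⟨x, hx⟩
    by_cases hD : Dgl x
    · -- a diagonal point
      set k₀ : Fin l := ⟨0, hl⟩ with hk₀
      set a : Fin (n + 1) → K := fun i => x (k₀, i) with ha
      have hxa : x = dg l a := by
        funext q
        obtain ⟨k, i⟩ := q
        exact hD k k₀ i
      obtain ⟨i, hi, -⟩ := hN x hx k₀
      obtain ⟨j, s, hs, hne⟩ : ∃ (j : Fin (n + 1)) (s : Fin 1 × Fin (n + 1) →₀ ℕ),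
          ∑ i, s (0, i) + 1 = e ∧
          τ x (X (0, j) * monomial s 1) ≠ a j * τ x (X (0, i) * monomial s 1) := by
        by_contra hcon
        push Not at hcon
        have h4 := Rel_all a i hi (τ x) hcon
        obtain ⟨G, hG, hG2⟩ := (hBad x hx).2 a hxa (τ x (X (0, i) ^ e))
        exact hG2 (h4 G hG)
      obtain ⟨P, hP, hP0⟩ := (h3 K l n B hN).1 (fun k => 1 - (Pi.single k₀ 1 : Fin l → ℕ) k)
      have hGm : ∀ j : Fin (n + 1), (X (0, j) * monomial s 1 : Rm K 1 n) ∈ Fm K n e := by
        intro j
        rw [Rel_Xmon]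
        refine Rel_mono _ _ fun k => ?_
        have hk : k = 0 := Subsingleton.elim _ _
        rw [hk, Rel_deg]
        exact hs
      refine ⟨_, hWmem (fun y => eval y P * (y (k₀, i) * τ y (X (0, j) * monomial s 1) -
        y (k₀, j) * τ y (X (0, i) * monomial s 1))) ?_, ?_⟩
      · intro F hF
        have hm : ∀ i : Fin (n + 1), X (k₀, i) * (P * F) ∈ Mh K n δ := by
          intro i
          have h4 := Rel_mul h1 (Rel_X K k₀ i) (Rel_mul h1 hP hF)
          have h5 : (Pi.single k₀ 1 + ((fun k => 1 - (Pi.single k₀ 1 : Fin l → ℕ) k) + fun k => δ k - 1) : Fin l → ℕ) = δ := by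
            funext k
            have h6 : (Pi.single k₀ 1 : Fin l → ℕ) k ≤ 1 := by
              by_cases hk : k = k₀
              · rw [hk, Pi.single_eq_same]
              · rw [Pi.single_eq_of_ne hk]
                exact Nat.zero_le _
            have h7 := hδ k
            simp only [Pi.add_apply]
            omega
          rwa [h5] at h4
        have r1 := hR _ (hm i) _ (hGm j)
        have r2 := hR _ (hm j) _ (hGm i)
        have r3 : res K l n (X (k₀, i) * (P * F)) * (X (0, j) * monomial s 1) =
            res K l n (X (k₀, j) * (P * F)) * (X (0, i) * monomial s 1) := by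
          have e1 : ∀ i, res K l n (X (k₀, i)) = X (0, i) := by
            intro i
            unfold res
            rw [rename_X]
          rw [map_mul (res K l n) (X (k₀, i)), map_mul (res K l n) (X (k₀, j)), e1, e1]
          ring
        rw [r3, r2] at r1
        have r4 := sub_eq_zero.2 r1.symm
        rw [← Finset.sum_sub_distrib] at r4
        rw [← r4]
        apply Finset.sum_congr rfl
        intro y _
        simp only [map_mul, eval_X]
        ring
      · show eval x P * (x (k₀, i) * τ x (X (0, j) * monomial s 1) -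
          x (k₀, j) * τ x (X (0, i) * monomial s 1)) ≠ 0
        refine mul_ne_zero (hP0 x hx) ?_
        rw [hi, one_mul]
        exact sub_ne_zero.2 hne
    · -- not a diagonal point
      obtain ⟨ω, hω, hω0, hωx⟩ := (h3 K l n {x} (hNx x hx)).2.2 (by
        intro y hy
        rw [Finset.mem_singleton.1 hy]
        exact hD)
      obtain ⟨G, hG, hG0⟩ := (hBad x hx).1
      refine ⟨_, hWmem (fun y => eval y ω * τ y G) ?_, ?_⟩
      · intro F hF
        have h4 := Rel_mul h1 hω hF
        have h5 : ((fun _ => 1) + fun k => δ k - 1 : Fin l → ℕ) = δ := by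
          funext k
          have h7 := hδ k
          simp only [Pi.add_apply]
          omega
        rw [h5] at h4
        have r1 := hR _ h4 _ hG
        have r2 : res K l n (ω * F) * G = 0 := by rw [map_mul, hω0, zero_mul, zero_mul]
        rw [r2, map_zero] at r1
        rw [r1]
        apply Finset.sum_congr rfl
        intro y _
        rw [map_mul]
        ring
      · show eval x ω * τ x G ≠ 0
        exact mul_ne_zero (hωx x (Finset.mem_singleton_self x)) hG0)
  refine ⟨fun x => if hx : x ∈ B then w ⟨x, hx⟩ else 0, ?_, ?_⟩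
  · intro x hx
    show (if hx : x ∈ B then w ⟨x, hx⟩ else 0) ≠ 0
    rw [dif_pos hx]
    exact hw0 _
  · intro F hF
    rw [← Finset.sum_coe_sort B]
    refine Eq.trans (Finset.sum_congr rfl fun x _ => ?_) (hw F hF)
    show (if hx : x.1 ∈ B then w ⟨x.1, hx⟩ else 0) * eval x.1 F = w x * eval x.1 F
    rw [dif_pos x.2]

end Pool.Agent.Lib.MP_d01072_ag.Bp
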