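import Pool.Agent.Lib.MP_d01072_ag.Bp.Spec

set_option autoImplicit false

namespace Pool.Agent.Lib.MP_d01072_ag.Bp

open MvPolynomial

/-- Rank and nullity for the restriction of a linear map to a submodule. -/
private theorem Rho_rn {K V W : Type} [Field K] [AddCommGroup V] [Module K V] [AddCommGroup W]
    [Module K W] (f : V →ₗ[K] W) (M : Submodule K V) (hM : Module.Finite K M) :
    Module.finrank K (M.map f) + Module.finrank K (M ⊓ LinearMap.ker f : Submodule K V)
      = Module.finrank K M := by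
  have h1 := LinearMap.finrank_range_add_finrank_ker (f.domRestrict M)
  have h2 : LinearMap.range (f.domRestrict M) = M.map f := LinearMap.range_domRestrict M f
  have h3 : Module.finrank K (LinearMap.ker (f.domRestrict M))
      = Module.finrank K (M ⊓ LinearMap.ker f : Submodule K V) := by
    have h4 : LinearMap.ker (f.domRestrict M) = (LinearMap.ker f).comap M.subtype := by
      ext x
      simp
    rw [h4, ← Submodule.map_comap_subtype]
    exact (LinearEquiv.finrank_eq (Submodule.equivMapOfInjective M.subtype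
      M.injective_subtype _))
  rw [h2, h3] at h1
  exact h1

theorem t_Rho (h1 : S_Cnt) (h2 : S_Prd) (h3 : S_Hil) (h4 : S_Frm) : S_Rho := by
  classical
  intro K _ _ l n δ B hδ hB
  obtain ⟨hfin, hrk⟩ := h1 K l n δ
  have hfin' := hfin
  set r : Rm K l n →ₗ[K] Rm K 1 n := (res K l n).toLinearMap with hr
  -- the image of all forms
  have himg : (Mh K n δ).map r = Fm K n (∑ k, δ k) := (h2 K l n δ δ).2
  have hrkF : Module.finrank K ((Mh K n δ).map r) = (∑ k, δ k + n).choose n := by
    rw [himg, (h1 K 1 n (fun _ => ∑ k, δ k)).2]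
    simp [Nf]
  have hA := Rho_rn r (Mh K n δ) hfin
  -- the forms which vanish on B
  have hVle : Vn B δ ≤ Mh K n δ := fun f hf => hf.1
  have hVfin : Module.Finite K (Vn B δ) := Submodule.finiteDimensional_of_le hVle
  have hBv := Rho_rn r (Vn B δ) hVfin
  -- the kernel of the restriction
  set Kd : Submodule K (Rm K l n) := Mh K n δ ⊓ LinearMap.ker r with hKd
  have hKfin : Module.Finite K Kd := Submodule.finiteDimensional_of_le (inf_le_left)
  have hC := Rho_rn (ev B) Kd hKfin
  have hev : ∀ (B' : Finset (Pt K l n)) (f : Rm K l n) (x : {x // x ∈ B'}),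
      ev B' f x = eval (x : Pt K l n) f := by
    intro B' f x
    simp [ev, aeval_eq_eval]
  have hKV : Kd ⊓ LinearMap.ker (ev B) = Vn B δ ⊓ LinearMap.ker r := by
    ext f
    constructor
    · rintro ⟨⟨hf1, hf2⟩, hf3⟩
      refine ⟨⟨hf1, fun x hx => ?_⟩, hf2⟩
      have h5 : ev B f = 0 := hf3
      have h6 := congrFun h5 ⟨x, hx⟩
      rw [hev] at h6
      exact h6
    · rintro ⟨⟨hf1, hf3⟩, hf2⟩
      refine ⟨⟨hf1, hf2⟩, ?_⟩
      rw [SetLike.mem_coe, LinearMap.mem_ker]
      funext x
      rw [hev]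
      exact hf3 x.1 x.2
  -- the Hilbert function
  obtain ⟨hH1, hH2, -⟩ := h3 K l n B δ δ
  -- the lower bound for the image of the kernel
  obtain ⟨-, -, hω⟩ := h4 K l n (offd B) (fun x hx => hB x (Finset.mem_filter.mp hx).1)
  obtain ⟨ω, hω1, hω2, hω3⟩ := hω (fun x hx => (Finset.mem_filter.mp hx).2)
  have hsub : ∀ x ∈ offd B, x ∈ B := fun x hx => (Finset.mem_filter.mp hx).1
  let T : ({x // x ∈ B} → K) →ₗ[K] ({x // x ∈ offd B} → K) :=
    { toFun := fun g x => (eval (x : Pt K l n) ω)⁻¹ * g ⟨x.1, hsub x.1 x.2⟩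
      map_add' := by
        intro g g'
        funext x
        simp [mul_add]
      map_smul' := by
        intro c g
        funext x
        simp only [Pi.smul_apply, smul_eq_mul, RingHom.id_apply]
        ring }
  have hle : (Mh K n (fun k => δ k - 1)).map (ev (offd B)) ≤ (Kd.map (ev B)).map T := by
    rintro _ ⟨F, hF, rfl⟩
    refine ⟨ev B (ω * F), ⟨ω * F, ⟨?_, ?_⟩, rfl⟩, ?_⟩
    · have h5 : ω * F ∈ Mh K n (fun _ : Fin l => 1) * Mh K n (fun k => δ k - 1) :=
        Submodule.mul_mem_mul hω1 hF
      rw [(h2 K l n (fun _ : Fin l => 1) (fun k => δ k - 1)).1] at h5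
      have h6 : (fun _ : Fin l => 1) + (fun k => δ k - 1) = δ := by
        funext k
        have := hδ k
        simp only [Pi.add_apply]
        omega
      rw [h6] at h5
      exact h5
    · rw [SetLike.mem_coe, LinearMap.mem_ker]
      change res K l n (ω * F) = 0
      rw [map_mul, hω2, zero_mul]
    · funext x
      change (eval (x : Pt K l n) ω)⁻¹ * (ev B (ω * F)) ⟨x.1, hsub x.1 x.2⟩ = _
      rw [hev, hev, map_mul, ← mul_assoc, inv_mul_cancel₀ (hω3 x.1 x.2), one_mul]
  have hbound : Hf (offd B) (fun k => δ k - 1) ≤ Module.finrank K (Kd.map (ev B)) := by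
    unfold Hf
    calc Module.finrank K ((Mh K n (fun k => δ k - 1)).map (ev (offd B)))
        ≤ Module.finrank K ((Kd.map (ev B)).map T) := Submodule.finrank_mono hle
      _ ≤ Module.finrank K (Kd.map (ev B)) := Submodule.finrank_map_le T _
  rw [hKV] at hC
  rw [hrkF, hrk] at hA
  omega

end Pool.Agent.Lib.MP_d01072_ag.Bp
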