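import Pool.Agent.Lib.MP_d01072_ag.Bp.Spec

/-! MP_d01072_ag, package Bp, module Rk: the rank of the derivative of the parametrisation of the
secant varieties is given by the forms with given double points. -/

set_option autoImplicit false

namespace Pool.Agent.Lib.MP_d01072_ag.Bp

open MvPolynomial

/-- every monomial of degree `d` is the product of an arrangement of variables -/
private theorem exists_arr {n : ℕ} : ∀ (d : ℕ) (s : Fin (n + 1) →₀ ℕ), s.degree = d →
    ∃ i : Fin d → Fin (n + 1),
      (∏ t, X (i t) : MvPolynomial (Fin (n + 1)) ℂ) = monomial s 1 := by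
  intro d
  induction d with
  | zero =>
    intro s hs
    refine ⟨Fin.elim0, ?_⟩
    have h0 : s = 0 := (Finsupp.degree_eq_zero_iff s).1 hs
    rw [h0, Finset.univ_eq_empty, Finset.prod_empty]
    rfl
  | succ d ih =>
    intro s hs
    have hne : s ≠ 0 := by
      rintro rfl
      rw [map_zero] at hs
      omega
    obtain ⟨x, hx⟩ := Finsupp.ne_iff.1 hne
    have hle : Finsupp.single x 1 ≤ s := by
      rw [Finsupp.single_le_iff]
      exact Nat.one_le_iff_ne_zero.2 hx
    obtain ⟨i, hi⟩ := ih (s - Finsupp.single x 1) (by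
      have h1 := congrArg Finsupp.degree (tsub_add_cancel_of_le hle)
      rw [map_add, Finsupp.degree_single, hs] at h1
      omega)
    refine ⟨Fin.cons x i, ?_⟩
    rw [Fin.prod_univ_succ]
    simp only [Fin.cons_zero, Fin.cons_succ]
    rw [hi, X, monomial_mul, one_mul, add_tsub_cancel_of_le hle]

private theorem finrank_V (n d : ℕ) :
    Module.finrank ℂ (homogeneousSubmodule (Fin (n + 1)) ℂ d) = (d + n).choose n := by
  classical
  have h1 : homogeneousSubmodule (Fin (n + 1)) ℂ d = Submodule.span ℂ (Set.range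
      fun s : {s // s ∈ (Finset.univ : Finset (Fin (n + 1))).finsuppAntidiag d} =>
        (monomial s.1 1 : MvPolynomial (Fin (n + 1)) ℂ)) := by
    rw [homogeneousSubmodule_eq_finsupp_supported, AddMonoidAlgebra.supported_eq_span_single]
    congr 1
    ext f
    constructor
    · rintro ⟨s, hs, rfl⟩
      refine ⟨⟨s, ?_⟩, rfl⟩
      rw [Finset.mem_finsuppAntidiag]
      refine ⟨?_, Finset.subset_univ _⟩
      rw [← Finsupp.degree_eq_sum]
      exact hs
    · rintro ⟨⟨s, hs⟩, rfl⟩
      refine ⟨s, ?_, rfl⟩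
      rw [Finset.mem_finsuppAntidiag, ← Finsupp.degree_eq_sum] at hs
      exact hs.1
  have h2 : LinearIndependent ℂ
      fun s : {s // s ∈ (Finset.univ : Finset (Fin (n + 1))).finsuppAntidiag d} =>
        (monomial s.1 1 : MvPolynomial (Fin (n + 1)) ℂ) := by
    have h3 := (basisMonomials (Fin (n + 1)) ℂ).linearIndependent.comp
      (fun s : {s // s ∈ (Finset.univ : Finset (Fin (n + 1))).finsuppAntidiag d} => s.1)
      Subtype.val_injective
    refine (linearIndependent_equiv' (Equiv.refl _) ?_).1 h3
    funext s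
    change (monomial s.1 1 : MvPolynomial (Fin (n + 1)) ℂ) = basisMonomials (Fin (n + 1)) ℂ s.1
    rw [coe_basisMonomials]
  rw [h1, finrank_span_eq_card h2, Fintype.card_coe, Finset.card_finsuppAntidiag_nat_eq_choose,
    Finset.card_univ, Fintype.card_fin]
  have h4 : n + 1 + d - 1 = d + n := by omega
  rw [h4]
  exact Nat.choose_symm_add

private theorem eval_pderiv_par (n d h : ℕ) (Z : Fin h × Fin (n + 1) → ℂ)
    (q : Fin h × Fin (n + 1)) (i : Fin d → Fin (n + 1)) :
    eval Z (pderiv q (par n d h i)) = eval (fun x => Z (q.1, x))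
      (pderiv q.2 (∏ t, X (i t) : MvPolynomial (Fin (n + 1)) ℂ)) := by
  classical
  have h1 : ∀ j : Fin h, (∏ t, X (j, i t) : MvPolynomial (Fin h × Fin (n + 1)) ℂ) =
      rename (fun x => (j, x)) (∏ t, X (i t) : MvPolynomial (Fin (n + 1)) ℂ) := by
    intro j
    rw [map_prod]
    simp only [rename_X]
  unfold par
  rw [map_sum, map_sum, Finset.sum_eq_single q.1]
  · obtain ⟨j, x⟩ := q
    rw [h1]
    have h2 : Function.Injective (fun x : Fin (n + 1) => (j, x)) := Prod.mk_right_injective j
    have h3 := pderiv_rename (R := ℂ) h2 x (∏ t, X (i t))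
    rw [h3, eval_rename]
    rfl
  · intro j _ hj
    have h4 : pderiv q (∏ t, X (j, i t) : MvPolynomial (Fin h × Fin (n + 1)) ℂ) = 0 := by
      refine pderiv_eq_zero_of_notMem_vars ?_
      rw [h1]
      intro hq
      have h5 := vars_rename (fun x => (j, x)) (∏ t, X (i t) : MvPolynomial (Fin (n + 1)) ℂ) hq
      rw [Finset.mem_image] at h5
      obtain ⟨x, -, hx⟩ := h5
      exact hj (congrArg Prod.fst hx)
    rw [h4, map_zero]
  · intro h
    exact absurd (Finset.mem_univ _) h

theorem t_Rk (h1 : S_Jac) : S_Rk := by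
  classical
  intro n d h Z
  set V : Submodule ℂ (MvPolynomial (Fin (n + 1)) ℂ) := homogeneousSubmodule (Fin (n + 1)) ℂ d
    with hV
  let φ : Fin h × Fin (n + 1) → (MvPolynomial (Fin (n + 1)) ℂ →ₗ[ℂ] ℂ) := fun q =>
    (aeval (fun x => Z (q.1, x)) : MvPolynomial (Fin (n + 1)) ℂ →ₐ[ℂ] ℂ).toLinearMap ∘ₗ
      (pderiv q.2 : Derivation ℂ (MvPolynomial (Fin (n + 1)) ℂ) _).toLinearMap
  let Φ : MvPolynomial (Fin (n + 1)) ℂ →ₗ[ℂ] (Fin h × Fin (n + 1) → ℂ) := LinearMap.pi φ
  have hΦ : ∀ f q, Φ f q = eval (fun x => Z (q.1, x)) (pderiv q.2 f) := fun f q => by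
    change aeval (fun x => Z (q.1, x)) (pderiv q.2 f) = _
    exact congrFun (congrArg DFunLike.coe (coe_aeval_eq_eval (fun x => Z (q.1, x)))) _
  let mo : (Fin d → Fin (n + 1)) → MvPolynomial (Fin (n + 1)) ℂ := fun i => ∏ t, X (i t)
  have hspan : V = Submodule.span ℂ (Set.range mo) := by
    apply le_antisymm
    · rw [hV, homogeneousSubmodule_eq_finsupp_supported,
        AddMonoidAlgebra.supported_eq_span_single]
      refine Submodule.span_le.2 ?_
      rintro _ ⟨s, hs, rfl⟩
      obtain ⟨i, hi⟩ := exists_arr d s hs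
      refine Submodule.subset_span ⟨i, ?_⟩
      exact hi
    · refine Submodule.span_le.2 ?_
      rintro _ ⟨i, rfl⟩
      have h2 := IsHomogeneous.prod (Finset.univ : Finset (Fin d))
        (fun t => (X (i t) : MvPolynomial (Fin (n + 1)) ℂ)) (fun _ => 1)
        (fun t _ => isHomogeneous_X _ _)
      rw [Finset.sum_const, Finset.card_univ, Fintype.card_fin, smul_eq_mul, mul_one] at h2
      exact h2
  obtain ⟨κ, a, ha, hsp, hli⟩ := exists_linearIndependent' ℂ (Φ ∘ mo)
  have : Finite κ := Finite.of_injective a ha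
  have : Fintype κ := Fintype.ofFinite κ
  let e := Fintype.equivFin κ
  refine ⟨Fintype.card κ, fun j => a (e.symm j), ?_, ?_⟩
  · refine h1 _ _ _ Z ?_
    have h2 := hli.comp e.symm e.symm.injective
    have h3 : (fun j => fun x => eval Z (pderiv x (par n d h (a (e.symm j))))) =
        ((Φ ∘ mo) ∘ a) ∘ e.symm := by
      funext j x
      rw [eval_pderiv_par]
      exact (hΦ _ _).symm
    rw [h3]
    exact h2
  · have hle : Dbl n d Z ≤ V := fun f hf => hf.1
    have : Module.Finite ℂ V := by
      refine Module.finite_of_finrank_pos ?_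
      rw [hV, finrank_V]
      exact Nat.choose_pos (by omega)
    have h2 : Module.finrank ℂ (Submodule.map Φ V) = Fintype.card κ := by
      rw [hspan, Submodule.map_span, ← Set.range_comp, ← hsp, finrank_span_eq_card hli]
    have h3 := LinearMap.finrank_range_add_finrank_ker (Φ.domRestrict V)
    have h5 : LinearMap.range (Φ.domRestrict V) = Submodule.map Φ V := by
      rw [LinearMap.domRestrict, LinearMap.range_comp, Submodule.range_subtype]
    have h6 : Module.finrank ℂ V = (d + n).choose n := finrank_V n d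
    rw [h5, h2, h6] at h3
    rw [← h3]
    congr 1
    have h4 : LinearMap.ker (Φ.domRestrict V) = (Dbl n d Z).comap V.subtype := by
      ext f
      rw [LinearMap.mem_ker, Submodule.mem_comap]
      constructor
      · intro hf
        refine ⟨f.2, fun j i => ?_⟩
        have h7 := congrFun hf (j, i)
        rw [LinearMap.domRestrict_apply, hΦ] at h7
        exact h7
      · intro hf
        funext q
        rw [LinearMap.domRestrict_apply, hΦ]
        exact hf.2 q.1 q.2
    rw [h4]
    exact (Submodule.comapSubtypeEquivOfLe hle).finrank_eq.symm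

end Pool.Agent.Lib.MP_d01072_ag.Bp
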