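import Pool.Agent.Lib.MP_d01072_ag.Bp.Spec

/-!
MP_d01072_ag, package Bp: semicontinuity of the rank.
-/

set_option autoImplicit false

namespace Pool.Agent.Lib.MP_d01072_ag.Bp

open MvPolynomial

private theorem Sem_sel {K α β : Type} [Field K] [Fintype α] [Fintype β] (N : Matrix α β K)
    (r : ℕ) (hr : N.rank = r) :
    ∃ J : Fin r → α, LinearIndependent K (fun i => N (J i)) := by
  classical
  obtain ⟨κ, a, ha, hspan, hli⟩ := exists_linearIndependent' K (fun i => N i)
  have : Finite κ := Finite.of_injective a ha
  have : Fintype κ := Fintype.ofFinite κ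
  have h1 : Module.finrank K (Submodule.span K (Set.range ((fun i => N i) ∘ a)))
      = Fintype.card κ := finrank_span_eq_card hli
  have h2 : N.rank = Module.finrank K (Submodule.span K (Set.range N.row)) :=
    Matrix.rank_eq_finrank_span_row N
  have h3 : Fintype.card κ = r := by
    rw [← h1, hspan, ← hr, h2]
    rfl
  let f : Fin r ≃ κ := (Fintype.equivFinOfCardEq h3).symm
  exact ⟨a ∘ f, hli.comp f f.injective⟩

private theorem Sem_sub {K α β : Type} [Field K] [Fintype α] [Fintype β] (A : Matrix α β K)
    (r : ℕ) (I : Fin r → α) (J : Fin r → β) (h : (A.submatrix I J).det ≠ 0) :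
    r ≤ A.rank := by
  classical
  have h1 : A.submatrix I J
      = (1 : Matrix α α K).submatrix I id * (A * (1 : Matrix β β K).submatrix id J) := by
    ext i j
    simp [Matrix.mul_apply, Matrix.one_apply]
  have hu : IsUnit (A.submatrix I J) :=
    (Matrix.isUnit_iff_isUnit_det _).2 (isUnit_iff_ne_zero.2 h)
  have h2 := Matrix.rank_of_isUnit _ hu
  rw [Fintype.card_fin] at h2
  calc r = (A.submatrix I J).rank := h2.symm
    _ ≤ (A * (1 : Matrix β β K).submatrix id J).rank := by
        rw [h1]
        exact Matrix.rank_mul_le_right _ _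
    _ ≤ A.rank := Matrix.rank_mul_le_left _ _

theorem t_Sem : S_Sem := by
  classical
  intro ρ α β _ _ M z0
  set N := M.map (eval z0) with hN
  obtain ⟨I, hI⟩ := Sem_sel N N.rank rfl
  have h1 : (N.submatrix I id).rank = N.rank := by
    have h := LinearIndependent.rank_matrix (M := N.submatrix I id) hI
    rw [h, Fintype.card_fin]
  have h2 : (N.submatrix I id).transpose.rank = N.rank := by
    rw [Matrix.rank_transpose, h1]
  obtain ⟨J, hJ⟩ := Sem_sel (N.submatrix I id).transpose N.rank h2
  have h3 : ((N.submatrix I J).transpose).det ≠ 0 := by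
    have hu : IsUnit (N.submatrix I J).transpose :=
      Matrix.linearIndependent_rows_iff_isUnit.1 hJ
    exact ((Matrix.isUnit_iff_isUnit_det _).1 hu).ne_zero
  rw [Matrix.det_transpose] at h3
  have hev : ∀ z : ρ → ℂ, eval z (M.submatrix I J).det
      = ((M.map (eval z)).submatrix I J).det := by
    intro z
    rw [RingHom.map_det]
    rfl
  refine ⟨(M.submatrix I J).det, ?_, fun z hz => ?_⟩
  · rw [hev z0]
    exact h3
  · rw [hev z] at hz
    exact Sem_sub _ _ I J hz

end Pool.Agent.Lib.MP_d01072_ag.Bp
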