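import Pool.Agent.Lib.MP_d01072_ag.Bp.Spec

/-! MP_d01072_ag, package Bp, module Tr1: general points of the hyperplane `x_0 = 0` impose
independent conditions on the forms with given double points. -/

set_option autoImplicit false

namespace Pool.Agent.Lib.MP_d01072_ag.Bp

open MvPolynomial

/-- the restriction to `x_0 = 0` -/
private noncomputable def rst (n : ℕ) :
    MvPolynomial (Fin (n + 2)) ℂ →ₗ[ℂ] MvPolynomial (Fin (n + 1)) ℂ :=
  ((Polynomial.lcoeff (MvPolynomial (Fin (n + 1)) ℂ) 0).restrictScalars ℂ) ∘ₗ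
    (finSuccEquiv ℂ (n + 1)).toLinearMap

private theorem rst_apply (n : ℕ) (f : MvPolynomial (Fin (n + 2)) ℂ) :
    rst n f = (finSuccEquiv ℂ (n + 1) f).coeff 0 := rfl

private theorem eval_rst (n : ℕ) (f : MvPolynomial (Fin (n + 2)) ℂ) (x : Fin (n + 1) → ℂ) :
    eval x (rst n f) = eval (hy x) f := by
  unfold hy
  rw [eval_eq_eval_mv_eval', ← Polynomial.coeff_zero_eq_eval_zero, Polynomial.coeff_map]
  rfl

private theorem rst_zero (n : ℕ) (f : MvPolynomial (Fin (n + 2)) ℂ) (hf : rst n f = 0) :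
    ∃ g, f = X 0 * g := by
  rw [rst_apply, ← Polynomial.X_dvd_iff] at hf
  obtain ⟨g, hg⟩ := hf
  refine ⟨(finSuccEquiv ℂ (n + 1)).symm g, ?_⟩
  apply (finSuccEquiv ℂ (n + 1)).injective
  rw [map_mul, finSuccEquiv_X_zero, AlgEquiv.apply_symm_apply, hg]

private theorem quot_hom (n d : ℕ) (f g : MvPolynomial (Fin (n + 2)) ℂ) (hfg : f = X 0 * g)
    (hf : f.IsHomogeneous (d + 1)) : g.IsHomogeneous d := by
  intro s hs
  have h1 : coeff (Finsupp.single 0 1 + s) f ≠ 0 := by
    rw [hfg, coeff_X_mul]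
    exact hs
  have h2 := hf h1
  rw [map_add, Finsupp.weight_single] at h2
  simp only [Pi.one_apply, smul_eq_mul, mul_one] at h2
  omega

private theorem quot_mem (n d h' : ℕ) (Z' : Fin h' × Fin (n + 2) → ℂ) (hZ : ∀ j, Z' (j, 0) ≠ 0)
    (f g : MvPolynomial (Fin (n + 2)) ℂ) (hfg : f = X 0 * g) (hf : f ∈ Dbl (n + 1) (d + 1) Z') :
    g ∈ Dbl (n + 1) d Z' := by
  obtain ⟨hf1, hf2⟩ := hf
  refine ⟨quot_hom n d f g hfg hf1, fun j i => ?_⟩
  set z : Fin (n + 2) → ℂ := fun x => Z' (j, x) with hz
  have hz0 : z 0 ≠ 0 := hZ j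
  have h1 := congrArg (eval z) hf1.sum_X_mul_pderiv
  rw [map_sum] at h1
  have h2 : ∑ i, eval z (X i * pderiv i f) = 0 := Finset.sum_eq_zero fun i _ => by
    rw [map_mul, hf2 j i, mul_zero]
  rw [h2, map_nsmul, nsmul_eq_mul] at h1
  have h3 : eval z f = 0 := by
    rcases mul_eq_zero.1 h1.symm with h | h
    · exact absurd h (Nat.cast_ne_zero.2 (Nat.succ_ne_zero d))
    · exact h
  rw [hfg, map_mul, eval_X] at h3
  have h4 : eval z g = 0 := (mul_eq_zero.1 h3).resolve_left hz0
  have h5 := hf2 j i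
  rw [hfg, pderiv_mul, map_add, map_mul, map_mul, eval_X, h4, mul_zero, zero_add] at h5
  exact (mul_eq_zero.1 h5).resolve_left hz0

/-- linearly independent polynomials in `u` points with nonzero determinant -/
private theorem exists_pts {m : ℕ} (u : ℕ) (g : Fin u → MvPolynomial (Fin m) ℂ)
    (hg : LinearIndependent ℂ g) :
    ∃ U : Fin u → Fin m → ℂ, (Matrix.of fun b a => eval (U b) (g a)).det ≠ 0 := by
  classical
  let v : (Fin m → ℂ) → (Fin u → ℂ) := fun x a => eval x (g a)
  have hspan : Submodule.span ℂ (Set.range v) = ⊤ := by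
    by_contra hne
    obtain ⟨f, hf0, hf⟩ := Submodule.exists_le_ker_of_lt_top _ (lt_top_iff_ne_top.2 hne)
    apply hf0
    let c : Fin u → ℂ := fun a => f (fun j => if a = j then 1 else 0)
    have h1 : ∀ w : Fin u → ℂ, f w = ∑ a, w a * c a := fun w => by
      rw [LinearMap.pi_apply_eq_sum_univ f w]
      rfl
    have h2 : ∑ a, c a • g a = 0 := by
      apply MvPolynomial.funext
      intro x
      rw [map_sum, map_zero]
      have h3 : f (v x) = 0 := hf (Submodule.subset_span ⟨x, rfl⟩)
      rw [h1] at h3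
      rw [← h3]
      refine Finset.sum_congr rfl fun a _ => ?_
      rw [smul_eval, mul_comm]
    have h4 := Fintype.linearIndependent_iff.1 hg c h2
    ext w
    rw [LinearMap.comp_apply, h1]
    simp [h4]
  obtain ⟨κ, a, ha, hsp, hli⟩ := exists_linearIndependent' ℂ v
  have hB := Module.Basis.mk hli (by rw [hsp, hspan])
  have : Finite κ := Module.Finite.finite_basis hB
  have : Fintype κ := Fintype.ofFinite κ
  have hc : Fintype.card κ = u := by
    have h5 := Module.finrank_eq_card_basis hB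
    rw [Module.finrank_fin_fun] at h5
    exact h5.symm
  let e : Fin u ≃ κ := (Fintype.equivFinOfCardEq hc).symm
  refine ⟨fun b => a (e b), ?_⟩
  have h6 : LinearIndependent ℂ (Matrix.of fun b c => eval (a (e b)) (g c)).row :=
    hli.comp e e.injective
  exact ((Matrix.isUnit_iff_isUnit_det _).1 (Matrix.linearIndependent_rows_iff_isUnit.1 h6)).ne_zero

private theorem finH (n m : ℕ) : Module.Finite ℂ (homogeneousSubmodule (Fin n) ℂ m) := by
  classical
  have h1 : homogeneousSubmodule (Fin n) ℂ m ≤ Submodule.span ℂ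
      (((Finset.univ : Finset (Fin n)).finsuppAntidiag m).image
        fun s => (monomial s 1 : MvPolynomial (Fin n) ℂ) : Finset _) := by
    rw [homogeneousSubmodule_eq_finsupp_supported, AddMonoidAlgebra.supported_eq_span_single]
    refine Submodule.span_mono ?_
    rintro _ ⟨s, hs, rfl⟩
    rw [Finset.coe_image]
    refine ⟨s, ?_, rfl⟩
    rw [Finset.mem_coe, Finset.mem_finsuppAntidiag]
    refine ⟨?_, Finset.subset_univ _⟩
    rw [← Finsupp.degree_eq_sum]
    exact hs
  exact Submodule.finiteDimensional_of_le h1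

theorem t_Tr1 : S_Tr1 := by
  classical
  intro n d h' u Z' hZ hu
  set V := Dbl (n + 1) (d + 1) Z' with hV
  have fin : ∀ m : ℕ, Module.Finite ℂ (Dbl (n + 1) m Z') := fun m => by
    have h1 : Dbl (n + 1) m Z' ≤ homogeneousSubmodule (Fin (n + 1 + 1)) ℂ m := fun f hf => hf.1
    have h2 : Module.Finite ℂ (homogeneousSubmodule (Fin (n + 1 + 1)) ℂ m) := finH (n + 2) m
    exact Submodule.finiteDimensional_of_le h1
  have finV : Module.Finite ℂ V := fin (d + 1)
  have finD : Module.Finite ℂ (Dbl (n + 1) d Z') := fin d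
  let ρ : V →ₗ[ℂ] MvPolynomial (Fin (n + 1)) ℂ := (rst n).domRestrict V
  have h1 : Module.finrank ℂ (LinearMap.ker ρ) ≤ Module.finrank ℂ (Dbl (n + 1) d Z') := by
    have h2 : (LinearMap.ker ρ).map V.subtype ≤
        (Dbl (n + 1) d Z').map (LinearMap.mulLeft ℂ (X 0 : MvPolynomial (Fin (n + 2)) ℂ)) := by
      rintro _ ⟨f, hf, rfl⟩
      obtain ⟨g, hg⟩ := rst_zero n f.1 hf
      exact ⟨g, quot_mem n d h' Z' hZ f.1 g hg f.2, hg.symm⟩
    calc Module.finrank ℂ (LinearMap.ker ρ)
        = Module.finrank ℂ ((LinearMap.ker ρ).map V.subtype) :=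
          (Submodule.finrank_map_subtype_eq V _).symm
      _ ≤ _ := Submodule.finrank_mono h2
      _ ≤ _ := Submodule.finrank_map_le _ _
  have h3 := LinearMap.finrank_range_add_finrank_ker ρ
  have h4 : u ≤ Module.finrank ℂ (LinearMap.range ρ) := by
    have h5 : Module.finrank ℂ V = Module.finrank ℂ (Dbl (n + 1) (d + 1) Z') := rfl
    omega
  obtain ⟨g0, hg0⟩ := exists_linearIndependent_of_le_finrank h4
  let g : Fin u → MvPolynomial (Fin (n + 1)) ℂ := fun a => (g0 a).1
  have hg : LinearIndependent ℂ g :=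
    hg0.map' (LinearMap.range ρ).subtype (Submodule.ker_subtype _)
  have hf : ∀ a, ∃ f : V, rst n f.1 = g a := fun a => (g0 a).2
  choose f hf using hf
  obtain ⟨U0, hU0⟩ := exists_pts u g hg
  let Mx : Matrix (Fin u) (Fin u) (MvPolynomial (Fin u × Fin (n + 1)) ℂ) :=
    Matrix.of fun b a => rename (fun x => (b, x)) (g a)
  have hev : ∀ U : Fin u × Fin (n + 1) → ℂ,
      eval U Mx.det = (Matrix.of fun b a => eval (fun x => U (b, x)) (g a)).det := fun U => by
    rw [RingHom.map_det]
    congr 1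
    ext b a
    rw [RingHom.mapMatrix_apply, Matrix.map_apply]
    simp only [Mx, Matrix.of_apply]
    rw [eval_rename]
    rfl
  refine ⟨Mx.det, fun h0 => ?_, fun U hU => ?_⟩
  · apply hU0
    have h6 := hev fun q => U0 q.1 q.2
    rw [h0, map_zero] at h6
    exact h6.symm
  · rw [hev] at hU
    let E : V →ₗ[ℂ] (Fin u → ℂ) := LinearMap.pi fun b =>
      (aeval (hy fun i => U (b, i)) : MvPolynomial (Fin (n + 2)) ℂ →ₐ[ℂ] ℂ).toLinearMap ∘ₗ V.subtype
    have hE : ∀ (v : V) (b : Fin u), E v b = eval (hy fun i => U (b, i)) v.1 := fun v b =>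
      congrFun (congrArg DFunLike.coe (coe_aeval_eq_eval (hy fun i => U (b, i)))) _
    have h7 : LinearIndependent ℂ fun a => E (f a) := by
      have h8 := Matrix.linearIndependent_cols_of_det_ne_zero hU
      have h9 : (fun a => E (f a)) =
          (Matrix.of fun b a => eval (fun x => U (b, x)) (g a)).col := by
        funext a b
        rw [hE, ← eval_rst, hf]
        rfl
      rw [h9]
      exact h8
    have h10 : u ≤ Module.finrank ℂ (LinearMap.range E) := by
      have h11 := finrank_span_eq_card h7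
      rw [Fintype.card_fin] at h11
      have h12 : Submodule.span ℂ (Set.range fun a => E (f a)) ≤ LinearMap.range E := by
        rw [Submodule.span_le]
        rintro _ ⟨a, rfl⟩
        exact ⟨f a, rfl⟩
      have h13 := Submodule.finrank_mono h12
      omega
    have h14 := LinearMap.finrank_range_add_finrank_ker E
    have h15 : LinearMap.ker E = (Dvn n (d + 1) Z' U).comap V.subtype := by
      ext v
      rw [LinearMap.mem_ker, Submodule.mem_comap]
      constructor
      · intro hv
        refine ⟨v.2, fun b => ?_⟩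
        have h16 := congrFun hv b
        rw [hE] at h16
        exact h16
      · intro hv
        funext b
        rw [hE]
        exact hv.2 b
    have hle : Dvn n (d + 1) Z' U ≤ V := fun x hx => hx.1
    have h17 : Module.finrank ℂ (LinearMap.ker E) = Module.finrank ℂ (Dvn n (d + 1) Z' U) := by
      rw [h15]
      exact (Submodule.comapSubtypeEquivOfLe hle).finrank_eq
    have h18 : Module.finrank ℂ V = Module.finrank ℂ (Dbl (n + 1) (d + 1) Z') := rfl
    omega

end Pool.Agent.Lib.MP_d01072_ag.Bp
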