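import Pool.Agent.Lib.MP_d01072_ag.Tf.Acl
import Pool.Agent.Lib.MP_d01072_ag.Tf.Stz
import Pool.Agent.Lib.MP_d01072_ag.Bp.AHn
import Pool.Agent.Lib.MP_d01072_ag.Bp.All
import Pool.Agent.Lib.MP_d01072_ag.Bp.Am
import Pool.Agent.Lib.MP_d01072_ag.Bp.Avd
import Pool.Agent.Lib.MP_d01072_ag.Bp.BadM
import Pool.Agent.Lib.MP_d01072_ag.Bp.Bas
import Pool.Agent.Lib.MP_d01072_ag.Bp.BcP
import Pool.Agent.Lib.MP_d01072_ag.Bp.Bn
import Pool.Agent.Lib.MP_d01072_ag.Bp.ClN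
import Pool.Agent.Lib.MP_d01072_ag.Bp.Cmb
import Pool.Agent.Lib.MP_d01072_ag.Bp.Cnt
import Pool.Agent.Lib.MP_d01072_ag.Bp.Cor
import Pool.Agent.Lib.MP_d01072_ag.Bp.Dec
import Pool.Agent.Lib.MP_d01072_ag.Bp.Dm
import Pool.Agent.Lib.MP_d01072_ag.Bp.DmE
import Pool.Agent.Lib.MP_d01072_ag.Bp.Ech
import Pool.Agent.Lib.MP_d01072_ag.Bp.FinL
import Pool.Agent.Lib.MP_d01072_ag.Bp.Fnl
import Pool.Agent.Lib.MP_d01072_ag.Bp.Frm
import Pool.Agent.Lib.MP_d01072_ag.Bp.Gap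
import Pool.Agent.Lib.MP_d01072_ag.Bp.Gp
import Pool.Agent.Lib.MP_d01072_ag.Bp.Gr
import Pool.Agent.Lib.MP_d01072_ag.Bp.Gr1
import Pool.Agent.Lib.MP_d01072_ag.Bp.Hil
import Pool.Agent.Lib.MP_d01072_ag.Bp.Hor
import Pool.Agent.Lib.MP_d01072_ag.Bp.Hs
import Pool.Agent.Lib.MP_d01072_ag.Bp.Ind
import Pool.Agent.Lib.MP_d01072_ag.Bp.Jac
import Pool.Agent.Lib.MP_d01072_ag.Bp.KerP
import Pool.Agent.Lib.MP_d01072_ag.Bp.Key
import Pool.Agent.Lib.MP_d01072_ag.Bp.NumM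
import Pool.Agent.Lib.MP_d01072_ag.Bp.NumP
import Pool.Agent.Lib.MP_d01072_ag.Bp.NumR
import Pool.Agent.Lib.MP_d01072_ag.Bp.Orth
import Pool.Agent.Lib.MP_d01072_ag.Bp.Par
import Pool.Agent.Lib.MP_d01072_ag.Bp.Prd
import Pool.Agent.Lib.MP_d01072_ag.Bp.Red
import Pool.Agent.Lib.MP_d01072_ag.Bp.Rel
import Pool.Agent.Lib.MP_d01072_ag.Bp.Rho
import Pool.Agent.Lib.MP_d01072_ag.Bp.Rk
import Pool.Agent.Lib.MP_d01072_ag.Bp.Sem
import Pool.Agent.Lib.MP_d01072_ag.Bp.Sep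
import Pool.Agent.Lib.MP_d01072_ag.Bp.Tr1

/-!
MP_d01072_ag, package Bp: the assembly of the modules.
-/

set_option autoImplicit false

namespace Pool.Agent.Lib.MP_d01072_ag.Bp

/-- the weak theorem of Alexander and Hirschowitz in all dimensions -/
theorem m_AHn : S_AHn :=
  have am : S_Am := t_Am t_Sem
  t_AHn (t_Rk t_Jac) am (t_Cor am (t_Bn am) (t_Ind am (t_Hs am t_Hor t_Tr1) t_ClN))

/-- the theorem for types with large parts -/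
theorem m_FinL : S_FinL :=
  have acl : Tf.S_Acl := Tf.t_Acl
  have gr : S_Gr := t_Gr t_Cnt t_Prd (t_Gr1 t_Cnt t_Ech)
  have hil : S_Hil := t_Hil t_Cnt t_Prd gr
  have frm : S_Frm := t_Frm t_Avd
  have bas : S_Bas := t_Bas t_Prd hil frm
  have bad : S_BadM := t_BadM t_Cnt gr hil bas (t_Rel t_Prd t_Avd frm) (t_Orth t_Prd)
    (t_Sep t_Prd frm) (t_Rho t_Cnt t_Prd hil frm) (t_Par acl bas (t_Dm acl t_DmE))
    (t_Fnl acl t_KerP t_BcP) (t_NumM t_NumP)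
  t_FinL t_NumR m_AHn t_All (t_Key Tf.t_Stz (t_Cmb acl t_Prd bad (t_Red bas) t_Dec) t_Gp)

/-- the theorem for types with a bounded number of parts -/
theorem m_Gap : S_Gap := t_Gap m_FinL

end Pool.Agent.Lib.MP_d01072_ag.Bp
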