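import Pool.Agent.Lib.MP_d01072_ag.Bp.Spec

/-!
MP_d01072_ag, package Bp, module NumM (helper39): the sum of the numbers in the main lemma.
-/

set_option autoImplicit false

namespace Pool.Agent.Lib.MP_d01072_ag.Bp

private lemma nf_pos {l : ℕ} (n : ℕ) (b : Fin l → ℕ) : (0 : ℝ) < Nf n b := by
  have : 0 < Nf n b := Finset.prod_pos fun k _ => Nat.choose_pos (by omega)
  exact_mod_cast this

theorem t_NumM (h1 : S_NumP) : S_NumM := by
  intro n a l m e β o h0 hq hh ht ho ρ Q g0 δ hn hl hla hδ hm hK1 hoβ hA hA' hB hB' hO hρ hQ hG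
  have hC1 : 1 ≤ Cc n a := Nat.one_le_pow _ _ (by omega)
  have ha : 1 ≤ a := hl.trans hla
  have hm1 : 1 ≤ m := by
    refine le_trans ?_ hm
    unfold Cm
    exact Nat.one_le_iff_ne_zero.2 (by positivity)
  obtain ⟨p1, p2, p3, p4⟩ := h1 n l m δ hn hm1 hδ
  -- real numbers
  have hnR : (1 : ℝ) ≤ n := by exact_mod_cast hn
  have haR : (1 : ℝ) ≤ a := by exact_mod_cast ha
  have hlR : (1 : ℝ) ≤ l := by exact_mod_cast hl
  have hlaR : (l : ℝ) ≤ a := by exact_mod_cast hla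
  have hcR : (1 : ℝ) ≤ Cc n a := by exact_mod_cast hC1
  have hβ0 : (0 : ℝ) ≤ β := Nat.cast_nonneg _
  have hN := nf_pos n δ
  set N : ℝ := (Nf n δ : ℝ) with hNdef
  set c : ℝ := (Cc n a : ℝ) with hc
  have hc0 : (0 : ℝ) < c := by linarith
  obtain ⟨u, hu⟩ : ∃ u : ℝ, u = β / c := ⟨_, rfl⟩
  have hu0 : 0 ≤ u := by rw [hu]; positivity
  have huc : c * u = β := by rw [hu]; field_simp
  have hnl : (n : ℝ) * l ≤ n * a := mul_le_mul_of_nonneg_left hlaR (by linarith)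
  have hnl0 : (0 : ℝ) < (n : ℝ) * l := by positivity
  have hna0 : (0 : ℝ) < (n : ℝ) * a := by positivity
  have hna1 : (1 : ℝ) ≤ (n : ℝ) * a := by nlinarith
  have hK0 : (K0 n a : ℝ) = 8 * ((n : ℝ) * a) ^ 2 * c := by
    unfold K0; push_cast; ring
  have hK0p : (0 : ℝ) < K0 n a := by rw [hK0]; positivity
  have hK01 : 1 ≤ K0 n a := by
    have : 0 < K0 n a := by exact_mod_cast hK0p
    omega
  have hmR : 64 * ((n : ℝ) * a) ^ 2 * c ≤ m := by
    have : ((Cm n a : ℕ) : ℝ) ≤ m := by exact_mod_cast hm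
    calc 64 * ((n : ℝ) * a) ^ 2 * c = ((Cm n a : ℕ) : ℝ) := by unfold Cm; push_cast; ring
      _ ≤ m := this
  have hm0 : (0 : ℝ) < m := by exact_mod_cast hm1
  -- (a)
  have e1 : (n : ℝ) * l * h0 ≤ 9 / 64 * u := by
    have q1 : (β : ℝ) * (Nf n (fun k => δ k - 1 - δ k / K0 n a) : ℝ) ≤ hq * N := by
      rw [hNdef]
      exact_mod_cast hA'
    have q2 := p1 (K0 n a) hK01
    have q3 : (β : ℝ) * (1 - (n : ℝ) * l * (1 / K0 n a + 1 / m)) * N ≤ hq * N := by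
      refine le_trans ?_ q1
      have := mul_le_mul_of_nonneg_left q2 hβ0
      linarith
    have q4 : (β : ℝ) * (1 - (n : ℝ) * l * (1 / K0 n a + 1 / m)) ≤ hq :=
      le_of_mul_le_mul_right q3 hN
    have q5 : (h0 : ℝ) + hq ≤ β := by exact_mod_cast hA
    have q6 : (h0 : ℝ) ≤ β * ((n : ℝ) * l * (1 / K0 n a + 1 / m)) := by nlinarith
    have q7 : (1 : ℝ) / K0 n a + 1 / m ≤ 9 / 64 / (((n : ℝ) * a) ^ 2 * c) := by
      have r1 : (1 : ℝ) / m ≤ 1 / (64 * ((n : ℝ) * a) ^ 2 * c) :=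
        one_div_le_one_div_of_le (by positivity) hmR
      have r2 : (1 : ℝ) / K0 n a = 8 / 64 / (((n : ℝ) * a) ^ 2 * c) := by
        rw [hK0]; field_simp; norm_num
      have r3 : (1 : ℝ) / (64 * ((n : ℝ) * a) ^ 2 * c) = 1 / 64 / (((n : ℝ) * a) ^ 2 * c) := by
        field_simp
      rw [r2]
      rw [r3] at r1
      calc _ ≤ 8 / 64 / (((n : ℝ) * a) ^ 2 * c) + 1 / 64 / (((n : ℝ) * a) ^ 2 * c) := by
            linarith
        _ = _ := by ring
    have hsq : ((n : ℝ) * l) ^ 2 ≤ ((n : ℝ) * a) ^ 2 := pow_le_pow_left₀ hnl0.le hnl 2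
    have hp0 : (0 : ℝ) ≤ 1 / K0 n a + 1 / m := by positivity
    calc (n : ℝ) * l * h0 ≤ n * l * (β * ((n : ℝ) * l * (1 / K0 n a + 1 / m))) :=
          mul_le_mul_of_nonneg_left q6 hnl0.le
      _ = β * ((n : ℝ) * l) ^ 2 * (1 / K0 n a + 1 / m) := by ring
      _ ≤ β * ((n : ℝ) * a) ^ 2 * (9 / 64 / (((n : ℝ) * a) ^ 2 * c)) := by
          refine mul_le_mul (mul_le_mul_of_nonneg_left hsq hβ0) q7 hp0 (by positivity)
      _ = 9 / 64 * u := by rw [hu]; field_simp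
  -- (b)
  have e2 : (hh : ℝ) ≤ β - u := by
    have q1 : (β : ℝ) * (Nf n (fun k => δ k / (8 * n)) : ℝ) ≤ ht * N := by
      rw [hNdef]
      exact_mod_cast hB'
    have q2 : N ≤ c * (Nf n (fun k => δ k / (8 * n)) : ℝ) := by
      have r1 : Nf n δ ≤ Cc n a * Nf n (fun k => δ k / (8 * n)) := by
        refine p2.trans (Nat.mul_le_mul_right _ ?_)
        unfold Cc
        exact Nat.pow_le_pow_right (by omega) (Nat.mul_le_mul_left _ hla)
      rw [hNdef, hc]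
      exact_mod_cast r1
    have hNt := nf_pos n (fun k => δ k / (8 * n))
    have ht0 : (0 : ℝ) ≤ ht := Nat.cast_nonneg _
    have q3 : (β : ℝ) * (Nf n (fun k => δ k / (8 * n)) : ℝ) ≤
        ht * c * (Nf n (fun k => δ k / (8 * n)) : ℝ) := by
      refine q1.trans ?_
      have := mul_le_mul_of_nonneg_left q2 ht0
      linarith
    have q4 : (β : ℝ) ≤ ht * c := le_of_mul_le_mul_right q3 hNt
    have q5 : u ≤ ht := by
      rw [hu, div_le_iff₀ hc0]; exact q4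
    have q6 : (hh : ℝ) + ht ≤ β := by exact_mod_cast hB
    linarith
  -- (c)
  have e3 : (ρ : ℝ) ≤ β - o + 1 / 64 * u := by
    have q1 : (o : ℝ) * (Nf n (fun k => δ k - 1) : ℝ) ≤ ho * N := by
      rw [hNdef]
      exact_mod_cast hO
    have o0 : (0 : ℝ) ≤ o := Nat.cast_nonneg _
    have q3 : (o : ℝ) * (1 - (n : ℝ) * l / m) * N ≤ ho * N := by
      refine le_trans ?_ q1
      have := mul_le_mul_of_nonneg_left p3 o0
      linarith
    have q4 : (o : ℝ) * (1 - (n : ℝ) * l / m) ≤ ho := le_of_mul_le_mul_right q3 hN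
    have q5 : (ρ : ℝ) + ho ≤ β := by exact_mod_cast hρ
    have q6 : (n : ℝ) * l / m ≤ 1 / 64 / c := by
      rw [div_le_iff₀ hm0]
      have r1 : (1 : ℝ) / 64 / c * (64 * ((n : ℝ) * a) ^ 2 * c) ≤ 1 / 64 / c * m :=
        mul_le_mul_of_nonneg_left hmR (by positivity)
      have r2 : (1 : ℝ) / 64 / c * (64 * ((n : ℝ) * a) ^ 2 * c) = ((n : ℝ) * a) ^ 2 := by
        field_simp
      rw [r2] at r1
      nlinarith
    have hoR : (o : ℝ) ≤ β := by exact_mod_cast hoβ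
    have q7 : (o : ℝ) * ((n : ℝ) * l / m) ≤ 1 / 64 * u := by
      calc (o : ℝ) * ((n : ℝ) * l / m) ≤ β * (1 / 64 / c) :=
            mul_le_mul hoR q6 (by positivity) hβ0
        _ = 1 / 64 * u := by rw [hu]; ring
    nlinarith
  -- (d)
  have e4 : (Q : ℝ) ≤ ρ + 1 / 8 * u := by
    have q1 : (Q : ℝ) * ((∑ k, δ k + n).choose n : ℝ) ≤
        ρ * ((∑ k, δ k + e + n).choose n : ℝ) := by exact_mod_cast hQ
    have hK : 2 * n ≤ K1 n a := by
      unfold K1
      nlinarith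
    have q2 := p4 (K1 n a) e hK hK1
    have hb0 : (0 : ℝ) < ((∑ k, δ k + n).choose n : ℝ) := by
      exact_mod_cast Nat.choose_pos (by omega)
    have ρ0 : (0 : ℝ) ≤ ρ := Nat.cast_nonneg _
    have q3 : (Q : ℝ) * ((∑ k, δ k + n).choose n : ℝ) ≤
        ρ * (1 + 2 * n / K1 n a) * ((∑ k, δ k + n).choose n : ℝ) := by
      refine q1.trans ?_
      have := mul_le_mul_of_nonneg_left q2 ρ0
      linarith
    have q4 : (Q : ℝ) ≤ ρ * (1 + 2 * n / K1 n a) := le_of_mul_le_mul_right q3 hb0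
    have q5 : (2 : ℝ) * n / K1 n a = 1 / 8 / c := by
      have : (K1 n a : ℝ) = 16 * n * c := by unfold K1; push_cast; ring
      rw [this]
      field_simp
      norm_num
    rw [q5] at q4
    have hρβ : (ρ : ℝ) ≤ β := by
      have : ρ ≤ β := by omega
      exact_mod_cast this
    have q6 : (ρ : ℝ) * (1 / 8 / c) ≤ 1 / 8 * u := by
      calc (ρ : ℝ) * (1 / 8 / c) ≤ β * (1 / 8 / c) :=
            mul_le_mul_of_nonneg_right hρβ (by positivity)
        _ = 1 / 8 * u := by rw [hu]; ring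
    linarith
  -- (e)
  have e5 : (g0 : ℝ) + (β - hh - o) ≤ n * β + n * l * h0 := by
    have q1 : ((g0 + (β - (hh + o)) : ℕ) : ℝ) ≤ ((n * β + n * l * h0 : ℕ) : ℝ) := by
      exact_mod_cast hG
    have q2 : (β : ℝ) ≤ ((β - (hh + o) : ℕ) : ℝ) + (hh + o) := by
      have : β ≤ (β - (hh + o)) + (hh + o) := by omega
      exact_mod_cast this
    push_cast at q1
    linarith
  have e6 : (g0 : ℝ) + Q ≤ (n + 1) * β - 1 / 2 * u := by linarith
  have e7 : 2 * c * ((g0 : ℝ) + Q) + β ≤ 2 * c * (n + 1) * β := by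
    have := mul_le_mul_of_nonneg_left e6 (by positivity : (0 : ℝ) ≤ 2 * c)
    nlinarith
  have e8 : ((2 * Cc n a * (g0 + Q) + β : ℕ) : ℝ) ≤ ((2 * Cc n a * (n + 1) * β : ℕ) : ℝ) := by
    push_cast
    exact e7
  exact_mod_cast e8

end Pool.Agent.Lib.MP_d01072_ag.Bp
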