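import Pool.Agent.Lib.MP_d01072_ag.Bp.Spec

/-!
MP_d01072_ag, package Bp, module Sep: a relation without zero coefficients on the values of the forms
of multidegree `q` at the points of `B` needs at least `min q + 2` points.
-/

set_option autoImplicit false

namespace Pool.Agent.Lib.MP_d01072_ag.Bp

open MvPolynomial

private theorem mul_mem_Mh' (h1 : S_Prd) {K : Type} [Field K] {l n : ℕ} {b c : Fin l → ℕ}
    {F G : Rm K l n} (hF : F ∈ Mh K n b) (hG : G ∈ Mh K n c) : F * G ∈ Mh K n (b + c) := by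
  rw [← (h1 K l n b c).1]
  exact Submodule.mul_mem_mul hF hG

private theorem sepForm (h1 : S_Prd) (h2 : S_Frm) {K : Type} [Field K] [Infinite K] {l n : ℕ}
    (B : Finset (Pt K l n)) (hB : ∀ x ∈ B, Nrm x) (x : Pt K l n) (hx : x ∈ B)
    (Y : Finset (Pt K l n)) : Y ⊆ B → x ∉ Y →
    ∃ b : Fin l → ℕ, (∀ k, b k ≤ Y.card) ∧ ∃ F ∈ Mh K n b, eval x F ≠ 0 ∧
      ∀ y ∈ Y, eval y F = 0 := by
  classical
  induction Y using Finset.induction_on with
  | empty =>
    intro _ _
    obtain ⟨P, hP, hP0⟩ := (h2 K l n B hB).1 0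
    exact ⟨0, fun k => by simp, P, hP, hP0 x hx, fun y hy => absurd hy (Finset.notMem_empty y)⟩
  | insert y Y hy ih =>
    intro hYB hxY
    have hyB : y ∈ B := hYB (Finset.mem_insert_self y Y)
    have hxy : x ≠ y := fun h => hxY (h ▸ Finset.mem_insert_self y Y)
    obtain ⟨b, hb, F, hF, hFx, hFY⟩ := ih (fun z hz => hYB (Finset.mem_insert_of_mem hz))
      (fun h => hxY (Finset.mem_insert_of_mem h))
    obtain ⟨k, P, hP, hPx, hPy⟩ := (h2 K l n B hB).2.1 x hx y hyB hxy
    refine ⟨Pi.single k 1 + b, fun j => ?_, P * F, mul_mem_Mh' h1 hP hF, ?_, ?_⟩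
    · rw [Finset.card_insert_of_notMem hy, Pi.add_apply]
      have h3 : (Pi.single k 1 : Fin l → ℕ) j ≤ 1 := by
        by_cases hj : j = k
        · subst hj; simp
        · simp [Pi.single_eq_of_ne hj]
      have := hb j
      omega
    · rw [map_mul]
      exact mul_ne_zero hPx hFx
    · intro z hz
      rw [map_mul]
      rcases Finset.mem_insert.1 hz with rfl | hz
      · rw [hPy, zero_mul]
      · rw [hFY z hz, mul_zero]

theorem t_Sep (h1 : S_Prd) (h2 : S_Frm) : S_Sep := by
  classical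
  intro K _ _ l n B q m lam hN hlam hrel hq hne
  by_contra hcard
  push Not at hcard
  obtain ⟨x, hx⟩ := hne
  obtain ⟨b, hb, F, hF, hFx, hFY⟩ := sepForm h1 h2 B hN x hx (B.erase x) (Finset.erase_subset x B)
    (Finset.notMem_erase x B)
  have hbq : ∀ k, b k ≤ q k := fun k => by
    have h3 := hb k
    rw [Finset.card_erase_of_mem hx] at h3
    have := hq k
    omega
  obtain ⟨P, hP, hP0⟩ := (h2 K l n B hN).1 (fun k => q k - b k)
  have hFP : F * P ∈ Mh K n q := by
    have h4 := mul_mem_Mh' h1 hF hP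
    have h5 : (b + fun k => q k - b k) = q := by
      funext k
      have := hbq k
      simp only [Pi.add_apply]
      omega
    rwa [h5] at h4
  have h6 := hrel (F * P) hFP
  rw [Finset.sum_eq_single_of_mem x hx] at h6
  · rw [map_mul] at h6
    exact mul_ne_zero (hlam x hx) (mul_ne_zero hFx (hP0 x hx)) h6
  · intro y hy hyx
    rw [map_mul, hFY y (Finset.mem_erase.2 ⟨hyx, hy⟩), zero_mul, mul_zero]

end Pool.Agent.Lib.MP_d01072_ag.Bp
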