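import Pool.Agent.Lib.MP_d01072_ag.Tf.Spec

/-!
MP_d01072_ag, package Bp: Comon's conjecture for general points of ALL secant varieties of ALL Veronese
varieties, types with a bounded number of parts, `d` large. Complete proof in words: `Bp/TEXT.md`
(refereed). Definitions and the statements of all modules, as Props, with proofs in the docstrings. The
modules are independent: the module `Xxx` is the file `Bp/Xxx.lean` (imports this file) with
`theorem t_Xxx (h1 : S_Yyy) … : S_Xxx`, where `S_Yyy, …` are the statements named in the docstring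
(`uses …`; `Tf.S_Acl` and `Tf.S_Stz` are statements of the package Tf, proved there). Auxiliary lemmas
private.

All rings are `Rm K l n`: polynomials in `l` groups of `n + 1` variables; the forms on `P^n` are those
with `l = 1`. A multidegree is a function `Fin l → ℕ`.
-/

set_option autoImplicit false

namespace Pool.Agent.Lib.MP_d01072_ag.Bp

open MvPolynomial

/-! ## Definitions -/

/-- polynomials in `l` groups of `n + 1` variables -/
abbrev Rm (K : Type) [Field K] (l n : ℕ) : Type := MvPolynomial (Fin l × Fin (n + 1)) K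

/-- `l` vectors of length `n + 1` -/
abbrev Pt (K : Type) (l n : ℕ) : Type := Fin l × Fin (n + 1) → K

/-- the forms of multidegree `b` -/
def Mh (K : Type) [Field K] {l : ℕ} (n : ℕ) (b : Fin l → ℕ) : Submodule K (Rm K l n) where
  carrier := {f | ∀ s, coeff s f ≠ 0 → ∀ k, ∑ i, s (k, i) = b k}
  add_mem' {f g} hf hg := fun s hs k => by
    by_cases h : coeff s f = 0
    · refine hg s (fun h' => hs ?_) k
      rw [coeff_add, h, h', add_zero]
    · exact hf s h k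
  zero_mem' := fun s hs => absurd (coeff_zero s) hs
  smul_mem' c f hf := fun s hs k => hf s (fun h => hs (by rw [coeff_smul, h, smul_zero])) k

/-- the forms of degree `m` on `P^n` -/
abbrev Fm (K : Type) [Field K] (n m : ℕ) : Submodule K (Rm K 1 n) := Mh K n (fun _ => m)

/-- the number of the monomials of multidegree `b` -/
def Nf {l : ℕ} (n : ℕ) (b : Fin l → ℕ) : ℕ := ∏ k, (b k + n).choose n

/-- restriction to the diagonal: all groups of variables are identified -/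
noncomputable def res (K : Type) [Field K] (l n : ℕ) : Rm K l n →ₐ[K] Rm K 1 n :=
  rename fun q => (0, q.2)

/-- the diagonal point of the vector `a` -/
def dg {K : Type} (l : ℕ) {n : ℕ} (a : Fin (n + 1) → K) : Pt K l n := fun q => a q.2

/-- normalised: in each group the first nonzero coordinate is `1` -/
def Nrm {K : Type} [Field K] {l n : ℕ} (x : Pt K l n) : Prop :=
  ∀ k, ∃ i, x (k, i) = 1 ∧ ∀ j, j < i → x (k, j) = 0

/-- diagonal points -/
def Dgl {K : Type} {l n : ℕ} (x : Pt K l n) : Prop := ∀ k k' i, x (k, i) = x (k', i)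

open Classical in
/-- the points of `B` outside the diagonal -/
noncomputable def offd {K : Type} {l n : ℕ} (B : Finset (Pt K l n)) : Finset (Pt K l n) :=
  B.filter fun x => ¬ Dgl x

/-- the forms of multidegree `b` which vanish on `B` -/
def Vn {K : Type} [Field K] {l n : ℕ} (B : Finset (Pt K l n)) (b : Fin l → ℕ) :
    Submodule K (Rm K l n) where
  carrier := {f | f ∈ Mh K n b ∧ ∀ x ∈ B, eval x f = 0}
  add_mem' {f g} hf hg := ⟨(Mh K n b).add_mem hf.1 hg.1, fun a ha => by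
    rw [map_add, hf.2 a ha, hg.2 a ha, add_zero]⟩
  zero_mem' := ⟨(Mh K n b).zero_mem, fun a _ => map_zero _⟩
  smul_mem' c f hf := ⟨(Mh K n b).smul_mem c hf.1, fun a ha => by
    rw [smul_eval, hf.2 a ha, mul_zero]⟩

/-- the values at the points of `B` -/
noncomputable def ev {K : Type} [Field K] {l n : ℕ} (B : Finset (Pt K l n)) :
    Rm K l n →ₗ[K] ({x // x ∈ B} → K) :=
  LinearMap.pi fun x => (aeval (x : Pt K l n) : Rm K l n →ₐ[K] K).toLinearMap

/-- the Hilbert function of `B` -/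
noncomputable def Hf {K : Type} [Field K] {l n : ℕ} (B : Finset (Pt K l n)) (b : Fin l → ℕ) : ℕ :=
  Module.finrank K ((Mh K n b).map (ev B))

/-- the functional `L` on the forms of degree `∑ δ + e` is given by the points of `B` and the
functionals `τ x` on the forms of degree `e` -/
def Rep {K : Type} [Field K] {l n : ℕ} (L : Rm K 1 n →ₗ[K] K) (δ : Fin l → ℕ) (e : ℕ)
    (B : Finset (Pt K l n)) (τ : Pt K l n → (Rm K 1 n →ₗ[K] K)) : Prop :=
  ∀ F ∈ Mh K n δ, ∀ G ∈ Fm K n e, L (res K l n F * G) = ∑ x ∈ B, eval x F * τ x G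

/-- the term at `x` is not zero and not the term of a power of a linear form -/
def Bad {K : Type} [Field K] {l n : ℕ} (e : ℕ) (x : Pt K l n) (t : Rm K 1 n →ₗ[K] K) : Prop :=
  (∃ G ∈ Fm K n e, t G ≠ 0) ∧
  ∀ a : Fin (n + 1) → K, x = dg l a → ∀ c : K, ∃ G ∈ Fm K n e, t G ≠ c * eval (dg 1 a) G

/-! The constants. `a` is an upper bound for the number `l` of the large parts. -/

/-- the constant `C` -/
def Cc (n a : ℕ) : ℕ := (8 * n) ^ (n * a)

/-- `b₀ = δ / K0` -/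
def K0 (n a : ℕ) : ℕ := 8 * n ^ 2 * a ^ 2 * Cc n a

/-- `K1 e ≤ ∑ δ` -/
def K1 (n a : ℕ) : ℕ := 16 * n * Cc n a

/-- lower bound for the large parts -/
def Cm (n a : ℕ) : ℕ := 64 * n ^ 2 * a ^ 2 * Cc n a

/-! ## Counting and leading monomials -/

/-- **Cnt**. The monomials of multidegree `b` are a basis of `Mh K n b` (`restrictSupport`,
`basisRestrictSupport`), and there are `∏ C(b k + n, n)` of them
(`Finset.card_finsuppAntidiag_nat_eq_choose` for each group, or `Sym`). -/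
def S_Cnt : Prop := ∀ (K : Type) [Field K] (l n : ℕ) (b : Fin l → ℕ),
    Module.Finite K (Mh K n b) ∧ Module.finrank K (Mh K n b) = Nf n b

/-- **Prd**. Products: a monomial of multidegree `b + c` is a product of a monomial of multidegree
`b` and
one of multidegree `c` (in each group choose a part of size `b k`). The restriction: a monomial of
degree
`∑ b` is the image of one of multidegree `b` (distribute the variables among the groups; for instance by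
induction on `∑ b` from the first part and `∑ b = 0`). -/
def S_Prd : Prop := ∀ (K : Type) [Field K] (l n : ℕ) (b c : Fin l → ℕ),
    Mh K n b * Mh K n c = Mh K n (b + c) ∧
    (Mh K n b).map (res K l n).toLinearMap = Fm K n (∑ k, b k)

/-- **Ech**. The number of leading monomials of a finite dimensional space. Choose for each leading
monomial `s` an `f_s ∈ W` with this leading monomial. They are linearly independent (look at the largest
`s` with nonzero coefficient). They span `W`: otherwise take `f ∈ W` outside their span with the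
smallest
degree (well-founded order `m.toSyn`), subtract the multiple of `f_s`, `s = m.degree f`. -/
def S_Ech : Prop := ∀ (K σ : Type) [Field K] [Finite σ] (m : MonomialOrder.{0, 0} σ)
    (W : Submodule K (MvPolynomial σ K)), Module.Finite K W →
    {s | ∃ f ∈ W, f ≠ 0 ∧ m.degree f = s}.Finite ∧
    {s | ∃ f ∈ W, f ≠ 0 ∧ m.degree f = s}.ncard = Module.finrank K W

/-- **Gr1** (uses `S_Cnt`, `S_Ech`). `m` = a lexicographic order of the variables (any linear order on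
`Fin l × Fin (n+1)`, e.g. from `Fintype.equivFin`; `MonomialOrder.lex`). `P`, `P'` = the leading
monomials
of `W`, of `W' = W * Mh e_k`. If `s ∈ P` then `s + single (k,i) 1 ∈ P'` for every `i` (product with the
variable). Count the pairs `(s, i)` with weight `s (k,i) + 1`:
`∑_{s ∈ P} ∑_i (s (k,i) + 1) = (b_k + n + 1) |P|`; the pairs are mapped injectively to the pairs
`(u, i)`,
`u ∈ P'`, with `u (k,i) ≥ 1`, weight `u (k,i)`, and `∑_i u (k,i) = b_k + 1`. -/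
def S_Gr1 : Prop := ∀ (K : Type) [Field K] (l n : ℕ) (b : Fin l → ℕ) (k : Fin l)
    (W : Submodule K (Rm K l n)), W ≤ Mh K n b →
    (b k + 1 + n) * Module.finrank K W ≤
      (b k + 1) * Module.finrank K (W * Mh K n (Pi.single k 1) : Submodule K (Rm K l n))

/-- **Gr** (uses `S_Cnt`, `S_Prd`, `S_Gr1`). Induction on `∑ c`: `Mh c * Mh e_k = Mh (c + e_k)` and
`(b_k + 1) Nf (b + e_k) = (b_k + 1 + n) Nf b`
(`(b_k + 1) C(b_k + 1 + n, n) = (b_k + 1 + n) C(b_k + n, n)`). -/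
def S_Gr : Prop := ∀ (K : Type) [Field K] (l n : ℕ) (b c : Fin l → ℕ)
    (W : Submodule K (Rm K l n)), W ≤ Mh K n b →
    Module.finrank K W * Nf n (b + c) ≤
      Module.finrank K (W * Mh K n c : Submodule K (Rm K l n)) * Nf n b

/-- **Hil** (uses `S_Cnt`, `S_Prd`, `S_Gr`). (1) Rank and nullity of `ev B` on `Mh b`, kernel
`Vn B b`. (2) clear.
(3) `S_Gr` for `W = Vn B b`; `Vn B b * Mh c ≤ Vn B (b + c)`; then (1) for `b` and for `b + c`. -/
def S_Hil : Prop := ∀ (K : Type) [Field K] (l n : ℕ) (B : Finset (Pt K l n)) (b c : Fin l → ℕ),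
    Hf B b + Module.finrank K (Vn B b) = Nf n b ∧ Hf B b ≤ B.card ∧
    Hf B (b + c) * Nf n b ≤ Hf B b * Nf n (b + c)

/-! ## Forms and points -/

/-- **Avd**. For each `i` the vectors of `W` with `w i = 0` are a proper subspace; a vector space
over an
infinite field is not a finite union of proper subspaces (or induction: `w + t w'` for all but finitely
many `t`). -/
def S_Avd : Prop := ∀ (K : Type) [Field K] [Infinite K] (ι : Type) [Finite ι]
    (W : Submodule K (ι → K)), (∀ i, ∃ w ∈ W, w i ≠ 0) → ∃ w ∈ W, ∀ i, w i ≠ 0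

/-- **Frm** (uses `S_Avd`). (1) For one point take the product of the powers of the coordinates equal to
`1`; `S_Avd` for the image of `Mh c` under `ev B`. (2) `x ≠ y` differ in some group `k`; the two vectors
`u = x (k,·)`, `v = y (k,·)` are not proportional (both are normalised by the first nonzero
coordinate); so
`u_i v_j ≠ u_j v_i` for some `i, j`: take `v_j X_(k,i) - v_i X_(k,j)`. (3) For one point `x`: groups
`k ≠ k'` with different vectors `u, v`, not proportional, `i, j` with `u_i v_j ≠ u_j v_i`; the minor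
`X_(k,i) X_(k',j) - X_(k,j) X_(k',i)` times the product over the other groups of the coordinate
equal to `1`;
its restriction is `0`. Then `S_Avd` for the image of `{ω ∈ Mh (1,…,1) : res ω = 0}` under `ev B`. -/
def S_Frm : Prop := ∀ (K : Type) [Field K] [Infinite K] (l n : ℕ) (B : Finset (Pt K l n)),
    (∀ x ∈ B, Nrm x) →
    (∀ c : Fin l → ℕ, ∃ P ∈ Mh K n c, ∀ x ∈ B, eval x P ≠ 0) ∧
    (∀ x ∈ B, ∀ y ∈ B, x ≠ y → ∃ (k : Fin l), ∃ P ∈ Mh K n (Pi.single k 1),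
      eval x P ≠ 0 ∧ eval y P = 0) ∧
    ((∀ x ∈ B, ¬ Dgl x) → ∃ ω ∈ Mh K n (fun _ : Fin l => 1), res K l n ω = 0 ∧
      ∀ x ∈ B, eval x ω ≠ 0)

/-- **Bas** (uses `S_Prd`, `S_Hil`, `S_Frm`). Linear algebra in the dual space: the evaluations at
the points of `B`
on `Mh b` span a space of dimension `Hf B b`, and `Hf B b = B.card` means that they are linearly
independent. (1) Extend the independent family of `B₀` to a basis of the span; then the forms which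
vanish on `B₁` vanish on `B`; `Hf B₁ b = Hf B b` by `S_Hil` (1). (2) Subfamilies. (3) If
`∑ c_x F(x) = 0` for all `F ∈ Mh b'` put `F = P F₀` with `P ∈ Mh (b' - b)` without zeros on `B`. -/
def S_Bas : Prop := ∀ (K : Type) [Field K] (l n : ℕ) (B : Finset (Pt K l n)) (b : Fin l → ℕ),
    (∀ B₀ ⊆ B, Hf B₀ b = B₀.card → ∃ B₁, B₀ ⊆ B₁ ∧ B₁ ⊆ B ∧ Vn B₁ b = Vn B b ∧
      Hf B₁ b = B₁.card ∧ B₁.card = Hf B b) ∧
    (Hf B b = B.card → ∀ B' ⊆ B, Hf B' b = B'.card) ∧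
    (Infinite K → (∀ x ∈ B, Nrm x) → Hf B b = B.card → ∀ b' : Fin l → ℕ, (∀ k, b k ≤ b' k) →
      Hf B b' = B.card)

/-! ## The relation -/

/-- **Rel** (uses `S_Prd`, `S_Avd`, `S_Frm`). `q = δ - 1`. The set of the vectors `(lam x)_(x ∈ B)` with
`∑ lam x F(x) = 0` for all `F ∈ Mh q` is a subspace; by `S_Avd` it is enough to find for each
`x ∈ B` one of
them with `lam x ≠ 0`. (a) `x` not diagonal: let `ω` be the form of `S_Frm` (3) for the set `{x}`,
`G` with `τ x G ≠ 0`. For `F ∈ Mh q`: `ω F ∈ Mh δ`, `res (ω F) = 0`, so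
`0 = ∑_y ω(y) F(y) τ y G`. (b) `x` diagonal, `x = dg l a`, `a_i = 1` for some `i` (`Nrm`, group
`k₀`). Claim: there are
`j` and a monomial `G'` of degree `e - 1` (so `e ≥ 1`) with `τ x (X_j G') ≠ a_j τ x (X_i G')`: otherwise
`τ x` of every monomial `X^s` of degree `e` is `a^s τ x (X_i^e)` (replace the variables one by one by
`X_i`), so `τ x = c eval (dg 1 a)` on `Fm e` with `c = τ x (X_i^e)`, against `Bad`. (For `e = 0`
the form `1` gives
`τ x = c eval` too.) Let `P ∈ Mh (1 - e_(k₀))` without zeros on `B` (`S_Frm` (1)). For `F ∈ Mh q`: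
`res (X_(k₀,i) P F) X_j G' = res (X_(k₀,j) P F) X_i G'`, so
`∑_y F(y) P(y) (y_(k₀,i) τ y (X_j G') - y_(k₀,j) τ y (X_i G')) = 0`, and the coefficient at `x` is
not `0`. -/
def S_Rel : Prop := ∀ (K : Type) [Field K] [Infinite K] (l n : ℕ) (δ : Fin l → ℕ) (e : ℕ)
    (B : Finset (Pt K l n)) (L : Rm K 1 n →ₗ[K] K) (τ : Pt K l n → (Rm K 1 n →ₗ[K] K)),
    1 ≤ l → (∀ k, 1 ≤ δ k) → (∀ x ∈ B, Nrm x) → Rep L δ e B τ → (∀ x ∈ B, Bad e x (τ x)) →
    ∃ lam : Pt K l n → K, (∀ x ∈ B, lam x ≠ 0) ∧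
      ∀ F ∈ Mh K n (fun k => δ k - 1), ∑ x ∈ B, lam x * eval x F = 0

/-- **Orth** (uses `S_Prd`). The subspaces `{(lam x F(x))_x : F ∈ Mh b}` and
`{(F'(x))_x : F' ∈ Mh (q - b)}` of `K^B` have
dimensions `Hf B b` (`lam` has no zeros) and `Hf B (q - b)` and are orthogonal for the standard bilinear
form (`F F' ∈ Mh q`). -/
def S_Orth : Prop := ∀ (K : Type) [Field K] (l n : ℕ) (B : Finset (Pt K l n)) (q b : Fin l → ℕ)
    (lam : Pt K l n → K), (∀ x ∈ B, lam x ≠ 0) →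
    (∀ F ∈ Mh K n q, ∑ x ∈ B, lam x * eval x F = 0) → (∀ k, b k ≤ q k) →
    Hf B b + Hf B (fun k => q k - b k) ≤ B.card

/-- **Sep** (uses `S_Prd`, `S_Frm`). Suppose `B.card ≤ m + 1`, `x ∈ B`. For each of the at most `m`
other points `y`
there is by `S_Frm` (2) a linear form in one group which vanishes at `y` and not at `x`. Their
product has
degree `≤ m ≤ q k` in the group `k`; multiply it by a form without zeros on `B` (`S_Frm` (1)) to get
`F ∈ Mh q` which vanishes at all `y ≠ x` and not at `x`: `lam x F(x) = 0`, a contradiction. -/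
def S_Sep : Prop := ∀ (K : Type) [Field K] [Infinite K] (l n : ℕ) (B : Finset (Pt K l n))
    (q : Fin l → ℕ) (m : ℕ) (lam : Pt K l n → K), (∀ x ∈ B, Nrm x) → (∀ x ∈ B, lam x ≠ 0) →
    (∀ F ∈ Mh K n q, ∑ x ∈ B, lam x * eval x F = 0) → (∀ k, m ≤ q k) → B.Nonempty →
    m + 2 ≤ B.card

/-- **Rho** (uses `S_Cnt`, `S_Prd`, `S_Hil`, `S_Frm`). Let `Kδ = ker (res) ∩ Mh δ`. `res` maps
`Mh δ` onto `Fm (∑ δ)`
(`S_Prd`), so `dim Fm (∑ δ) = dim Mh δ - dim Kδ` and
`dim res (Vn B δ) = dim Vn B δ - dim (Kδ ∩ Vn B δ)`; the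
difference is `Hf B δ - dim ev_B (Kδ)`. With `ω` from `S_Frm` (3) for `offd B`: `ω F ∈ Kδ` for
`F ∈ Mh (δ - 1)`, and the vectors `(ω(x) F(x))_(x ∈ offd B)` form a space of dimension
`Hf (offd B) (δ - 1)`; so
`dim ev_B (Kδ) ≥ Hf (offd B) (δ - 1)`. Finally `Hf B δ ≤ B.card`. -/
def S_Rho : Prop := ∀ (K : Type) [Field K] [Infinite K] (l n : ℕ) (δ : Fin l → ℕ)
    (B : Finset (Pt K l n)), (∀ k, 1 ≤ δ k) → (∀ x ∈ B, Nrm x) →
    (∑ k, δ k + n).choose n + Hf (offd B) (fun k => δ k - 1) ≤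
      Module.finrank K ((Vn B δ).map (res K l n).toLinearMap) + B.card

/-! ## Parameters -/

/-- **DmE**. Let `v_i = (F_i(z))_z ∈ E^Z`. If `∑ e_i v_i = 0`, `e_i ∈ E`, then `∑ e_i F_i ∈ Vn Z b`, so
`∑ e_i F_i(x) = 0` and all `e_i = 0`. So the `v_i` are linearly independent over `E`, hence over `K` (if
`∑ k_i v_i = 0` with `k_1 = 1`, apply an `E`-linear map `K → E` with `1 ↦ 1` to the coordinates).
They lie in
`(Mh b).map (ev Z)`. -/
def S_DmE : Prop := ∀ (K : Type) [Field K] (E : Subfield K) (l n : ℕ) (b : Fin l → ℕ)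
    (Z : Finset (Pt K l n)) (x : Pt K l n) (ι : Type) [Fintype ι] (F : ι → Rm K l n),
    (∀ z ∈ Z, ∀ q, z q ∈ E) → (∀ i, F i ∈ Mh K n b ∧ ∀ s, coeff s (F i) ∈ E) →
    (∀ f ∈ Vn Z b, eval x f = 0) → LinearIndependent E (fun i => eval x (F i)) →
    Fintype.card ι ≤ Hf Z b

/-- **Dm** (uses `Tf.S_Acl`, `S_DmE`). `E = Cl S`. Let `G` be a maximal subset of the set of the
coordinates of `x` which is algebraically independent over `E`; then all coordinates are algebraic over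
`E(G)`, so they are in `Cl (S ∪ G)`. (1) The monomials of degree `≤ m` in the elements of `G` are
linearly
independent over `E`, there are `C(m + w, w)` of them, `w = G.card`, and each is the value at `x` of a
monomial of multidegree `b` (each element of `G` is a coordinate `x (k,i)`; at most `m ≤ b k`
factors in the
group `k`; fill up with the coordinate equal to `1`). Apply `S_DmE`. (2) If `x` is diagonal every
monomial of
degree `≤ ∑ b` in the coordinates is such a value (distribute the factors among the groups). -/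
def S_Dm : Prop := ∀ (k K : Type) [Field k] [Field K] [Algebra k K] (S : Set K) (l n : ℕ)
    (b : Fin l → ℕ) (Z : Finset (Pt K l n)) (x : Pt K l n),
    (∀ z ∈ Z, ∀ q, z q ∈ Tf.Cl k S) → Nrm x → (∀ f ∈ Vn Z b, eval x f = 0) →
    ∃ G : Finset K, (∀ q, x q ∈ Tf.Cl k (S ∪ (G : Set K))) ∧
      (∀ m : ℕ, (∀ j, m ≤ b j) → (m + G.card).choose G.card ≤ Hf Z b) ∧
      (Dgl x → (∑ j, b j + G.card).choose G.card ≤ Hf Z b)

/-- **Par** (uses `Tf.S_Acl`, `S_Bas`, `S_Dm`). `B₀ ⊆ B₁ ⊆ B` from `S_Bas` (1), (3): `B₀` for `b0`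
(starting
from `∅`), `B₁` for `b1` (starting from `B₀`, independent in degree `b1` by `S_Bas` (3)). Elements to be
adjoined: for `x ∈ B₀` the coordinates different from `1`: at most `n l` (each group contains a
`1`), at most
`n` if `x` is diagonal; the same for diagonal `x ∈ B₁ \ B₀` (`≤ n`). For a non-diagonal
`x ∈ B \ B₀`: `S_Dm` with
`Z = B₀`, `b = b0`: `C(m + w, w) ≤ Hf B₀ b0 ≤ B.card < C(m+n+1, n+1)`, so `w ≤ n` (`C(m + w, w)` is
monotone in
`w`). For a diagonal `x ∈ B \ B₁`: `S_Dm` with `Z = B₁`, `b = b1`: `C(∑ b1 + w, w) < C(∑ b1 + n, n)`, so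
`w + 1 ≤ n`. The number of the latter points is at least `B.card - Hf B b1 - (offd B).card`
(`B₁.card = Hf B b1`). Sum: `G.card ≤ n B.card + n l B₀.card - #(diagonal points of B \ B₁)`. -/
def S_Par : Prop := ∀ (k K : Type) [Field k] [Field K] [Algebra k K] [IsAlgClosed K] (l n : ℕ)
    (B : Finset (Pt K l n)) (b0 b1 : Fin l → ℕ) (m : ℕ), 1 ≤ l → (∀ x ∈ B, Nrm x) →
    (∀ j, b0 j ≤ b1 j) → (∀ j, m ≤ b0 j) → B.card < (m + n + 1).choose (n + 1) →
    B.card < (∑ j, b1 j + n).choose n →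
    ∃ G : Finset K, (∀ x ∈ B, ∀ q, x q ∈ Tf.Cl k (G : Set K)) ∧
      G.card + (B.card - (Hf B b1 + (offd B).card)) ≤ n * B.card + n * l * Hf B b0

/-- **KerP**. Solutions over a subfield: copy of `Tf/KerP.lean` (with `Fin l × Fin (n+1)` instead of
`Fin 3` and the multidegree instead of the degree). -/
def S_KerP : Prop := ∀ (K : Type) [Field K] (E : Subfield K) (l n : ℕ) (B : Finset (Pt K l n))
    (b : Fin l → ℕ), (∀ x ∈ B, ∀ q, x q ∈ E) → ∀ f ∈ Vn B b,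
    f ∈ Submodule.span K {g : Rm K l n | g ∈ Vn B b ∧ ∀ s, coeff s g ∈ E}

/-- **BcP**. Basis completion by monomials: copy of `Tf/BcP.lean` (with `Fin 1 × Fin (n+1)` instead of
`Fin 3`). -/
def S_BcP : Prop := ∀ (K : Type) [Field K] (E : Subfield K) (n m q : ℕ) (P : Set (Rm K 1 n)),
    (∀ f ∈ P, f ∈ Fm K n m ∧ ∀ s, coeff s f ∈ E) →
    (m + n).choose n ≤ Module.finrank K (Submodule.span K P) + q →
    ∃ M : Finset (Fin 1 × Fin (n + 1) →₀ ℕ), M.card ≤ q ∧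
      ∀ (L : Rm K 1 n →ₗ[K] K) (E' : Subfield K), E ≤ E' →
      (∀ f ∈ P, L f ∈ E') → (∀ s ∈ M, L (monomial s 1) ∈ E') →
      ∀ s : Fin 1 × Fin (n + 1) →₀ ℕ, ∑ i, s (0, i) = m → L (monomial s 1) ∈ E'

/-- **Fnl** (uses `Tf.S_Acl`, `S_KerP`, `S_BcP`). `E = Cl G0`. `P` = all `res f * monomial t 1`,
`f ∈ Vn B δ` with coefficients in `E`, `t` of degree `e`; by `S_KerP` it spans
`res (Vn B δ) * Fm e`, and `L = 0` on `P`. `M` from `S_BcP`, `G = G0 ∪ {L (monomial s 1) : s ∈ M}`. -/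
def S_Fnl : Prop := ∀ (k K : Type) [Field k] [Field K] [Algebra k K] (l n : ℕ)
    (δ : Fin l → ℕ) (e Q : ℕ) (B : Finset (Pt K l n)) (L : Rm K 1 n →ₗ[K] K) (G0 : Finset K),
    (∀ x ∈ B, ∀ q, x q ∈ Tf.Cl k (G0 : Set K)) →
    (∀ f ∈ Vn B δ, ∀ g ∈ Fm K n e, L (res K l n f * g) = 0) →
    (∑ k, δ k + e + n).choose n ≤ Module.finrank K
      ((Vn B δ).map (res K l n).toLinearMap * Fm K n e : Submodule K (Rm K 1 n)) + Q →
    ∃ G : Finset K, G0 ⊆ G ∧ G.card ≤ G0.card + Q ∧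
      ∀ s : Fin 1 × Fin (n + 1) →₀ ℕ, ∑ i, s (0, i) = ∑ k, δ k + e →
        L (monomial s 1) ∈ Tf.Cl k (G : Set K)

/-! ## Numbers -/

/-- **NumP**. Products. `C(x + n, n) = ∏_(i=1..n) (x + i) / i`. (1) If `K = 1` the left side is
`≤ 0` (or
`l = 0`). For `K ≥ 2` nothing is truncated, and each of the `n l` factors of the quotient is
`(δ_k - 1 - δ_k / K + i) / (δ_k + i) ≥ 1 - (1 / K + 1 / m)`; `∏ (1 - x_j) ≥ 1 - ∑ x_j` (if
`1 / K + 1 / m > 1` the left side is negative or `l = 0`). (2) `8 n (t + i) ≥ δ + i` for `t = δ / (8 n)`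
(`8 n (t + 1) ≥ δ + 1`). (3) `C(δ - 1 + n, n) / C(δ + n, n) = δ / (δ + n) ≥ 1 - n / m`. (4)
`s = ∑ δ`: if
`s = 0` then `e = 0`. Otherwise each factor of the quotient is `(s + e + i) / (s + i) ≤ 1 + e / s ≤
1 + 1 / K`, and `(1 + 1 / K)^n ≤ exp (n / K) ≤ 1 + 2 n / K`. -/
def S_NumP : Prop := ∀ (n l m : ℕ) (δ : Fin l → ℕ), 1 ≤ n → 1 ≤ m → (∀ k, m ≤ δ k) →
    (∀ K : ℕ, 1 ≤ K → (1 - (n : ℝ) * l * (1 / K + 1 / m)) * Nf n δ ≤
      Nf n (fun k => δ k - 1 - δ k / K)) ∧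
    Nf n δ ≤ (8 * n) ^ (n * l) * Nf n (fun k => δ k / (8 * n)) ∧
    (1 - (n : ℝ) * l / m) * Nf n δ ≤ Nf n (fun k => δ k - 1) ∧
    ∀ K e : ℕ, 2 * n ≤ K → K * e ≤ ∑ k, δ k →
      ((∑ k, δ k + e + n).choose n : ℝ) ≤ (1 + 2 * n / K) * (∑ k, δ k + n).choose n

/-- **NumM** (uses `S_NumP`). Real numbers; `C = Cc n a ≥ (8n)^(n l)`. `h0 ≤ β (1 - Nf (..) / Nf δ) ≤
β n l (1 / K0 + 1 / m)`, so `n l h0 ≤ β (1/(8C) + 1/(64C))`. `β - h1 ≥ ht ≥ β / C`. `ρ ≤ β - ho ≤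
β - o (1 - n l / m) ≤ β - o + β / (64 C)`; `Q ≤ ρ (1 + 2 n / K1) = ρ (1 + 1/(8C)) ≤
β - o + β / (64 C) + β / (8 C)`. `g0 ≤ n β + n l h0 - max(0, β / C - o)`. Sum:
`g0 + Q ≤ (n + 1) β - max(o, β / C) + (9/32) β / C ≤ (n + 1) β - β / (2 C)`. -/
def S_NumM : Prop := ∀ (n a l m e β o h0 hq h1 ht ho ρ Q g0 : ℕ) (δ : Fin l → ℕ), 1 ≤ n →
    1 ≤ l → l ≤ a → (∀ k, m ≤ δ k) → Cm n a ≤ m → K1 n a * e ≤ ∑ k, δ k → o ≤ β →
    h0 + hq ≤ β → β * Nf n (fun k => δ k - 1 - δ k / K0 n a) ≤ hq * Nf n δ →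
    h1 + ht ≤ β → β * Nf n (fun k => δ k / (8 * n)) ≤ ht * Nf n δ →
    o * Nf n (fun k => δ k - 1) ≤ ho * Nf n δ → ρ + ho ≤ β →
    Q * (∑ k, δ k + n).choose n ≤ ρ * (∑ k, δ k + e + n).choose n →
    g0 + (β - (h1 + o)) ≤ n * β + n * l * h0 →
    2 * Cc n a * (g0 + Q) + β ≤ 2 * Cc n a * (n + 1) * β

/-- **NumR**. Only limits for `d → ∞`, `n`, `a`, `E` fixed. `K = K1 n a`, `s = ∑ δ`, so
`d - s ≤ d / (K + 1)`. (1) `d ≤ a δ k`. (2), (6) `d` large. (3) `(K + 1) (d - s) ≤ d`. (4)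
`r ≤ ((d+n).choose n + E) / (n + 1)` is at most a constant times `d^n`, the right side is at least
`(d / (a K0) - 2)^(n+1) / (n+1)!`. (5) `∑ (δ k - 1 - δ k / (8n)) ≥ (1 - 1/(8n)) s - a ≥
(1 - 1/(8n)) (1 - 1/(16n)) d - a ≥ (1 - 3/(16n)) d - a`; divided by `C(d+n,
n)` the right side is at least
`∏_(i=1..n) ((1 - 3/(16n)) d - a + i) / (d + i) → (1 - 3/(16n))^n ≥ 13/16`, and
`r ≤ (C(d+n,n) + E) / 2`. -/
def S_NumR : Prop := ∀ n a E : ℕ, 1 ≤ n → 1 ≤ a → ∃ D : ℕ, 1 ≤ D ∧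
    ∀ (d l r : ℕ) (δ : Fin l → ℕ), D ≤ d → 1 ≤ l → l ≤ a → (∀ k, d ≤ a * δ k) →
    ∑ k, δ k ≤ d → (K1 n a + 1) * (d - ∑ k, δ k) ≤ d → (n + 1) * r ≤ (d + n).choose n + E →
    (∀ k, d / a ≤ δ k) ∧ Cm n a ≤ d / a ∧ K1 n a * (d - ∑ k, δ k) ≤ ∑ k, δ k ∧
    r < (d / a / K0 n a + n + 1).choose (n + 1) ∧
    r < (∑ k, (δ k - 1 - δ k / (8 * n)) + n).choose n ∧ 2 * Cc n a * E < d / a

/-! ## The main lemma -/

/-- **BadM** (uses `S_Cnt`, `S_Gr`, `S_Hil`, `S_Bas`, `S_Rel`, `S_Orth`, `S_Sep`, `S_Rho`, `S_Par`,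
`S_Fnl`, `S_NumM`).
`β = B.card`, `q = δ - 1`, `lam` from `S_Rel`. First claim: `S_Sep` with `m - 1`. `b0 = δ / K0`,
`b1 = q - t`, `t = δ / (8n)` (so `q - b1 = t`, `b0 ≤ b1`, since `δ k ≥ Cm ≥ 64`), `m / K0 ≤ b0`.
`S_Orth` for
`b0` and for `b1`: `h0 = Hf B b0`, `hq = Hf B (q - b0)`, `h1 = Hf B b1`, `ht = Hf B t`. `S_Hil` (3) and
`Hf B δ = β`: `β Nf (q - b0) ≤ hq Nf δ`, `β Nf t ≤ ht Nf δ`. `o = (offd B).card`, `ho = Hf (offd B) q`,
`Hf (offd B) δ = o` (`S_Bas` (2)), `o Nf q ≤ ho Nf δ` (`S_Hil` (3)). `W = res (Vn B δ) ≤ Fm (∑ δ)`,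
`ρ = C(∑ δ + n, n) - dim W`, `ρ + ho ≤ β` by `S_Rho`. `Q = C(∑ δ + e + n, n) - dim (W * Fm e)`, and
`Q C(∑ δ + n, n) ≤ ρ C(∑ δ + e + n, n)` by `S_Gr` for `l = 1`
(`Nf n (fun _ : Fin 1 => m) = C(m + n, n)`).
`G0` from `S_Par`, `G` from `S_Fnl`: `L (res f * g) = ∑ f(x) τ x g = 0` for `f ∈ Vn B δ` (`Rep`).
`S_NumM`. -/
def S_BadM : Prop := ∀ (k K : Type) [Field k] [Field K] [Algebra k K] [IsAlgClosed K]
    (a l n m e : ℕ) (δ : Fin l → ℕ) (B : Finset (Pt K l n)) (L : Rm K 1 n →ₗ[K] K)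
    (τ : Pt K l n → (Rm K 1 n →ₗ[K] K)), 1 ≤ n → 1 ≤ l → l ≤ a → (∀ j, m ≤ δ j) → Cm n a ≤ m →
    K1 n a * e ≤ ∑ j, δ j → B.card < (m / K0 n a + n + 1).choose (n + 1) →
    B.card < (∑ j, (δ j - 1 - δ j / (8 * n)) + n).choose n →
    (∀ x ∈ B, Nrm x) → Hf B δ = B.card → Rep L δ e B τ → (∀ x ∈ B, Bad e x (τ x)) →
    (B.Nonempty → m + 1 ≤ B.card) ∧
    ∃ G : Finset K, 2 * Cc n a * G.card + B.card ≤ 2 * Cc n a * (n + 1) * B.card ∧
      ∀ s : Fin 1 × Fin (n + 1) →₀ ℕ, ∑ i, s (0, i) = ∑ j, δ j + e →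
        L (monomial s 1) ∈ Tf.Cl k (G : Set K)

/-- **Red** (uses `S_Bas`). `B₁ ⊆ A` from `S_Bas` (1) with `B₀ = ∅`. For `x ∈ A` the evaluation at
`x` on
`Mh δ` vanishes where the evaluations at `B₁` vanish, so it is a linear combination of them; this gives
`τ'` with `Rep L δ e B₁ τ'`. `B` = the `x ∈ B₁` with `Bad e x (τ' x)`. The other `x ∈ B₁`: either
`τ' x = 0` on
`Fm e` (drop it), or `x = dg l a`, `τ' x = c eval (dg 1 a)` on `Fm e`: put `a` in `Cg` with `w a = c`;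
`F(x) τ' x G = c (res F * G)(dg 1 a)`, and `a` has a coordinate `1` by `Nrm`, `l ≥ 1`. -/
def S_Red : Prop := ∀ (K : Type) [Field K] (l n : ℕ) (δ : Fin l → ℕ) (e : ℕ)
    (A : Finset (Pt K l n)) (L : Rm K 1 n →ₗ[K] K) (τ : Pt K l n → (Rm K 1 n →ₗ[K] K)),
    1 ≤ l → (∀ x ∈ A, Nrm x) → Rep L δ e A τ →
    ∃ (B : Finset (Pt K l n)) (Cg : Finset (Fin (n + 1) → K)) (w : (Fin (n + 1) → K) → K)
      (τ' : Pt K l n → (Rm K 1 n →ₗ[K] K)), B.card + Cg.card ≤ A.card ∧ (∀ x ∈ B, Nrm x) ∧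
      (∀ a ∈ Cg, ∃ i, a i = 1) ∧ Hf B δ = B.card ∧
      Rep (L - ∑ a ∈ Cg, w a • (aeval (dg 1 a) : Rm K 1 n →ₐ[K] K).toLinearMap) δ e B τ' ∧
      ∀ x ∈ B, Bad e x (τ' x)

/-- **Dec**. From the decomposition to the functional; compare `Tf/Dec.lean`. `L (monomial s 1)` = the
entry of the tensor at an arrangement `i` with content `s` (`0` for other degrees); by symmetry the
choice
does not matter. For each monomial `b` of degree `e = d - ∑ δ` choose an arrangement `i_b` in the slots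
outside the groups `κ j`; `τ'_j (X^b) = ∏_(t outside) v j (c t) (i_b t)`. For a monomial `F` of
multidegree
`δ` fill the slots of the groups `κ j` accordingly: `L (res F * X^b) = ∑_j F(v j ∘ κ) τ'_j (X^b)`, where
`(v j ∘ κ) (k, i) = v j (κ k) i`. The terms with `v j (κ k) = 0` for some `k` vanish (`δ k ≥ 1`).
For the
others divide each vector by its first nonzero coordinate `s_(j,k)`:
`F(v j ∘ κ) = ∏ s_(j,k)^(δ k) F(x_j)`,
`x_j` normalised. `A` = the set of the `x_j`, `τ x = ∑_(j : x_j = x) ∏ s_(j,k)^(δ k) τ'_j`. -/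
def S_Dec : Prop := ∀ (K : Type) [Field K] (n d p l : ℕ) (c : Fin d → Fin p) (κ : Fin l → Fin p)
    (r : ℕ) (v : Fin r → Fin p → Fin (n + 1) → K), Function.Injective κ →
    (∀ j, 1 ≤ size c (κ j)) →
    (∀ (σ : Equiv.Perm (Fin d)) (i : Fin d → Fin (n + 1)),
      ∑ j, ∏ t, v j (c t) (i (σ t)) = ∑ j, ∏ t, v j (c t) (i t)) →
    ∃ (L : Rm K 1 n →ₗ[K] K) (A : Finset (Pt K l n)) (τ : Pt K l n → (Rm K 1 n →ₗ[K] K)),
      A.card ≤ r ∧ (∀ x ∈ A, Nrm x) ∧
      Rep L (fun j => size c (κ j)) (d - ∑ j, size c (κ j)) A τ ∧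
      ∀ i : Fin d → Fin (n + 1), L (monomial (∑ t, Finsupp.single (0, i t) 1) 1) =
        ∑ j, ∏ t, v j (c t) (i t)

/-- **Cmb** (uses `Tf.S_Acl`, `S_Prd`, `S_BadM`, `S_Red`, `S_Dec`). `δ j = size c (κ j)`, `e = d - ∑ δ`;
`∑ δ + e = d` (`κ` injective, `sum_size`). `L`, `A` from `S_Dec`, `B`, `Cg`, `w` from `S_Red`, `L'` the
difference. (a) `B` empty: `L' = 0` on `res (Mh δ) * Fm e = Fm d` (`S_Prd`), so the entries are
`∑_(a ∈ Cg) w a ∏ a (i t)`; take `d`-th roots of the `w a` (`d ≥ m ≥ 1`) and fill up with zero vectors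
(`Cg.card ≤ r`). (b) `B` nonempty: `S_BadM` for `L'`; `G` = the set of `S_BadM`, the `w a` and the
coordinates
`≠ 1` of the `a ∈ Cg`: `2C G.card ≤ 2C(n+1) B.card - B.card + 2C(n+1) Cg.card`, `B.card ≥ m + 1`. -/
def S_Cmb : Prop := ∀ (K : Type) [Field K] [Algebra ℂ K] [IsAlgClosed K] (n a d p l m : ℕ)
    (c : Fin d → Fin p) (κ : Fin l → Fin p) (r : ℕ) (v : Fin r → Fin p → Fin (n + 1) → K),
    1 ≤ n → 1 ≤ l → l ≤ a → Function.Injective κ → (∀ j, m ≤ size c (κ j)) → Cm n a ≤ m →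
    K1 n a * (d - ∑ j, size c (κ j)) ≤ ∑ j, size c (κ j) →
    r < (m / K0 n a + n + 1).choose (n + 1) →
    r < (∑ j, (size c (κ j) - 1 - size c (κ j) / (8 * n)) + n).choose n →
    (∀ (σ : Equiv.Perm (Fin d)) (i : Fin d → Fin (n + 1)),
      ∑ j, ∏ t, v j (c t) (i (σ t)) = ∑ j, ∏ t, v j (c t) (i t)) →
    (∃ u : Fin r → Fin (n + 1) → K, ∀ i : Fin d → Fin (n + 1),
      ∑ j, ∏ t, v j (c t) (i t) = ∑ j, ∏ t, u j (i t)) ∨
    ∃ G : Finset K, 2 * Cc n a * G.card + m + 1 ≤ 2 * Cc n a * (n + 1) * r ∧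
      ∀ i : Fin d → Fin (n + 1), ∑ j, ∏ t, v j (c t) (i t) ∈ Tf.Cl ℂ (G : Set K)

/-! ## Double points -/

/-- the forms of degree `d` on `P^n` which are singular at the `h` points `Z` -/
def Dbl (n d : ℕ) {h : ℕ} (Z : Fin h × Fin (n + 1) → ℂ) :
    Submodule ℂ (MvPolynomial (Fin (n + 1)) ℂ) where
  carrier := {f | f.IsHomogeneous d ∧ ∀ j i, eval (fun x => Z (j, x)) (pderiv i f) = 0}
  add_mem' {f g} hf hg := ⟨hf.1.add hg.1, fun j i => by
    rw [map_add, map_add, hf.2 j i, hg.2 j i, add_zero]⟩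
  zero_mem' := ⟨isHomogeneous_zero _ _ _, fun j i => by rw [map_zero, map_zero]⟩
  smul_mem' c f hf := ⟨(homogeneousSubmodule (Fin (n + 1)) ℂ d).smul_mem c hf.1, fun j i => by
    rw [Derivation.map_smul, smul_eval, hf.2 j i, mul_zero]⟩

/-- the smallest dimension of `Dbl n d Z` -/
noncomputable def am (n d h : ℕ) : ℕ :=
  sInf (Set.range fun Z : Fin h × Fin (n + 1) → ℂ => Module.finrank ℂ (Dbl n d Z))

/-- the point `(0, y)` of the hyperplane `x_0 = 0` -/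
def hy {n : ℕ} (y : Fin (n + 1) → ℂ) : Fin (n + 2) → ℂ := Fin.cons 0 y

/-- the points `Z'` and the points `(0, U_j)` together -/
def jn {n h' u : ℕ} (Z' : Fin h' × Fin (n + 2) → ℂ) (U : Fin u × Fin (n + 1) → ℂ) :
    Fin (h' + u) × Fin (n + 2) → ℂ :=
  fun q => Fin.append (fun j i => Z' (j, i)) (fun j => hy fun i => U (j, i)) q.1 q.2

/-- the elements of `Dbl (n + 1) d Z'` which vanish at the points `(0, U_j)` -/
def Dvn (n d : ℕ) {h' u : ℕ} (Z' : Fin h' × Fin (n + 2) → ℂ) (U : Fin u × Fin (n + 1) → ℂ) :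
    Submodule ℂ (MvPolynomial (Fin (n + 2)) ℂ) where
  carrier := {f | f ∈ Dbl (n + 1) d Z' ∧ ∀ j, eval (hy fun i => U (j, i)) f = 0}
  add_mem' {f g} hf hg := ⟨(Dbl (n + 1) d Z').add_mem hf.1 hg.1, fun j => by
    rw [map_add, hf.2 j, hg.2 j, add_zero]⟩
  zero_mem' := ⟨(Dbl (n + 1) d Z').zero_mem, fun j => map_zero _⟩
  smul_mem' c f hf := ⟨(Dbl (n + 1) d Z').smul_mem c hf.1, fun j => by
    rw [smul_eval, hf.2 j, mul_zero]⟩

/-- **Jac**. Jacobian criterion. Some `m × m` minor of the matrix of the `∂_x f_j`, rows `x_1..x_m`, is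
not `0` at `z`, so it is a nonzero polynomial `Δ`. Suppose that `P ≠ 0`, `P(f) = 0`, `P` of smallest
`totalDegree`; `P` is not constant. Derive: `∑_j (∂_j P)(f) ∂_(x_i) f_j = 0` for all `i`, so (adjugate)
`Δ (∂_j P)(f) = 0`, `(∂_j P)(f) = 0` for all `j`; some `∂_j P ≠ 0` has smaller degree
(characteristic 0), a
contradiction. -/
def S_Jac : Prop := ∀ (σ : Type) [Fintype σ] (m : ℕ) (f : Fin m → MvPolynomial σ ℂ) (z : σ → ℂ),
    LinearIndependent ℂ (fun j => fun x : σ => eval z (pderiv x (f j))) →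
    AlgebraicIndependent ℂ f

/-- **Rk** (uses `S_Jac`). Let `Φ f = (∂_i f (z_j))_(j,i)` on the forms of degree `d`; its kernel
is `Dbl n d Z`,
its rank `m = C(d+n,n) - dim Dbl`. Choose monomials `X^(s_1), …, X^(s_m)` of degree `d` with linearly
independent images, `J a` an arrangement with content `s_a`. The derivative of `par n d h (J a)` with
respect to `X (j, i)` at `Z` is `∂_i X^(s_a) (z_j)`. -/
def S_Rk : Prop := ∀ (n d h : ℕ) (Z : Fin h × Fin (n + 1) → ℂ),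
    ∃ (m : ℕ) (J : Fin m → (Fin d → Fin (n + 1))),
      AlgebraicIndependent ℂ (fun j => par n d h (J j)) ∧
      m + Module.finrank ℂ (Dbl n d Z) = (d + n).choose n

/-- **Sem**. Semicontinuity of the rank: a nonzero minor of size `rank` at `z0` (choose independent
rows,
then independent columns); `P` is this minor. -/
def S_Sem : Prop := ∀ (ρ α β : Type) [Fintype α] [Fintype β]
    (M : Matrix α β (MvPolynomial ρ ℂ)) (z0 : ρ → ℂ), ∃ P : MvPolynomial ρ ℂ, eval z0 P ≠ 0 ∧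
      ∀ z : ρ → ℂ, eval z P ≠ 0 → (M.map (eval z0)).rank ≤ (M.map (eval z)).rank

/-- **Am** (uses `S_Sem`). (1) A minimum. (2) `Dbl n d Z` is the kernel of a map from the forms of
degree
`d` (dimension `C(d+n,n)`) to `ℂ^((n+1)h)`. (3) no condition for `h = 0`. (4) If `am n d h = 0` add any
point. Otherwise `Z` with `dim Dbl = am n d h`, `f ≠ 0` in `Dbl n d Z`, `z` with `f(z) ≠ 0`; by Euler
(`∑ z_i ∂_i f(z) = d f(z)`, `d ≥ 1`) some `∂_i f(z) ≠ 0`, so the space for `Z, z` is strictly smaller.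
(5) The set of the `Z` with `dim Dbl n d Z = am n d h` contains the set where a polynomial `P ≠ 0`
is not
`0`: `S_Sem` for the matrix of the conditions `∂_i X^s (z_j)` and `z0` a point where the minimum is
attained. -/
def S_Am : Prop := ∀ n d h : ℕ, (∃ Z : Fin h × Fin (n + 1) → ℂ,
      Module.finrank ℂ (Dbl n d Z) = am n d h) ∧
    (∀ Z : Fin h × Fin (n + 1) → ℂ, am n d h ≤ Module.finrank ℂ (Dbl n d Z)) ∧
    (d + n).choose n ≤ am n d h + (n + 1) * h ∧ am n d 0 = (d + n).choose n ∧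
    (1 ≤ d → am n d (h + 1) ≤ am n d h - 1) ∧
    ∃ P : MvPolynomial (Fin h × Fin (n + 1)) ℂ, P ≠ 0 ∧
      ∀ Z : Fin h × Fin (n + 1) → ℂ, eval Z P ≠ 0 →
        Module.finrank ℂ (Dbl n d Z) = am n d h

/-- **Hor**. Restriction to the hyperplane `x_0 = 0` (`X_0 ↦ 0`, `X_(i+1) ↦ X_i`). A form
`f ∈ Dbl (n+1) (d+1) (jn Z' U)` restricts to an element of `Dbl n (d+1) U`
(`∂_i (f|H) = (∂_(i+1) f)|H`). If the restriction is `0` then `f = X_0 f'`, `f'` a form of degree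
`d`. At
`z ∈ Z'`, `z_0 ≠ 0`: `f(z) = 0` by Euler (`d + 1 ≥ 1`), so `f'(z) = 0`, and
`0 = ∂_i f (z) = z_0 ∂_i f'(z)` (`+ f'(z)` for `i = 0`), so `f'` is singular at `z`. At `(0, U_j)`:
`0 = ∂_0 f = f'`. So `f' ∈ Dvn n d Z' U`, and `f ↦ f'` is injective. -/
def S_Hor : Prop := ∀ (n d h' u : ℕ) (Z' : Fin h' × Fin (n + 2) → ℂ)
    (U : Fin u × Fin (n + 1) → ℂ), (∀ j, Z' (j, 0) ≠ 0) →
    Module.finrank ℂ (Dbl (n + 1) (d + 1) (jn Z' U)) ≤
      Module.finrank ℂ (Dbl n (d + 1) U) + Module.finrank ℂ (Dvn n d Z' U)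

/-- **Tr1**. `V = Dbl (n+1) (d+1) Z'`. The kernel of the restriction of `V` to `x_0 = 0` is contained in
`X_0 Dbl (n+1) d Z'` (as in `S_Hor`), so the space `R` of the restrictions has dimension at least
`u`. Let
`g_1..g_u ∈ R` be linearly independent; they are linearly independent functions on `ℂ^(n+1)`, so
`P = det (g_a(U_b))` is not `0` (choose the points one by one). If `P(U) ≠ 0` the `u` evaluations at the
points `(0, U_b)` are linearly independent on `V`, so `dim Dvn + u = dim V`. -/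
def S_Tr1 : Prop := ∀ (n d h' u : ℕ) (Z' : Fin h' × Fin (n + 2) → ℂ), (∀ j, Z' (j, 0) ≠ 0) →
    u + Module.finrank ℂ (Dbl (n + 1) d Z') ≤ Module.finrank ℂ (Dbl (n + 1) (d + 1) Z') →
    ∃ P : MvPolynomial (Fin u × Fin (n + 1)) ℂ, P ≠ 0 ∧
      ∀ U : Fin u × Fin (n + 1) → ℂ, eval U P ≠ 0 →
        Module.finrank ℂ (Dvn n (d + 1) Z' U) + u ≤ Module.finrank ℂ (Dbl (n + 1) (d + 1) Z')

/-- **Hs** (uses `S_Am`, `S_Hor`, `S_Tr1`). Choose `Z'` with `dim Dbl (n+1) d Z' = am (n+1) d h'`,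
`dim Dbl (n+1) (d+1) Z' = am (n+1) (d+1) h'`, all `Z' (j, 0) ≠ 0` (product of the polynomials of
`S_Am` and the
`X (j, 0)`), then `U` with the property of `S_Tr1` and `dim Dbl n (d+2) U = am n (d+2) u`. `S_Hor` (with
`d + 1` for `d`). -/
def S_Hs : Prop := ∀ n d h' u : ℕ, u + am (n + 1) d h' ≤ am (n + 1) (d + 1) h' →
    am (n + 1) (d + 2) (h' + u) + u ≤ am n (d + 2) u + am (n + 1) (d + 1) h'

/-- **Bn** (uses `S_Am`). Binary forms. Points `(1, j)`, `j < h`: if `f` is singular there then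
`g(t) = f(1, t)` (degree `≤ d`, `f ↦ g` injective) has the double roots `0..h-1`: `g(j) = 0` by Euler,
`g'(j) = 0`. So `∏ (t - j)^2 ∣ g`, and these `g` form a space of dimension `≤ d + 1 - 2 h`. -/
def S_Bn : Prop := ∀ d h : ℕ, 1 ≤ d → 2 * h ≤ d + 1 → am 1 d h + 2 * h ≤ d + 1

/-- **ClN**. Growth: `(n+1) C(d-1+n, n) - C(d+n, n) = C(d+n, n) n (d-1) / (d+n)` tends to infinity. -/
def S_ClN : Prop := ∀ n s : ℕ, 1 ≤ n → ∃ d1 : ℕ, 3 ≤ d1 ∧ ∀ d : ℕ, d1 ≤ d →
    (n + 1) * (s + n) + s ≤ (d + n).choose n ∧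
    (d + n).choose n + (n + 1) * ((n + 2) * (s + 2 * n + 1) + n + 1) ≤
      (n + 1) * (d - 1 + n).choose n

/-- `am n d h` has the expected value up to a constant `s` -/
def Clm (n s : ℕ) : Prop := ∀ d h : ℕ, 1 ≤ d → (n + 1) * h + s ≤ (d + n).choose n →
    am n d h + (n + 1) * h ≤ (d + n).choose n

/-- **Ind** (uses `S_Am`, `S_Hs`, `S_ClN`). TEXT.md, part 5. Write `ν = n + 1`, `N(d) = C(d + ν, ν)`,
`M(d) = C(d + n, n)`, `N(d) = M(d) + N(d - 1)`. `d1` from `S_ClN`, `σ = max (N(d1)) (s + n)`.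
Induction on
`d`: for `d ≤ d1` the hypothesis forces `h = 0` (or equality, `h = 0`), and `am ν d 0 = N(d)`. Let
`d > d1`,
`u₀ = (M(d) - s) / (n + 1)` (so `u₀ ≥ s + n` by `S_ClN`), `u = min u₀ h`, `h' = h - u`,
`w1 = am ν (d-1) h'`,
`w2 = am ν (d-2) h'`. `am n d u = M(d) - (n+1) u` (`Clm n s`). Enough: (i) `w1 ≤ N(d-1) - (ν+1) h'`
and (ii)
`u ≤ w1 - w2`; then `S_Hs` (with `d - 2`) gives `am ν d h ≤ M(d) - (n+1) u + w1 - u`.
`h ≤ u₀`: `h' = 0`, `w1 - w2 = N(d-1) - N(d-2) = M(d-1) ≥ u` (`(n+1) M(d-1) ≥ M(d)` by `S_ClN`).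
`h > u₀`: `(n+1) u₀ ≥ M(d) - s - n`, so `(ν+1) h' ≤ N(d-1) - u₀ - (σ - s - n)`; (i) from the induction
hypothesis for `d - 1` since `u₀ ≥ s + n`; with `S_Am` (2)
`w1 = N(d-1) - (ν+1) h' ≥ u₀ + (σ - s - n)`. (ii):
if `(ν+1) h' + σ ≤ N(d-2)`: `w2 = N(d-2) - (ν+1) h'`, `w1 - w2 = M(d-1) ≥ u₀`. Otherwise let `h''`
be the
largest number with `(ν+1) h'' + σ ≤ N(d-2)`, or `h'' = 0` if `N(d-2) < σ`: then `h'' ≤ h'`,
`am ν (d-2) h'' = N(d-2) - (ν+1) h'' ≤ σ + ν`, and `w2 ≤ σ + ν - (h' - h'')` (truncated; `S_Am` (4)). If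
`h' - h'' ≥ s + 2 n + 1`: `w2 ≤ σ - s - n ≤ w1 - u₀`. If `h' - h'' < s + 2 n + 1`:
`w2 ≤ am ν (d-2) h''`, so `w1 - w2 ≥ M(d-1) - (ν+1) (h' - h'') ≥ M(d-1) - (n+2)(s+2n+1) ≥ u₀` by
`S_ClN`.
(`d - 2 ≥ 1` as `d1 ≥ 3`.) -/
def S_Ind : Prop := ∀ n s : ℕ, 1 ≤ n → Clm n s → ∃ σ : ℕ, Clm (n + 1) σ

/-- **Cor** (uses `S_Am`, `S_Bn`, `S_Ind`). First `Clm n s` for some `s`, by induction on `n` (`S_Bn` is
`Clm 1 0`). Let `h0` be the largest number with `(n+1) h0 + s ≤ C(d+n,n)`, or `0`: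
`am n d h0 = C(d+n,n) - (n+1) h0 ≤ s + n`. For `h ≤ h0`: `Clm n s`. For `h = h0 + j`:
`am n d h ≤ am n d h0 - j` (truncated), so it is `0` or `j ≤ s + n`; then
`(n+1) h + am n d h ≤ C(d+n,n) + n j`. `E = n (s + n)`. -/
def S_Cor : Prop := ∀ n : ℕ, 1 ≤ n → ∃ E : ℕ, ∀ d h : ℕ, 1 ≤ d →
    (n + 1) * h + am n d h ≤ (d + n).choose n + E ∨ am n d h = 0

/-- **AHn** (uses `S_Rk`, `S_Am`, `S_Cor`). `Z` with `dim Dbl n d Z = am n d h`, `S_Rk`. -/
def S_AHn : Prop := ∀ n : ℕ, 1 ≤ n → ∃ E : ℕ, ∀ d h : ℕ, 1 ≤ d →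
    ∃ (m : ℕ) (J : Fin m → (Fin d → Fin (n + 1))),
      AlgebraicIndependent ℂ (fun j => par n d h (J j)) ∧ m ≤ (d + n).choose n ∧
      ((n + 1) * h ≤ m + E ∨ m = (d + n).choose n)

/-- **All**. Compare the end of `Tf/AH.lean`. `par n d h i` depends only on the content of `i`, and
there
are `C(d+n,n)` contents; the `J j` have different contents (the `par n d h (J j)` are different).
So for every
`i` there is a unique `j` such that `J j` has the same content. `P₁` = the image of `P` under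
`X i ↦ X j`;
`aeval (fun j => par n d h (J j)) P₁ = aeval (par n d h) P = 0`, so `P₁ = 0`; for symmetric `T`
`eval T P = eval (fun j => T (J j)) P₁`. -/
def S_All : Prop := ∀ (n d h m : ℕ) (J : Fin m → (Fin d → Fin (n + 1))),
    AlgebraicIndependent ℂ (fun j => par n d h (J j)) → m = (d + n).choose n →
    ∀ P : MvPolynomial (Fin d → Fin (n + 1)) ℂ, aeval (par n d h) P = 0 → ∀ T : Tens n d,
      (∀ (σ : Equiv.Perm (Fin d)) (i : Fin d → Fin (n + 1)), T (fun t => i (σ t)) = T i) →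
      eval T P = 0

/-! ## The theorem -/

/-- **Gp**. Generic point. The first part of `Tf/Trans.lean` with `n` instead of `2`. -/
def S_Gp : Prop := ∀ (n d p : ℕ) (c : Fin d → Fin p) (r h : ℕ),
    (∀ Q : MvPolynomial (Fin d → Fin (n + 1)) ℂ, aeval (par n d h) Q ≠ 0 →
      ∃ T ∈ sec n d h, SumOf c r T ∧ eval T Q ≠ 0) →
    ∃ (K : Type) (_ : Field K) (_ : Algebra ℂ K) (_ : IsAlgClosed K)
      (v : Fin r → Fin p → Fin (n + 1) → K), ∀ Q : MvPolynomial (Fin d → Fin (n + 1)) ℂ,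
        aeval (fun i : Fin d → Fin (n + 1) => ∑ j, ∏ t, v j (c t) (i t)) Q = 0 ↔
          aeval (par n d h) Q = 0

/-- the conclusion: rank and symmetric rank agree on a nonempty open subset of `sec_h` -/
def Concl {n d p : ℕ} (c : Fin d → Fin p) (h : ℕ) : Prop :=
  ∃ (e : ℕ) (Q : MvPolynomial (Fin d → Fin (n + 1)) ℂ), Q.IsHomogeneous e ∧
    (∃ T ∈ sec n d h, eval T Q ≠ 0) ∧ ∀ T ∈ sec n d h, eval T Q ≠ 0 → rk c T = srk T

/-- **Key** (uses `Tf.S_Stz`, `S_Cmb`, `S_Gp`). `m = d / a`, `l` = the number of large parts, `κ` their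
enumeration; the numbers satisfy the conclusions of `S_NumR`. Suppose the conclusion is false; then
`S_Gp` applies, `τ i = ∑ j, ∏ t, v j (c t) (i t)`, symmetric because `par` is symmetric. `S_Cmb`:
(a) `τ i = ∑ j, ∏ t, u j (i t)`, so `τ` satisfies all equations `P` with `aeval (par n d r) P = 0`;
the given
`P` satisfies `aeval (par n d h) P ≠ 0`: contradiction. (b) the `τ (J j)` are algebraically
independent, so
`mJ ≤ G.card` by `Tf.S_Stz`, and `2C mJ + m + 1 ≤ 2C (n+1) r ≤ 2C (mJ + E)`, against `2 C E < m`. -/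
def S_Key : Prop := ∀ (n a d p l m E r h mJ : ℕ) (c : Fin d → Fin p) (κ : Fin l → Fin p)
    (J : Fin mJ → (Fin d → Fin (n + 1))) (P : MvPolynomial (Fin d → Fin (n + 1)) ℂ),
    1 ≤ n → 1 ≤ l → l ≤ a → Function.Injective κ → (∀ j, m ≤ size c (κ j)) → Cm n a ≤ m →
    K1 n a * (d - ∑ j, size c (κ j)) ≤ ∑ j, size c (κ j) →
    r < (m / K0 n a + n + 1).choose (n + 1) →
    r < (∑ j, (size c (κ j) - 1 - size c (κ j) / (8 * n)) + n).choose n →
    2 * Cc n a * E < m → (n + 1) * r ≤ mJ + E →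
    AlgebraicIndependent ℂ (fun j => par n d h (J j)) →
    aeval (par n d r) P = 0 → aeval (par n d h) P ≠ 0 →
    ∃ Q : MvPolynomial (Fin d → Fin (n + 1)) ℂ, aeval (par n d h) Q ≠ 0 ∧
      ∀ T : Tens n d, SumOf c r T → T ∈ sec n d h → eval T Q = 0

/-- **FinL** (uses `S_NumR`, `S_AHn`, `S_All`, `S_Key`). `E` from `S_AHn`, `D` from `S_NumR` for
`n, a, E`,
`A = K1 n a + 1`. Let `l` be the number of `k` with `d ≤ a size c k` and `κ` their enumeration:
`l d ≤ a ∑ size ≤ a d` gives `l ≤ a`; `l ≥ 1`, otherwise `A d ≤ d`. `e = d - ∑ size c (κ j)` is the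
sum of
the other sizes (`sum_size`), `(K1 + 1) e ≤ d`. Let `h1 ≤ h` be the smallest number with
`sec n d h1 = sec n d h`; `h1 ≥ 1` since `sec n d 0 = {0}` and `sec n d h` contains
`pt (one d) v ≠ 0`. Put
`r = h1 - 1`. `sec n d r ⊆ sec n d h1` (`SumOf.mono`) is not an equality, so there is `P`, `P = 0` on
`SumOf (one d) r`, so `aeval (par n d r) P = 0` (`MvPolynomial.funext`, `eval_aeval_par`), and
`aeval (par n d h1) P ≠ 0` (`aeval_par_eq_zero`). `(n+1) r ≤ C(d+n,n) + E`: `S_AHn` for `r`; in the case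
`m' = C(d+n,n)` `S_All` gives `sec n d h1 ⊆ sec n d r` (elements of `sec` are symmetric), impossible, so
`(n+1) r ≤ m' + E`. `mJ`, `J` from `S_AHn` for `h1`: `(n+1) r ≤ mJ + E` in both cases. `S_Key`
gives `Q1`; then as
in `Tf/Final.lean` (`key`, `fin_homog`) with `Q2` from `exists_open_image`: `rk c T = h1 = srk T`
for all
`T ∈ sec n d h1` with `Q1 Q2 (T) ≠ 0`, and a homogeneous component of `Q1 Q2` has the property. -/
def S_FinL : Prop := ∀ n a : ℕ, 1 ≤ n → 1 ≤ a → ∃ A D : ℕ,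
    ∀ (d p : ℕ) (c : Fin d → Fin p) (h : ℕ), D ≤ d → 1 ≤ h →
      A * (∑ k ∈ Finset.univ.filter (fun k => a * size c k < d), size c k) ≤ d →
      Concl (n := n) c h

/-- **Gap** (uses `S_FinL`). `A(a)`, `D(a)` from `S_FinL` (chosen for each `a ≥ 1`), `a_0 = p + 1`,
`a_(i+1) = (p + 1) (a_i + A(a_i) + 1)`; `D = 1 + ∑_(i ≤ p) D(a_i)`. The sets
`{k : a_i size c k < d ≤ a_(i+1) size c k}`, `i = 0..p`, are disjoint subsets of the set of the `p`
parts
(`a_i` is increasing), so one of them is empty. For this `i`: `a_i size c k < d` implies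
`a_(i+1) size c k < d`, so `A(a_i) ∑ size c k ≤ p d / (p+1) ≤ d` (sum over these `k`):
`(p + 1) A(a_i) size c k ≤ a_(i+1) size c k < d`. `S_FinL` with `a = a_i`. -/
def S_Gap : Prop := ∀ n p : ℕ, 1 ≤ n → ∃ D : ℕ, ∀ (d : ℕ) (c : Fin d → Fin p) (h : ℕ), D ≤ d →
    1 ≤ h → Concl (n := n) c h

end Pool.Agent.Lib.MP_d01072_ag.Bp
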